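import Pool.Agent.Lib.DT.G.Spec

/-!
# THEOREM DT, part G, module Cop: coprimality in `O`
-/

set_option autoImplicit false

open scoped Pointwise

noncomputable section

namespace Pool.Agent.DT.G

open Pool.Agent.MuZ Pool.Agent.FW Pool.Agent.DT
open Pool.Agent.DI (io ofC io_inj exists_io io_ofC ofC_io VP MP UP TP ex)

variable {k t : ℕ}

/-- `PrI (sp v) n` in terms of elements. -/
private theorem Cop_iff (v : OO k t) (n : Ideal (OO k t)) :
    PrI (sp v) n ↔ ∃ x : OO k t, v * x - 1 ∈ n := by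
  constructor
  · intro h
    have h1 : (1 : OO k t) ∈ sp v ⊔ n := by
      rw [show sp v ⊔ n = ⊤ from h]
      exact Submodule.mem_top
    obtain ⟨y, hy, z, hz, hs⟩ := Submodule.mem_sup.1 h1
    obtain ⟨x, rfl⟩ := Ideal.mem_span_singleton'.1 hy
    refine ⟨x, ?_⟩
    have e : v * x - 1 = -z := by
      rw [← hs]
      ring
    rw [e]
    exact n.neg_mem hz
  · rintro ⟨x, hx⟩
    change sp v ⊔ n = ⊤
    rw [Ideal.eq_top_iff_one]
    have e : (1 : OO k t) = v * x + -(v * x - 1) := by ring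
    rw [e]
    exact Submodule.add_mem_sup (Ideal.mul_mem_right _ _ (Ideal.mem_span_singleton_self v))
      (n.neg_mem hx)

/-- The case of a prime ideal. -/
private theorem Cop_prime [SqT k t] {p : Ideal (OO k t)} (hp : p.IsPrime) (h0 : p ≠ ⊥)
    (v : OO k t) : PrI (sp v) p ↔ v ∉ p := by
  constructor
  · intro h hv
    have h1 : sp v ≤ p := (Ideal.span_singleton_le_iff_mem p).2 hv
    rw [PrI, sup_eq_right.2 h1] at h
    exact hp.ne_top h
  · intro hv
    have hM : p.IsMaximal := hp.isMaximal h0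
    refine hM.1.2 _ (lt_of_le_of_ne le_sup_right ?_)
    intro h
    apply hv
    rw [h]
    exact Submodule.mem_sup_left (Ideal.mem_span_singleton_self v)

/-- The norm modulo `3`. -/
private theorem Cop_nm [h : SqT k t] (v : OO k t) (hv : (3 : ℤ) ∣ v.re - 1 + v.im) :
    (3 : ℤ) ∣ Nm v - v.re := by
  have ht : ∃ s : ℤ, (t : ℤ) = 1 + 3 * s := by
    rcases h.out with ⟨h1, -, -⟩ | ⟨h1, -, -⟩
    · exact ⟨0, by rw [h1]; norm_num⟩
    · exact ⟨1, by rw [h1]; norm_num⟩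
  obtain ⟨s, hs⟩ := ht
  obtain ⟨m, hm⟩ := hv
  refine ⟨m * v.re + s * v.re * v.im + k * v.im ^ 2, ?_⟩
  unfold Nm
  linear_combination v.re * v.im * hs + v.re * hm

/-- **Cop.** Coprimality, inverses. -/
theorem tCop : S_Cop := by
  intro h4 h6 k t _
  obtain ⟨hpp, -, -, hP, hPb, -, -, -, hP0, hPb0, hp, hpb⟩ := h4 k t
  obtain ⟨o1, o2, -, -, -, -, o7, -⟩ := h6 k t
  have hmp : ∀ v : OO k t, v - 1 ∈ pp k t ↔ (3 : ℤ) ∣ v.re - 1 := by
    intro v
    rw [hp, QuadraticAlgebra.re_sub, re_one]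
  have hmp' : ∀ v : OO k t, v + 1 ∈ pp k t ↔ (3 : ℤ) ∣ v.re + 1 := by
    intro v
    rw [hp, QuadraticAlgebra.re_add, re_one]
  have hmb : ∀ v : OO k t, v - 1 ∈ ppb k t ↔ (3 : ℤ) ∣ v.re - 1 + v.im := by
    intro v
    rw [hpb, QuadraticAlgebra.re_sub, re_one, QuadraticAlgebra.im_sub, im_one, sub_zero]
  have hmb' : ∀ v : OO k t, v + 1 ∈ ppb k t ↔ (3 : ℤ) ∣ v.re + 1 + v.im := by
    intro v
    rw [hpb, QuadraticAlgebra.re_add, re_one, QuadraticAlgebra.im_add, im_one, add_zero]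
  refine ⟨?_, ?_, ?_, fun v u n => o7 n v u, ?_, ?_, ?_, ?_, ?_, ?_⟩
  · intro v u n
    rw [← o1]
    have e : sp v * sp u = sp (v * u) := Ideal.span_singleton_mul_span_singleton v u
    rw [e]
  · intro v n _ hv
    obtain ⟨x, hx⟩ := (Cop_iff v n).1 hv
    rcases eq_or_ne x 0 with rfl | h0
    · have h1 : (1 : OO k t) ∈ n := by
        rw [mul_zero, zero_sub] at hx
        exact (Ideal.neg_mem_iff n).1 hx
      have h2 : n = ⊤ := n.eq_top_iff_one.2 h1
      refine ⟨1, one_ne_zero, ?_, ?_⟩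
      · rw [h2, PrI, sup_top_eq]
      · rw [h2]
        exact Submodule.mem_top
    · exact ⟨x, h0, (Cop_iff x n).2 ⟨v, by rwa [mul_comm x v]⟩, hx⟩
  · intro v u n hv hd
    obtain ⟨x, hx⟩ := (Cop_iff v n).1 hv
    have e : u = x * (v * u) - u * (v * x - 1) := by ring
    rw [e]
    exact n.sub_mem (n.mul_mem_left _ hd) (n.mul_mem_left _ hx)
  · intro n
    refine ⟨(Cop_iff 1 n).2 ⟨1, ?_⟩, ?_⟩
    · rw [mul_one, sub_self]
      exact n.zero_mem
    · rw [PrI, top_sup_eq]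
  · intro v
    have a1 := Cop_prime hP hP0 v
    have a2 := Cop_prime hPb hPb0 v
    refine ⟨?_, a1, a2⟩
    rw [← hpp, o2, a1, a2]
  · intro v hv
    rw [hpb] at hv
    rw [hmb, hmb']
    omega
  · intro v hv
    rw [hp] at hv
    rw [hmp, hmp']
    omega
  · intro v hv
    rw [hmb] at hv
    have h := Cop_nm v hv
    rw [hmp, hmp']
    omega
  · intro v h1 h2
    rw [hp] at h1
    rw [hpb] at h2
    refine Ideal.mem_span_singleton.2 ((nat_dvd_iff 3 v).2 ⟨?_, ?_⟩)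
    · exact_mod_cast h1
    · push_cast
      omega

end Pool.Agent.DT.G
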