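import Pool.Agent.Lib.DT.G.Spec

/-!
# Theorem DT, part G, module RUp: lifting a ray equivalence to a smaller modulus ideal
-/

set_option autoImplicit false

open scoped Pointwise

noncomputable section

namespace Pool.Agent.DT.G

open Pool.Agent.MuZ Pool.Agent.FW Pool.Agent.DT
open Pool.Agent.DI (io ofC io_inj exists_io io_ofC ofC_io VP MP UP TP ex)

theorem tRUp : S_RUp := by
  intro hO6 hCop k t _ n n' b b' hn' hle hb hb' hbP hb'P hR
  obtain ⟨hmul, -, -, -, -, -, -, hel⟩ := hO6 k t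
  obtain ⟨c1, c2, c3, c4, c5, -⟩ := hCop k t
  obtain ⟨v, hv, hv0, hv1⟩ := hel b' n' hb' hb'P
  obtain ⟨c, hc⟩ : b' ∣ sp v := Ideal.dvd_iff_le.2 ((Ideal.span_singleton_le_iff_mem b').2 hv)
  obtain ⟨α, α', hα0, hα'0, hαc, hα'c, hαα', he⟩ := hR
  have hspm : ∀ x y : OO k t, sp (x * y) = sp x * sp y := fun x y =>
    (Ideal.span_singleton_mul_span_singleton x y).symm
  have he' : sp α * b' = sp α' * b := he
  have h1 : sp (α * v) = sp α' * (b * c) := by
    rw [hspm, hc, ← mul_assoc, he', mul_assoc]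
  obtain ⟨x, hx⟩ : α' ∣ α * v := by
    apply Ideal.mem_span_singleton.1
    have h3 : sp (α * v) ≤ sp α' := by
      rw [h1]
      exact Ideal.mul_le_left
    exact h3 (Ideal.mem_span_singleton_self (α * v))
  have hα'b : sp α' ≠ ⊥ := by
    intro h
    exact hα'0 (Ideal.span_singleton_eq_bot.1 h)
  have h2 : b * c = sp x := by
    apply mul_left_cancel₀ hα'b
    rw [← h1, hx, hspm]
  have hx0 : x ≠ 0 := by
    intro h
    rw [h, mul_zero] at hx
    exact mul_ne_zero hα0 hv0 hx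
  have hvc : PrI (sp v) n' := by
    have h4 : (1 : OO k t) - v ∈ n' := by
      rw [← neg_sub]
      exact neg_mem hv1
    exact c4 1 v n' h4 (c5 n').1
  have hPv : PrI (b' * c) n' := by
    rw [← hc]
    exact hvc
  have hPc : PrI c n' := ((hmul b' c n').1 hPv).2
  have hPx : PrI (sp x) n' := by
    rw [← h2]
    exact (hmul b c n').2 ⟨hbP, hPc⟩
  have hfx : x - 1 ∈ n := by
    apply c3 α' (x - 1) n hα'c
    have h5 : α' * (x - 1) = α * (v - 1) + (α - α') := by
      rw [mul_sub, ← hx]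
      ring
    rw [h5]
    exact add_mem (Ideal.mul_mem_left _ _ (hle hv1)) hαα'
  obtain ⟨β, hβ0, hβc, hβ⟩ := c2 x n' hn' hPx
  refine ⟨β, hβ0, ?_, hβc, x * β, v, mul_ne_zero hx0 hβ0, hv0, (c1 _ _ _).2 ⟨hPx, hβc⟩, hvc, ?_, ?_⟩
  · have h6 : β - 1 = (x * β - 1) - (x - 1) * β := by ring
    rw [h6]
    exact sub_mem (hle hβ) (Ideal.mul_mem_right _ _ hfx)
  · have h7 : x * β - v = (x * β - 1) - (v - 1) := by ring
    rw [h7]
    exact sub_mem hβ hv1
  · change sp (x * β) * b' = sp v * (sp β * b)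
    rw [hspm, ← h2, hc]
    ring

end Pool.Agent.DT.G
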