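import Pool.Agent.Lib.DT.G.Spec

/-!
# Theorem DT, part G, module AbP: the elements of `O` in `M_P`
-/

set_option autoImplicit false

open scoped Pointwise

noncomputable section

namespace Pool.Agent.DT.G

open Pool.Agent.MuZ Pool.Agent.FW Pool.Agent.DT
open Pool.Agent.DI (io ofC io_inj exists_io io_ofC ofC_io VP MP UP TP ex)

variable {k t : ℕ}

private theorem AbP_three [SqT k t] : toO (3 : OO k t) = 3 := by
  have h := toO_nat (k := k) (t := t) 3
  simpa using h

private theorem AbP_gen [SqT k t] {P : Ideal ZZ} [P.IsPrime] {ρ : OO k t} (h2 : MP P 3)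
    (hρ : MP P (toO ρ)) {v : OO k t} (hv : v ∈ Ideal.span {3, ρ}) : MP P (toO v) := by
  obtain ⟨a, b, rfl⟩ := Ideal.mem_span_pair.1 hv
  rw [toO_add, toO_mul, toO_mul, AbP_three]
  exact Pool.Agent.DI.MP.add (Pool.Agent.DI.MP.mul_left (toO_VP a) h2)
    (Pool.Agent.DI.MP.mul_left (toO_VP b) hρ)

private theorem AbP_not [SqT k t] {P : Ideal ZZ} [P.IsPrime] {q : Ideal (OO k t)}
    (hq : ∀ v ∈ q, MP P (toO v)) {v : OO k t} (hv : v - 1 ∈ q ∨ v + 1 ∈ q) : ¬ MP P (toO v) := by
  intro h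
  rcases hv with hv | hv
  · have h1 := Pool.Agent.DI.MP.sub h (hq _ hv)
    rw [toO_sub, toO_one, sub_sub_cancel] at h1
    exact Pool.Agent.DI.MP.one_not h1
  · have h1 := Pool.Agent.DI.MP.sub (hq _ hv) h
    rw [toO_add, toO_one, add_sub_cancel_left] at h1
    exact Pool.Agent.DI.MP.one_not h1

private theorem AbP_rho [SqT k t] : toO (1 - wI k t) = 1 - wO k t := by
  rw [toO_sub, toO_one, toO_wI]

theorem tAbP : S_AbP := by
  intro hO4 hCop k t _ P
  obtain ⟨-, -, -, -, -, -, hcb, hca, -, -⟩ := hCop k t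
  have ha : AbP k t P → ∀ v : OO k t, v ∈ pp k t → MP P (toO v) := by
    rintro ⟨⟨hP, -⟩, h2, hw⟩ v hv
    have := hP
    exact AbP_gen h2 (by rw [toO_wI]; exact hw) hv
  have hb : AbPb k t P → ∀ v : OO k t, v ∈ ppb k t → MP P (toO v) := by
    rintro ⟨⟨hP, -⟩, h2, hw⟩ v hv
    have := hP
    exact AbP_gen h2 (by rw [AbP_rho]; exact hw) hv
  refine ⟨?_, ?_, ?_, ?_, ?_⟩
  · intro h v
    have hP : P.IsPrime := h.1.1
    refine ⟨fun hv => ?_, ha h v⟩
    by_contra hn
    exact AbP_not (ha h) (hca v hn) hv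
  · intro h v
    have hP : P.IsPrime := h.1.1
    refine ⟨fun hv => ?_, hb h v⟩
    by_contra hn
    exact AbP_not (hb h) (hcb v hn) hv
  · rintro ⟨h, h'⟩
    have hP : P.IsPrime := h.1.1
    have h1 := Pool.Agent.DI.MP.add h.2.2 h'.2.2
    rw [add_sub_cancel] at h1
    exact Pool.Agent.DI.MP.one_not h1
  · intro hN hn
    by_contra hall
    push Not at hall
    refine hn ⟨hN, ?_, ?_⟩
    · have h1 := hall 3 (Ideal.subset_span (by simp))
      rwa [AbP_three] at h1
    · have h1 := hall (wI k t) (Ideal.subset_span (by simp))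
      rwa [toO_wI] at h1
  · intro hN hn
    by_contra hall
    push Not at hall
    refine hn ⟨hN, ?_, ?_⟩
    · have h1 := hall 3 (Ideal.subset_span (by simp))
      rwa [AbP_three] at h1
    · have h1 := hall (1 - wI k t) (Ideal.subset_span (by simp))
      rwa [AbP_rho] at h1

end Pool.Agent.DT.G
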