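import Pool.Agent.Lib.DT.G.Spec

/-!
# Theorem DT, part G: characters modulo `3 f` and modulo `f ppb`
-/

set_option autoImplicit false

open scoped Pointwise

noncomputable section

namespace Pool.Agent.DT.G

open Pool.Agent.MuZ Pool.Agent.FW Pool.Agent.DT
open Pool.Agent.DI (io ofC io_inj exists_io io_ofC ofC_io VP MP UP TP ex)

variable {k t : ℕ}

/-- The sign `1` if `3 ∣ n - 1`, and `κ` otherwise. -/
private def ChX_J (κ : ℤ) (n : ℕ) : Om := if (3 : ℤ) ∣ (n : ℤ) - 1 then 1 else (κ : Om)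

private lemma ChX_congr (κ : ℤ) {n n' : ℕ} (h : (3 : ℤ) ∣ (n : ℤ) - n') : ChX_J κ n = ChX_J κ n' := by
  unfold ChX_J
  by_cases h1 : (3 : ℤ) ∣ (n : ℤ) - 1
  · have h2 : (3 : ℤ) ∣ (n' : ℤ) - 1 := by omega
    rw [if_pos h1, if_pos h2]
  · have h2 : ¬(3 : ℤ) ∣ (n' : ℤ) - 1 := by omega
    rw [if_neg h1, if_neg h2]

private lemma ChX_one {κ : ℤ} {n : ℕ} (h : (3 : ℤ) ∣ (n : ℤ) - 1) : ChX_J κ n = 1 := if_pos h

private lemma ChX_neg {κ : ℤ} {n : ℕ} (h : (3 : ℤ) ∣ (n : ℤ) + 1) : ChX_J κ n = (κ : Om) :=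
  if_neg (by omega)

private lemma ChX_sqk {κ : ℤ} (hκ : κ = 1 ∨ κ = -1) : (κ : Om) * κ = 1 := by
  rcases hκ with rfl | rfl <;> simp

private lemma ChX_sq {κ : ℤ} (hκ : κ = 1 ∨ κ = -1) (n : ℕ) : ChX_J κ n ^ 2 = 1 := by
  unfold ChX_J
  split_ifs
  · exact one_pow 2
  · rw [sq, ChX_sqk hκ]

private lemma ChX_cases {n : ℕ} (h : n.Coprime 3) : (3 : ℤ) ∣ (n : ℤ) - 1 ∨ (3 : ℤ) ∣ (n : ℤ) + 1 := by
  have h1 : ¬ 3 ∣ n := fun h2 => by
    have := Nat.dvd_gcd h2 (dvd_refl 3)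
    rw [h] at this
    omega
  omega

private lemma ChX_mul {κ : ℤ} (hκ : κ = 1 ∨ κ = -1) {n n' : ℕ} (h : n.Coprime 3) (h' : n'.Coprime 3) :
    ChX_J κ (n * n') = ChX_J κ n * ChX_J κ n' := by
  rcases ChX_cases h with h1 | h1 <;> rcases ChX_cases h' with h2 | h2
  · have h3 : (3 : ℤ) ∣ ((n * n' : ℕ) : ℤ) - 1 := by
      have e : ((n * n' : ℕ) : ℤ) - 1 = ((n : ℤ) - 1) * n' + ((n' : ℤ) - 1) := by push_cast; ring
      rw [e]
      exact dvd_add (h1.mul_right _) h2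
    rw [ChX_one h1, ChX_one h2, ChX_one h3, one_mul]
  · have h3 : (3 : ℤ) ∣ ((n * n' : ℕ) : ℤ) + 1 := by
      have e : ((n * n' : ℕ) : ℤ) + 1 = ((n : ℤ) - 1) * n' + ((n' : ℤ) + 1) := by push_cast; ring
      rw [e]
      exact dvd_add (h1.mul_right _) h2
    rw [ChX_one h1, ChX_neg h2, ChX_neg h3, one_mul]
  · have h3 : (3 : ℤ) ∣ ((n * n' : ℕ) : ℤ) + 1 := by
      have e : ((n * n' : ℕ) : ℤ) + 1 = ((n : ℤ) + 1) * n' - ((n' : ℤ) - 1) := by push_cast; ring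
      rw [e]
      exact dvd_sub (h1.mul_right _) h2
    rw [ChX_neg h1, ChX_one h2, ChX_neg h3, mul_one]
  · have h3 : (3 : ℤ) ∣ ((n * n' : ℕ) : ℤ) - 1 := by
      have e : ((n * n' : ℕ) : ℤ) - 1 = ((n : ℤ) + 1) * n' - ((n' : ℤ) + 1) := by push_cast; ring
      rw [e]
      exact dvd_sub (h1.mul_right _) h2
    rw [ChX_neg h1, ChX_neg h2, ChX_one h3, ChX_sqk hκ]

theorem tChX : S_ChX := by
  classical
  intro hO2 hO4 hO6 hO7 hO8 hO9 hCop hMod hRUp hChi k t _ f χ hf hχ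
  obtain ⟨-, -, -, hNIsp, hNImul, -, -, -⟩ := hO2 k t
  obtain ⟨hpp, -, -, hppP, hppbP, -, -, hcopp, -, -, -, -⟩ := hO4 k t
  obtain ⟨hPm, hPn, hPs, hPle, hPN, hPv, hPc, -⟩ := hO6 k t
  obtain ⟨hCm, -, -, hCc, hC1, hC3, hCb, hCp, hCN, -⟩ := hCop k t
  obtain ⟨⟨hF0, -, hc0, -, -⟩, ⟨-, -, hFc, -, hcb, -, hF3, h3p, h3b, -, -⟩, hM3, -, -, hMcF, hf3, hfp,
    hfb⟩ := hMod k t f 1 hf le_rfl
  obtain ⟨hχ1, -, -, hχv, -, -, -⟩ := hChi k t f (sN k t (3 * f)) χ hf hF0 le_rfl hχ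
  have hfpos : 0 < f := Nat.pos_of_ne_zero (fun h => hf3 (by rw [h]; exact dvd_zero _))
  have hA : ∀ v : OO k t, v ∈ cnd k t f → v ∈ pp k t → v ∈ sN k t (3 * f) := by
    intro v h1 h2
    have h3 : PrI (cnd k t f) (pp k t) := by
      unfold cnd
      rw [hPm]
      exact ⟨((hC3 (f : OO k t)).2.1).2 hfp, (hPs _ _).1 hcopp⟩
    have h4 : cnd k t f * pp k t = sN k t (3 * f) := by
      unfold cnd
      rw [mul_assoc, mul_comm (ppb k t), hpp, Ideal.span_singleton_mul_span_singleton]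
      congr 2
      push_cast
      ring
    rw [← h4, Ideal.mul_eq_inf_of_coprime h3]
    exact ⟨h1, h2⟩
  have h1b : ∀ v : OO k t, v - 1 ∈ cnd k t f → v ∉ ppb k t := by
    intro v h1 h2
    apply hppbP.ne_top
    rw [Ideal.eq_top_iff_one]
    have := sub_mem h2 (hcb h1)
    rwa [sub_sub_cancel] at this
  have hne : ∀ v : OO k t, v - 1 ∈ cnd k t f → v ≠ 0 := by
    rintro v h1 rfl
    exact h1b 0 h1 (zero_mem _)
  have hVF : ∀ v : OO k t, v - 1 ∈ cnd k t f → v ∉ pp k t → PrI (sp v) (sN k t (3 * f)) := by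
    intro v h1 h2
    refine hMcF _ ?_ (((hC3 v).1).2 ⟨h2, h1b v h1⟩)
    refine hCc 1 v _ ?_ (hC1 _).1
    rw [← neg_sub]
    exact neg_mem h1
  have hD : ∀ v v' : OO k t, v - 1 ∈ cnd k t f → v' - 1 ∈ cnd k t f → v + 1 ∈ pp k t →
      v' + 1 ∈ pp k t → χ (sp v) * χ (sp v') = 1 := by
    intro v v' h1 h1' h2 h2'
    have h3 : v * v' - 1 ∈ cnd k t f := by
      have e : v * v' - 1 = (v - 1) * v' + (v' - 1) := by ring
      rw [e]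
      exact add_mem (Ideal.mul_mem_right _ _ h1) h1'
    have h4 : v * v' - 1 ∈ pp k t := by
      have e : v * v' - 1 = (v + 1) * v' - (v' + 1) := by ring
      rw [e]
      exact sub_mem (Ideal.mul_mem_right _ _ h2) h2'
    have h5 := hχv (v * v') (hne _ h3) (hA _ h3 h4)
    have h6 : sp (v * v') = sp v * sp v' := (Ideal.span_singleton_mul_span_singleton v v').symm
    rwa [h6, hχ.mul] at h5
  obtain ⟨κ, hκ, hκV⟩ : ∃ κ : ℤ, (κ = 1 ∨ κ = -1) ∧ ∀ v : OO k t, v - 1 ∈ cnd k t f → v + 1 ∈ pp k t →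
      χ (sp v) = (κ : Om) := by
    by_cases h : ∃ v₀ : OO k t, v₀ - 1 ∈ cnd k t f ∧ v₀ + 1 ∈ pp k t
    · obtain ⟨v₀, h1, h3⟩ := h
      rcases mul_self_eq_one_iff.1 (hD v₀ v₀ h1 h1 h3 h3) with h4 | h4
      · refine ⟨1, Or.inl rfl, fun v a c => ?_⟩
        have := hD v v₀ a h1 c h3
        rw [h4, mul_one] at this
        rw [this, Int.cast_one]
      · refine ⟨-1, Or.inr rfl, fun v a c => ?_⟩
        have := hD v v₀ a h1 c h3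
        rw [h4] at this
        push_cast
        linear_combination -this
    · push Not at h
      exact ⟨1, Or.inl rfl, fun v a c => absurd c (h v a)⟩
  have hco : ∀ b : Ideal (OO k t), PrI b (sN k t (3 * f)) → (NI b).Coprime 3 := fun b h =>
    (hPN 3 b).1 (hM3 b h).2.2.2.2.1
  set χ₁ : Ideal (OO k t) → Om := fun b => χ b * ChX_J κ (NI b) with hχ₁
  have hmul : ∀ a b : Ideal (OO k t), PrI a (sN k t (3 * f)) → PrI b (sN k t (3 * f)) →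
      χ₁ (a * b) = χ₁ a * χ₁ b := by
    intro a b h1 h2
    change χ (a * b) * ChX_J κ (NI (a * b)) = χ a * ChX_J κ (NI a) * (χ b * ChX_J κ (NI b))
    rw [hχ.mul, hNImul, ChX_mul hκ (hco a h1) (hco b h2)]
    ring
  have hV1 : ∀ v : OO k t, v - 1 ∈ cnd k t f → v ∉ pp k t → χ₁ (sp v) = 1 := by
    intro v h1 h2
    obtain ⟨h3, h4⟩ := hCN v (hcb h1)
    rcases hCp v h2 with h5 | h5
    · change χ (sp v) * ChX_J κ (NI (sp v)) = 1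
      have h6 : (3 : ℤ) ∣ (NI (sp v) : ℤ) - 1 := by
        rw [hNIsp]
        exact h3.2 h5
      rw [ChX_one h6, hχv v (hne v h1) (hA _ h1 h5), one_mul]
    · change χ (sp v) * ChX_J κ (NI (sp v)) = 1
      have h6 : (3 : ℤ) ∣ (NI (sp v) : ℤ) + 1 := by
        rw [hNIsp]
        exact h4.2 h5
      rw [ChX_neg h6, hκV v h1 h5, ChX_sqk hκ]
  have hG : ∀ b b' : Ideal (OO k t), b ≠ ⊥ → b' ≠ ⊥ → PrI b (sN k t (3 * f)) →
      PrI b' (sN k t (3 * f)) → Ray (cnd k t f) b' b → χ₁ b' = χ₁ b := by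
    intro b b' hb hb' hbF hbF' hR
    obtain ⟨β, hβ0, hβ1, hβF, hβR⟩ := hRUp k t (cnd k t f) (sN k t (3 * f)) b b' hF0 hFc hb hb' hbF
      hbF' hR
    have hβp : β ∉ pp k t := ((hC3 β).2.1).1 (hM3 _ hβF).2.2.2.2.2.1
    have hβb : sp β * b ≠ ⊥ := mul_ne_zero (by simpa using hβ0) hb
    have hβbF : PrI (sp β * b) (sN k t (3 * f)) := (hPm _ _ _).2 ⟨hβF, hbF⟩
    have h1 : χ₁ b' = χ₁ (sp β * b) := by
      have h2 : ((3 * f : ℕ) : ℤ) ∣ (NI b' : ℤ) - NI (sp β * b) := hO9 k t (3 * f) (by positivity) _ _ hβR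
      have h3 : (3 : ℤ) ∣ (NI b' : ℤ) - NI (sp β * b) := dvd_trans ⟨f, by push_cast; ring⟩ h2
      change χ b' * ChX_J κ (NI b') = χ (sp β * b) * ChX_J κ (NI (sp β * b))
      rw [ChX_congr κ h3, hχ.ray b' (sp β * b) hb' hβb hbF' hβbF hβR]
    rw [h1, hmul _ _ hβF hbF, hV1 β hβ1 hβp, one_mul]
  have hex : ∀ b : Ideal (OO k t), b ≠ ⊥ ∧ PrI b (cnd k t f) → ∃ b' : Ideal (OO k t), b' ≠ ⊥ ∧
      PrI b' (sN k t (3 * f)) ∧ Ray (cnd k t f) b b' := by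
    rintro b ⟨h1, h2⟩
    obtain ⟨a', h3, h4, -, h5⟩ := hO8 k t (cnd k t f) (3 * f) hc0 (by positivity) (fun _ => True)
      trivial (fun _ _ _ _ => trivial) (fun _ _ _ _ => trivial) b h1 h2
    refine ⟨a', h3, ?_, h5⟩
    rw [hPN] at h4 ⊢
    exact h4.coprime_dvd_right (dvd_mul_left _ _)
  choose g hg0 hgF hgR using hex
  set χ' : Ideal (OO k t) → Om := fun b =>
    if h : b ≠ ⊥ ∧ PrI b (cnd k t f) then χ₁ (g b h) else 0 with hχ'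
  have e1 : ∀ b (h : b ≠ ⊥ ∧ PrI b (cnd k t f)), χ' b = χ₁ (g b h) := fun b h => dif_pos h
  have e0 : ∀ b : Ideal (OO k t), ¬(b ≠ ⊥ ∧ PrI b (cnd k t f)) → χ' b = 0 := fun b h => dif_neg h
  obtain ⟨hRr, hRs, hRt, hRm, -, -, -, -, -, -⟩ := hO7 k t (cnd k t f) hc0
  have e2 : ∀ b : Ideal (OO k t), b ≠ ⊥ → PrI b (sN k t (3 * f)) → χ' b = χ₁ b := by
    intro b h1 h2
    have h3 : b ≠ ⊥ ∧ PrI b (cnd k t f) := ⟨h1, hPle _ _ _ hFc h2⟩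
    rw [e1 b h3]
    exact hG b (g b h3) h1 (hg0 b h3) h2 (hgF b h3) (hRs _ _ (hgR b h3))
  refine ⟨χ', -κ, by omega, ⟨?_, ?_, ?_, ?_⟩, ?_⟩
  · intro b hb
    refine e0 b ?_
    rintro ⟨h1, h2⟩
    rcases hb with h | h
    · exact h1 h
    · exact h h2
  · intro b b' hb hb' hbc hbc' hR
    rw [e1 b ⟨hb, hbc⟩, e1 b' ⟨hb', hbc'⟩]
    refine hG _ _ (hg0 _ _) (hg0 _ _) (hgF _ _) (hgF _ _) ?_
    exact hRt _ _ _ (hRs _ _ (hgR _ _)) (hRt _ _ _ hR (hgR _ _))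
  · intro a b
    by_cases ha : a ≠ ⊥ ∧ PrI a (cnd k t f)
    · by_cases hb : b ≠ ⊥ ∧ PrI b (cnd k t f)
      · have hab : a * b ≠ ⊥ ∧ PrI (a * b) (cnd k t f) :=
          ⟨mul_ne_zero ha.1 hb.1, (hPm _ _ _).2 ⟨ha.2, hb.2⟩⟩
        rw [e1 _ hab, e1 _ ha, e1 _ hb, ← hmul _ _ (hgF _ _) (hgF _ _)]
        refine hG _ _ (mul_ne_zero (hg0 _ _) (hg0 _ _)) (hg0 _ _)
          ((hPm _ _ _).2 ⟨hgF _ _, hgF _ _⟩) (hgF _ _) ?_
        exact hRt _ _ _ (hRs _ _ (hgR _ _)) (hRm _ _ _ _ (hgR _ _) (hgR _ _))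
      · rw [e0 b hb, mul_zero]
        refine e0 _ ?_
        rintro ⟨h1, h2⟩
        exact hb ⟨fun h => h1 (by rw [h, Ideal.mul_bot]), ((hPm _ _ _).1 h2).2⟩
    · rw [e0 a ha, zero_mul]
      refine e0 _ ?_
      rintro ⟨h1, h2⟩
      exact ha ⟨fun h => h1 (by rw [h, Ideal.bot_mul]), ((hPm _ _ _).1 h2).1⟩
  · obtain ⟨m, hm, hm1⟩ := hχ.cop
    refine ⟨m * 2, Nat.Coprime.mul_left hm (by norm_num), ?_⟩
    intro b hb hbc
    rw [e1 b ⟨hb, hbc⟩]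
    change (χ _ * ChX_J κ _) ^ (m * 2) = 1
    rw [mul_pow, pow_mul, hm1 _ (hg0 _ _) (hgF _ _), one_pow, one_mul, mul_comm m 2, pow_mul, ChX_sq hκ,
      one_pow]
  · intro b hb hbF
    rw [e2 b hb hbF]
    change ((3 : ℤ) ∣ (NI b : ℤ) - 1 → χ b = χ b * ChX_J κ (NI b)) ∧
      ((3 : ℤ) ∣ (NI b : ℤ) + 1 → χ b = -((-κ : ℤ) : Om) * (χ b * ChX_J κ (NI b)))
    refine ⟨fun h => ?_, fun h => ?_⟩
    · rw [ChX_one h, mul_one]
    · rw [ChX_neg h]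
      push_cast
      linear_combination -(χ b) * ChX_sqk hκ

end Pool.Agent.DT.G
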