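import Pool.Agent.Lib.DT.G.Spec

set_option autoImplicit false

/-!
# Theorem DT, part G: characters of order prime to `3` (`S_Chi`)
-/

open scoped Pointwise

noncomputable section

namespace Pool.Agent.DT.G

open Pool.Agent.MuZ Pool.Agent.FW Pool.Agent.DT
open Pool.Agent.DI (io ofC io_inj exists_io io_ofC ofC_io VP MP UP TP ex)

variable {k t : ℕ}

private theorem pri_top (n : Ideal (OO k t)) : PrI (⊤ : Ideal (OO k t)) n := top_sup_eq _

private theorem top_ne [SqT k t] : (⊤ : Ideal (OO k t)) ≠ ⊥ := by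
  intro h
  have h1 : (1 : OO k t) ∈ (⊥ : Ideal (OO k t)) := by
    rw [← h]
    exact Submodule.mem_top
  exact one_ne_zero ((Submodule.mem_bot _).1 h1)

private theorem jpos {j : ℕ} (hj : j.Coprime 3) : 0 < j := by
  rcases Nat.eq_zero_or_pos j with h | h
  · rw [h] at hj
    exact absurd hj (by decide)
  · exact h

private theorem chi_one [SqT k t] {n : Ideal (OO k t)} {χ : Ideal (OO k t) → Om}
    (hχ : IsChi n χ) : χ ⊤ = 1 := by
  obtain ⟨m, hmo, hm⟩ := hχ.cop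
  have h1 : χ ⊤ ≠ 0 := by
    intro h0
    have h2 := hm ⊤ top_ne (pri_top n)
    rw [h0, zero_pow (jpos hmo).ne'] at h2
    exact zero_ne_one h2
  have h2 : χ ⊤ * χ ⊤ = χ ⊤ * 1 := by
    rw [← hχ.mul, Ideal.mul_top, mul_one]
  exact mul_left_cancel₀ h1 h2

private theorem chi_pow [SqT k t] {n : Ideal (OO k t)} {χ : Ideal (OO k t) → Om}
    (hχ : IsChi n χ) (a : Ideal (OO k t)) (i : ℕ) : χ (a ^ i) = χ a ^ i := by
  induction i with
  | zero => rw [pow_zero, pow_zero, Ideal.one_eq_top, chi_one hχ]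
  | succ i ih => rw [pow_succ, pow_succ, hχ.mul, ih]

private theorem eq_one_of_pow {x : Om} {j m : ℕ} (hm : m.Coprime 3) (h1 : x ^ 3 ^ j = 1)
    (h2 : x ^ m = 1) : x = 1 := by
  have h3 : x ^ Nat.gcd (3 ^ j) m = 1 := by
    have h4 : orderOf x ∣ 3 ^ j := orderOf_dvd_of_pow_eq_one h1
    have h5 : orderOf x ∣ m := orderOf_dvd_of_pow_eq_one h2
    exact orderOf_dvd_iff_pow_eq_one.1 (Nat.dvd_gcd h4 h5)
  have h6 : Nat.gcd (3 ^ j) m = 1 := Nat.Coprime.pow_left j hm.symm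
  rw [h6, pow_one] at h3
  exact h3

theorem tChi : S_Chi := by
  intro hO6 hO7 hMod hHNf k t _ f n χ hf hn hFn hχ
  obtain ⟨-, -, -, o4, -⟩ := hO6 k t
  obtain ⟨⟨hF0, -⟩, -⟩ := hMod k t f 1 hf le_rfl
  obtain ⟨-, -, -, -, -, -, -, hfc, -⟩ := hHNf k t f 1 hf le_rfl
  obtain ⟨-, -, -, -, -, p6, p7, -⟩ := hO7 k t (sN k t (3 * f)) hF0
  obtain ⟨m, hmo, hm⟩ := hχ.cop
  have hmpos : 0 < m := jpos hmo
  have h1 : χ ⊤ = 1 := chi_one hχ
  have hsp : ∀ v : OO k t, v ≠ 0 → (sp v : Ideal (OO k t)) ≠ ⊥ := by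
    intro v hv h
    exact hv (Ideal.span_singleton_eq_bot.1 h)
  have hV : ∀ v : OO k t, v ≠ 0 → v - 1 ∈ n → χ (sp v) = 1 := by
    intro v hv hv1
    have hp1 : PrI (sp (1 : OO k t)) n := by
      change Ideal.span {(1 : OO k t)} ⊔ n = ⊤
      rw [Ideal.span_singleton_one, top_sup_eq]
    have hpv : PrI (sp v) n := by
      change Ideal.span {v} ⊔ n = ⊤
      rw [Ideal.eq_top_iff_one]
      have e : (1 : OO k t) = v + -(v - 1) := by ring
      rw [e]
      exact Submodule.add_mem_sup (Ideal.mem_span_singleton_self v) (n.neg_mem hv1)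
    have hr : Ray n (sp v) (sp (1 : OO k t)) := by
      refine ⟨1, v, one_ne_zero, hv, hp1, hpv, ?_, ?_⟩
      · rw [← neg_sub]
        exact n.neg_mem hv1
      · exact mul_comm _ _
    have h2 := hχ.ray _ _ (hsp v hv) (hsp 1 one_ne_zero) hpv hp1 hr
    rw [h2, show (sp (1 : OO k t)) = ⊤ from Ideal.span_singleton_one, h1]
  have hHf : ∀ v : OO k t, Hf f v → χ (sp v) = 1 := by
    intro v hh
    have hv := (hfc v hh).1
    obtain ⟨hc, j, hj⟩ := hh
    have hvj : v ^ 3 ^ j ≠ 0 := pow_ne_zero _ hv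
    have hjn : v ^ 3 ^ j - 1 ∈ n := hFn (Ideal.mem_span_singleton.2 hj)
    have h2 := hV _ hvj hjn
    have h5 : (sp (v ^ 3 ^ j) : Ideal (OO k t)) = (sp v) ^ 3 ^ j := by
      rw [Ideal.span_singleton_pow]
    rw [h5, chi_pow hχ] at h2
    exact eq_one_of_pow hmo h2 (hm _ (hsp _ hv) (o4 _ _ _ hFn hc))
  refine ⟨h1, ?_, hHf, hV, ?_, ?_, m, hmo, ?_⟩
  · intro a ha
    obtain ⟨v, hv, hh, hr⟩ := ha
    have h6 := p6 a (sp v) hr
    have ha0 : a ≠ ⊥ := h6.1.2 (hsp v hv)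
    have hpa : PrI a n := o4 _ _ _ hFn (h6.2.2 hh.1)
    rw [hχ.ray a _ ha0 (hsp v hv) hpa (o4 _ _ _ hFn hh.1) (p7 n a (sp v) hFn hr)]
    exact hHf v hh
  · intro b
    by_cases hc : b = ⊥ ∨ ¬ PrI b n
    · rw [hχ.zero b hc]
      exact isIntegral_zero
    · push Not at hc
      apply IsIntegral.of_pow hmpos
      rw [hm b hc.1 hc.2]
      exact isIntegral_one
  · intro P b hP hb hc
    have : P.IsPrime := hP.1
    apply UP.of_pow hmpos
    rw [hm b hb hc]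
    exact UP.one
  · intro b
    by_cases hc : b = ⊥ ∨ ¬ PrI b n
    · exact Or.inl (hχ.zero b hc)
    · push Not at hc
      exact Or.inr (hm b hc.1 hc.2)

end Pool.Agent.DT.G
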