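import Pool.Agent.Lib.DT.G.Spec

/-!
# Theorem DT, part G: the homomorphism `D` on the elliptic units (`S_DU`)
-/

set_option autoImplicit false

open scoped Pointwise

noncomputable section

namespace Pool.Agent.DT.G

open Pool.Agent.MuZ Pool.Agent.FW Pool.Agent.DT
open Pool.Agent.DI (io ofC io_inj exists_io io_ofC ofC_io VP MP UP TP ex)

variable {k t : ℕ}

private theorem DU_prod {P : Ideal ZZ} [hP : P.IsPrime] {l c : Om} (hl : VP P l) (hc : VP P c)
    (T : Finset (OO k t)) (F g : OO k t → Om) (hg : ∀ h ∈ T, VP P (g h))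
    (hF : ∀ h ∈ T, TP P (l ^ 2) (F h - 1 - c * l * g h)) :
    ∃ R : Om, VP P R ∧ ∏ h ∈ T, F h = 1 + c * l * (∑ h ∈ T, g h) + l ^ 2 * R := by
  classical
  induction T using Finset.induction_on with
  | empty => exact ⟨0, DI.VP.zero, by simp⟩
  | insert x T hx ih =>
    obtain ⟨R, hR, hRe⟩ := ih (fun h hh => hg h (Finset.mem_insert_of_mem hh))
      (fun h hh => hF h (Finset.mem_insert_of_mem hh))
    obtain ⟨r, hr, hre⟩ := hF x (Finset.mem_insert_self x T)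
    have hgx := hg x (Finset.mem_insert_self x T)
    have hG : VP P (∑ h ∈ T, g h) :=
      DI.VP.sum T g fun h hh => hg h (Finset.mem_insert_of_mem hh)
    refine ⟨r + R + (c * c) * (g x * (∑ h ∈ T, g h)) +
      (c * l) * (g x * R + r * (∑ h ∈ T, g h)) + (l * l) * (r * R), ?_, ?_⟩
    · exact (((hr.add hR).add ((hc.mul hc).mul (hgx.mul hG))).add
        ((hc.mul hl).mul ((hgx.mul hR).add (hr.mul hG)))).add ((hl.mul hl).mul (hr.mul hR))
    · rw [Finset.prod_insert hx, Finset.sum_insert hx, hRe]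
      have e : F x = 1 + c * l * g x + l ^ 2 * r := by linear_combination hre
      rw [e]
      ring

theorem tDU : S_DU := by
  intro hO6 hD8 hE1 hZt hMod hHNf hSN hT0 hRdz hThT hUBa hUBb k t _ f m N T P σ hH hN hT hP hSg s hs
    hpsi b hb hbf
  have hPp : P.IsPrime := hP.1.1
  have hf : Fok f := hH.toFok
  have hN1 : 1 ≤ N := by omega
  obtain ⟨-, -, -, -, hl0, hZP⟩ := hZt
  obtain ⟨hlM, -, hTP, -⟩ := hZP P hP.1 hP.2.1
  have hl : VP P (1 - zet 3) := hlM.vp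
  obtain ⟨⟨-, -, -, hcn0, -⟩, ⟨hcn, -⟩, mP, -⟩ := hMod k t f N hf hN1
  obtain ⟨-, -, -, -, hb3, -, -, -⟩ := mP b hbf
  obtain ⟨-, -, -, -, -, -, -, hm6⟩ := mP m hH.prm
  obtain ⟨-, -, -, -, -, -, -, hHf, -⟩ := hHNf k t f N hf hN1
  obtain ⟨ha0, -, -, -⟩ := hSN k t f N hf hN
  have hpsi' : Psi s (sN k t (f * 3 ^ N)) (sp (aN k t f N)) :=
    (hE1 k t _ hcn0).2.2.2.2 s _ _ hpsi hcn
  -- the sign
  have hcop : (NI b).Coprime 3 := ((hO6 k t).2.2.2.2.1 3 b).1 hb3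
  have hj : jacobiSym (NI b : ℤ) 3 = 1 ∨ jacobiSym (NI b : ℤ) 3 = -1 := by
    apply jacobiSym.eq_one_or_neg_one
    exact hcop
  obtain ⟨hσ, hSb⟩ := hSg
  have hσ' : σ * jacobiSym (NI b : ℤ) 3 = 1 ∨ σ * jacobiSym (NI b : ℤ) 3 = -1 := by
    rcases hσ with h | h <;> rcases hj with h' | h' <;> rw [h, h'] <;> norm_num
  have hS3 : vO b (T0 k t f) * (1 - zet 3) ^ 3 =
      ((σ * jacobiSym (NI b : ℤ) 3 : ℤ) : Om) * (aO (pp k t * b) - 3) := by
    rw [hSb b hb hb3]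
    push_cast
    rfl
  have hcv : VP P (((σ * jacobiSym (NI b : ℤ) 3 : ℤ) : Om)) := by
    rcases hσ' with h | h <;> rw [h]
    · rw [Int.cast_one]
      exact DI.VP.one
    · rw [Int.cast_neg, Int.cast_one]
      exact DI.VP.one.neg
  -- the action of `s`
  obtain ⟨hu0, -, -, hu4, -⟩ := hUBa k t f m N T hH hN1 hT b hb hbf
  have hsu : s (uN f N m T b) = ∏ h ∈ T, Theta m b (toC (aN k t f N * h) * zN k t f N) := by
    rw [(hUBb k t f m N T hH hN1 hT b hb hbf).2 s hs _ hpsi', hu4 _ ha0]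
  obtain ⟨-, -, -, -, hT5, hT6⟩ := hT0 k t f b hf hb hb3
  have hper := (hD8 k t m b hH.ne hb hm6).2.1
  have htr : ∀ h ∈ T, Theta m b (toC (aN k t f N * h) * zN k t f N) =
      Theta m b (toC h * zN k t f N + T0 k t f) := by
    intro h hh
    obtain ⟨-, -, hpp, -⟩ := hHf h (hT.mem h hh).1
    have h2 := (hper (toC h * zN k t f N + T0 k t f)).2 _ (hT5 h hpp)
    rw [hT6 N h hN1, ← h2]
    congr 1
    ring
  have hh3 : ∀ h ∈ T, PrI (sp h) (sN k t 3) := by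
    intro h hh
    obtain ⟨-, -, -, -, hpr, -⟩ := hHf h (hT.mem h hh).1
    exact (mP _ hpr).2.2.2.2.1
  have hgv : ∀ h ∈ T, VP P (gO m b (toC h * zN k t f N)) := fun h hh =>
    (hRdz k t f N m b hf hN1 hH.ne hb hm6 hb3 P hP h (hh3 h hh) _ rfl).2.2.2.2.2.1
  have hth : ∀ h ∈ T, TP P ((1 - zet 3) ^ 2) (Theta m b (toC (aN k t f N * h) * zN k t f N) /
        Theta m b (toC h * zN k t f N) - 1 - ((σ * jacobiSym (NI b : ℤ) 3 : ℤ) : Om) *
          (1 - zet 3) * gO m b (toC h * zN k t f N)) := by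
    intro h hh
    rw [htr h hh]
    exact (hTP _).1 (hThT k t f N m b hf hN1 hH.ne hb hm6 hb3 P hP h (hh3 h hh) _ rfl _ hσ' hS3).2
  obtain ⟨R, hR, hRe⟩ := DU_prod hl hcv T
    (fun h => Theta m b (toC (aN k t f N * h) * zN k t f N) / Theta m b (toC h * zN k t f N))
    (fun h => gO m b (toC h * zN k t f N)) hgv hth
  rw [Finset.prod_div_distrib] at hRe
  have hq : s (uN f N m T b) / uN f N m T b =
      1 + ((σ * jacobiSym (NI b : ℤ) 3 : ℤ) : Om) * (1 - zet 3) *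
        (∑ h ∈ T, gO m b (toC h * zN k t f N)) + (1 - zet 3) ^ 2 * R := by
    rw [hsu]
    exact hRe
  have hD : Dw s (uN f N m T b) = ((σ * jacobiSym (NI b : ℤ) 3 : ℤ) : Om) *
      (∑ h ∈ T, gO m b (toC h * zN k t f N)) + (1 - zet 3) * R := by
    unfold Dw
    rw [hq, div_eq_iff hl0]
    ring
  refine ⟨?_, hgv, R, hR, ?_⟩
  · rw [hD]
    exact (hcv.mul (DI.VP.sum T _ hgv)).add (hl.mul hR)
  · rw [hD]
    push_cast
    ring

end Pool.Agent.DT.G
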