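import Pool.Agent.Lib.DT.G.Spec

/-!
# Theorem DT, part G, module Eps: the quadratic character `eps` is periodic
-/

set_option autoImplicit false

open scoped Pointwise

noncomputable section

namespace Pool.Agent.DT.G

open Pool.Agent.MuZ Pool.Agent.FW Pool.Agent.DT
open Pool.Agent.DI (io ofC io_inj exists_io io_ofC ofC_io VP MP UP TP ex)

/-- The character for an arbitrary `D`. -/
private def Eps_e (D : ℕ) (d : ℤ) : ℤ := d.sign * jacobiSym (-(D : ℤ)) d.natAbs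

private theorem Eps_cop {D M : ℕ} (hDM : 4 * D ∣ M) {d : ℤ} (hd : IsCoprime d M) :
    (-(D : ℤ)).gcd d.natAbs = 1 := by
  have h1 : (D : ℤ) ∣ M := by exact_mod_cast (Dvd.dvd.mul_left (dvd_refl D) 4).trans hDM
  have h2 : IsCoprime d (D : ℤ) := hd.of_isCoprime_of_dvd_right h1
  have h3 : Int.gcd d D = 1 := Int.isCoprime_iff_gcd_eq_one.1 h2
  rw [Int.neg_gcd, Int.gcd_comm]
  rw [Int.gcd_eq_natAbs] at h3 ⊢
  simpa [Int.natAbs_abs] using h3

private theorem Eps_ne {M : ℕ} (h4 : 4 ∣ M) {d : ℤ} (hd : IsCoprime d M) : d ≠ 0 := by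
  rintro rfl
  rw [isCoprime_zero_left, Int.isUnit_iff] at hd
  obtain ⟨c, rfl⟩ := h4
  rcases hd with h | h
  · push_cast at h; omega
  · push_cast at h; omega

private theorem Eps_pm {D M : ℕ} (h4 : 4 ∣ M) (hDM : 4 * D ∣ M) {d : ℤ} (hd : IsCoprime d M) :
    Eps_e D d = 1 ∨ Eps_e D d = -1 := by
  unfold Eps_e
  have h1 := jacobiSym.eq_one_or_neg_one (Eps_cop hDM hd)
  rcases lt_or_gt_of_ne (Eps_ne h4 hd) with h | h
  · rw [Int.sign_eq_neg_one_of_neg h]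
    rcases h1 with h1 | h1 <;> rw [h1]
    · right; norm_num
    · left; norm_num
  · rw [Int.sign_eq_one_of_pos h]
    rcases h1 with h1 | h1 <;> rw [h1]
    · left; norm_num
    · right; norm_num

private theorem Eps_mul (D : ℕ) {d d' : ℤ} (hd : d ≠ 0) (hd' : d' ≠ 0) :
    Eps_e D (d * d') = Eps_e D d * Eps_e D d' := by
  have i1 : NeZero d.natAbs := ⟨Int.natAbs_ne_zero.2 hd⟩
  have i2 : NeZero d'.natAbs := ⟨Int.natAbs_ne_zero.2 hd'⟩
  unfold Eps_e
  rw [Int.sign_mul, Int.natAbs_mul, jacobiSym.mul_right]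
  ring

private theorem Eps_neg_one (D : ℕ) : Eps_e D (-1) = -1 := by
  unfold Eps_e
  simp

private theorem Eps_odd {M : ℕ} (h4 : 4 ∣ M) {a : ℕ} (ha : IsCoprime (a : ℤ) (M : ℤ)) : Odd a := by
  rw [← Nat.not_even_iff_odd]
  intro h
  have h1 : a.Coprime M := Nat.isCoprime_iff_coprime.1 ha
  have h2 : 2 ∣ Nat.gcd a M := Nat.dvd_gcd h.two_dvd ((by norm_num : (2 : ℕ) ∣ 4).trans h4)
  rw [h1] at h2
  omega

/-- Positive arguments. -/
private theorem Eps_per {D M : ℕ} (h4 : 4 ∣ M) (hDM : 4 * D ∣ M) {a b : ℕ} (ha : IsCoprime (a : ℤ) (M : ℤ))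
    (hb : IsCoprime (b : ℤ) (M : ℤ)) (hab : (M : ℤ) ∣ (a : ℤ) - b) : Eps_e D a = Eps_e D b := by
  have ha0 : 0 < (a : ℤ) := lt_of_le_of_ne (Int.natCast_nonneg a) (Eps_ne h4 ha).symm
  have hb0 : 0 < (b : ℤ) := lt_of_le_of_ne (Int.natCast_nonneg b) (Eps_ne h4 hb).symm
  unfold Eps_e
  rw [Int.sign_eq_one_of_pos ha0, Int.sign_eq_one_of_pos hb0, Int.natAbs_natCast, Int.natAbs_natCast,
    jacobiSym.mod_right _ (Eps_odd h4 ha), jacobiSym.mod_right _ (Eps_odd h4 hb), Int.natAbs_neg,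
    Int.natAbs_natCast]
  have h1 : a % (4 * D) = b % (4 * D) := by
    have h2 : ((4 * D : ℕ) : ℤ) ∣ (a : ℤ) - b := (Int.natCast_dvd_natCast.2 hDM).trans hab
    exact ((Nat.modEq_iff_dvd).2 (by rw [← dvd_neg, neg_sub]; exact h2)).symm ▸ rfl
  rw [h1]

/-- The value at `M - 1`. -/
private theorem Eps_top {D M : ℕ} (hD : 0 < D) (hM : 0 < M) (hDM : 4 * D ∣ M) :
    jacobiSym (-(D : ℤ)) (M - 1) = -1 := by
  have h4M : 4 ∣ M := (Dvd.intro D rfl).trans hDM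
  obtain ⟨n, hn⟩ : ∃ n, n = M - 1 := ⟨_, rfl⟩
  rw [← hn]
  have hMn : M = n + 1 := by omega
  have hn4 : n % 4 = 3 := by omega
  have hno : Odd n := by
    rw [Nat.odd_iff]; omega
  obtain ⟨i, D', hD', hDD⟩ := Nat.exists_eq_two_pow_mul_odd hD.ne'
  have h1 : jacobiSym (-1) n = -1 := by
    rw [jacobiSym.at_neg_one hno, ZMod.χ₄_nat_three_mod_four hn4]
  have h2 : jacobiSym (2 ^ i : ℤ) n = 1 := by
    rw [jacobiSym.pow_left]
    rcases Nat.eq_zero_or_pos i with hi | hi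
    · rw [hi, pow_zero]
    · have h8 : 8 ∣ M := by
        refine Dvd.dvd.trans ?_ hDM
        rw [hDD]
        obtain ⟨j, rfl⟩ : ∃ j, i = j + 1 := ⟨i - 1, by omega⟩
        exact ⟨2 ^ j * D', by ring⟩
      have hn8 : n % 8 = 7 := by omega
      rw [jacobiSym.at_two hno, ZMod.χ₈_nat_eq_if_mod_eight]
      have h3 : ¬ n % 2 = 0 := by omega
      rw [if_neg h3, if_pos (Or.inr hn8), one_pow]
  have h3 : jacobiSym (D' : ℤ) n = 1 := by
    rw [jacobiSym.quadratic_reciprocity hD' hno]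
    have h5 : jacobiSym (n : ℤ) D' = jacobiSym (-1) D' := by
      refine jacobiSym.mod_left' ?_
      have h6 : (D' : ℤ) ∣ (n : ℤ) - (-1) := by
        have h7 : D' ∣ M := (Dvd.intro_left (2 ^ i) hDD.symm).trans
          ((Dvd.intro_left 4 rfl).trans hDM)
        have h8 : (D' : ℤ) ∣ (M : ℤ) := by exact_mod_cast h7
        rw [hMn] at h8
        push_cast at h8
        rwa [sub_neg_eq_add]
      exact ((Int.modEq_iff_dvd).2 h6).symm
    rw [h5, jacobiSym.at_neg_one hD', ZMod.χ₄_eq_neg_one_pow (Nat.odd_iff.1 hD')]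
    have h6 : Odd (n / 2) := by
      rw [Nat.odd_iff]; omega
    have h7 : ((-1 : ℤ)) ^ (D' / 2 * (n / 2)) = (-1) ^ (D' / 2) := by
      rw [mul_comm, pow_mul, h6.neg_one_pow]
    rw [h7, ← mul_pow]
    norm_num
  have e : (-(D : ℤ)) = -1 * (2 ^ i * (D' : ℤ)) := by
    rw [hDD]
    push_cast
    ring
  rw [e, jacobiSym.mul_left, jacobiSym.mul_left, h1, h2, h3]
  norm_num

/-- One positive, one negative argument. -/
private theorem Eps_mix {D M : ℕ} (hD : 0 < D) (hM : 0 < M) (h4 : 4 ∣ M) (hDM : 4 * D ∣ M) {a b : ℕ}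
    (ha : IsCoprime (a : ℤ) (M : ℤ)) (hb : IsCoprime (b : ℤ) (M : ℤ)) (hab : (M : ℤ) ∣ (a : ℤ) + b) :
    Eps_e D a = -Eps_e D b := by
  obtain ⟨n, hn⟩ : ∃ n, n = M - 1 := ⟨_, rfl⟩
  have hMn : (M : ℤ) = n + 1 := by
    have : M = n + 1 := by omega
    exact_mod_cast this
  have hn0 : 0 < n := by
    have : 4 ≤ M := Nat.le_of_dvd hM h4
    omega
  have hnc : IsCoprime (n : ℤ) (M : ℤ) := by
    rw [hMn]
    exact ⟨-1, 1, by ring⟩
  have hen : Eps_e D n = -1 := by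
    unfold Eps_e
    rw [Int.sign_eq_one_of_pos (by exact_mod_cast hn0), Int.natAbs_natCast, hn, Eps_top hD hM hDM]
    norm_num
  have h1 : Eps_e D ((n * b : ℕ) : ℤ) = -Eps_e D b := by
    push_cast
    rw [Eps_mul D (by exact_mod_cast hn0.ne') (Eps_ne h4 hb), hen]
    ring
  rw [← h1]
  refine Eps_per h4 hDM ha ?_ ?_
  · push_cast
    exact IsCoprime.mul_left hnc hb
  · push_cast
    have e : (a : ℤ) - n * b = (a + b) - M * b := by rw [hMn]; ring
    rw [e]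
    exact dvd_sub hab (Dvd.intro _ rfl)

private theorem Eps_neg (D : ℕ) {d : ℤ} (hd : d ≠ 0) : Eps_e D (-d) = -Eps_e D d := by
  have h := Eps_mul D (show (-1 : ℤ) ≠ 0 by norm_num) hd
  rw [Eps_neg_one, neg_one_mul, neg_one_mul] at h
  exact h

private theorem Eps_all {D M : ℕ} (hD : 0 < D) (hM : 0 < M) (h4 : 4 ∣ M) (hDM : 4 * D ∣ M) {d d' : ℤ}
    (hd : IsCoprime d (M : ℤ)) (hd' : IsCoprime d' (M : ℤ)) (h : (M : ℤ) ∣ d - d') :
    Eps_e D d = Eps_e D d' := by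
  rcases Int.eq_nat_or_neg d with ⟨a, rfl | rfl⟩ <;> rcases Int.eq_nat_or_neg d' with ⟨b, rfl | rfl⟩
  · exact Eps_per h4 hDM hd hd' h
  · rw [IsCoprime.neg_left_iff] at hd'
    rw [Eps_neg D (Eps_ne h4 hd')]
    rw [sub_neg_eq_add] at h
    exact Eps_mix hD hM h4 hDM hd hd' h
  · rw [IsCoprime.neg_left_iff] at hd
    rw [Eps_neg D (Eps_ne h4 hd)]
    have h1 : (M : ℤ) ∣ (a : ℤ) + b := by
      rw [← dvd_neg]
      have e : -((a : ℤ) + b) = -a - b := by ring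
      rwa [e]
    rw [Eps_mix hD hM h4 hDM hd hd' h1, neg_neg]
  · rw [IsCoprime.neg_left_iff] at hd hd'
    rw [Eps_neg D (Eps_ne h4 hd), Eps_neg D (Eps_ne h4 hd')]
    have h1 : (M : ℤ) ∣ (a : ℤ) - b := by
      rw [← dvd_neg]
      have e : -((a : ℤ) - b) = -a - -b := by ring
      rwa [e]
    rw [Eps_per h4 hDM hd hd' h1]

theorem tEps : S_Eps := by
  intro k t _ M hM h4 hDM
  have hD : 0 < Dk k t := by
    have h1 := hD8 (k := k) (t := t)
    have h2 := Dk_cast (k := k) (t := t)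
    have h3 : (0 : ℤ) < (Dk k t : ℤ) := by linarith
    exact_mod_cast h3
  have he : ∀ d : ℤ, eps k t d = Eps_e (Dk k t) d := fun d => rfl
  refine ⟨fun d hd => ?_, fun d d' hd hd' => ?_, fun d d' hd h => ?_, ?_⟩
  · rw [he]
    exact Eps_pm h4 hDM hd
  · rw [he, he, he]
    exact Eps_mul _ (Eps_ne h4 hd) (Eps_ne h4 hd')
  · rw [he, he]
    refine Eps_all hD hM h4 hDM hd ?_ h
    obtain ⟨c, hc⟩ := h
    have e : d' = d + (M : ℤ) * (-c) := by linarith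
    rw [e]
    exact IsCoprime.add_mul_left_left hd (-c)
  · rw [he]
    exact Eps_neg_one _

end Pool.Agent.DT.G
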