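import Pool.Agent.Lib.DT.G.Spec

/-!
# Theorem DT, part G, module EtG: Galois action on `etaX`
-/

set_option autoImplicit false

open scoped Pointwise

noncomputable section

namespace Pool.Agent.DT.G

open Pool.Agent.MuZ Pool.Agent.FW Pool.Agent.DT
open Pool.Agent.DI (io ofC io_inj exists_io io_ofC ofC_io VP MP UP TP ex)

theorem tEtG : S_EtG := by
  classical
  intro hE1 hC6 hC8 hGM hMod hR2 hChi k t _ f m R χ hf hR hχ r hr τ hτ hM hτχ
  have hfo : Fok f := hf.toFok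
  obtain ⟨⟨hF0, -, hc0, -, -⟩, ⟨-, -, hFc, -⟩, -⟩ := hMod k t f 1 hfo le_rfl
  obtain ⟨hE1a, -, -, -, hE1e⟩ := hE1 k t (sN k t (3 * f)) hF0
  obtain ⟨a, ha, -⟩ := hE1a τ hτ 1 one_pos
  have hac : Psi τ (cnd k t f) a := hE1e τ (cnd k t f) a ha hFc
  obtain ⟨-, -, -, -, -, hGMf, -, -⟩ := hGM k t f hfo
  have hHP : HP f a := (hGMf τ hτ a ha).1 hM
  obtain ⟨-, hχ1, -⟩ := hChi k t f (cnd k t f) χ hfo hc0 hFc hχ
  have hχa : χ a = 1 := hχ1 a hHP
  have hFBa : FB f a := ⟨ha.ne, hac.cop⟩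
  obtain ⟨-, -, hR2c⟩ := hR2 k t f hfo
  have hcl : ∀ b b' : Ideal (OO k t), FB f b → FB f b' → Ray (cnd k t f) b b' →
      χ b * etaM f m b r = χ b' * etaM f m b' r := by
    intro b b' hb hb' hbb
    rw [hχ.ray b b' hb.ne hb'.ne hb.cop hb'.cop hbb, ((hC6 k t f m b hf hb).1 b' hb' hbb).2 r]
  have key := hR2c R hR a hFBa (fun b => χ b * etaM f m b r) hcl
  unfold etaX
  rw [map_sum, ← key]
  refine Finset.sum_congr rfl fun b hb => ?_
  have hb' : FB f b := ⟨(hR.mem b hb).1, (hR.mem b hb).2⟩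
  rw [map_mul, hτχ b, hC8 k t f m b hf hb' r hr τ hτ a hac]
  show χ b * etaM f m (a * b) r = χ (a * b) * etaM f m (a * b) r
  rw [hχ.mul, hχa, one_mul]

end Pool.Agent.DT.G
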