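import Pool.Agent.Lib.DT.G.Spec

/-!
# THEOREM DT, part G, module Ete: the values of `etE` at `c / 3 ^ j`
-/

set_option autoImplicit false

open scoped Pointwise

noncomputable section

namespace Pool.Agent.DT.G

open Pool.Agent.MuZ Pool.Agent.FW Pool.Agent.DT
open Pool.Agent.DI (io ofC io_inj exists_io io_ofC ofC_io VP MP UP TP ex)

variable {k t : ℕ}

private theorem Ete_den (c : ℤ) (j : ℕ) : ((c : ℚ) / 3 ^ j).den ∣ 3 ^ j := by
  have e : (c : ℚ) / 3 ^ j = Rat.divInt c (3 ^ j : ℤ) := by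
    rw [Rat.divInt_eq_div]
    push_cast
    rfl
  rw [e]
  have h := Rat.den_dvd c (3 ^ j : ℤ)
  exact_mod_cast h

private theorem Ete_per {g : ℚ → Om} (h : ∀ r : ℚ, g (r + 1) = g r) (r : ℚ) (n : ℤ) :
    g (r + n) = g r := by
  have h1 : Function.Periodic g 1 := h
  have h2 := h1.int_mul n r
  rwa [mul_one] at h2

private theorem Ete_sum {g : ℚ → Om} (h : ∀ r : ℚ, g (r + 1) = g r) (r : ℚ) :
    ∑ i ∈ Finset.range 3, g (-((r + (i : ℕ)) / 3)) =
      ∑ i ∈ Finset.range 3, g ((-r + (i : ℕ)) / 3) := by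
  have e0 : -((r + ((0 : ℕ) : ℚ)) / 3) = (-r + ((0 : ℕ) : ℚ)) / 3 := by
    push_cast
    ring
  have e1 : g (-((r + ((1 : ℕ) : ℚ)) / 3)) = g ((-r + ((2 : ℕ) : ℚ)) / 3) := by
    rw [← h]
    congr 1
    push_cast
    ring
  have e2 : g (-((r + ((2 : ℕ) : ℚ)) / 3)) = g ((-r + ((1 : ℕ) : ℚ)) / 3) := by
    rw [← h]
    congr 1
    push_cast
    ring
  simp only [Finset.sum_range_succ, Finset.sum_range_zero, zero_add]
  rw [e0, e1, e2]
  ring

private theorem Ete_D [h : SqT k t] : 0 < Dk k t ∧ (Dk k t).Coprime 3 := by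
  have h1 := hD8 (k := k) (t := t)
  have h2 := Dk_cast (k := k) (t := t)
  have h3 : 0 < Dk k t := by
    have : (0 : ℤ) < (Dk k t : ℤ) := by linarith
    exact_mod_cast this
  refine ⟨h3, ?_⟩
  rw [Nat.coprime_comm, Nat.Prime.coprime_iff_not_dvd Nat.prime_three]
  intro h4
  have h5 : (3 : ℤ) ∣ (Dk k t : ℤ) := by exact_mod_cast h4
  rw [h2] at h5
  rcases h.out with ⟨rfl, -, -⟩ | ⟨rfl, -, -⟩
  · push_cast at h5
    omega
  · push_cast at h5
    omega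

/-- **Ete.** The values of `etE` at `c / 3 ^ j`. -/
theorem tEte : S_Ete := by
  intro hO2 hO4 hO6 hV hMod hChi k t _ f m R χ P hm hR hFR hχ hP
  have hf : Fok f := hm.toFok
  have := hP.1.1
  obtain ⟨-, -, -, -, -, hNI0, -, -⟩ := hO2 k t
  obtain ⟨-, -, -, -, -, hNp, -, hsup, hp0, -⟩ := hO4 k t
  obtain ⟨-, o2, -, -, o5, -⟩ := hO6 k t
  obtain ⟨⟨-, -, hcn, -⟩, ⟨-, -, hcl, -⟩, -⟩ := hMod k t f 1 hf le_rfl
  have hNI : ∀ a : Ideal (OO k t), a ≠ ⊥ → PrI a (sN k t (3 * f)) →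
      0 < NI a ∧ (NI a).Coprime 3 := by
    intro a ha h
    refine ⟨Nat.pos_of_ne_zero (fun h0 => ha ((hNI0 a).1 h0)), ?_⟩
    exact Nat.Coprime.coprime_dvd_right (Dvd.intro f rfl) ((o5 (3 * f) a).1 h)
  have hprod : 0 < ∏ b ∈ R, NI b ∧ (∏ b ∈ R, NI b).Coprime 3 :=
    ⟨Finset.prod_pos fun b hb => (hNI b (hFR b hb).1 (hFR b hb).2).1,
      Nat.Coprime.prod_left fun b hb => (hNI b (hFR b hb).1 (hFR b hb).2).2⟩
  obtain ⟨hm1, hm2⟩ := hNI m hm.ne hm.prm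
  have hD := Ete_D (k := k) (t := t)
  have hlv : IsLv f m R (lev f m R) := by
    refine ⟨?_, ?_, dvd_rfl⟩
    · exact Nat.mul_pos (Nat.mul_pos hD.1 (pow_pos hf.pos 2))
        (pow_pos (Nat.mul_pos hm1 hprod.1) 3)
    · exact Nat.Coprime.mul_left (Nat.Coprime.mul_left hD.2 (hf.cop.pow_left 2))
        ((Nat.Coprime.mul_left hm2 hprod.2).pow_left 3)
  obtain ⟨v1, v2, -, v4⟩ := hV k t f (lev f m R) m R hm hFR hR hlv χ hχ
  refine ⟨?_, fun e => ⟨?_, fun c j => ?_⟩⟩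
  · have hpr : PrI (pp k t) (cnd k t f) := by
      rw [cnd, o2, o5, hNp]
      exact ⟨Nat.coprime_comm.1 hf.cop, hsup⟩
    exact (hChi k t f (cnd k t f) χ hf hcn hcl hχ).2.2.2.2.2.1 P (pp k t) hP.1 hp0 hpr
  · intro r n
    unfold etE
    rw [Ete_per v2 r n]
    congr 2
    have e1 : -(r + (n : ℚ)) = -r + ((-n : ℤ) : ℚ) := by
      push_cast
      ring
    rw [e1, Ete_per v2 (-r) (-n)]
  · have hd : ((c : ℚ) / 3 ^ j).den.Coprime (lev f m R) :=
      Nat.Coprime.coprime_dvd_left (Ete_den c j) (Nat.coprime_comm.1 (hlv.cop.pow_right j))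
    have hd' : (-((c : ℚ) / 3 ^ j)).den.Coprime (lev f m R) := by
      rw [Rat.neg_den]
      exact hd
    refine ⟨DI.VP.add (v1 P hP _ hd) (DI.VP.mul (DI.VP.int e) (v1 P hP _ hd')), ?_⟩
    have h1 := v4 P hP _ hd
    have h2 := v4 P hP _ hd'
    rw [← Ete_sum v2] at h2
    have h3 := DI.MP.add h1 (DI.MP.mul_left (DI.VP.int e) h2)
    have e4 : ∑ i ∈ Finset.range 3, etE f m R χ e (((c / 3 ^ j : ℚ) + i) / 3) -
        χ (pp k t) * etE f m R χ e (c / 3 ^ j) =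
        (∑ i ∈ Finset.range 3, etaX f m R χ (((c / 3 ^ j : ℚ) + i) / 3) -
          χ (pp k t) * etaX f m R χ (c / 3 ^ j)) +
        e * (∑ i ∈ Finset.range 3, etaX f m R χ (-(((c / 3 ^ j : ℚ) + i) / 3)) -
          χ (pp k t) * etaX f m R χ (-(c / 3 ^ j))) := by
      simp only [etE, Finset.sum_add_distrib, ← Finset.mul_sum]
      ring
    rw [e4]
    exact h3

end Pool.Agent.DT.G
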