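import Pool.Agent.Lib.DT.G.Spec

/-!
# Theorem DT, part G, module Fou1: the Fourier transform, first form
-/

set_option autoImplicit false

open scoped Pointwise

noncomputable section

namespace Pool.Agent.DT.G

open Pool.Agent.MuZ Pool.Agent.FW Pool.Agent.DT
open Pool.Agent.DI (io ofC io_inj exists_io io_ofC ofC_io VP MP UP TP ex)

private theorem Fou1_geo {ζ : Om} {n : ℕ} (hζ : IsPrimitiveRoot ζ n) (k : ℤ) :
    ∑ c ∈ Finset.range n, ζ ^ ((c : ℤ) * k) = if (n : ℤ) ∣ k then (n : Om) else 0 := by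
  have h1 : ∀ c : ℕ, ζ ^ ((c : ℤ) * k) = (ζ ^ k) ^ c := by
    intro c
    rw [mul_comm, zpow_mul, zpow_natCast]
  simp only [h1]
  split_ifs with h
  · rw [(hζ.zpow_eq_one_iff_dvd k).2 h]
    simp
  · have h2 : ζ ^ k ≠ 1 := fun h3 => h ((hζ.zpow_eq_one_iff_dvd k).1 h3)
    have h3 : (ζ ^ k) ^ n = 1 := by
      rw [← zpow_natCast, ← zpow_mul, mul_comm, zpow_mul, zpow_natCast, hζ.pow_eq_one, one_zpow]
    have h4 := mul_geom_sum (ζ ^ k) n
    rw [h3, sub_self] at h4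
    exact (mul_eq_zero.1 h4).resolve_left (sub_ne_zero.2 h2)

/-- The points. -/
private theorem Fou1_pt {k t : ℕ} [SqT k t] {f N : ℕ} (hf : 0 < f) {o : OO k t}
    (ho : toC (c0 k t f) / (3 * f) - v0 k t f = toC o) (e : OO k t) :
    v0 k t f / ((3 ^ N : ℕ) : ℂ) + (toC o / ((3 ^ N : ℕ) : ℂ) + toC e * zN k t f N) =
      toC (1 + e) * zN k t f N ∧
    v0 k t f + ((3 ^ N : ℕ) : ℂ) * (toC o / ((3 ^ N : ℕ) : ℂ) + toC e * zN k t f N) =
      toC ((1 + e) * c0 k t f) / (3 * f) := by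
  have hf0 : (f : ℂ) ≠ 0 := by exact_mod_cast hf.ne'
  have h3 : ((3 : ℂ) ^ N) ≠ 0 := pow_ne_zero _ (by norm_num)
  have hv : v0 k t f = toC (c0 k t f) / (3 * f) - toC o := by
    rw [← ho]
    ring
  have hc : ((3 ^ N : ℕ) : ℂ) = (3 : ℂ) ^ N := by push_cast; rfl
  rw [hc, hv, toC_mul, toC_add, toC_one]
  unfold zN
  constructor
  · field_simp
    ring
  · field_simp
    ring

/-- The norms. -/
private theorem Fou1_q {k t : ℕ} [SqT k t] {f : ℕ} (hf : 0 < f) (A B : ℕ)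
    (hq : Nm (c0 k t f) = 3 * q0 k t f) (e : OO k t) :
    3 * (f : ℝ) ^ 2 * A * B * ‖toC ((1 + e) * c0 k t f) / (3 * f)‖ ^ 2 =
      ((q0 k t f * A * B * Nm (1 + e) : ℤ) : ℝ) := by
  have hf0 : (f : ℝ) ≠ 0 := by exact_mod_cast hf.ne'
  have h1 : ‖toC ((1 + e) * c0 k t f) / (3 * f)‖ ^ 2 =
      ((Nm (1 + e) * (3 * q0 k t f) : ℤ) : ℝ) / (9 * (f : ℝ) ^ 2) := by
    rw [norm_div, div_pow, ← Nm_norm, Nm_mul, hq]
    congr 1
    rw [norm_mul, Complex.norm_natCast, Complex.norm_ofNat]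
    ring
  rw [h1]
  push_cast
  field_simp
  ring

theorem tFou1 : S_Fou1 := by
  classical
  intro hO6 hC4 hZt hMod hC0 hZS k t _ f m R E χ hFM hRC hFR N a hN hE
  have hfok : Fok f := hFM.toFok
  obtain ⟨-, -, -, -, h65, -, -, -⟩ := hO6 k t
  obtain ⟨⟨-, -, -, -, hcn0⟩, -, hpr, -⟩ := hMod k t f N hfok hN
  obtain ⟨-, -, -, -, -, ⟨o, ho⟩, hq, -⟩ := hC0 k t f hfok
  have h3N : 0 < 3 ^ N := by positivity
  have hζ := hZt.1 (3 ^ N) h3N
  have hζ0 : zet (3 ^ N) ≠ 0 := hζ.ne_zero h3N.ne'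
  have hcop : (3 ^ N).Coprime (NI m) := by
    have h1 : (NI m).Coprime 3 := (h65 3 m).1 (hpr m hFM.prm).2.2.2.2.1
    exact (Nat.Coprime.pow_right N h1).symm
  have hE' : IsRp (cnN k t f (0 + N)) (fun v => v ∈ cnN k t f 0) E := by
    rw [zero_add, hcn0]
    exact hE
  have key : ∀ b ∈ R, ∀ c : ℕ, etaM f m b ((c : ℚ) / 3 ^ N) =
      ((3 ^ N : ℕ) : Om)⁻¹ * ∑ e ∈ E,
        zet (3 ^ N) ^ ((c : ℤ) * (q0 k t f * NI m * NI b * Nm (1 + e))) *
          gO m b (toC (1 + e) * zN k t f N) := by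
    intro b hb c
    obtain ⟨hb0, hb1⟩ := hFR b hb
    obtain ⟨-, -, -, hbc, hb3, -⟩ := hpr b hb1
    have hz0 : toC o / ((3 ^ N : ℕ) : ℂ) ∈ Lam (sN k t (3 ^ N) * b) := by
      refine (lam_sp (α := ((3 ^ N : ℕ) : OO k t))).2 ?_
      have hne : ((3 ^ N : ℕ) : ℂ) ≠ 0 := by exact_mod_cast h3N.ne'
      rw [toC_nat, mul_div_cancel₀ _ hne]
      exact fun v _ => ⟨v * o, (toC_mul v o).symm⟩
    obtain ⟨hinj, hsys⟩ := hZS k t f 0 N E b hfok hb0 hb3 hE' _ hz0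
    rw [zero_add] at hinj hsys
    have hU := hsys (E.image fun e : OO k t => toC o / ((3 ^ N : ℕ) : ℂ) + toC e * zN k t f N)
      (by rw [Finset.coe_image])
    obtain ⟨-, -, h4⟩ := hC4 k t f m b hFM ⟨hb0, hbc⟩ (c : ℤ) (3 ^ N) h3N hcop
    obtain ⟨h5, h6⟩ := h4 _ hU
    have h7 : ((c : ℚ) / 3 ^ N) = ((c : ℤ) : ℚ) / ((3 ^ N : ℕ) : ℚ) := by
      push_cast
      rfl
    rw [h7, h6, Finset.sum_image hinj]
    congr 1
    refine Finset.sum_congr rfl fun e he => ?_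
    have h8 := h5 _ (Finset.mem_image_of_mem _ he)
    obtain ⟨p1, p2⟩ := Fou1_pt (N := N) hfok.pos ho e
    rw [p2, Fou1_q hfok.pos (NI m) (NI b) hq e] at h8
    have h9 := Int.cast_injective h8
    rw [p1, p2, h9]
  have key2 : ∀ c : ℕ, zet (3 ^ N) ^ (-((c : ℤ) * a)) * etaX f m R χ ((c : ℚ) / 3 ^ N) =
      ∑ b ∈ R, χ b * ∑ e ∈ E, ((3 ^ N : ℕ) : Om)⁻¹ * gO m b (toC (1 + e) * zN k t f N) *
        zet (3 ^ N) ^ ((c : ℤ) * (q0 k t f * NI m * NI b * Nm (1 + e) - a)) := by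
    intro c
    unfold etaX
    rw [Finset.mul_sum]
    refine Finset.sum_congr rfl fun b hb => ?_
    rw [key b hb c, mul_left_comm]
    congr 1
    rw [mul_left_comm, Finset.mul_sum, Finset.mul_sum]
    refine Finset.sum_congr rfl fun e _ => ?_
    have e1 : zet (3 ^ N) ^ ((c : ℤ) * (q0 k t f * NI m * NI b * Nm (1 + e) - a)) =
        zet (3 ^ N) ^ (-((c : ℤ) * a)) *
          zet (3 ^ N) ^ ((c : ℤ) * (q0 k t f * NI m * NI b * Nm (1 + e))) := by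
      rw [← zpow_add₀ hζ0]
      congr 1
      ring
    rw [e1]
    ring
  rw [Finset.sum_congr rfl fun c _ => key2 c, Finset.sum_comm]
  unfold SSN
  refine Finset.sum_congr rfl fun b hb => ?_
  rw [← Finset.mul_sum, Finset.sum_comm]
  congr 1
  refine Finset.sum_congr rfl fun e _ => ?_
  rw [← Finset.mul_sum, Fou1_geo hζ]
  have hne : ((3 ^ N : ℕ) : Om) ≠ 0 := by exact_mod_cast h3N.ne'
  have hc : ((3 ^ N : ℕ) : ℤ) = (3 : ℤ) ^ N := by push_cast; rfl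
  rw [hc]
  split_ifs with h
  · rw [mul_comm, ← mul_assoc, mul_inv_cancel₀ hne, one_mul]
  · rw [mul_zero]

end Pool.Agent.DT.G
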