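import Pool.Agent.Lib.DT.G.Spec

/-!
# THEOREM DT, part G, module Fou2: the Fourier transform, second form
-/

set_option autoImplicit false

open scoped Pointwise

noncomputable section

namespace Pool.Agent.DT.G

open Pool.Agent.MuZ Pool.Agent.FW Pool.Agent.DT
open Pool.Agent.DI (io ofC io_inj exists_io io_ofC ofC_io VP MP UP TP ex)

/-- Reflection of a periodic function. -/
private theorem Fou2_refl (H : ℤ → Om) (n : ℕ) (hn : 0 < n) (h : ∀ c : ℤ, H (c + n) = H c) :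
    ∑ c ∈ Finset.range n, H (-(c : ℤ)) = ∑ c ∈ Finset.range n, H (c : ℤ) := by
  obtain ⟨M, rfl⟩ : ∃ M, n = M + 1 := ⟨n - 1, by omega⟩
  rw [Finset.sum_range_succ', Finset.sum_range_succ',
    ← Finset.sum_range_reflect (fun c : ℕ => H ((c + 1 : ℕ) : ℤ)) M]
  congr 1
  refine Finset.sum_congr rfl fun c hc => ?_
  have hc' := Finset.mem_range.1 hc
  rw [← h]
  congr 1
  push_cast
  omega

/-- **Fou2.** The Fourier transform, second form. -/
theorem tFou2 : S_Fou2 := by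
  intro hC6 hZt hFou1 k t _ f m R E χ hm hR hFR N a e hN hE
  have hper : ∀ r : ℚ, etaX f m R χ (r + 1) = etaX f m R χ r := by
    intro r
    unfold etaX
    refine Finset.sum_congr rfl fun b hb => ?_
    rw [(hC6 k t f m b hm ⟨(hR.mem b hb).1, (hR.mem b hb).2⟩).2 r]
  have hz : IsPrimitiveRoot (zet (3 ^ N)) (3 ^ N) := hZt.1 _ (by positivity)
  have h0 : zet (3 ^ N) ≠ 0 := hz.ne_zero (by positivity)
  have h1 := hFou1 k t f m R E χ hm hR hFR N a hN hE
  have h2 := hFou1 k t f m R E χ hm hR hFR N (-a) hN hE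
  have h3 := Fou2_refl (fun c : ℤ => zet (3 ^ N) ^ (-(c * -a)) * etaX f m R χ ((c : ℚ) / 3 ^ N))
    (3 ^ N) (by positivity) (fun c => by
      have e1 : (((c + ((3 ^ N : ℕ) : ℤ) : ℤ) : ℚ)) / 3 ^ N = (c : ℚ) / 3 ^ N + 1 := by
        push_cast
        field_simp
      have e2 : -((c + ((3 ^ N : ℕ) : ℤ)) * -a) = -(c * -a) + ((3 ^ N : ℕ) : ℤ) * a := by ring
      rw [e1, hper, e2, zpow_add₀ h0, zpow_mul, zpow_natCast, hz.pow_eq_one, one_zpow, mul_one])
  rw [← h1, ← h2]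
  have h4 : ∑ c ∈ Finset.range (3 ^ N), zet (3 ^ N) ^ (-((c : ℤ) * -a)) *
      etaX f m R χ ((c : ℚ) / 3 ^ N) = ∑ c ∈ Finset.range (3 ^ N),
      zet (3 ^ N) ^ (-((c : ℤ) * a)) * etaX f m R χ (-((c : ℚ) / 3 ^ N)) := by
    refine Eq.trans ?_ (h3.symm.trans ?_)
    · refine Finset.sum_congr rfl fun c _ => ?_
      simp only [Int.cast_natCast]
    · refine Finset.sum_congr rfl fun c _ => ?_
      have e3 : -(-(c : ℤ) * -a) = -((c : ℤ) * a) := by ring
      have e4 : ((-(c : ℤ) : ℤ) : ℚ) / 3 ^ N = -((c : ℚ) / 3 ^ N) := by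
        push_cast
        ring
      rw [e3, e4]
  rw [h4, Finset.mul_sum, ← Finset.sum_add_distrib]
  refine Finset.sum_congr rfl fun c _ => ?_
  unfold etE
  ring

end Pool.Agent.DT.G
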