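import Pool.Agent.Lib.DT.G.Spec
import Pool.Agent.Lib.DI.F.VPB
import Pool.Agent.Lib.DT.V.All

/-!
# Theorem DT, part G, module G1: the nonvanishing input

The bridge from part V and Proposition F (statements `S_V`, `S_F`) to part G (after `DK/G/G1b.lean`).
-/

set_option autoImplicit false

open scoped Pointwise

noncomputable section

namespace Pool.Agent.DT.G

open Pool.Agent.MuZ Pool.Agent.FW Pool.Agent.DT
open Pool.Agent.DI (io ofC io_inj exists_io io_ofC ofC_io VP MP UP TP ex)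

variable {k t : ℕ}

/-! ## The character -/

private theorem G1_cop_int (n : ℤ) (N : ℕ) : Cop (n : OO k t) N ↔ IsCoprime n (N : ℤ) := by
  unfold Cop
  rw [Nm_int]
  exact IsCoprime.pow_left_iff (by norm_num)

private theorem G1_int_ne {n : ℤ} {N : ℕ} (hN : 2 ≤ N) (h : IsCoprime n (N : ℤ)) :
    (n : OO k t) ≠ 0 := by
  rintro h0
  have h1 : n = 0 := by
    have h2 := congrArg QuadraticAlgebra.re h0
    rwa [re_int] at h2
  rw [h1, isCoprime_zero_left] at h
  rw [Int.isUnit_iff] at h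
  omega

private theorem G1_val {N : ℕ} [NeZero N] (d : ℤ) : (N : ℤ) ∣ ((d : ZMod N).val : ℤ) - d := by
  rw [← ZMod.intCast_zmod_eq_zero_iff_dvd]
  push_cast
  rw [ZMod.natCast_zmod_val, sub_self]

private theorem G1_unit {N : ℕ} [NeZero N] {x : ZMod N} (h : IsUnit x) :
    IsCoprime ((x.val : ℕ) : ℤ) (N : ℤ) := by
  rw [← ZMod.natCast_zmod_val x] at h
  exact Nat.isCoprime_iff_coprime.2 ((ZMod.isUnit_iff_coprime x.val N).1 h)

private theorem G1_cc {N : ℤ} {a b : ℤ} (h : N ∣ a - b) (hb : IsCoprime b N) : IsCoprime a N := by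
  obtain ⟨c, hc⟩ := h
  have h1 : a = b + N * c := by linarith
  rw [h1]
  exact (IsCoprime.add_mul_left_left_iff).2 hb

/-- A character modulo `N` with values in `V_P`. -/
private structure G1Ch (P : Ideal ZZ) (N : ℕ) (ch : ℤ → Om) : Prop where
  one : ch 1 = 1
  mul : ∀ a b : ℤ, IsCoprime a (N : ℤ) → IsCoprime b (N : ℤ) → ch (a * b) = ch a * ch b
  per : ∀ a b : ℤ, IsCoprime a (N : ℤ) → IsCoprime b (N : ℤ) → (N : ℤ) ∣ a - b → ch a = ch b
  vp : ∀ a : ℤ, IsCoprime a (N : ℤ) → VP P (ch a)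

open Classical in
/-- The character modulo `P` on `ZMod N`. -/
private def G1_char {P : Ideal ZZ} (hP : P.IsPrime) (h0 : P ≠ ⊥) {N : ℕ} [NeZero N] {ch : ℤ → Om}
    (h : G1Ch P N ch) : MulChar (ZMod N) (DI.F.RF hP h0) where
  toFun x := if IsUnit x then DI.F.red hP h0 (ch ((x.val : ℕ) : ℤ)) else 0
  map_one' := by
    rw [if_pos isUnit_one]
    have e1 : (N : ℤ) ∣ (((1 : ZMod N).val : ℕ) : ℤ) - 1 := by
      have h := G1_val (N := N) 1
      rw [Int.cast_one] at h
      exact h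
    rw [h.per _ _ (G1_cc e1 isCoprime_one_left) isCoprime_one_left e1, h.one, DI.F.red_one]
  map_mul' x y := by
    by_cases hx : IsUnit x
    · by_cases hy : IsUnit y
      · rw [if_pos hx, if_pos hy, if_pos (hx.mul hy)]
        have cx := G1_unit hx
        have cy := G1_unit hy
        have e1 : (N : ℤ) ∣ (((x * y).val : ℕ) : ℤ) - ((x.val : ℕ) : ℤ) * ((y.val : ℕ) : ℤ) := by
          rw [← ZMod.intCast_zmod_eq_zero_iff_dvd]
          push_cast
          rw [ZMod.natCast_zmod_val, ZMod.natCast_zmod_val, ZMod.natCast_zmod_val, sub_self]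
        rw [h.per _ _ (G1_cc e1 (cx.mul_left cy)) (cx.mul_left cy) e1, h.mul _ _ cx cy,
          DI.F.red_mul hP h0 (h.vp _ cx) (h.vp _ cy)]
      · rw [if_neg hy, if_neg (fun h => hy (isUnit_of_mul_isUnit_right h)), mul_zero]
    · rw [if_neg hx, if_neg (fun h => hx (isUnit_of_mul_isUnit_left h)), zero_mul]
  map_nonunit' x hx := if_neg hx

private theorem G1_char_int {P : Ideal ZZ} (hP : P.IsPrime) (h0 : P ≠ ⊥) {N : ℕ} [NeZero N]
    {ch : ℤ → Om} (h : G1Ch P N ch) {d : ℤ} (hd : IsCoprime d (N : ℤ)) :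
    G1_char hP h0 h (d : ZMod N) = DI.F.red hP h0 (ch d) := by
  have hu : IsUnit (d : ZMod N) := (ZMod.coe_int_isUnit_iff_isCoprime d N).2 hd.symm
  have e1 : (N : ℤ) ∣ ((((d : ZMod N)).val : ℕ) : ℤ) - d := G1_val d
  change (if IsUnit (d : ZMod N) then DI.F.red hP h0 (ch ((((d : ZMod N)).val : ℕ) : ℤ)) else 0) = _
  rw [if_pos hu, h.per _ _ (G1_cc e1 hd) hd e1]

private theorem G1_den {M : ℕ} {r : ℚ} (h : _root_.DI.V.QM M r) : r.den.Coprime M := by
  obtain ⟨p, q, hq, rfl⟩ := h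
  have h1 : (((p : ℚ) / q).den : ℤ) ∣ q := by
    have h2 := Rat.den_dvd p q
    rwa [Rat.divInt_eq_div] at h2
  exact Nat.isCoprime_iff_coprime.1 (hq.of_isCoprime_of_dvd_left h1)

/-- The character `eps d * J d * χ (d)`. -/
private theorem G1_ch (h6 : S_O6) (h7 : S_O7) (hM : C_Mod) (hC : C_Chi) (hE : C_Eps) {k t : ℕ}
    [SqT k t] {f M : ℕ} (hf : Fok f) {χ : Ideal (OO k t) → Om} (hχ : IsChi (cnd k t f) χ)
    (hM2 : 2 ≤ M) (hfM : f ∣ M) (h4 : 4 ∣ M) (hD : 4 * Dk k t ∣ M) {P : Ideal ZZ} (hP : Npr P) :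
    G1Ch P (3 * M) (fun d => (eps k t d : Om) * (jacobiSym d 3 : Om) * χ (sp (d : OO k t))) ∧
    (eps k t (-1) : Om) * (jacobiSym (-1) 3 : Om) * χ (sp ((-1 : ℤ) : OO k t)) = 1 := by
  have hPr := hP.1
  obtain ⟨e1, e2, e3, e4⟩ := hE k t (3 * M) (by omega) (Dvd.dvd.mul_left h4 3)
    (Dvd.dvd.mul_left hD 3)
  have m := hM k t f 1 hf le_rfl
  have hc0 : cnd k t f ≠ ⊥ := m.1.2.2.1
  have hle : sN k t (3 * f) ≤ cnd k t f := m.2.1.2.2.1
  obtain ⟨c1, -, -, c4, -, c6, -⟩ := hC k t f (cnd k t f) χ hf hc0 hle hχ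
  have h3M : ((3 * f : ℕ) : ℤ) ∣ ((3 * M : ℕ) : ℤ) :=
    Int.natCast_dvd_natCast.2 (Nat.mul_dvd_mul_left 3 hfM)
  have hne : ∀ {a : ℤ}, IsCoprime a ((3 * M : ℕ) : ℤ) → (a : OO k t) ≠ 0 := fun h =>
    G1_int_ne (by omega) h
  have hsp : ∀ {a : ℤ}, IsCoprime a ((3 * M : ℕ) : ℤ) → sp (a : OO k t) ≠ ⊥ := fun h h0 =>
    hne h (Ideal.span_singleton_eq_bot.1 h0)
  have hpr : ∀ {a : ℤ}, IsCoprime a ((3 * M : ℕ) : ℤ) → PrI (sp (a : OO k t)) (cnd k t f) := by
    intro a ha
    refine (m.2.2.1 _ ?_).2.2.2.1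
    exact ((h6 k t).2.2.2.2.2.1 (3 * f) _).2
      ((G1_cop_int a (3 * f)).2 (ha.of_isCoprime_of_dvd_right h3M))
  have hJ1 : jacobiSym 1 3 = 1 := jacobiSym.one_left 3
  have hJm : jacobiSym (-1) 3 = -1 := by norm_num
  have htop : sp ((1 : ℤ) : OO k t) = ⊤ := by
    rw [Int.cast_one]
    exact Ideal.span_singleton_one
  have htop' : sp ((-1 : ℤ) : OO k t) = ⊤ := by
    rw [Int.cast_neg, Int.cast_one, Ideal.span_singleton_eq_top]
    exact isUnit_one.neg
  have he1 : eps k t 1 = 1 := by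
    have h := e2 1 1 isCoprime_one_left isCoprime_one_left
    rw [mul_one] at h
    rcases e1 1 isCoprime_one_left with h' | h'
    · exact h'
    · rw [h'] at h
      norm_num at h
  refine ⟨⟨?_, ?_, ?_, ?_⟩, ?_⟩
  · rw [he1, hJ1, htop, c1]
    simp
  · intro a b ha hb
    have e5 : sp ((a * b : ℤ) : OO k t) = sp (a : OO k t) * sp (b : OO k t) := by
      rw [Int.cast_mul]
      exact (Ideal.span_singleton_mul_span_singleton _ _).symm
    change (eps k t (a * b) : Om) * (jacobiSym (a * b) 3 : Om) * χ (sp ((a * b : ℤ) : OO k t)) = _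
    rw [e2 a b ha hb, jacobiSym.mul_left, e5, hχ.mul]
    push_cast
    ring
  · intro a b ha hb hab
    have e5 : jacobiSym a 3 = jacobiSym b 3 := by
      refine jacobiSym.mod_left' ?_
      have h3 : ((3 : ℕ) : ℤ) ∣ a - b := by
        refine dvd_trans ?_ hab
        push_cast
        exact dvd_mul_right _ _
      exact (Int.modEq_iff_dvd.2 (dvd_sub_comm.1 h3) : a ≡ b [ZMOD ((3 : ℕ) : ℤ)])
    have e6 : χ (sp (a : OO k t)) = χ (sp (b : OO k t)) := by
      refine hχ.ray _ _ (hsp ha) (hsp hb) (hpr ha) (hpr hb) ?_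
      refine ((h7 k t (cnd k t f) hc0).2.2.2.2.2.2.2.1 _ _ (hne ha) (hne hb) (hpr ha)
        (hpr hb)).2 (Or.inl (hle ?_))
      obtain ⟨c, hc⟩ := h3M.trans hab
      refine Ideal.mem_span_singleton.2 ⟨(c : OO k t), ?_⟩
      rw [← Int.cast_sub, hc]
      push_cast
      ring
    change (eps k t a : Om) * (jacobiSym a 3 : Om) * χ (sp (a : OO k t)) = _
    rw [e3 a b ha hab, e5, e6]
  · intro a ha
    exact DI.F.vp_mul hPr (DI.F.vp_mul hPr (DI.F.vp_intCast hPr _) (DI.F.vp_intCast hPr _))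
      (c6 P _ hP (hsp ha) (hpr ha)).1
  · rw [e4, hJm, htop', c1]
    push_cast
    ring

private theorem G1_etE0 {f : ℕ} {m : Ideal (OO k t)} {R : Finset (Ideal (OO k t))}
    {χ : Ideal (OO k t) → Om} {e : ℤ} : etE f m R χ e 0 = (1 + e) * etaX f m R χ 0 := by
  unfold etE
  rw [neg_zero]
  ring

theorem tG1 : S_G1 := by
  classical
  intro hO2 hO4 hO6 hO7 hV hF hMo hC hEt hE k t _ f m R χ P hFM hmt hR hFR hχ hAb e he
  by_contra hcon
  push Not at hcon
  obtain ⟨⟨hP, h0⟩, h3P, hw⟩ := hAb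
  have hAb : AbP k t P := ⟨⟨hP, h0⟩, h3P, hw⟩
  have hf : Fok f := hFM.toFok
  have hf0 : 0 < f := hf.pos
  -- the level
  set M : ℕ := lev f m R with hMdef
  have hD0 : 0 < Dk k t := by
    have h1 := Dk_cast (k := k) (t := t)
    have h2 := hD8 (k := k) (t := t)
    omega
  have hD3 : (Dk k t).Coprime 3 := by
    refine Nat.isCoprime_iff_coprime.1 ?_
    rw [Dk_cast]
    rcases (SqT.out : (t = 1 ∧ 0 < k ∧ Squarefree (12 * k - 1)) ∨
      (t = 4 ∧ 2 ≤ k ∧ Squarefree (3 * k - 4) ∧ (3 * k - 4) % 4 ≠ 3)) with ⟨h, -⟩ | ⟨h, -⟩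
    · rw [h]
      exact ⟨-1, 4 * k, by push_cast; ring⟩
    · rw [h]
      exact ⟨-1, 4 * k - 5, by push_cast; ring⟩
  have hN3 : ∀ b : Ideal (OO k t), PrI b (sN k t (3 * f)) → (NI b).Coprime 3 := fun b hb =>
    (((hO6 k t).2.2.2.2.1 (3 * f) b).1 hb).coprime_mul_right_right
  have hN0 : ∀ b : Ideal (OO k t), b ≠ ⊥ → 0 < NI b := fun b hb =>
    Nat.pos_of_ne_zero fun h => hb (((hO2 k t).2.2.2.2.2.1 b).1 h)
  have hPi : (∏ b ∈ R, NI b).Coprime 3 :=
    Nat.Coprime.prod_left fun b hb => hN3 b (hFR b hb).2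
  have hPi0 : 0 < ∏ b ∈ R, NI b := Finset.prod_pos fun b hb => hN0 b (hFR b hb).1
  have hM3 : M.Coprime 3 := by
    rw [hMdef, lev]
    exact ((hD3.mul_left (hf.cop.pow_left 2))).mul_left (((hN3 m hFM.prm).mul_left hPi).pow_left 3)
  have hM0 : 0 < M := by
    rw [hMdef, lev]
    exact Nat.mul_pos (Nat.mul_pos hD0 (pow_pos hf0 2))
      (pow_pos (Nat.mul_pos (hN0 m hFM.ne) hPi0) 3)
  have hfM : f ∣ M := ⟨Dk k t * f * (NI m * ∏ b ∈ R, NI b) ^ 3, by rw [hMdef, lev]; ring⟩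
  have h4M : 4 ∣ M := hf.four.trans hfM
  have hM2 : 2 ≤ M := by
    have h1 := Nat.le_of_dvd hM0 h4M
    omega
  have hDM : 4 * Dk k t ∣ M := by
    obtain ⟨f', hf'⟩ := hf.four
    exact ⟨f' * f * (NI m * ∏ b ∈ R, NI b) ^ 3, by rw [hMdef, lev, hf']; ring⟩
  have hLv : IsLv f m R M := ⟨hM0, hM3, dvd_rfl⟩
  have hNZ : NeZero (3 * M) := ⟨by omega⟩
  obtain ⟨hCh, hCm⟩ := G1_ch hO6 hO7 hMo hC hE hf hχ hM2 hfM h4M hDM ⟨hP, h0⟩
  set ch : ℤ → Om := fun d => (eps k t d : Om) * (jacobiSym d 3 : Om) * χ (sp (d : OO k t)) with hch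
  obtain ⟨hV1, hPer, hV3, hV4⟩ := hV k t f M m R hFM hFR hR hLv χ hχ
  have hvp : ∀ r : ℚ, _root_.DI.V.QM M r → VP P (etaX f m R χ r) := fun r hr =>
    hV1 P hAb r (G1_den hr)
  have hvpS : ∀ r : ℚ, _root_.DI.V.QM M r → VP P (etE f m R χ e r) := fun r hr =>
    DI.F.vp_add hP (hvp r hr) (DI.F.vp_mul hP (DI.F.vp_intCast hP e) (hvp (-r) hr.neg))
  have hupp : UP P (χ (pp k t)) := (hEt k t f m R χ P hFM hR hFR hχ hAb).1
  let hh : ℚ → DI.F.RF hP h0 := fun r =>
    if _root_.DI.V.QM M r then DI.F.red hP h0 (etE f m R χ e r) else 0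
  have hhq : ∀ r : ℚ, _root_.DI.V.QM M r → hh r = DI.F.red hP h0 (etE f m R χ e r) :=
    fun r hr => if_pos hr
  have hcop : ∀ {a b c d : ℤ}, a * d - b * c = 1 → ((3 * M : ℕ) : ℤ) ∣ c →
      IsCoprime d ((3 * M : ℕ) : ℤ) := by
    intro a b c d hdet hc
    obtain ⟨c', rfl⟩ := hc
    exact ⟨a, -(b * c'), by linear_combination hdet⟩
  have h3M : Nat.Coprime 3 M := hM3.symm
  have h3q : ((3 : ℕ) : ℚ) = 3 := by norm_num
  have hqj : ∀ (r : ℚ) (j : ℕ), _root_.DI.V.QM M r → _root_.DI.V.QM M ((r + j) / 3) := by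
    intro r j hr
    have h1 : _root_.DI.V.QM M (r + j) := by
      have := hr.add hM2 (_root_.DI.V.QM.int (M := M) j)
      simpa using this
    have h2 : _root_.DI.V.QM M ((1 : ℚ) / 3) := ⟨1, 3, by exact_mod_cast Nat.isCoprime_iff_coprime.2 h3M,
      by norm_num⟩
    have h3 := h1.mul h2
    rwa [mul_one_div] at h3
  have hch3 : ((3 : ℕ) : DI.F.RF hP h0) = 0 := by
    have h4 := (DI.F.red_eq_zero_iff hP h0 (DI.F.mp_vp h3P)).2 h3P
    have h5 : DI.F.red hP h0 (3 : Om) = 3 := by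
      have h6 : (3 : Om) = 1 + (1 + 1) := by norm_num
      rw [h6, DI.F.red_add hP h0 (DI.F.vp_one hP) (DI.F.vp_add hP (DI.F.vp_one hP)
        (DI.F.vp_one hP)), DI.F.red_add hP h0 (DI.F.vp_one hP) (DI.F.vp_one hP), DI.F.red_one]
      norm_num
    rw [h5] at h4
    exact_mod_cast h4
  let X : _root_.DT.V.Sy 3 M (DI.F.RF hP h0) :=
    { h := hh
      ψ := G1_char hP h0 hCh
      α := DI.F.red hP h0 (χ (pp k t))
      prime := Nat.prime_three
      char := hch3
      cop := h3M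
      two := hM2
      α0 := fun h1 => hupp.2 ((DI.F.red_eq_zero_iff hP h0 hupp.1).1 h1)
      neg := by
        have h1 : (-1 : ZMod (3 * M)) = ((-1 : ℤ) : ZMod (3 * M)) := by push_cast; rfl
        rw [h1, G1_char_int hP h0 hCh isCoprime_one_left.neg_left]
        change DI.F.red hP h0 ((eps k t (-1) : Om) * (jacobiSym (-1) 3 : Om) *
          χ (sp ((-1 : ℤ) : OO k t))) = 1
        rw [hCm, DI.F.red_one]
      v1 := by
        intro a b c d hdet hc r hr
        have hcM : (M : ℤ) ∣ c := by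
          refine dvd_trans ?_ hc
          push_cast
          exact dvd_mul_left _ _
        have hq1 := _root_.DI.V.QM.mobZ hM2 hdet hcM hr
        have hq2 := _root_.DI.V.QM.mobZ hM2 hdet hcM (_root_.DI.V.QM.zero (M := M))
        rw [mul_zero, zero_add, mul_zero, zero_add] at hq2
        have hdM := hcop hdet hc
        have hχd : VP P (ch d) := hCh.vp d hdM
        have hc' : (3 * M : ℤ) ∣ c := by
          have := hc
          push_cast at this
          exact this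
        have hG : G0 (3 * M : ℤ) a b c d := ⟨hdet, hc'⟩
        have hG' : G0 (3 * M : ℤ) a (-b) (-c) d := ⟨by linear_combination hdet, hc'.neg_right⟩
        have e1 := (hV3 a b c d hG r (G1_den hr)).2.2
        have e2 := (hV3 a (-b) (-c) d hG' (-r) (G1_den hr.neg)).2.2
        have e3 : ((a : ℚ) * -r + ((-b : ℤ) : ℚ)) / (((-c : ℤ) : ℚ) * -r + d) =
            -((a * r + b) / (c * r + d)) := by
          push_cast
          rw [neg_mul_neg, ← neg_div]
          ring
        have e4 : ((-b : ℤ) : ℚ) / d = -(b / d) := by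
          push_cast
          rw [neg_div]
        rw [e3, e4] at e2
        rw [hhq _ hq1.2.2, hhq _ hr, hhq _ hq2.2.2, hhq _ _root_.DI.V.QM.zero,
          G1_char_int hP h0 hCh hdM,
          ← DI.F.red_mul hP h0 hχd (hvpS _ hr),
          ← DI.F.red_mul hP h0 hχd (hvpS _ _root_.DI.V.QM.zero),
          ← DI.F.red_sub hP h0 (hvpS _ hq1.2.2) (DI.F.vp_mul hP hχd (hvpS _ hr)),
          ← DI.F.red_sub hP h0 (hvpS _ hq2.2.2)
            (DI.F.vp_mul hP hχd (hvpS _ _root_.DI.V.QM.zero))]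
        congr 1
        have e5 : ch d = (eps k t d : Om) * (jacobiSym d 3 : Om) * χ (sp (d : OO k t)) := rfl
        rw [e5, G1_etE0]
        unfold etE
        linear_combination e1 + (e : Om) * e2
      v2 := by
        intro r hr
        have hr' := hr.neg
        have e1 := hV4 P hAb r (G1_den hr)
        have e2 := hV4 P hAb (-r) (G1_den hr')
        have hsum : ∑ j ∈ Finset.range 3, etE f m R χ e ((r + j) / 3) -
            χ (pp k t) * etE f m R χ e r =
            (∑ j ∈ Finset.range 3, etaX f m R χ ((r + j) / 3) - χ (pp k t) * etaX f m R χ r) +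
            (e : Om) * (∑ j ∈ Finset.range 3, etaX f m R χ ((-r + j) / 3) -
              χ (pp k t) * etaX f m R χ (-r)) := by
          have p1 := hPer (-((r + 1) / 3))
          have p2 := hPer (-((r + 2) / 3))
          have q1 : -((r + 1) / 3) + 1 = (-r + 2) / 3 := by ring
          have q2 : -((r + 2) / 3) + 1 = (-r + 1) / 3 := by ring
          have q0 : -(r / 3) = -r / 3 := by ring
          rw [q1] at p1
          rw [q2] at p2
          unfold etE
          rw [Finset.sum_range_succ, Finset.sum_range_succ, Finset.sum_range_one,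
            Finset.sum_range_succ, Finset.sum_range_succ, Finset.sum_range_one,
            Finset.sum_range_succ, Finset.sum_range_succ, Finset.sum_range_one]
          push_cast
          rw [add_zero, add_zero, p1, p2, q0]
          ring
        have e5 : MP P (∑ j ∈ Finset.range 3, etE f m R χ e ((r + j) / 3) -
            χ (pp k t) * etE f m R χ e r) := by
          rw [hsum]
          exact DI.F.mp_add hP e1 (DI.F.vp_mul_mp hP (DI.F.vp_intCast hP e) e2)
        have hq : ∀ j : ℕ, _root_.DI.V.QM M ((r + j) / ((3 : ℕ) : ℚ)) := by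
          intro j
          rw [h3q]
          exact hqj r j hr
        have e6 : ∑ j ∈ Finset.range 3, hh ((r + j) / ((3 : ℕ) : ℚ)) =
            DI.F.red hP h0 (∑ j ∈ Finset.range 3, etE f m R χ e ((r + j) / 3)) := by
          rw [DI.F.red_sum hP h0 _ _ fun j _ => hvpS _ (hqj r j hr)]
          refine Finset.sum_congr rfl fun j _ => ?_
          rw [hhq _ (hq j), h3q]
        rw [e6, hhq _ hr, ← DI.F.red_mul hP h0 hupp.1 (hvpS _ hr),
          DI.F.red_eq_iff hP h0 (DI.F.vp_sum hP _ _ fun j _ => hvpS _ (hqj r j hr))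
            (DI.F.vp_mul hP hupp.1 (hvpS _ hr))]
        exact e5
      v3 := by
        intro r hr
        have hr1 : _root_.DI.V.QM M (r + 1) := hr.add hM2 _root_.DI.V.QM.one
        rw [hhq _ hr, hhq _ hr1]
        have e1 : etE f m R χ e (r + 1) = etE f m R χ e r := by
          unfold etE
          have e2 := hPer (-(r + 1))
          have e3 : -(r + 1) + 1 = -r := by ring
          rw [e3] at e2
          rw [hPer, e2]
        rw [e1]
      van := by
        intro y hy hn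
        have hy1 : _root_.DI.V.QM M y := _root_.DT.V.AL.qm h3M hy
        obtain ⟨c, n, rfl⟩ := hy
        rw [h3q] at hn hy1 ⊢
        have h1 := hcon c n hn
        rw [hhq _ hy1]
        exact (DI.F.red_eq_zero_iff hP h0 (DI.F.mp_vp h1)).2 h1 }
  obtain ⟨a, b, c, d, hG, hd, hno⟩ := hF k t f M m R hFM hFR hR hLv hmt χ hχ e he P hAb
  have hG2 : ((3 * M : ℕ) : ℤ) ∣ c := by
    push_cast
    exact hG.2
  have hd2 : ((3 * M : ℕ) : ℤ) ∣ d - 1 := by
    push_cast
    exact hd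
  have hbd : IsCoprime b d := ⟨-c, a, by linear_combination hG.1⟩
  have hmain := _root_.DT.V.tV X (by norm_num) b d hbd hd2
  have hcM : (M : ℤ) ∣ c := (dvd_mul_left _ _).trans hG.2
  have hq2 := _root_.DI.V.QM.mobZ hM2 hG.1 hcM (_root_.DI.V.QM.zero (M := M))
  rw [mul_zero, zero_add, mul_zero, zero_add] at hq2
  have h3' : hh (b / d) = hh 0 := hmain
  rw [hhq _ hq2.2.2, hhq _ _root_.DI.V.QM.zero,
    DI.F.red_eq_iff hP h0 (hvpS _ hq2.2.2) (hvpS _ _root_.DI.V.QM.zero)] at h3'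
  apply hno
  have h4 : etaX f m R χ (b / d) + e * etaX f m R χ (-(b / d)) - (1 + e) * etaX f m R χ 0 =
      etE f m R χ e (b / d) - etE f m R χ e 0 := by
    rw [G1_etE0]
    unfold etE
    ring
  rw [h4]
  exact h3'

end Pool.Agent.DT.G
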