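import Pool.Agent.Lib.DT.G.Spec
import Pool.Agent.Lib.DT.GL.Tp

/-!
# Theorem DT, part G, module G7: the sum of `χ(c) D(u_N(c))` is not in `ℤ[χ]` modulo `1 - zet 3`
-/

set_option autoImplicit false

open scoped Pointwise

noncomputable section

namespace Pool.Agent.DT.G

open Pool.Agent.MuZ Pool.Agent.FW Pool.Agent.DT
open Pool.Agent.DI (io ofC io_inj exists_io io_ofC ofC_io VP MP UP TP ex)

private theorem G7_j1 (n : ℤ) (h : (3 : ℤ) ∣ n - 1) : jacobiSym n 3 = 1 := by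
  have h1 : n % 3 = 1 := by omega
  rw [jacobiSym.mod_left n 3]
  have h2 : n % ((3 : ℕ) : ℤ) = 1 := h1
  rw [h2, jacobiSym.one_left]

private theorem G7_j2 (n : ℤ) (h : (3 : ℤ) ∣ n + 1) : jacobiSym n 3 = -1 := by
  have h1 : n % 3 = 2 := by omega
  rw [jacobiSym.mod_left n 3]
  have h2 : n % ((3 : ℕ) : ℤ) = 2 := h1
  rw [h2]
  norm_num

private theorem G7_jc (n n' : ℤ) (h : (3 : ℤ) ∣ n - n') : jacobiSym n 3 = jacobiSym n' 3 := by
  rw [jacobiSym.mod_left n 3, jacobiSym.mod_left n' 3]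
  have h1 : n % ((3 : ℕ) : ℤ) = n' % ((3 : ℕ) : ℤ) := by
    have h2 : n % 3 = n' % 3 := by omega
    exact h2
  rw [h1]

theorem tG7 : S_G7 := by
  classical
  intro hO2 hO6 hO7 hO9 hZt hCop hMod hC0 hHN hEx hR2 hRS hHg hRayF hZn hSg hDU hChi hChX hFou2 hSNo
    k t _ f m χ P hFM hmt hχ hP
  have hPp : P.IsPrime := hP.1.1
  have hF : Fok f := hFM.toFok
  obtain ⟨⟨R, hR, hRb⟩, -, -⟩ := hR2 k t f hF
  obtain ⟨χ', e, he, hχ', hcmp⟩ := hChX k t f χ hF hχ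
  obtain ⟨σ, hσ⟩ := hSg k t f hF
  obtain ⟨N1, hN12, hN1⟩ := hSNo k t f m R χ' P hFM hmt hR hRb hχ' hP e he
  have hNm : ∀ b : Ideal (OO k t), PrI b (sN k t 3) → ¬ (3 : ℤ) ∣ (NI b : ℤ) := by
    intro b hb h
    have h1 := ((hO6 k t).2.2.2.2.1 3 b).1 hb
    have h2 : 3 ∣ NI b := by exact_mod_cast h
    have h3 := Nat.Coprime.eq_one_of_dvd h1.symm h2
    omega
  obtain ⟨_, _, _, _, _, _, hq0, hq3, _⟩ := hC0 k t f hF
  refine ⟨N1, hN12, ?_⟩
  intro N hN T hT D hD s hs hpsi κ hκ hcon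
  have hN2 : 2 ≤ N := hN12.trans hN
  have hN1' : 1 ≤ N := by omega
  obtain ⟨⟨hn3f, hnfN, hncnd, hncnN, _⟩, ⟨hle1, hle2, hle3, _, hle5, hle6, hle7, _⟩, hM3, _, _, hM6, _⟩ :=
    hMod k t f N hF hN1'
  have hm3 : ¬ (3 : ℤ) ∣ (NI m : ℤ) := hNm m (hM3 m hFM.prm).2.2.2.2.1
  set a : ℤ := q0 k t f * NI m with ha_def
  have ha : ¬ (3 : ℤ) ∣ a := by
    intro h
    rcases Int.Prime.dvd_mul' Nat.prime_three h with h1 | h1
    · exact hq3 h1
    · exact hm3 h1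
  have hac : IsCoprime ((3 : ℤ) ^ N) a :=
    IsCoprime.pow_left ((Int.prime_three.coprime_iff_not_dvd).2 ha)
  obtain ⟨hchi1, _, hchiH, _, hchiI, _, _⟩ := hChi k t f _ χ hF hn3f le_rfl hχ
  obtain ⟨_, _, _, hchi4, _, _, _⟩ := hChi k t f _ χ' hF hncnd hle3 hχ'
  have hχV : ∀ b, VP P (χ b) := fun b => DI.VP.integral (hchiI b)
  obtain ⟨E, hE⟩ := hEx k t (cnN k t f N) (fun v => v ∈ cnd k t f) hncnN (by
    intro v u h1 h2
    have h3 : v - u ∈ cnd k t f := (hle1.trans (hle2.trans hle3)) h1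
    have h4 := Ideal.sub_mem _ h2 h3
    rwa [sub_sub_cancel] at h4)
  have hσ2 : (σ : Om) * σ = 1 := by
    rcases hσ.1 with h | h <;> rw [h] <;> norm_num
  -- membership of the constant
  have hκ' : (σ : Om) * κ ∈ Algebra.adjoin ℤ (Set.range χ') := by
    have h1 : Algebra.adjoin ℤ (Set.range χ) ≤ Algebra.adjoin ℤ (Set.range χ') := by
      refine Algebra.adjoin_le ?_
      rintro _ ⟨b, rfl⟩
      by_cases hb : b = ⊥ ∨ ¬ PrI b (sN k t (3 * f))
      · rw [hχ.zero b hb]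
        exact zero_mem _
      · push Not at hb
        have h2 : χ' b ∈ Algebra.adjoin ℤ (Set.range χ') := Algebra.subset_adjoin ⟨b, rfl⟩
        have h3 := hNm b (hM3 b hb.2).2.2.2.2.1
        have h4 : (3 : ℤ) ∣ (NI b : ℤ) - 1 ∨ (3 : ℤ) ∣ (NI b : ℤ) + 1 := by omega
        rcases h4 with h4 | h4
        · have h5 := (hcmp b hb.1 hb.2).1 h4
          rw [SetLike.mem_coe, h5]
          exact h2
        · have h5 := (hcmp b hb.1 hb.2).2 h4
          rw [SetLike.mem_coe, h5]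
          exact mul_mem (neg_mem (intCast_mem _ e)) h2
    exact mul_mem (intCast_mem _ σ) (h1 hκ)
  apply hN1 N hN a ha ((σ : Om) * κ) hκ'
  rw [hFou2 k t f m R E χ' hFM hR hRb N a e hN1' hE]
  -- the function `G`
  set z : ℂ := zN k t f N with hz
  set G : Ideal (OO k t) → Om := fun b => χ b * ((jacobiSym (NI b : ℤ) 3 : ℤ) : Om) * gO m b z with hG
  -- step 1
  have hNI : ∀ (v : OO k t) (b : Ideal (OO k t)), (NI (sp v * b) : ℤ) = Nm v * NI b := by
    intro v b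
    rw [(hO2 k t).2.2.2.2.1, Nat.cast_mul, (hO2 k t).2.2.2.1]
  have hpp : ∀ b : Ideal (OO k t), PrI b (sN k t (3 * f)) → PrI b (ppb k t) := fun b hb =>
    (hM3 b hb).2.2.2.2.2.2.1
  have h3N : (3 : ℤ) ∣ 3 ^ N := dvd_pow_self 3 (by omega)
  have hc1 : ∀ (b : Ideal (OO k t)) (v : OO k t),
      ((3 : ℤ) ^ N ∣ q0 k t f * NI m * NI b * Nm v - a ↔ (3 : ℤ) ^ N ∣ NI b * Nm v - 1) := by
    intro b v
    have e1 : q0 k t f * NI m * NI b * Nm v - a = a * (NI b * Nm v - 1) := by rw [ha_def]; ring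
    rw [e1]
    exact ⟨fun h => hac.dvd_of_dvd_mul_left h, fun h => Dvd.dvd.mul_left h _⟩
  have hc2 : ∀ (b : Ideal (OO k t)) (v : OO k t),
      ((3 : ℤ) ^ N ∣ q0 k t f * NI m * NI b * Nm v - -a ↔ (3 : ℤ) ^ N ∣ NI b * Nm v + 1) := by
    intro b v
    have e1 : q0 k t f * NI m * NI b * Nm v - -a = a * (NI b * Nm v + 1) := by rw [ha_def]; ring
    rw [e1]
    exact ⟨fun h => hac.dvd_of_dvd_mul_left h, fun h => Dvd.dvd.mul_left h _⟩
  have hGx : ∀ b ∈ R, ∀ v ∈ E, Pm N (NI b * Nm (1 + v)) 1 →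
      G (sp (1 + v) * b) = (if (3 : ℤ) ^ N ∣ NI b * Nm (1 + v) - 1 then 1 else (e : Om)) *
        (χ' b * gO m b (toC (1 + v) * z)) := by
    intro b hb v hv hp
    have hb0 := (hRb b hb).1
    have hb3 := (hRb b hb).2
    have hvc : v ∈ cnd k t f := hE.mem v hv
    have hv3 : ¬ (3 : ℤ) ∣ Nm (1 + v) := by
      intro h4
      have h5 : (3 : ℤ) ∣ NI b * Nm (1 + v) := Dvd.dvd.mul_left h4 _
      rcases hp with h | h
      · have h6 := (dvd_sub_right h5).1 (h3N.trans h)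
        omega
      · have h6 := (dvd_add_right h5).1 (h3N.trans h)
        omega
    have hv0 : (1 + v : OO k t) ≠ 0 := by
      intro h0
      rw [h0, Nm_zero] at hv3
      exact hv3 (dvd_zero _)
    have hPv3 : PrI (sp (1 + v)) (sN k t 3) := by
      rw [(hO6 k t).2.2.2.2.2.1]
      exact ((Int.prime_three.coprime_iff_not_dvd).2 hv3).symm
    have hPvc : PrI (sp (1 + v)) (cnd k t f) := by
      refine (hCop k t).2.2.2.1 1 (1 + v) _ ?_ ((hCop k t).2.2.2.2.1 _).1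
      rw [sub_add_cancel_left]
      exact neg_mem hvc
    have hPv : PrI (sp (1 + v)) (sN k t (3 * f)) := hM6 _ hPvc hPv3
    have hx0 : sp (1 + v) * b ≠ ⊥ := by
      intro h
      rcases Ideal.mul_eq_bot.1 h with h1 | h1
      · exact hv0 (Ideal.span_singleton_eq_bot.1 h1)
      · exact hb0 h1
    have hPx : PrI (sp (1 + v) * b) (sN k t (3 * f)) := ((hO6 k t).1 _ _ _).2 ⟨hPv, hb3⟩
    have hg : gO m (sp (1 + v) * b) z = gO m b (toC (1 + v) * z) :=
      (hHg k t m b hFM.ne hb0 (hpp b hb3)).1 (1 + v) z hv0 (by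
        rw [add_sub_cancel_left]
        exact hle5 hvc)
    have hx' : χ' (sp (1 + v) * b) = χ' b := by
      rw [hχ'.mul, hchi4 (1 + v) hv0 (by rw [add_sub_cancel_left]; exact hvc), one_mul]
    have hnx := hNI (1 + v) b
    have hGe : G (sp (1 + v) * b) = χ (sp (1 + v) * b) *
        ((jacobiSym (NI (sp (1 + v) * b) : ℤ) 3 : ℤ) : Om) * gO m (sp (1 + v) * b) z := rfl
    rw [hGe, hg, hnx, mul_comm (Nm (1 + v)) (NI b : ℤ)]
    rcases hp with h | h
    · rw [if_pos h]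
      have h1 : (3 : ℤ) ∣ (NI (sp (1 + v) * b) : ℤ) - 1 := by
        rw [hnx, mul_comm]
        exact h3N.trans h
      rw [(hcmp _ hx0 hPx).1 h1, hx', G7_j1 _ (h3N.trans h)]
      push_cast
      ring
    · have h0 : ¬ (3 : ℤ) ^ N ∣ NI b * Nm (1 + v) - 1 := by
        intro h1
        have h2 := dvd_sub (h3N.trans h) (h3N.trans h1)
        omega
      rw [if_neg h0]
      have h1 : (3 : ℤ) ∣ (NI (sp (1 + v) * b) : ℤ) + 1 := by
        rw [hnx, mul_comm]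
        exact h3N.trans h
      rw [(hcmp _ hx0 hPx).2 h1, hx', G7_j2 _ (h3N.trans h)]
      push_cast
      ring
  have hstep1 : SSN f m N R E χ' a + e * SSN f m N R E χ' (-a) =
      ∑ b ∈ R, ∑ v ∈ E, if Pm N (NI b * Nm (1 + v)) 1 then G (sp (1 + v) * b) else 0 := by
    unfold SSN
    rw [Finset.mul_sum, ← Finset.sum_add_distrib]
    refine Finset.sum_congr rfl fun b hb => ?_
    rw [Finset.mul_sum, Finset.mul_sum, Finset.mul_sum, ← Finset.sum_add_distrib]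
    refine Finset.sum_congr rfl fun v hv => ?_
    rw [if_congr (hc1 b (1 + v)) rfl rfl, if_congr (hc2 b (1 + v)) rfl rfl]
    by_cases hp : Pm N (NI b * Nm (1 + v)) 1
    · rw [if_pos hp, hGx b hb v hv hp]
      by_cases h1 : (3 : ℤ) ^ N ∣ NI b * Nm (1 + v) - 1
      · have h2 : ¬ (3 : ℤ) ^ N ∣ NI b * Nm (1 + v) + 1 := by
          intro h2
          have h3 := dvd_sub (h3N.trans h2) (h3N.trans h1)
          omega
        rw [if_pos h1, if_neg h2, if_pos h1]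
        ring
      · have h2 : (3 : ℤ) ^ N ∣ NI b * Nm (1 + v) + 1 := by
          rcases hp with h | h
          · exact absurd h h1
          · exact h
        rw [if_neg h1, if_pos h2, if_neg h1]
        ring
    · have h1 : ¬ (3 : ℤ) ^ N ∣ NI b * Nm (1 + v) - 1 := fun h => hp (Or.inl h)
      have h2 : ¬ (3 : ℤ) ^ N ∣ NI b * Nm (1 + v) + 1 := fun h => hp (Or.inr h)
      rw [if_neg hp, if_neg h1, if_neg h2]
      ring
  -- the class function
  have hcl : ∀ b b' : Ideal (OO k t), CN f N b → CN f N b' → Ray (cnN k t f N) b b' → G b = G b' := by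
    intro b b' hb hb' hr
    have hr3 : Ray (sN k t (3 * f)) b b' :=
      (hO7 k t (cnN k t f N) hncnN).2.2.2.2.2.2.1 _ b b' (hle1.trans hle2) hr
    have h1 : χ b = χ b' := hχ.ray b b' hb.1 hb'.1 hb.2.1 hb'.2.1 hr3
    have h2 : jacobiSym (NI b : ℤ) 3 = jacobiSym (NI b' : ℤ) 3 := by
      refine G7_jc _ _ ?_
      have h3 := hO9 k t (3 * f) (by have := hF.pos; omega) b b' hr3
      refine dvd_trans ?_ h3
      push_cast
      exact dvd_mul_right _ _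
    have h4 := hRayF k t (cnN k t f N) Om (gO m) hncnN hle6
      (fun b α z hb hpb hα hα1 => (hHg k t m b hFM.ne hb hpb).1 α z hα hα1)
      (fun b z l hb hpb hl => (hHg k t m b hFM.ne hb hpb).2 z l hl) b b' hb.1 (hpp b hb.2.1) hr z
      ((hZn k t f N hF).2.1)
    change χ b * ((jacobiSym (NI b : ℤ) 3 : ℤ) : Om) * gO m b z =
      χ b' * ((jacobiSym (NI b' : ℤ) 3 : ℤ) : Om) * gO m b' z
    rw [h1, h2, h4]
  rw [hstep1, hRS k t f N R E T D hF hN1' hR hRb hE hT hD G hcl]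
  -- the second system
  have hstep2 : ∑ c ∈ D, ∑ h ∈ T, G (sp h * c) =
      ∑ c ∈ D, χ c * (((jacobiSym (NI c : ℤ) 3 : ℤ) : Om) * ∑ h ∈ T, gO m c (toC h * z)) := by
    refine Finset.sum_congr rfl fun c hc => ?_
    rw [← mul_assoc, Finset.mul_sum]
    refine Finset.sum_congr rfl fun h hh => ?_
    have h1 := hT.mem h hh
    obtain ⟨_, _, _, _, _, _, _, hHf, _⟩ := hHN k t f N hF hN1'
    obtain ⟨hh0, _, _, hhb, _, hhN⟩ := hHf h h1.1
    have h2 : χ (sp h * c) = χ c := by rw [hχ.mul, hchiH h h1.1, one_mul]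
    have h3 : jacobiSym (NI (sp h * c) : ℤ) 3 = jacobiSym (NI c : ℤ) 3 := by
      refine G7_jc _ _ ?_
      rw [hNI]
      have h4 : Nm h * (NI c : ℤ) - NI c = (Nm h - 1) * NI c := by ring
      rw [h4]
      exact Dvd.dvd.mul_right hhN _
    have h4 : gO m (sp h * c) z = gO m c (toC h * z) :=
      (hHg k t m c hFM.ne (hD.mem c hc).1 (hpp c (hD.mem c hc).2.1)).1 h z hh0 hhb
    change χ (sp h * c) * ((jacobiSym (NI (sp h * c) : ℤ) 3 : ℤ) : Om) * gO m (sp h * c) z = _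
    rw [h2, h3, h4]
  rw [hstep2]
  have hstep3 : TP P (1 - zet 3) (∑ c ∈ D, χ c * (Dw s (uN f N m T c) -
      (σ : Om) * ((jacobiSym (NI c : ℤ) 3 : ℤ) : Om) * ∑ h ∈ T, gO m c (toC h * z))) := by
    refine GL.tp_sum _ _ _ fun c hc => GL.tp_mul (hχV c) ?_
    exact (hDU k t f m N T P σ hFM hN2 hT hP hσ s hs hpsi c (hD.mem c hc).1 (hD.mem c hc).2.1).2.2
  have hfin : ∑ c ∈ D, χ c * (((jacobiSym (NI c : ℤ) 3 : ℤ) : Om) * ∑ h ∈ T, gO m c (toC h * z)) -
      (σ : Om) * κ = (σ : Om) * ((∑ c ∈ D, χ c * Dw s (uN f N m T c) - κ) -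
      ∑ c ∈ D, χ c * (Dw s (uN f N m T c) -
      (σ : Om) * ((jacobiSym (NI c : ℤ) 3 : ℤ) : Om) * ∑ h ∈ T, gO m c (toC h * z))) := by
    have e1 : ∑ c ∈ D, χ c * (Dw s (uN f N m T c) -
        (σ : Om) * ((jacobiSym (NI c : ℤ) 3 : ℤ) : Om) * ∑ h ∈ T, gO m c (toC h * z)) =
        ∑ c ∈ D, χ c * Dw s (uN f N m T c) - (σ : Om) * ∑ c ∈ D, χ c *
          (((jacobiSym (NI c : ℤ) 3 : ℤ) : Om) * ∑ h ∈ T, gO m c (toC h * z)) := by
      rw [Finset.mul_sum, ← Finset.sum_sub_distrib]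
      exact Finset.sum_congr rfl fun c _ => by ring
    rw [e1]
    linear_combination (-(∑ c ∈ D, χ c *
          (((jacobiSym (NI c : ℤ) 3 : ℤ) : Om) * ∑ h ∈ T, gO m c (toC h * z)))) * hσ2
  rw [hfin]
  exact GL.tp_mul (DI.VP.int σ) (GL.tp_sub hcon hstep3)

end Pool.Agent.DT.G
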