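import Pool.Agent.Lib.DT.G.Spec

/-!
# Theorem DT, part G, module Hg: homogeneity of the numbers `g(b, z)`
-/

set_option autoImplicit false

open scoped Pointwise

noncomputable section

namespace Pool.Agent.DT.G

open Pool.Agent.MuZ Pool.Agent.FW Pool.Agent.DT
open Pool.Agent.DI (io ofC io_inj exists_io io_ofC ofC_io VP MP UP TP ex)

/-- The cancellation in the quotient defining `gC`. -/
private theorem Hg_alg (c u v n r : ℂ) (hc : c ≠ 0) :
    (c * u - n * (c * v)) / (c * r) = (u - n * v) / r := by
  have h1 : c * u - n * (c * v) = c * (u - n * v) := by ring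
  rw [h1, mul_div_mul_left _ _ hc]

/-- Module Hg. -/
theorem tHg : S_Hg := by
  intro h7 h10 h12 k t _ m b hm hb hp
  have hmb : m * b ≠ ⊥ := mul_ne_zero hm hb
  refine ⟨?_, ?_⟩
  · intro α z hα h1
    have e1 := (((h7 k t b hb).1 α hα).1 z).2.2
    have e2 := (((h7 k t (m * b) hmb).1 α hα).1 z).2.2
    have e3 := (h12 k t b hb hp).2.2.2.2.2.1 α hα h1
    have e4 : m * (sp α * b) = sp α * (m * b) := mul_left_comm m (sp α) b
    have e5 : gC m (sp α * b) z = gC m b (toC α * z) := by
      unfold gC
      rw [e4, e1, e2, e3]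
      exact Hg_alg _ _ _ _ _ (toC_ne hα)
    unfold gO
    rw [e5]
  · intro z l hl
    have e1 := (h10 k t b hb).2.1 z l hl
    have e2 := (h10 k t (m * b) hmb).2.1 z l (lam_mono hl)
    have e5 : gC m b (z + l) = gC m b z := by
      unfold gC
      rw [e1, e2]
    unfold gO
    rw [e5]

end Pool.Agent.DT.G
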