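import Pool.Agent.Lib.DT.G.Spec

/-!
# Theorem DT, part G, module Inr: inertia at `P` acts trivially on `Mf`
-/

set_option autoImplicit false

open scoped Pointwise

noncomputable section

namespace Pool.Agent.DT.G

open Pool.Agent.MuZ Pool.Agent.FW Pool.Agent.DT
open Pool.Agent.DI (io ofC io_inj exists_io io_ofC ofC_io VP MP UP TP ex)

variable {k t : ℕ}

private theorem Inr_GK [hs : SqT k t] {P : Ideal ZZ} (hP : AbP k t P) {τ : Gal(Om/ℚ)}
    (hτ : τ ∈ P.inertia Gal(Om/ℚ)) : τ ∈ GK k t := by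
  obtain ⟨⟨hP1, hP2⟩, h3, hw⟩ := hP
  rw [mem_GK_iff]
  have e1 : wO k t ^ 2 = t * wO k t - 3 * k := wO_sq
  have e2 : τ (wO k t) ^ 2 = t * τ (wO k t) - 3 * k := by
    have := congrArg τ e1
    rw [map_pow, map_sub, map_mul, map_mul, map_natCast, map_natCast, map_ofNat] at this
    exact this
  have e3 : (τ (wO k t) - wO k t) * (τ (wO k t) + wO k t - t) = 0 := by
    linear_combination e2 - e1
  rcases mul_eq_zero.1 e3 with h | h
  · exact sub_eq_zero.1 h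
  · exfalso
    have hm : MP P (τ (wO k t) - wO k t) := DI.VP.inertia hτ hw.vp
    have e4 : τ (wO k t) - wO k t + wO k t + wO k t = (t : Om) := by
      linear_combination h
    have ht : MP P (t : Om) := by
      rw [← e4]
      exact (hm.add hw).add hw
    have h1 : MP P (1 : Om) := by
      rcases hs.out with ⟨rfl, -⟩ | ⟨rfl, -⟩
      · simpa using ht
      · have e5 : (1 : Om) = ((4 : ℕ) : Om) - 3 := by norm_num
        rw [e5]
        exact ht.sub h3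
    exact DI.MP.one_not h1

theorem tInr : S_Inr := by
  intro hO2 hO4 hO6 hO7 hO9 hE1 hE4 hE6 hGM hZt hCop hMod hHNf hRUp k t _ f P hf hP τ hτ hz
  have hG : τ ∈ GK k t := Inr_GK hP hτ
  refine ⟨hG, ?_⟩
  obtain ⟨⟨m1, m2, m3, m4, m5⟩, ⟨n1, n2, n3, n4, n5, n6, n7, n8, n9, n10, n11⟩, -⟩ :=
    hMod k t f 1 hf le_rfl
  obtain ⟨o1, o2, o3, o4, o5, o6, o7, o8, o9, o10, o11, o12⟩ := hO4 k t
  obtain ⟨p1, p2, p3, p4, p5, p6, p7, p8⟩ := hO6 k t
  have hpos : 0 < 3 * f := by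
    have := hf.pos
    omega
  obtain ⟨a, ha, haF⟩ := (hE1 k t _ m1).1 τ hG (3 * f) hpos
  have hac : Psi τ (cnd k t f) a := (hE1 k t _ m1).2.2.2.2 τ _ a ha n3
  have hcp : PrI (pp k t) (cnd k t f) := by
    refine (p2 _ _ _).2 ⟨?_, o8⟩
    rw [p5, o6]
    exact (Nat.coprime_comm.1 hf.cop)
  have htop : Psi τ (cnd k t f) (⊤ : Ideal (OO k t)) :=
    ((hE4 k t P hP.1 τ hG hτ).1 _ m3).1 hP ((p3 _ _).1 hcp)
  have hray : Ray (cnd k t f) a ⊤ := (hE1 k t _ m3).2.1 τ a ⊤ hac htop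
  obtain ⟨β, hβ0, hβ1, hβ2, hβ3⟩ := hRUp k t (cnd k t f) (sN k t (3 * f)) ⊤ a m1 n3 top_ne_bot ha.ne
    ((hCop k t).2.2.2.2.1 _).2 haF hray
  rw [Ideal.mul_top] at hβ3
  have ha3 : Psi τ (sN k t 3) a := (hE1 k t _ m1).2.2.2.2 τ _ a ha n7
  have hpr : IsPrimitiveRoot (zet 3) 3 := hZt.1 3 (by norm_num)
  have e1 : τ (zet 3) = zet 3 ^ NI a := hE6 k t τ 3 a hG (by norm_num) ha3 _ hpr.pow_eq_one
  have d1 : (3 : ℤ) ∣ (NI a : ℤ) - 1 := by
    rw [hz] at e1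
    have hN0 : NI a ≠ 0 := fun h => ha.ne (((hO2 k t).2.2.2.2.2.1 a).1 h)
    obtain ⟨n, hn⟩ := Nat.exists_eq_succ_of_ne_zero hN0
    rw [hn, Nat.succ_eq_add_one, pow_succ] at e1
    have hz0 : zet 3 ≠ 0 := hpr.ne_zero (by norm_num)
    have e2 : zet 3 ^ n = 1 := by
      have : (zet 3 ^ n - 1) * zet 3 = 0 := by linear_combination -e1
      rcases mul_eq_zero.1 this with h | h
      · exact sub_eq_zero.1 h
      · exact absurd h hz0
    obtain ⟨c, hc⟩ := (hpr.pow_eq_one_iff_dvd n).1 e2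
    rw [hn, hc]
    exact ⟨c, by push_cast; ring⟩
  have d2 : (3 : ℤ) ∣ (NI a : ℤ) - NI (sp β) :=
    hO9 k t 3 (by norm_num) a (sp β) ((hO7 k t _ m1).2.2.2.2.2.2.1 _ _ _ n7 hβ3)
  rw [(hO2 k t).2.2.2.1 β] at d2
  have d3 : (3 : ℤ) ∣ Nm β - 1 := by
    have := dvd_sub d1 d2
    have e : (NI a : ℤ) - 1 - ((NI a : ℤ) - Nm β) = Nm β - 1 := by ring
    rwa [e] at this
  have hpp : β - 1 ∈ pp k t := ((hCop k t).2.2.2.2.2.2.2.2.1 β (n5 hβ1)).1.1 d3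
  have hF : β - 1 ∈ sN k t (3 * f) := by
    have e : sN k t (3 * f) = pp k t ⊓ cnd k t f := by
      rw [← Ideal.mul_eq_inf_of_coprime hcp]
      have e' : ((3 * f : ℕ) : OO k t) = (f : OO k t) * ((3 : ℕ) : OO k t) := by
        rw [Nat.mul_comm, Nat.cast_mul]
      change Ideal.span {((3 * f : ℕ) : OO k t)} = pp k t * (Ideal.span {(f : OO k t)} * ppb k t)
      rw [e', ← Ideal.span_singleton_mul_span_singleton]
      have e'' : Ideal.span {((3 : ℕ) : OO k t)} = pp k t * ppb k t := o1.symm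
      rw [e'']
      ac_rfl
    rw [e]
    exact ⟨hpp, hβ1⟩
  have hHf : Hf f β := (hHNf k t f 1 hf le_rfl).2.2.2.1 1 β hF (hHNf k t f 1 hf le_rfl).1.1
  exact ((hGM k t f hf).2.2.2.2.2.1 τ hG a ha).2 ⟨β, hβ0, hHf, hβ3⟩

end Pool.Agent.DT.G
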