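import Pool.Agent.Lib.DT.G.Spec

/-!
# Theorem DT, part G, module R2: representatives of ray classes prime to `3 f`; independence
-/

set_option autoImplicit false

open scoped Pointwise

noncomputable section

namespace Pool.Agent.DT.G

open Pool.Agent.MuZ Pool.Agent.FW Pool.Agent.DT
open Pool.Agent.DI (io ofC io_inj exists_io io_ofC ofC_io VP MP UP TP ex)

private lemma R2_conv {k t : ℕ} {n : Ideal (OO k t)} {R : Finset (Ideal (OO k t))}
    (h : IsRC n R) : IsRI n (fun b => b ≠ ⊥ ∧ PrI b n) R :=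
  ⟨h.mem, fun b hb => h.ex b hb.1 hb.2, h.uni⟩

theorem tR2 : S_R2 := by
  intro h6 h7 h8 hMod hRI k t _ f hf
  classical
  obtain ⟨hP1, hP2, -, hP4, -⟩ := h6 k t
  obtain ⟨⟨-, -, hc0, -, -⟩, -⟩ := hMod k t f 1 hf le_rfl
  have hf0 : 0 < f := by
    rcases Nat.eq_zero_or_pos f with h | h
    · exfalso
      apply hc0
      unfold cnd sN
      rw [h, Nat.cast_zero, Ideal.span_singleton_zero]
      exact Ideal.bot_mul _
    · exact h
  obtain ⟨hrefl, hsymm, htrans, hmul, hcan, -, -, -, hinv, R0, hR0⟩ := h7 k t (cnd k t f) hc0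
  have hsec : ∀ R R' : Finset (Ideal (OO k t)), IsRC (cnd k t f) R → IsRC (cnd k t f) R' →
      ∀ F : Ideal (OO k t) → Om,
      (∀ b b' : Ideal (OO k t), FB f b → FB f b' → Ray (cnd k t f) b b' → F b = F b') →
      ∑ b ∈ R, F b = ∑ b ∈ R', F b := by
    intro R R' hR hR' F hF
    exact hRI k t (cnd k t f) (fun b => b ≠ ⊥ ∧ PrI b (cnd k t f)) R R' Om F hc0 (R2_conv hR)
      (R2_conv hR') (fun b b' h1 h2 h3 => hF b b' ⟨h1.1, h1.2⟩ ⟨h2.1, h2.2⟩ h3)
  refine ⟨?_, hsec, ?_⟩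
  · have hch : ∀ b : Ideal (OO k t), ∃ b' : Ideal (OO k t), b ∈ R0 →
        b' ≠ ⊥ ∧ PrI b' (sN k t (3 * f)) ∧ Ray (cnd k t f) b b' := by
      intro b
      by_cases hb : b ∈ R0
      · obtain ⟨h1, h2⟩ := hR0.mem b hb
        obtain ⟨b', h3, h4, -, h5⟩ := h8 k t (cnd k t f) (3 * f) hc0 (by omega) (fun _ => True)
          trivial (fun _ _ _ _ => trivial) (fun _ _ _ _ => trivial) b h1 h2
        refine ⟨b', fun _ => ⟨h3, hP4 b' _ _ ?_ h4, h5⟩⟩
        refine Ideal.span_singleton_le_span_singleton.2 ?_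
        push_cast
        exact Dvd.intro_left _ rfl
      · exact ⟨⊤, fun h => absurd h hb⟩
    choose c hc using hch
    refine ⟨R0.image c, ⟨?_, ?_, ?_⟩, ?_⟩
    · intro b hb
      obtain ⟨b0, hb0, rfl⟩ := Finset.mem_image.1 hb
      obtain ⟨h1, h2, h3⟩ := hc b0 hb0
      refine ⟨h1, hP4 _ _ _ ?_ h2⟩
      obtain ⟨-, ⟨-, -, h4, -⟩, -⟩ := hMod k t f 1 hf le_rfl
      exact h4
    · intro b hb hb'
      obtain ⟨b0, hb0, h1⟩ := hR0.ex b hb hb'
      exact ⟨c b0, Finset.mem_image_of_mem c hb0, htrans _ _ _ h1 (hc b0 hb0).2.2⟩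
    · intro b hb b' hb' h
      obtain ⟨b0, hb0, rfl⟩ := Finset.mem_image.1 hb
      obtain ⟨b1, hb1, rfl⟩ := Finset.mem_image.1 hb'
      have h1 : Ray (cnd k t f) b0 b1 :=
        htrans _ _ _ (htrans _ _ _ (hc b0 hb0).2.2 h) (hsymm _ _ (hc b1 hb1).2.2)
      rw [hR0.uni b0 hb0 b1 hb1 h1]
    · intro b hb
      obtain ⟨b0, hb0, rfl⟩ := Finset.mem_image.1 hb
      exact ⟨(hc b0 hb0).1, (hc b0 hb0).2.1⟩
  · intro R hR a haF F hF
    have ha : a ≠ ⊥ := haF.1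
    have ha' : PrI a (cnd k t f) := haF.2
    have hcan' : ∀ b b' : Ideal (OO k t), Ray (cnd k t f) (a * b) (a * b') →
        Ray (cnd k t f) b b' := by
      intro b b' h
      apply hcan b b' a ha ha'
      rwa [mul_comm b a, mul_comm b' a]
    have hinj : ∀ b ∈ R, ∀ b' ∈ R, a * b = a * b' → b = b' := by
      intro b hb b' hb' h
      apply hR.uni b hb b' hb'
      apply hcan'
      rw [h]
      exact hrefl _
    have h1 : ∑ b ∈ R, F (a * b) = ∑ b ∈ R.image (fun b => a * b), F b := by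
      rw [Finset.sum_image]
      intro b hb b' hb' h
      exact hinj b hb b' hb' h
    rw [h1]
    refine hsec _ _ ⟨?_, ?_, ?_⟩ hR F hF
    · intro b hb
      obtain ⟨b0, hb0, rfl⟩ := Finset.mem_image.1 hb
      obtain ⟨h2, h3⟩ := hR.mem b0 hb0
      exact ⟨fun h => (Ideal.mul_eq_bot.1 h).elim ha h2, (hP1 _ _ _).2 ⟨ha', h3⟩⟩
    · intro b hb hb'
      obtain ⟨a', h2, h3, h4⟩ := hinv a ha ha'
      obtain ⟨b1, hb1, h5⟩ := hR.ex (a' * b) (fun h => (Ideal.mul_eq_bot.1 h).elim h2 hb)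
        ((hP1 _ _ _).2 ⟨h3, hb'⟩)
      refine ⟨a * b1, Finset.mem_image_of_mem _ hb1, ?_⟩
      have h6' : Ray (cnd k t f) (a * (a' * b)) (a * b1) := hmul _ _ _ _ (hrefl a) h5
      have h7' : Ray (cnd k t f) (a * a' * b) (⊤ * b) := hmul _ _ _ _ h4 (hrefl b)
      rw [mul_assoc, Ideal.top_mul] at h7'
      exact htrans _ _ _ (hsymm _ _ h7') h6'
    · intro b hb b' hb' h
      obtain ⟨b0, hb0, rfl⟩ := Finset.mem_image.1 hb
      obtain ⟨b1, hb1, rfl⟩ := Finset.mem_image.1 hb'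
      rw [hR.uni b0 hb0 b1 hb1 (hcan' _ _ h)]

end Pool.Agent.DT.G
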