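import Pool.Agent.Lib.DT.G.Spec

/-!
# Theorem DT, part G: ray classes modulo `cnN N`, first system
-/

set_option autoImplicit false

open scoped Pointwise

noncomputable section

namespace Pool.Agent.DT.G

open Pool.Agent.MuZ Pool.Agent.FW Pool.Agent.DT
open Pool.Agent.DI (io ofC io_inj exists_io io_ofC ofC_io VP MP UP TP ex)

private theorem RB_three {N : ℕ} (hN : 1 ≤ N) {a b : ℤ} (h : Pm N (a * b) 1) : ¬ (3 : ℤ) ∣ b := by
  intro hb
  have h2 : (3 : ℤ) ∣ 3 ^ N := dvd_pow_self 3 (by omega)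
  have hab : (3 : ℤ) ∣ a * b := hb.mul_left a
  rcases h with h | h
  · have h3 := h2.trans h
    have h4 : (3 : ℤ) ∣ 1 := by
      have := dvd_sub hab h3
      rwa [sub_sub_cancel] at this
    norm_num at h4
  · have h3 := h2.trans h
    have h4 : (3 : ℤ) ∣ 1 := by
      have := dvd_sub h3 hab
      rwa [add_sub_cancel_left] at this
    norm_num at h4

theorem tRB : S_RB := by
  intro hO2 hO4 hO6 hO7 hO9 hCop hMod hRUp k t _ f N R E hf hN hR hR2 hE I hI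
  have hf0 : 0 < f := hf.pos
  have hM0 : 0 < f * 3 ^ N := Nat.mul_pos hf0 (pow_pos (by norm_num) N)
  obtain ⟨o1, o2, o3, o4, o5, o6, o7, o8⟩ := hO6 k t
  obtain ⟨n1, n2, n3, n4, n5, n6, n7, n8⟩ := hO2 k t
  obtain ⟨c1, c2, c3, c4, c5, c6, c7, c8, c9, c10⟩ := hCop k t
  obtain ⟨⟨m11, m12, m13, m14, m15⟩, ⟨m21, m22, m23, m24, m25, m26, m27, m28, m29, m2a, m2b⟩,
    m3, m4, m5, m6, m7, m8, m9⟩ := hMod k t f N hf hN
  obtain ⟨r1, r2, r3, r4, r5, r6, r7, r8, r9, r10⟩ := hO7 k t (cnN k t f N) m14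
  obtain ⟨q1, q2, q3, q4, q5, q6, q7, q8, q9, q10⟩ := hO7 k t (cnd k t f) m13
  have hpb : ∀ v : OO k t, v ∈ ppb k t ↔ (3 : ℤ) ∣ v.re + v.im := (hO4 k t).2.2.2.2.2.2.2.2.2.2.2
  -- norms
  have hNI : ∀ (v : OO k t) (b : Ideal (OO k t)), (NI (sp v * b) : ℤ) = NI b * Nm v := by
    intro v b
    rw [n5, Nat.cast_mul, n4, mul_comm]
  -- elements of `E`
  have hEd : ∀ e ∈ E, (1 + e) - 1 ∈ cnd k t f := by
    intro e he
    rw [add_sub_cancel_left]
    exact hE.mem e he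
  have hcd : ∀ e ∈ E, PrI (sp (1 + e)) (cnd k t f) := by
    intro e he
    refine c4 1 (1 + e) _ ?_ (c5 _).1
    rw [← neg_sub]
    exact neg_mem (hEd e he)
  have hc : ∀ p ∈ I, PrI (sp (1 + p.2)) (sN k t (3 * f)) := by
    intro p hp
    refine m6 _ (hcd _ ((hI p).1 hp).2.1) ?_
    rw [o6]
    have h3 := RB_three hN ((hI p).1 hp).2.2
    exact (Int.prime_three.coprime_iff_not_dvd.2 h3).symm
  have hne : ∀ e : OO k t, PrI (sp (1 + e)) (ppb k t) → 1 + e ≠ 0 := by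
    intro e he h
    have := (c6 (1 + e)).2.2.1 he
    rw [h] at this
    exact this (ppb k t).zero_mem
  have hcore : ∀ p ∈ I, ∀ q ∈ I, Ray (cnN k t f N) (sp (1 + p.2) * p.1) (sp (1 + q.2) * q.1) →
      p = q := by
    intro p hp q hq h
    obtain ⟨hp1, hp2, hp3⟩ := (hI p).1 hp
    obtain ⟨hq1, hq2, hq3⟩ := (hI q).1 hq
    have hp0 := hne _ (m3 _ (hc p hp)).2.2.2.2.2.2.1
    have hq0 := hne _ (m3 _ (hc q hq)).2.2.2.2.2.2.1
    have hone : ∀ (e : OO k t) (b : Ideal (OO k t)), e ∈ E → 1 + e ≠ 0 →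
        Ray (cnd k t f) (sp (1 + e) * b) b := by
      intro e b he h0
      have h1 : Ray (cnd k t f) (sp (1 + e)) (sp 1) :=
        (q8 _ _ h0 one_ne_zero (hcd e he) (c5 _).1).2 (Or.inl (hEd e he))
      have h2 := q4 _ _ _ _ h1 (q1 b)
      have h3 : sp (1 : OO k t) * b = b := by
        rw [sp, Ideal.span_singleton_one, Ideal.top_mul]
      rwa [h3] at h2
    have hb : p.1 = q.1 := by
      refine hR.uni _ hp1 _ hq1 ?_
      exact q3 _ _ _ (q2 _ _ (hone p.2 p.1 hp2 hp0)) (q3 _ _ _ (r7 _ _ _ m2a h)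
        (hone q.2 q.1 hq2 hq0))
    rw [← hb] at h
    have h1 := r5 _ _ _ (hR.mem _ hp1).1 (m3 _ (hR2 _ hp1).2).1 h
    have h2 := (r8 _ _ hp0 hq0 (m3 _ (hc p hp)).1 (m3 _ (hc q hq)).1).1 h1
    have h3 : (1 + p.2) - (1 + q.2) ∈ cnN k t f N := by
      refine h2.resolve_right fun h3 => ?_
      have h4 : (1 + p.2) + (1 + q.2) ∈ ppb k t := m26 h3
      have h5 : p.2 ∈ ppb k t := m25 (hE.mem _ hp2)
      have h6 : q.2 ∈ ppb k t := m25 (hE.mem _ hq2)
      have h7 : (2 : OO k t) ∈ ppb k t := by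
        have h8 := sub_mem (sub_mem h4 h5) h6
        have e : (1 + p.2) + (1 + q.2) - p.2 - q.2 = (2 : OO k t) := by ring
        rwa [e] at h8
      rw [hpb] at h7
      have e1 : (2 : OO k t).re = 2 := rfl
      have e2 : (2 : OO k t).im = 0 := rfl
      rw [e1, e2] at h7
      norm_num at h7
    have h4 : p.2 - q.2 ∈ cnN k t f N := by
      have e : (1 + p.2) - (1 + q.2) = p.2 - q.2 := by ring
      rwa [e] at h3
    exact Prod.ext hb (hE.uni _ hp2 _ hq2 h4)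
  refine ⟨fun p hp q hq h => hcore p hp q hq (by
    have h' : sp (1 + p.2) * p.1 = sp (1 + q.2) * q.1 := h
    rw [h']
    exact r1 _), fun B hB => ?_⟩
  have hBm : ∀ b, b ∈ B ↔ ∃ p ∈ I, sp (1 + p.2) * p.1 = b := by
    intro b
    rw [← Finset.mem_coe, hB]
    rfl
  refine ⟨?_, ?_, ?_⟩
  · intro b hb
    obtain ⟨p, hp, rfl⟩ := (hBm b).1 hb
    obtain ⟨hp1, hp2, hp3⟩ := (hI p).1 hp
    refine ⟨?_, ?_, ?_⟩
    · intro h
      rw [Ideal.mul_eq_bot] at h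
      rcases h with h | h
      · exact hne _ (m3 _ (hc p hp)).2.2.2.2.2.2.1 (Ideal.span_singleton_eq_bot.1 h)
      · exact (hR.mem _ hp1).1 h
    · rw [o1]
      exact ⟨hc p hp, (hR2 _ hp1).2⟩
    · rw [hNI]
      exact hp3
  · intro b' hb'
    obtain ⟨hb0, hb2, hbN⟩ := hb'
    have hbf : PrI b' (cnd k t f) := (m3 _ hb2).2.2.2.1
    obtain ⟨b, hbR, hRay⟩ := hR.ex b' hb0 hbf
    have hbM := (m3 _ (hR2 b hbR).2).1
    have hbM' := (m3 _ hb2).1
    obtain ⟨β, hβ0, hβf, hβc, hβR⟩ := hRUp k t (cnd k t f) (cnN k t f N) b b' m14 m2a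
      (hR.mem b hbR).1 hb0 hbM hbM' hRay
    obtain ⟨e, he, hee⟩ := hE.ex (β - 1) hβf
    have hdiv : β - (1 + e) ∈ cnN k t f N := by
      have e1 : β - (1 + e) = β - 1 - e := by ring
      rwa [e1]
    have hbc : PrI (sp (1 + e)) (cnN k t f N) := c4 β (1 + e) _ hdiv hβc
    have h0 : 1 + e ≠ 0 := hne e (o4 _ _ _ m26 hbc)
    have hR1 : Ray (cnN k t f N) (sp β) (sp (1 + e)) :=
      (r8 _ _ hβ0 h0 hβc hbc).2 (Or.inl hdiv)
    have hR3 : Ray (cnN k t f N) b' (sp (1 + e) * b) := r3 _ _ _ hβR (r4 _ _ _ _ hR1 (r1 b))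
    have h9 := hO9 k t (f * 3 ^ N) hM0 _ _ (r7 _ _ _ m21 hR3)
    rw [hNI] at h9
    have h10 : (3 : ℤ) ^ N ∣ (NI b' : ℤ) - NI b * Nm (1 + e) := by
      refine Dvd.dvd.trans ?_ h9
      push_cast
      exact dvd_mul_left _ _
    have hPm : Pm N (NI b * Nm (1 + e)) 1 := by
      rcases hbN with h | h
      · left
        have := dvd_sub h h10
        have e : (NI b' : ℤ) - 1 - (NI b' - NI b * Nm (1 + e)) = NI b * Nm (1 + e) - 1 := by
          ring
        rwa [e] at this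
      · right
        have := dvd_sub h h10
        have e : (NI b' : ℤ) + 1 - (NI b' - NI b * Nm (1 + e)) = NI b * Nm (1 + e) + 1 := by
          ring
        rwa [e] at this
    exact ⟨sp (1 + e) * b, (hBm _).2 ⟨(b, e), (hI _).2 ⟨hbR, he, hPm⟩, rfl⟩, hR3⟩
  · intro b hb b' hb' h
    obtain ⟨p, hp, rfl⟩ := (hBm b).1 hb
    obtain ⟨q, hq, rfl⟩ := (hBm b').1 hb'
    rw [hcore p hp q hq h]

end Pool.Agent.DT.G
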