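import Pool.Agent.Lib.DT.G.Spec

/-!
# Theorem DT, part G, module RD (helper41): ray classes modulo `cnN N`, second system
-/

set_option autoImplicit false

open scoped Pointwise

noncomputable section

namespace Pool.Agent.DT.G

open Pool.Agent.MuZ Pool.Agent.FW Pool.Agent.DT
open Pool.Agent.DI (io ofC io_inj exists_io io_ofC ofC_io VP MP UP TP ex)

private theorem RD_pm_mul {m a b : ℤ} (ha : m ∣ a - 1) (hb : m ∣ b - 1 ∨ m ∣ b + 1) :
    m ∣ a * b - 1 ∨ m ∣ a * b + 1 := by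
  rcases ha with ⟨x, hx⟩
  rcases hb with ⟨y, hy⟩ | ⟨y, hy⟩
  · exact Or.inl ⟨x * b + y, by linear_combination b * hx + hy⟩
  · exact Or.inr ⟨x * b + y, by linear_combination b * hx + hy⟩

private theorem RD_pm_div {m a b x : ℤ} (h : m ∣ x - a * b) (hx : m ∣ x - 1 ∨ m ∣ x + 1)
    (hb : m ∣ b - 1 ∨ m ∣ b + 1) : m ∣ a - 1 ∨ m ∣ a + 1 := by
  obtain ⟨z, hz⟩ := h
  rcases hx with ⟨u, hu⟩ | ⟨u, hu⟩ <;> rcases hb with ⟨y, hy⟩ | ⟨y, hy⟩
  · exact Or.inl ⟨u - z - a * y, by linear_combination hu - hz - a * hy⟩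
  · exact Or.inr ⟨z - u + a * y, by linear_combination hz - hu + a * hy⟩
  · exact Or.inr ⟨u - z - a * y, by linear_combination hu - hz - a * hy⟩
  · exact Or.inl ⟨z - u + a * y, by linear_combination hz - hu + a * hy⟩

theorem tRD : S_RD := by
  intro hO2 hO4 hO6 hO7 hO9 hCop hMod hHN hRUp k t _ f N T D hf hN hT hD
  have hf0 : 0 < f := hf.pos
  have hM0 : 0 < f * 3 ^ N := Nat.mul_pos hf0 (pow_pos (by norm_num) N)
  obtain ⟨o1, o2, o3, o4, o5, o6, o7, o8⟩ := hO6 k t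
  obtain ⟨n1, n2, n3, n4, n5, n6, n7, n8⟩ := hO2 k t
  obtain ⟨c1, c2, c3, c4, c5, c6, c7, c8, c9, c10⟩ := hCop k t
  obtain ⟨⟨m11, m12, m13, m14, m15⟩, ⟨m21, m22, m23, m24, m25, m26, m27, m28, m29, m2a, m2b⟩,
    m3, m4, m5, m6, m7, m8, m9⟩ := hMod k t f N hf hN
  obtain ⟨r1, r2, r3, r4, r5, r6, r7, r8, r9, r10⟩ := hO7 k t (cnN k t f N) m14
  obtain ⟨q1, q2, q3, q4, q5, q6, q7, q8, q9, q10⟩ := hO7 k t (sN k t (3 * f)) m11
  obtain ⟨⟨t1, t1'⟩, t2, t3, t4, t5, t6, t7, t8, t9⟩ := hHN k t f N hf hN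
  have hpb : ∀ v : OO k t, v ∈ ppb k t ↔ (3 : ℤ) ∣ v.re + v.im := (hO4 k t).2.2.2.2.2.2.2.2.2.2.2
  have mcF : cnN k t f N ≤ sN k t (3 * f) := m21.trans m22
  -- elements of `T`
  have Tne : ∀ h ∈ T, h ≠ 0 := fun h hh => (t8 h (hT.mem h hh).1).1
  have TF : ∀ h ∈ T, PrI (sp h) (sN k t (3 * f)) := fun h hh => (t8 h (hT.mem h hh).1).2.2.2.2.1
  have TM : ∀ h ∈ T, PrI (sp h) (cnN k t f N) := fun h hh => (m3 _ (TF h hh)).1
  have spne : ∀ v : OO k t, v ≠ 0 → sp v ≠ ⊥ := fun v hv h => hv (Ideal.span_singleton_eq_bot.1 h)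
  have mulne : ∀ a b : Ideal (OO k t), a ≠ ⊥ → b ≠ ⊥ → a * b ≠ ⊥ :=
    fun a b ha hb h => (Ideal.mul_eq_bot.1 h).elim ha hb
  have spmul : ∀ v u : OO k t, sp v * sp u = sp (v * u) := fun v u =>
    Ideal.span_singleton_mul_span_singleton v u
  have NIsp : ∀ (v : OO k t) (a : Ideal (OO k t)), (NI (sp v * a) : ℤ) = Nm v * NI a := by
    intro v a
    rw [n5, Nat.cast_mul, n4]
  have two : ∀ v u : OO k t, v - 1 ∈ ppb k t → u - 1 ∈ ppb k t → v + u ∈ cnN k t f N → False := by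
    intro v u hv hu h
    have h4 : v + u ∈ ppb k t := m26 h
    have h7 : (2 : OO k t) ∈ ppb k t := by
      have h8 := sub_mem (sub_mem h4 hv) hu
      have e : v + u - (v - 1) - (u - 1) = (2 : OO k t) := by ring
      rwa [e] at h8
    rw [hpb] at h7
    have e1 : (2 : OO k t).re = 2 := rfl
    have e2 : (2 : OO k t).im = 0 := rfl
    rw [e1, e2] at h7
    norm_num at h7
  -- uniqueness
  have key : ∀ c ∈ D, ∀ c' ∈ D, ∀ h ∈ T, ∀ h' ∈ T, Ray (cnN k t f N) (sp h * c) (sp h' * c') →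
      c = c' ∧ h = h' := by
    intro c hc c' hc' h hh h' hh' hR
    have hRf := r7 _ _ _ mcF hR
    obtain ⟨g, g0, gC, gI⟩ := c2 h' _ m11 (TF h' hh')
    have hHg : Hf f g := t6 h' g (hT.mem h' hh').1 gI
    have e1 : Ray (sN k t (3 * f)) (sp (g * h')) ⊤ := by
      have h1 : Ray (sN k t (3 * f)) (sp (g * h')) (sp 1) := by
        refine (q8 (g * h') 1 (mul_ne_zero g0 (Tne h' hh')) one_ne_zero ?_ (c5 _).1).2 (Or.inl ?_)
        · exact (c1 _ _ _).2 ⟨gC, TF h' hh'⟩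
        · rw [mul_comm g h']
          exact gI
      have h2 : sp (1 : OO k t) = ⊤ := Ideal.span_singleton_one
      rwa [h2] at h1
    have e2 : Ray (sN k t (3 * f)) (sp g * (sp h' * c')) c' := by
      have := q4 _ _ _ _ e1 (q1 c')
      rwa [← spmul, mul_assoc, Ideal.top_mul] at this
    have e3 : Ray (sN k t (3 * f)) (sp g * (sp h * c)) (sp g * (sp h' * c')) := q4 _ _ _ _ (q1 _) hRf
    have e4 : Ray (sN k t (3 * f)) c' (sp (g * h) * c) := by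
      have := q2 _ _ (q3 _ _ _ e3 e2)
      rwa [← mul_assoc, spmul] at this
    have hcc : c = c' := hD.uni c hc c' hc' ⟨sp (g * h), ⟨g * h, mul_ne_zero g0 (Tne h hh),
      t2 _ _ hHg (hT.mem h hh).1, q1 _⟩, e4⟩
    refine ⟨hcc, ?_⟩
    subst hcc
    have e5 := r5 _ _ c (hD.mem c hc).1 (m3 _ (hD.mem c hc).2.1).1 hR
    rcases (r8 h h' (Tne h hh) (Tne h' hh') (TM h hh) (TM h' hh')).1 e5 with h6 | h6
    · exact hT.uni h hh h' hh' h6
    · exact (two h h' (t8 h (hT.mem h hh).1).2.2.2.1 (t8 h' (hT.mem h' hh').1).2.2.2.1 h6).elim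
  constructor
  · rintro ⟨c, h⟩ hp ⟨c', h'⟩ hp' heq
    rw [Finset.mem_coe, Finset.mem_product] at hp hp'
    have heq' : sp h * c = sp h' * c' := heq
    obtain ⟨e1, e2⟩ := key c hp.1 c' hp'.1 h hp.2 h' hp'.2 (by rw [heq']; exact r1 _)
    rw [e1, e2]
  · intro B hB
    have hBm : ∀ b : Ideal (OO k t), b ∈ B ↔ ∃ c ∈ D, ∃ h ∈ T, sp h * c = b := by
      intro b
      rw [← Finset.mem_coe, hB]
      constructor
      · rintro ⟨⟨c, h⟩, hp, rfl⟩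
        rw [Finset.mem_coe, Finset.mem_product] at hp
        exact ⟨c, hp.1, h, hp.2, rfl⟩
      · rintro ⟨c, hc, h, hh, rfl⟩
        exact ⟨(c, h), by rw [Finset.mem_coe, Finset.mem_product]; exact ⟨hc, hh⟩, rfl⟩
    refine ⟨?_, ?_, ?_⟩
    · intro b hb
      obtain ⟨c, hc, h, hh, rfl⟩ := (hBm b).1 hb
      obtain ⟨hT1, hT2⟩ := hT.mem h hh
      obtain ⟨hD1, hD2, hD3⟩ := hD.mem c hc
      refine ⟨mulne _ _ (spne h (Tne h hh)) hD1, (o1 _ _ _).2 ⟨TF h hh, hD2⟩, ?_⟩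
      rw [NIsp]
      exact RD_pm_mul hT2 hD3
    · rintro b' ⟨hb0, hb1, hb2⟩
      obtain ⟨c, hc, a, ⟨v, v0, hv, hav⟩, hba⟩ := hD.ex b' hb0 hb1
      obtain ⟨hD1, hD2, hD3⟩ := hD.mem c hc
      have e2 : Ray (sN k t (3 * f)) b' (sp v * c) := q3 _ _ _ hba (q4 _ _ _ _ hav (q1 c))
      have hPv : PrI (sp v * c) (cnN k t f N) :=
        (m3 _ ((o1 _ _ _).2 ⟨(t8 v hv).2.2.2.2.1, hD2⟩)).1
      obtain ⟨β, β0, hβ1, hβC, hβR⟩ := hRUp k t (sN k t (3 * f)) (cnN k t f N) (sp v * c) b' m14 mcF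
        (mulne _ _ (spne v v0) hD1) hb0 hPv (m3 _ hb1).1 e2
      have e3 : sp β * (sp v * c) = sp (β * v) * c := by rw [← mul_assoc, spmul]
      rw [e3] at hβR
      have hHf : Hf f (β * v) := t4 v (β * v) (by
        have : β * v - v = v * (β - 1) := by ring
        rw [this]
        exact Ideal.mul_mem_left _ v hβ1) hv
      have hnorm := hO9 k t (f * 3 ^ N) hM0 b' (sp (β * v) * c) (r7 _ _ _ m21 hβR)
      rw [NIsp] at hnorm
      have h3d : (3 : ℤ) ^ N ∣ (NI b' : ℤ) - Nm (β * v) * NI c :=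
        dvd_trans ⟨(f : ℤ), by push_cast; ring⟩ hnorm
      have h3N : (3 : ℤ) ^ N ∣ Nm (β * v) - 1 := by
        refine (RD_pm_div h3d hb2 hD3).resolve_right fun h => ?_
        have h1 : (3 : ℤ) ∣ Nm (β * v) + 1 := (dvd_pow_self 3 (by omega)).trans h
        have h2 : (3 : ℤ) ∣ Nm (β * v) - 1 := (t8 _ hHf).2.2.2.2.2
        have h3 := dvd_sub h1 h2
        have e : Nm (β * v) + 1 - (Nm (β * v) - 1) = 2 := by ring
        rw [e] at h3
        norm_num at h3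
      obtain ⟨h, hh, hhd⟩ := hT.ex (β * v) ⟨hHf, h3N⟩
      have e4 : Ray (cnN k t f N) (sp (β * v)) (sp h) :=
        (r8 _ _ (mul_ne_zero β0 v0) (Tne h hh) (m3 _ (t8 _ hHf).2.2.2.2.1).1 (TM h hh)).2
          (Or.inl hhd)
      exact ⟨sp h * c, (hBm _).2 ⟨c, hc, h, hh, rfl⟩, r3 _ _ _ hβR (r4 _ _ _ _ e4 (r1 c))⟩
    · intro b hb b' hb' hR
      obtain ⟨c, hc, h, hh, rfl⟩ := (hBm b).1 hb
      obtain ⟨c', hc', h', hh', rfl⟩ := (hBm b').1 hb'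
      obtain ⟨e1, e2⟩ := key c hc c' hc' h hh h' hh' hR
      rw [e1, e2]

end Pool.Agent.DT.G
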