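import Pool.Agent.Lib.DT.G.Spec

/-!
# Theorem DT, part G, module RS: comparison of the two systems (helper47)

Adapted from `DK/G/RS.lean`.
-/

set_option autoImplicit false

open scoped Pointwise

noncomputable section

namespace Pool.Agent.DT.G

open Pool.Agent.MuZ Pool.Agent.FW Pool.Agent.DT
open Pool.Agent.DI (io ofC io_inj exists_io io_ofC ofC_io VP MP UP TP ex)

theorem tRS : S_RS := by
  classical
  intro hMod hRI hRB hRD k t _ f N R E T D hf hN hR hR2 hE hT hD F hF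
  set g1 : Ideal (OO k t) × OO k t → Ideal (OO k t) := fun p => sp (1 + p.2) * p.1 with hg1
  set g2 : Ideal (OO k t) × OO k t → Ideal (OO k t) := fun p => sp p.2 * p.1 with hg2
  set I : Finset (Ideal (OO k t) × OO k t) :=
    (R ×ˢ E).filter (fun p => Pm N (NI p.1 * Nm (1 + p.2)) 1) with hI
  have hmem : ∀ p, p ∈ I ↔ p.1 ∈ R ∧ p.2 ∈ E ∧ Pm N (NI p.1 * Nm (1 + p.2)) 1 := by
    intro p
    rw [hI, Finset.mem_filter, Finset.mem_product]
    tauto
  obtain ⟨hinj1, hB1⟩ := hRB k t f N R E hf hN hR hR2 hE I hmem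
  obtain ⟨hinj2, hB2⟩ := hRD k t f N T D hf hN hT hD
  have e1 : (∑ b ∈ R, ∑ e ∈ E,
      if Pm N (NI b * Nm (1 + e)) 1 then F (sp (1 + e) * b) else 0) =
      ∑ b ∈ I.image g1, F b := by
    rw [Finset.sum_image (fun x hx y hy h => hinj1 hx hy h), hI, Finset.sum_filter,
      Finset.sum_product]
  have e2 : ∑ c ∈ D, ∑ h ∈ T, F (sp h * c) = ∑ b ∈ (D ×ˢ T).image g2, F b := by
    rw [Finset.sum_image (fun x hx y hy h => hinj2 hx hy h), Finset.sum_product]
  rw [e2]
  refine Eq.trans ?_ (hRI k t (cnN k t f N) (CN f N) _ _ Om F (hMod k t f N hf hN).1.2.2.2.1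
    (hB1 (I.image g1) ?_) (hB2 ((D ×ˢ T).image g2) ?_) hF)
  · rw [← e1]
  · rw [Finset.coe_image]
  · rw [Finset.coe_image]

end Pool.Agent.DT.G
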