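import Pool.Agent.Lib.DT.G.Spec

/-!
# Theorem DT, part G, module RayF: homogeneous functions depend only on the ray class
-/

set_option autoImplicit false

open scoped Pointwise

noncomputable section

namespace Pool.Agent.DT.G

open Pool.Agent.MuZ Pool.Agent.FW Pool.Agent.DT
open Pool.Agent.DI (io ofC io_inj exists_io io_ofC ofC_io VP MP UP TP ex)

variable {k t : ℕ}

private theorem RayF_one [SqT k t] {n : Ideal (OO k t)} {A : Type} (F : Ideal (OO k t) → ℂ → A)
    (hp : ∀ (b : Ideal (OO k t)) (z l : ℂ), b ≠ ⊥ → PrI b (ppb k t) → l ∈ Lam b →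
      F b (z + l) = F b z)
    {b : Ideal (OO k t)} (hb : b ≠ ⊥) (hbp : PrI b (ppb k t)) {γ : OO k t} (hγ : γ - 1 ∈ n)
    {z : ℂ} (hz : z ∈ Lam n) :
    F b (toC γ * z) = F b z := by
  obtain ⟨u, hu⟩ := hz _ hγ
  have e : toC γ * z = z + toC u := by
    rw [← hu, toC_sub, toC_one]
    ring
  rw [e]
  refine hp b _ _ hb hbp ?_
  have h1 : toC u ∈ Lam (⊤ : Ideal (OO k t)) := lam_top.2 ⟨_, rfl⟩
  exact lam_anti le_top h1

theorem tRayF : S_RayF := by
  intro h7 hC k t _ n A F hn hnp hh hp b b' hb hbp hR z hz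
  obtain ⟨α, α', hα, hα', hc, hc', hd, he⟩ := id hR
  obtain ⟨-, hinv, -⟩ := hC k t
  obtain ⟨β, hβ, -, h1⟩ := hinv α n hn hc
  have h2 : α' * β - 1 ∈ n := by
    have e : α' * β - 1 = (α * β - 1) - (α - α') * β := by ring
    rw [e]
    exact sub_mem h1 (Ideal.mul_mem_right _ _ hd)
  obtain ⟨-, -, -, -, -, hne, hle, -⟩ := h7 k t n hn
  have hb' : b' ≠ ⊥ := ((hne b b' hR).1).1 hb
  have hRp : Ray (ppb k t) b b' := hle (ppb k t) b b' hnp hR
  have hpp : ppb k t ≠ ⊥ := by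
    intro h
    rw [h] at hnp
    exact hn (le_bot_iff.1 hnp)
  obtain ⟨-, -, -, -, -, hne', -⟩ := h7 k t (ppb k t) hpp
  have hbp' : PrI b' (ppb k t) := ((hne' b b' hRp).2).1 hbp
  have h3 : sp (α * β) * b = sp (α' * β) * b' := by
    have e1 : ∀ x : OO k t, sp (x * β) = sp β * sp x := by
      intro x
      unfold sp
      rw [Ideal.span_singleton_mul_span_singleton, mul_comm x β]
    rw [e1, e1, mul_assoc, mul_assoc]
    unfold sp
    unfold sp at he
    rw [he]
  have h4 := hh b (α * β) z hb hbp (mul_ne_zero hα hβ) (hnp h1)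
  have h5 := hh b' (α' * β) z hb' hbp' (mul_ne_zero hα' hβ) (hnp h2)
  rw [h3] at h4
  rw [h4] at h5
  rw [RayF_one F hp hb hbp h1 hz, RayF_one F hp hb' hbp' h2 hz] at h5
  exact h5

end Pool.Agent.DT.G
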