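import Pool.Agent.Lib.DT.G.Spec

/-!
# Theorem DT, part G, module Rdz: values at `h z_N` and on `E[m]` modulo `P`
-/

set_option autoImplicit false

open scoped Pointwise

noncomputable section

namespace Pool.Agent.DT.G

open Pool.Agent.MuZ Pool.Agent.FW Pool.Agent.DT
open Pool.Agent.DI (io ofC io_inj exists_io io_ofC ofC_io VP MP UP TP ex)

private theorem Rdz_sN {k t a b : ℕ} (h : b ∣ a) : sN k t a ≤ sN k t b := by
  obtain ⟨c, rfl⟩ := h
  refine Ideal.span_singleton_le_span_singleton.2 ⟨(c : OO k t), ?_⟩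
  rw [← Nat.cast_mul]

private theorem Rdz_exists {k t : ℕ} [SqT k t] (hO4 : S_O4) {m : Ideal (OO k t)}
    (hm : PrI m (sN k t 3)) : ∃ α ∈ m, α ∉ pp k t := by
  by_contra hcon
  push Not at hcon
  obtain ⟨h0, -, -, hpr, -⟩ := hO4 k t
  have h2 : sN k t 3 ≤ pp k t := by
    rw [← h0]
    exact Ideal.mul_le_left (I := pp k t) (J := ppb k t)
  have h1 : m ⊔ sN k t 3 ≤ pp k t := sup_le hcon h2
  have h3 : m ⊔ sN k t 3 = ⊤ := hm
  rw [h3] at h1
  exact hpr.ne_top (top_le_iff.1 h1)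

/-- **Rdz.** Values at `h z_N` and on `E[m]`, `P` above `pp`. -/
theorem tRdz : S_Rdz := by
  intro hO4 hO6 hL6a hB14 hD1 hD2 hD9 hZn hAb hNQ k t _ f N m b hf hN hm hb hm6 hb3 P hP h hh z hz
  have hPp : P.IsPrime := hP.1.1
  obtain ⟨hA1, -, hA3, -, -⟩ := hAb k t P
  have hnot : ¬ AbPb k t P := fun h' => hA3 ⟨hP, h'⟩
  obtain ⟨d1, d2, d3, -, d5, -, d7⟩ := hD1 k t b hb P hP.1 hnot
  obtain ⟨e1, -, -, -, -, e6, e7, -, -⟩ := hD2 k t b hb P hP
  have hmono := (hO6 k t).2.2.2.1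
  have hm3 : PrI m (sN k t 3) := hmono m _ _ (Rdz_sN (by norm_num)) hm6
  have hm2 : PrI m (sN k t 2) := hmono m _ _ (Rdz_sN (by norm_num)) hm6
  have hbb : PrI b (ppb k t) := by
    refine hmono b _ _ ?_ hb3
    rw [← (hO4 k t).1]
    exact Ideal.mul_le_right (I := pp k t) (J := ppb k t)
  have hNQ' : ∀ u ∈ Lam (m * b), ¬ Qp P b (z + u) := by
    intro u hu
    have := hNQ k t f N m b hf hN hm hb hm3 hb3 P hP.1 h hh u hu
    rwa [← hz] at this
  have hz0 : ¬ Qp P b z := by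
    have := hNQ' 0 (lam_zero _)
    rwa [add_zero] at this
  have htz : Tor k t z := by
    rw [hz]
    exact (hZn k t f N hf).2.2.1 h
  have hzm : z ∉ Lam (m * b) := by
    intro h1
    refine hNQ' (-z) (lam_neg h1) ?_
    intro α β _ _
    rw [add_neg_cancel, mul_zero]
    exact lam_zero _
  have hzb : z ∉ Lam b := fun h1 => hzm (lam_mono h1)
  obtain ⟨hIz, hVz⟩ := e7 z htz hz0
  have hneg : ∀ l : ℂ, IK P b l → IK P b (-l) := by
    intro l hl
    have h1 := d3 (-1 : OO k t) l hl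
    rwa [toC_neg, toC_one, neg_one_mul] at h1
  have hIl : ∀ l ∈ Lam (pp k t * b), IK P b l := by
    intro l hl
    rcases (hL6a k t b hb).1.2.2.2.2 l hl with h1 | h1 | h1
    · exact d2 l h1
    · have h2 := d1 _ _ (d2 _ h1) e1
      rwa [sub_add_cancel] at h2
    · have h2 := d1 _ _ (d2 _ h1) (hneg _ e1)
      rwa [add_neg_cancel_right] at h2
  have hlm : ∀ l ∈ Lam (pp k t * b), z + l ∉ Lam (m * b) := by
    intro l hl h1
    refine hNQ' (-(z + l)) (lam_neg h1) ?_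
    have h2 : z + -(z + l) = -l := by ring
    rw [h2]
    exact d5 _ (hneg _ (hIl l hl))
  refine ⟨htz, hzm, hzb, hVz, e6 z htz hIz hbb, ?_, fun l hl h1 => hlm l hl (lam_mono h1), hlm, ?_⟩
  · exact (hD9 k t P hP b hb hbb).2.2.2 m hm hm6 z htz hNQ'
  intro u hu
  obtain ⟨hu1, hu2⟩ := (hB14 k t m b hm hb hm2).1.mem u hu
  have hmb : m * b ≠ ⊥ := by
    intro h1
    rcases Ideal.mul_eq_bot.1 h1 with h2 | h2
    · exact hm h2
    · exact hb h2
  have htu : Tor k t u := tor_lam hmb hu1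
  have hQu : ¬ Qp P b u := by
    intro h1
    obtain ⟨α, hα, hα'⟩ := Rdz_exists hO4 hm3
    have h2 : ¬ MP P (toO α) := fun h3 => hα' ((hA1 hP α).1 h3)
    have h3 := h1 α 1 h2 (by rw [mul_one]; exact lam_prod.1 hu1 α hα)
    rw [toC_one, one_mul] at h3
    exact hu2 h3
  obtain ⟨hIu, hVu⟩ := e7 u htu hQu
  refine ⟨htu, hVu, hVz.sub hVu, ?_⟩
  intro h1
  rcases d7 z u htz htu hIz hIu h1 with h2 | h2
  · exact hNQ' u hu1 (d5 _ h2)
  · refine hNQ' (-u) (lam_neg hu1) (d5 _ ?_)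
    rwa [← sub_eq_add_neg]

end Pool.Agent.DT.G
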