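import Pool.Agent.Lib.DT.G.Spec

/-!
# Theorem DT, part G, module SN (helper87): the element `s`
-/

set_option autoImplicit false

open scoped Pointwise

noncomputable section

namespace Pool.Agent.DT.G

open Pool.Agent.MuZ Pool.Agent.FW Pool.Agent.DT
open Pool.Agent.DI (io ofC io_inj exists_io io_ofC ofC_io VP MP UP TP ex)

private theorem SN_nm (k t M : ℕ) :
    Nm (1 + ((M : ℕ) : OO k t) * (1 - wI k t) ^ 2) =
      1 + (M : ℤ) * (2 * (1 - 3 * (k : ℤ)) + (t : ℤ) * ((t : ℤ) - 2)) +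
        (M : ℤ) ^ 2 * (1 - (t : ℤ) + 3 * k) ^ 2 := by
  have h1 : (1 - wI k t : OO k t).re = 1 := by
    rw [QuadraticAlgebra.re_sub, re_one]
    rfl
  have h2 : (1 - wI k t : OO k t).im = -1 := by
    rw [QuadraticAlgebra.im_sub, im_one]
    rfl
  have h3 : ((1 - wI k t : OO k t) ^ 2).re = 1 - 3 * k := by
    rw [sq, re_mul, h1, h2]
    ring
  have h4 : ((1 - wI k t : OO k t) ^ 2).im = t - 2 := by
    rw [sq, im_mul, h1, h2]
    ring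
  have h5 : (1 + ((M : ℕ) : OO k t) * (1 - wI k t) ^ 2).re = 1 + (M : ℤ) * (1 - 3 * k) := by
    rw [QuadraticAlgebra.re_add, re_one, re_mul, re_nat, im_nat, h3]
    ring
  have h6 : (1 + ((M : ℕ) : OO k t) * (1 - wI k t) ^ 2).im = (M : ℤ) * (t - 2) := by
    rw [QuadraticAlgebra.im_add, im_one, im_mul, re_nat, im_nat, h4]
    ring
  unfold Nm
  rw [h5, h6]
  ring

/-- The norm of `a_N` modulo `3 ^ N`. -/
private theorem SN_mod (k t f L : ℕ) [h : SqT k t] (hf : f.Coprime 3) :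
    ((3 : ℤ) ^ (L + 2)) ∣ Nm (aN k t f (L + 2)) - (1 + 3 ^ (L + 1)) := by
  unfold aN
  rw [SN_nm]
  have e : L + 2 - 1 = L + 1 := rfl
  rw [e]
  push_cast
  have hf2 : (3 : ℤ) ∣ (f : ℤ) ^ 2 - 1 := by
    have h1 : ¬ (3 : ℤ) ∣ f := by
      intro h1
      have h2 : 3 ∣ f := by exact_mod_cast h1
      have h3 := Nat.dvd_gcd h2 (dvd_refl 3)
      rw [Nat.Coprime] at hf
      rw [hf] at h3
      norm_num at h3
    have h2 : (3 : ℤ) ∣ f - 1 ∨ (3 : ℤ) ∣ f + 1 := by omega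
    have e : (f : ℤ) ^ 2 - 1 = (f - 1) * (f + 1) := by ring
    rw [e]
    rcases h2 with h2 | h2
    · exact h2.mul_right _
    · exact h2.mul_left _
  have ht : (3 : ℤ) ∣ (t : ℤ) - 1 := by
    rcases h.out with ⟨h1, -⟩ | ⟨h1, -⟩
    · rw [h1]
      norm_num
    · rw [h1]
      norm_num
  obtain ⟨x, hx⟩ := hf2
  obtain ⟨y, hy⟩ := ht
  have hx' : (f : ℤ) ^ 2 = 1 + 3 * x := by linarith
  have hy' : (t : ℤ) = 1 + 3 * y := by linarith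
  have e3 : (2 * (1 - 3 * (k : ℤ)) + t * (t - 2)) = 1 + 3 * (3 * y ^ 2 - 2 * k) := by
    rw [hy']
    ring
  have e4 : (1 - (t : ℤ) + 3 * k) = 3 * (k - y) := by
    rw [hy']
    ring
  rw [e3, e4, hx']
  refine ⟨x + 3 * y ^ 2 - 2 * k + 3 * x * (3 * y ^ 2 - 2 * k) +
    3 ^ (L + 2) * (1 + 3 * x) ^ 2 * (k - y) ^ 2, ?_⟩
  have e5 : (3 : ℤ) ^ (L + 2) = 3 * 3 ^ (L + 1) := by ring
  rw [e5]
  ring

theorem tSN : S_SN := by
  intro h2 h7 hE1 hE6 hE7 hGM hCop hMod hHNf k t _ f N hf hN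
  obtain ⟨L, rfl⟩ : ∃ L, N = L + 2 := ⟨N - 2, by omega⟩
  obtain ⟨-, -, -, hNI, -⟩ := h2 k t
  obtain ⟨-, -, -, hC4, hC5, -⟩ := hCop k t
  obtain ⟨⟨hF0, hN0, -, hn0, -⟩, ⟨hle1, hle2, -⟩, hPr, -⟩ := hMod k t f (L + 2) hf (by omega)
  have hmod := SN_mod k t f L hf.cop
  have hne : aN k t f (L + 2) ≠ 0 := by
    intro h
    rw [h, Nm_zero] at hmod
    have h1 : (3 : ℤ) ∣ 3 ^ (L + 2) := ⟨3 ^ (L + 1), by ring⟩
    have h2 := h1.trans hmod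
    have h3 : (3 : ℤ) ∣ 3 ^ (L + 1) := ⟨3 ^ L, by ring⟩
    have h4 := dvd_add h2 h3
    have e : (0 : ℤ) - (1 + 3 ^ (L + 1)) + 3 ^ (L + 1) = -1 := by ring
    rw [e] at h4
    norm_num at h4
  have hsub : aN k t f (L + 2) - 1 ∈ sN k t (3 * f) := by
    rw [Ideal.mem_span_singleton]
    refine ⟨((f * 3 ^ L : ℕ) : OO k t) * (1 - wI k t) ^ 2, ?_⟩
    unfold aN
    have e : L + 2 - 1 = L + 1 := rfl
    rw [e]
    push_cast
    ring
  have hsub' : 1 - aN k t f (L + 2) ∈ sN k t (3 * f) := by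
    rw [← neg_sub]
    exact neg_mem hsub
  have hPI : PrI (sp (aN k t f (L + 2))) (sN k t (3 * f)) :=
    hC4 1 _ _ hsub' (hC5 (sN k t (3 * f))).1
  have hsp : sp (aN k t f (L + 2)) ≠ ⊥ := by
    intro h
    exact hne (Ideal.span_singleton_eq_bot.1 h)
  obtain ⟨s, hs, hPsi⟩ := hE7 k t (cnN k t f (L + 2)) (sp (aN k t f (L + 2))) hn0 hsp (hPr _ hPI).1
  have hE1n := (hE1 k t (cnN k t f (L + 2)) hn0).2.2.2.2
  have hPsi1 : Psi s (sN k t (f * 3 ^ (L + 2))) (sp (aN k t f (L + 2))) := hE1n s _ _ hPsi hle1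
  have hPsi2 : Psi s (sN k t (3 * f)) (sp (aN k t f (L + 2))) :=
    hE1n s _ _ hPsi (hle1.trans hle2)
  refine ⟨hne, hPI, hsub, s, hs, hPsi, ?_, ?_⟩
  · obtain ⟨-, -, -, -, -, hfix, -⟩ := hGM k t f hf
    refine (hfix s hs _ hPsi2).2 ⟨aN k t f (L + 2), hne, ?_, (h7 k t _ hF0).1 _⟩
    obtain ⟨⟨hH1, -⟩, -, -, hH4, -⟩ := hHNf k t f (L + 2) hf (by omega)
    exact hH4 1 _ hsub hH1
  · intro ζ hζ
    have h1 : ζ ^ (f * 3 ^ (L + 2)) = 1 := by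
      rw [mul_comm, pow_mul, hζ.pow_eq_one, one_pow]
    have hpos : 0 < f * 3 ^ (L + 2) := Nat.mul_pos hf.pos (by positivity)
    rw [hE6 k t s (f * 3 ^ (L + 2)) _ hs hpos hPsi1 ζ h1]
    have e : L + 2 - 1 = L + 1 := rfl
    rw [e]
    have h3 : ∀ m : ℕ, ζ * ζ ^ m = ζ ^ (1 + m) := fun m => by rw [pow_add, pow_one]
    rw [h3, ← pow_mod_orderOf, ← pow_mod_orderOf ζ (1 + 3 ^ (L + 1)), ← hζ.eq_orderOf]
    congr 1
    have h4 : ((NI (sp (aN k t f (L + 2))) : ℤ)) ≡ ((1 + 3 ^ (L + 1) : ℕ) : ℤ) [ZMOD ((3 ^ (L + 2) : ℕ) : ℤ)] := by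
      apply Int.ModEq.symm
      rw [Int.modEq_iff_dvd, hNI]
      push_cast
      exact hmod
    exact (Int.natCast_modEq_iff.1 h4)

end Pool.Agent.DT.G
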