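import Pool.Agent.Lib.DT.G.Spec
import Pool.Agent.Lib.DT.GL.Tp

/-!
# Theorem DT, part G, module SNo: the Fourier transform is not constant modulo `1 - zet 3`
-/

set_option autoImplicit false

open scoped Pointwise

noncomputable section

namespace Pool.Agent.DT.G

open Pool.Agent.MuZ Pool.Agent.FW Pool.Agent.DT
open Pool.Agent.DI (io ofC io_inj exists_io io_ofC ofC_io VP MP UP TP ex)

private theorem SNo_den {M : ℕ} (hM : Nat.Coprime 3 M) (z : ℤ) (n : ℕ) :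
    ((z : ℚ) / 3 ^ n).den.Coprime M := by
  have h1 : ((Rat.divInt z (3 ^ n)).den : ℤ) ∣ 3 ^ n := Rat.den_dvd z (3 ^ n)
  have h3 : ((3 ^ n : ℤ) : ℚ) = 3 ^ n := by push_cast; rfl
  rw [Rat.divInt_eq_div, h3] at h1
  have h2 : ((z : ℚ) / 3 ^ n).den ∣ 3 ^ n := by exact_mod_cast h1
  exact Nat.Coprime.coprime_dvd_left h2 (Nat.Coprime.pow_left n hM)

/-- The representative modulo `1`. -/
private theorem SNo_rep (c0 : ℤ) (m0 n : ℕ) (h : m0 ≤ n) :
    ∃ (c : ℕ) (k : ℤ), c < 3 ^ n ∧ (c : ℚ) / 3 ^ n + k = c0 / 3 ^ m0 := by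
  have hpos : (0 : ℤ) < 3 ^ n := by positivity
  set z : ℤ := c0 * 3 ^ (n - m0) with hz
  have h1 : 0 ≤ z % 3 ^ n := Int.emod_nonneg _ hpos.ne'
  have h2 : z % 3 ^ n < 3 ^ n := Int.emod_lt_of_pos _ hpos
  refine ⟨(z % 3 ^ n).toNat, z / 3 ^ n, ?_, ?_⟩
  · zify
    rw [Int.toNat_of_nonneg h1]
    exact h2
  · have h3 : (((z % 3 ^ n).toNat : ℕ) : ℚ) = ((z % 3 ^ n : ℤ) : ℚ) := by
      have h4 : (((z % 3 ^ n).toNat : ℕ) : ℤ) = z % 3 ^ n := Int.toNat_of_nonneg h1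
      exact_mod_cast congrArg (fun t : ℤ => (t : ℚ)) h4
    have h5 : ((z % 3 ^ n : ℤ) : ℚ) + 3 ^ n * ((z / 3 ^ n : ℤ) : ℚ) = c0 * 3 ^ (n - m0) := by
      have h6 := Int.emod_add_mul_ediv z (3 ^ n)
      have h7 := congrArg (fun t : ℤ => (t : ℚ)) h6
      push_cast at h7
      rw [hz] at h7 ⊢
      push_cast at h7 ⊢
      exact h7
    have h8 : (3 : ℚ) ^ n = 3 ^ m0 * 3 ^ (n - m0) := by
      rw [← pow_add, Nat.add_sub_cancel' h]
    have h9 : (3 : ℚ) ^ n ≠ 0 := by positivity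
    have h10 : (3 : ℚ) ^ m0 ≠ 0 := by positivity
    rw [h3, eq_div_iff h10]
    have h11 : (((z % 3 ^ n : ℤ) : ℚ) / 3 ^ n + ((z / 3 ^ n : ℤ) : ℚ)) * 3 ^ m0 * 3 ^ (n - m0) =
        c0 * 3 ^ (n - m0) := by
      rw [mul_assoc, ← h8, ← h5]
      field_simp
    exact mul_right_cancel₀ (by positivity) h11

/-- Cube roots of unity are `1` modulo `1 - zet 3`. -/
private theorem SNo_cube (hZt : C_Zt) {P : Ideal ZZ} (hP : Npr P) (h3 : MP P 3) (w : Om)
    (hw : w ^ 3 = 1) : TP P (1 - zet 3) (w - 1) := by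
  have hP1 : P.IsPrime := hP.1
  obtain ⟨i, _, hi⟩ := (hZt.1 3 (by norm_num)).eq_pow_of_pow_eq_one hw
  have hv : VP P (zet 3) := ((hZt.2.2.2.2.2 P hP h3).2.1).1
  refine ⟨-∑ j ∈ Finset.range i, zet 3 ^ j, (DI.VP.sum _ _ fun j _ => hv.pow j).neg, ?_⟩
  rw [← hi, ← geom_sum_mul]
  ring

theorem tSNo : S_SNo := by
  intro hO6 hZt hMod hChi hEtG hChiF hEte hUni hG1 k t _ f m R χ P hFM hm hR hFR hχ hP e he
  have hNP : Npr P := hP.1
  have hP1 : P.IsPrime := hP.1.1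
  have h3P : MP P 3 := hP.2.1
  have hF : Fok f := hFM.toFok
  obtain ⟨c0, m0, hc0i, hc0⟩ := hG1 k t f m R χ P hFM hm hR hFR hχ hP e he
  refine ⟨m0 + 2, by omega, fun N hN a ha κ hκ hcon => hc0 ?_⟩
  obtain ⟨M, hMt, -, -, hMχ, hMx⟩ := hChiF k t f χ P hF hχ hP
  obtain ⟨⟨_, _, hcnd, _⟩, ⟨_, _, hle, _⟩, hMo3, _⟩ := hMod k t f 1 hF le_rfl
  obtain ⟨-, -, -, -, hint, -, -⟩ := hChi k t f _ χ hF hcnd hle hχ
  obtain ⟨hup, hEt⟩ := hEte k t f m R χ P hFM hR hFR hχ hP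
  obtain ⟨hper, hE⟩ := hEt e
  have hm3 : Nat.Coprime 3 (NI m) := by
    have h1 : PrI m (sN k t 3) := (hMo3 m hFM.prm).2.2.2.2.1
    exact (((hO6 k t).2.2.2.2.1 3 m).1 h1).symm
  -- the values
  have hval : ∀ (z : ℤ) (n : ℕ), etaX f m R χ ((z : ℚ) / 3 ^ n) ∈ M := by
    intro z n
    exact hMx _ fun τ h1 h2 h3 => hEtG k t f m R χ hFM hR hχ _ (SNo_den hm3 z n) τ h1 h2 h3
  have hvalE : ∀ (z : ℤ) (n : ℕ), etE f m R χ e ((z : ℚ) / 3 ^ n) ∈ M := by
    intro z n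
    have h1 : -((z : ℚ) / 3 ^ n) = ((-z : ℤ) : ℚ) / 3 ^ n := by push_cast; ring
    unfold etE
    rw [h1]
    exact add_mem (hval z n) (mul_mem (intCast_mem M e) (hval (-z) n))
  have hκM : κ ∈ M := by
    have h1 : Algebra.adjoin ℤ (Set.range χ) ≤ M.toSubalgebra.restrictScalars ℤ := by
      refine Algebra.adjoin_le ?_
      rintro _ ⟨b, rfl⟩
      exact hMχ b
    exact h1 hκ
  have hκV : VP P κ := by
    have h1 : Algebra.adjoin ℤ (Set.range χ) ≤ integralClosure ℤ Om := by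
      refine Algebra.adjoin_le ?_
      rintro _ ⟨b, rfl⟩
      exact hint b
    exact DI.VP.integral (h1 hκ)
  obtain ⟨n, rfl⟩ : ∃ n, N = n + 1 := ⟨N - 1, by omega⟩
  set q : ℕ := 3 ^ n with hq
  have hq0 : 0 < q := by positivity
  have hN3 : 3 ^ (n + 1) = q + q + q := by rw [hq]; ring
  set z0 : Om := zet (3 ^ (n + 1)) with hz0
  have hz : IsPrimitiveRoot z0 (3 ^ (n + 1)) := hZt.1 (3 ^ (n + 1)) (by positivity)
  set ζ : Om := z0 ^ (-a) with hζ
  have hgcd : IsCoprime (-a) ((3 ^ (n + 1) : ℕ) : ℤ) := by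
    push_cast
    refine IsCoprime.pow_right ?_
    rw [IsCoprime.neg_left_iff]
    exact ((Int.isCoprime_iff_gcd_eq_one.2 (by
      rw [Int.gcd_comm]
      have h1 := (Int.prime_three).coprime_iff_not_dvd.2 ha
      exact Int.isCoprime_iff_gcd_eq_one.1 h1)))
  have hprim : IsPrimitiveRoot ζ (3 ^ (n + 1)) :=
    hz.zpow_of_gcd_eq_one (-a) (Int.isCoprime_iff_gcd_eq_one.1 hgcd)
  have hζV : VP P ζ := DI.VP.integral (hprim.isIntegral (by positivity))
  have hζq : (ζ ^ q) ^ 3 = 1 := by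
    rw [← pow_mul, hq, ← pow_succ]
    exact hprim.pow_eq_one
  -- the function `A`
  set B : ℕ → Om := fun c => ∑ i ∈ Finset.range 3, etE f m R χ e (((c : ℚ) / 3 ^ n + i) / 3) with hB
  have hrew : ∀ (c i : ℕ), ((c : ℚ) / 3 ^ n + i) / 3 = (((c + q * i : ℕ) : ℤ) : ℚ) / 3 ^ (n + 1) := by
    intro c i
    rw [hq]
    push_cast
    field_simp
    ring
  have hBV : ∀ c i : ℕ, VP P (etE f m R χ e (((c : ℚ) / 3 ^ n + i) / 3)) := by
    intro c i
    rw [hrew]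
    exact (hE _ _).1
  have hBM : ∀ c i : ℕ, etE f m R χ e (((c : ℚ) / 3 ^ n + i) / 3) ∈ M := by
    intro c i
    rw [hrew]
    exact hvalE _ _
  set A : ℕ → Om := fun c => B c - if c = 0 then κ else 0 with hA
  have hAM : ∀ c, A c ∈ M := by
    intro c
    refine sub_mem (sum_mem fun i _ => hBM c i) ?_
    split_ifs
    · exact hκM
    · exact zero_mem M
  have hAV : ∀ c, VP P (A c) := by
    intro c
    refine DI.VP.sub (DI.VP.sum _ _ fun i _ => hBV c i) ?_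
    split_ifs
    · exact hκV
    · exact DI.VP.zero
  -- the sum
  have hterm : ∀ c i : ℕ, z0 ^ (-(((c + q * i : ℕ) : ℤ) * a)) *
      etE f m R χ e (((c + q * i : ℕ) : ℚ) / 3 ^ (n + 1)) =
      ζ ^ c * etE f m R χ e (((c : ℚ) / 3 ^ n + i) / 3) +
        ζ ^ c * (((ζ ^ q) ^ i - 1) * etE f m R χ e (((c : ℚ) / 3 ^ n + i) / 3)) := by
    intro c i
    have h1 : z0 ^ (-(((c + q * i : ℕ) : ℤ) * a)) = ζ ^ c * (ζ ^ q) ^ i := by
      rw [← pow_mul, ← pow_add, hζ, ← zpow_natCast (z0 ^ (-a)), ← zpow_mul]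
      congr 1
      push_cast
      ring
    have h2 := hrew c i
    rw [Int.cast_natCast] at h2
    rw [h1, h2]
    ring
  have hsum : ∑ c ∈ Finset.range (3 ^ (n + 1)), z0 ^ (-((c : ℤ) * a)) *
      etE f m R χ e ((c : ℚ) / 3 ^ (n + 1)) - κ = ∑ c ∈ Finset.range q, ζ ^ c * A c +
      ∑ c ∈ Finset.range q, ∑ i ∈ Finset.range 3,
        ζ ^ c * (((ζ ^ q) ^ i - 1) * etE f m R χ e (((c : ℚ) / 3 ^ n + i) / 3)) := by
    have h1 : ∀ g : ℕ → Om, ∑ c ∈ Finset.range (3 ^ (n + 1)), g c =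
        ∑ c ∈ Finset.range q, ∑ i ∈ Finset.range 3, g (c + q * i) := by
      intro g
      rw [hN3, Finset.sum_range_add, Finset.sum_range_add, ← Finset.sum_add_distrib,
        ← Finset.sum_add_distrib]
      refine Finset.sum_congr rfl fun c _ => ?_
      rw [Finset.sum_range_succ, Finset.sum_range_succ, Finset.sum_range_one, mul_zero, add_zero,
        mul_one, show q + c = c + q by ring, show q + q + c = c + q * 2 by ring]
    rw [h1]
    have h2 : ∑ c ∈ Finset.range q, ζ ^ c * A c = ∑ c ∈ Finset.range q, ζ ^ c * B c - κ := by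
      have h3 : ∑ c ∈ Finset.range q, ζ ^ c * A c = ∑ c ∈ Finset.range q, ζ ^ c * B c -
          ∑ c ∈ Finset.range q, ζ ^ c * (if c = 0 then κ else 0) := by
        rw [← Finset.sum_sub_distrib]
        refine Finset.sum_congr rfl fun c _ => ?_
        rw [hA]
        ring
      rw [h3]
      congr 1
      rw [Finset.sum_eq_single_of_mem 0 (Finset.mem_range.2 hq0)]
      · rw [if_pos rfl, pow_zero, one_mul]
      · intro b _ hb
        rw [if_neg hb, mul_zero]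
    rw [h2, sub_add_eq_add_sub, ← Finset.sum_add_distrib]
    congr 1
    refine Finset.sum_congr rfl fun c _ => ?_
    rw [hB, Finset.mul_sum, ← Finset.sum_add_distrib]
    refine Finset.sum_congr rfl fun i _ => ?_
    exact hterm c i
  have herr : TP P (1 - zet 3) (∑ c ∈ Finset.range q, ∑ i ∈ Finset.range 3,
      ζ ^ c * (((ζ ^ q) ^ i - 1) * etE f m R χ e (((c : ℚ) / 3 ^ n + i) / 3))) := by
    refine GL.tp_sum _ _ _ fun c _ => GL.tp_sum _ _ _ fun i _ => ?_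
    refine GL.tp_mul (hζV.pow c) (GL.tp_mul_right ?_ (hBV c i))
    refine SNo_cube hZt hNP h3P _ ?_
    rw [← pow_mul, mul_comm i 3, pow_mul, hζq, one_pow]
  rw [hsum] at hcon
  have hmain : TP P (1 - zet 3) (∑ c ∈ Finset.range q, ζ ^ c * A c) := by
    have h1 := GL.tp_sub hcon herr
    rwa [add_sub_cancel_right] at h1
  obtain ⟨c, j, hc, hcj⟩ := SNo_rep c0 m0 n (by omega)
  have hfin := hUni P hNP h3P M (n + 1) ζ (by omega) hprim hMt A hAM hAV
    (by rw [Nat.add_sub_cancel]; exact hmain) c (by rw [Nat.add_sub_cancel]; exact hc)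
  have hc1 : c ≠ 0 := by
    rintro rfl
    apply hc0i j
    rw [← hcj]
    simp
  have hA1 : A c = B c := by
    rw [hA]
    simp only [if_neg hc1, sub_zero]
  rw [hA1] at hfin
  have h4 := (hE c n).2
  have h5 : MP P (χ (pp k t) * etE f m R χ e ((c : ℚ) / 3 ^ n)) := by
    rw [Int.cast_natCast] at h4
    have h6 := DI.MP.sub hfin h4
    rw [hB] at h6
    rwa [sub_sub_cancel] at h6
  have h6 := DI.MP.mul_left hup.inv.1 h5
  rw [inv_mul_cancel_left₀ hup.ne_zero] at h6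
  rw [← hcj, hper]
  exact h6

end Pool.Agent.DT.G
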