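import Pool.Agent.Lib.DT.G.SpecL

/-!
# Theorem DT, part G, module Sit: the situation of the local lemma
-/

set_option autoImplicit false

open scoped Pointwise

namespace Pool.Agent.DT.G

open Pool.Agent.MuZ Pool.Agent.FW Pool.Agent.DT
open Pool.Agent.DI (io ofC io_inj exists_io io_ofC ofC_io VP MP UP TP ex)

/-- The norm of an ideal in `HP f` is `1` modulo `3`. -/
theorem Sit_nm (hO2 : S_O2) (hO9 : S_O9) (hHN : C_HNf) (k t : ℕ) [SqT k t] (f : ℕ) (hF : Fok f)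
    (a : Ideal (OO k t)) (ha : HP f a) : (3 : ℤ) ∣ (NI a : ℤ) - 1 := by
  obtain ⟨v, _, hv, hr⟩ := ha
  obtain ⟨_, _, _, _, _, _, _, h8, _⟩ := hHN k t f 1 hF le_rfl
  have h1 := (h8 v hv).2.2.2.2.2
  have h2 : ((3 * f : ℕ) : ℤ) ∣ (NI a : ℤ) - NI (sp v) := hO9 k t (3 * f) (by have := hF.pos; omega) a (sp v) hr
  rw [(hO2 k t).2.2.2.1 v] at h2
  have h3 : (3 : ℤ) ∣ ((3 * f : ℕ) : ℤ) := by
    push_cast
    exact dvd_mul_right _ _
  have h4 := dvd_add (dvd_trans h3 h2) h1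
  rwa [sub_add_sub_cancel] at h4

theorem tSit : S_Sit := by
  intro hO2 hO9 hE1 hE6 hE9 hGM hZt hMod hHN hTam hInr k t _ f P hF hP
  obtain ⟨e1, e2, _⟩ := (hE9 k t).2.2 f hF
  obtain ⟨_, _, g1, _, _, _, _, g8⟩ := hGM k t f hF
  have h3 : MP P 3 := hP.2.1
  obtain ⟨⟨hn0, _⟩, ⟨_, _, _, _, _, _, hle, _⟩, _⟩ := hMod k t f 1 hF le_rfl
  exact
    { prime := hP.1.1
      three := h3
      nrm := e1
      lnn := e2
      mu := by
        change ∀ τ ∈ GK k t, ∀ a : Ideal (OO k t), Psi τ (sN k t (3 * f)) a → HP f a → τ (zet 3) = zet 3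
        intro τ hτ a hPsi ha
        have hc : (zet 3) ^ 3 = 1 := (hZt.1 3 (by norm_num)).pow_eq_one
        have h1 := hE6 k t τ 3 a hτ (by norm_num) ((hE1 k t _ hn0).2.2.2.2 τ _ a hPsi hle) (zet 3) hc
        have h2 := Sit_nm hO2 hO9 hHN k t f hF a ha
        have h4 : NI a % 3 = 1 := by omega
        rw [h1, ← Nat.div_add_mod (NI a) 3, h4, pow_add, pow_mul, hc, one_pow, one_mul, pow_one]
      inr := fun τ hτ hz => (hInr k t f P hF hP τ hτ hz).2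
      tam := hTam (Mf k t f) g1 e1 P hP.1 h3 (fun τ hτ hz => (hInr k t f P hF hP τ hτ hz).2)
      lnx := fun N ζ hN hζ => g8 N hN ζ hζ }

end Pool.Agent.DT.G
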