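import Pool.Agent.Lib.DT.G.Spec
import Pool.Agent.Lib.DT.GL.Spec

/-!
# Theorem DT, part G: the local lemma for the fields `L'`, `L'_n`; conclusion (author helper21)
-/

set_option autoImplicit false

open scoped Pointwise

noncomputable section

namespace Pool.Agent.DT.G

open Pool.Agent.MuZ Pool.Agent.FW Pool.Agent.DT
open Pool.Agent.DI (io ofC io_inj exists_io io_ofC ofC_io VP MP UP TP ex)

/-- The situation of the local lemma. -/
def C_Sit : Prop :=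
  ∀ (k t : ℕ) [SqT k t] (f : ℕ) (P : Ideal ZZ), Fok f → AbP k t P →
    GL.Sit (Mf k t f) (fun N => Mn k t f N) P

/-- (60 lines) **Sit**. PROOF. `AbP k t P`: `P` is prime, `MP P 3`. `nrm`, `lnn`: `S_E9` (3). `mu`: `τ ∈ GK`, `Psi τ (sN (3 f)) a`,
`HP f a`: `Psi τ (sN 3) a` (`S_E1`), `τ (zet 3) = (zet 3)^(NI a)` (`S_E6`), and `3 ∣ NI a - 1` (`S_O9`, `S_O2`, C_HNf). `inr`: C_Inr.
`tam`: C_TamG. `lnx`: `S_GM`. -/
def S_Sit : Prop :=
  S_O2 → S_O9 → S_E1 → S_E6 → S_E9 → S_GM → C_Zt → C_Mod → C_HNf → C_TamG → C_Inr → C_Sit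

/-- (100 lines) **GFin**: `S_G`. PROOF. As `DK/G/GFin.lean`. -/
def S_GFin : Prop := GL.C_G9 → S_G3 → C_Zt → C_Mod → C_SN → C_Chi → C_G7 → C_Sit → S_G

end Pool.Agent.DT.G
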