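import Pool.Agent.Lib.DT.G.Spec

/-!
# Theorem DT, module T0: the point `T₀`
-/

set_option autoImplicit false

open scoped Pointwise

noncomputable section

namespace Pool.Agent.DT.G

open Pool.Agent.MuZ Pool.Agent.FW Pool.Agent.DT
open Pool.Agent.DI (io ofC io_inj exists_io io_ofC ofC_io VP MP UP TP ex)

private lemma T0_three {k t : ℕ} [SqT k t] (hO4 : S_O4) {v u : OO k t} (hv : v ∈ pp k t)
    (hu : u ∈ ppb k t) : ∃ x : OO k t, v * u = 3 * x := by
  have h1 : v * u ∈ sN k t 3 := by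
    rw [← (hO4 k t).1]
    exact Ideal.mul_mem_mul hv hu
  obtain ⟨x, hx⟩ := Ideal.mem_span_singleton'.1 h1
  refine ⟨x, ?_⟩
  rw [← hx, mul_comm]
  norm_num

private lemma T0_w {k t : ℕ} : (1 - wI k t) ∈ ppb k t :=
  Ideal.subset_span (Set.mem_insert_of_mem _ rfl)

private lemma T0_smul {k t : ℕ} [SqT k t] (hO4 : S_O4) (f : ℕ) (hc : c0 k t f ∈ pp k t)
    {v : OO k t} (hv : v ∈ pp k t) : ∃ o : OO k t, toC v * T0 k t f = toC o := by
  obtain ⟨x, hx⟩ := T0_three hO4 hv T0_w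
  obtain ⟨y, hy⟩ := T0_three hO4 hc T0_w
  refine ⟨f * (x * y), ?_⟩
  have e : v * ((f : OO k t) * (1 - wI k t) ^ 2 * c0 k t f) = 3 * (3 * (f * (x * y))) := by
    linear_combination (f : OO k t) * (c0 k t f * (1 - wI k t)) * hx + (f : OO k t) * 3 * x * hy
  have e2 := congrArg toC e
  rw [toC_mul v, toC_mul 3 (3 * _), toC_mul 3 (_ * _), toC_three] at e2
  unfold T0
  rw [mul_div_assoc', e2]
  ring

theorem tT0 : S_T0 := by
  intro hO4 hL6 hCop hMod hC0 k t _ f b hf hb hb3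
  obtain ⟨o1, o2, o3, o4, o5, o6, o7, o8, o9, o10, o11, o12⟩ := hO4 k t
  obtain ⟨c1, c2, c3, c4, c5, c6, c7, c8, c9, c10⟩ := hC0 k t f hf
  obtain ⟨m1, m2, m3, m4, m5, m6, m7, m8, m9⟩ := hMod k t f 1 hf le_rfl
  have hn : ∀ n : Ideal (OO k t), n ≤ pp k t → T0 k t f ∈ Lam (n * b) := by
    intro n hn v hv
    have h1 : n * b ≤ n := Ideal.mul_le_left
    exact T0_smul hO4 f c2 (hn (h1 hv))
  have h3 : (3 : OO k t) ∈ pp k t := Ideal.subset_span (Set.mem_insert _ _)
  have hnot : T0 k t f ∉ Lam b := by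
    intro h
    obtain ⟨x, hx, hxp⟩ : ∃ x ∈ b, x ∉ pp k t := by
      by_contra hcon
      push Not at hcon
      have h1 : b ⊔ sN k t 3 ≤ pp k t := by
        refine sup_le hcon ?_
        rw [Ideal.span_singleton_le_iff_mem]
        exact_mod_cast h3
      rw [hb3] at h1
      exact o4.ne_top (top_le_iff.1 h1)
    obtain ⟨o, ho⟩ := h x hx
    have e1 : toC (x * ((f : OO k t) * (1 - wI k t) ^ 2 * c0 k t f)) = toC (3 * (3 * o)) := by
      rw [toC_mul x, toC_mul 3 (3 * o), toC_mul 3 o, ← ho, toC_three]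
      unfold T0
      ring
    have e2 := toC_inj e1
    have h2 : c0 k t f * (x * ((f : OO k t) * (1 - wI k t) ^ 2)) ∈ pp k t ^ 2 := by
      have e3 : c0 k t f * (x * ((f : OO k t) * (1 - wI k t) ^ 2)) = 3 * (3 * o) := by
        rw [← e2]
        ring
      rw [e3, sq]
      exact Ideal.mul_mem_mul h3 ((pp k t).mul_mem_right _ h3)
    have h4 := c10 _ h2
    rcases o4.mem_or_mem h4 with h5 | h5
    · exact hxp h5
    rcases o4.mem_or_mem h5 with h6 | h6
    · exact m8 h6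
    · have h7 := o4.mem_of_pow_mem _ h6
      rw [o11] at h7
      have e4 : (1 - wI k t).re = 1 := by
        rw [QuadraticAlgebra.re_sub, re_one]
        rfl
      rw [e4] at h7
      omega
  have hpp := hn (pp k t) le_rfl
  refine ⟨?_, hn, hnot, ?_, ?_, ?_⟩
  · have h := tor_div (k := k) (t := t) (N := 9) (by norm_num)
      ((f : OO k t) * (1 - wI k t) ^ 2 * c0 k t f)
    have e : ((9 : ℕ) : ℂ) = 9 := by norm_num
    rw [e] at h
    exact h
  · rcases (hL6 k t b hb).1.2.2.2.2 _ hpp with h | h | h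
    · exact absurd h hnot
    · exact Or.inl h
    · exact Or.inr h
  · intro h hh v _
    obtain ⟨o, ho⟩ := T0_smul hO4 f c2 hh
    refine ⟨v * o, ?_⟩
    rw [toC_mul, ← ho, toC_sub, toC_one]
    ring
  · intro N h hN
    have hf0 : (f : ℂ) ≠ 0 := by
      have h9 : f ≠ 0 := by
        intro h0
        apply m7
        rw [h0]
        exact dvd_zero _
      exact_mod_cast h9
    obtain ⟨M, rfl⟩ : ∃ M, N = M + 1 := ⟨N - 1, by omega⟩
    have e1 : toC (aN k t f (M + 1)) = 1 + (f : ℂ) ^ 2 * 3 ^ M * toC (1 - wI k t) ^ 2 := by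
      unfold aN
      rw [toC_add, toC_one, toC_mul, toC_pow, toC_nat, Nat.add_sub_cancel]
      push_cast
      ring
    rw [toC_mul, e1]
    unfold zN T0
    rw [toC_mul, toC_mul, toC_pow, toC_nat]
    field_simp
    ring

end Pool.Agent.DT.G
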