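import Pool.Agent.Lib.DT.G.Spec
import Pool.Agent.Lib.DT.GL.Tp

/-!
# Theorem DT, part G, module ThA: translation by `T₀`, the coordinate `X` modulo `3`
-/

set_option autoImplicit false

open scoped Pointwise

noncomputable section

namespace Pool.Agent.DT.G

open Pool.Agent.MuZ Pool.Agent.FW Pool.Agent.DT
open Pool.Agent.DI (io ofC io_inj exists_io io_ofC ofC_io VP MP UP TP ex)
open Pool.Agent.DT.GL (tp_add tp_sub tp_mul tp_mul_right tp_prod2)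

/-- The algebraic core. -/
private theorem ThA_core {P : Ideal ZZ} [P.IsPrime] {X X' X'' XT V VT A A' ρ l ω s : Om}
    (h3 : MP P 3) (hX : VP P X) (hV : VP P V) (hA : UP P A) (hρ : UP P ρ) (hs : VP P s)
    (hA' : TP P 3 (A' - A ^ 3)) (hρ' : TP P 3 (ρ - A ^ 2)) (hω : ω = 1 - l) (hlV : VP P l)
    (h9 : l ^ 4 * ω = 9) (hlT : ∀ x : Om, TP P 3 x ↔ TP P (l ^ 2) x)
    (hXT : XT = -ρ / 3)
    (e1 : (X' + X'') * (X - XT) ^ 2 = 2 * X * XT * (X + XT) + A ^ 2 * X * XT + A * (X + XT) + 1)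
    (e2 : (X' - X'') * (X - XT) ^ 2 = -(V * VT)) (e3 : VT * l ^ 3 = s * (A' - 3)) :
    TP P 3 (X' - X - s * l * V * A⁻¹) := by
  have hρ0 : ρ ≠ 0 := hρ.ne_zero
  have hA0 : A ≠ 0 := hA.ne_zero
  have h30 : (3 : Om) ≠ 0 := by norm_num
  have hρi : VP P ρ⁻¹ := hρ.inv.1
  have hAi : VP P A⁻¹ := hA.inv.1
  have h3V : VP P 3 := h3.vp
  have h2V : VP P (2 : Om) := by exact_mod_cast VP.nat (P := P) 2
  obtain ⟨a, ha, ha'⟩ := hA'
  obtain ⟨r, hr, hr'⟩ := hρ'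
  have eA : A' = A ^ 3 + 3 * a := by linear_combination ha'
  have eρ : ρ = A ^ 2 + 3 * r := by linear_combination hr'
  obtain ⟨c, hc, hc'⟩ := (hlT 3).1 ⟨1, VP.one, by ring⟩
  -- `q`
  have hq : UP P (1 + 3 * (X * ρ⁻¹)) := by
    refine UP.congr UP.one ?_
    have e : (1 : Om) + 3 * (X * ρ⁻¹) - 1 = 3 * (X * ρ⁻¹) := by ring
    rw [e]
    exact MP.mul_right h3 (hX.mul hρi)
  set q : Om := 1 + 3 * (X * ρ⁻¹) with hqd
  have hq0 : q ≠ 0 := hq.ne_zero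
  have hqi : VP P (q ^ 2)⁻¹ := (hq.pow 2).inv.1
  have hy : (X - XT) * (-3 * ρ⁻¹) = -q := by
    rw [hXT, hqd]
    field_simp
    ring
  have hy2 : (X - XT) ^ 2 * (-3 * ρ⁻¹) ^ 2 = q ^ 2 := by
    rw [← mul_pow, hy]
    ring
  have hXTy : XT * (-3 * ρ⁻¹) = 1 := by
    rw [hXT]
    field_simp
  -- first congruence
  have f1 : TP P 3 (X' + X'' - 2 * X) := by
    refine ⟨-ρ⁻¹ * (2 * X * (3 * X - X ^ 2 * (-3 * ρ⁻¹)) + A ^ 2 * X + A * (X * (-3 * ρ⁻¹) + 1) +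
      -3 * ρ⁻¹) * (q ^ 2)⁻¹, ?_, ?_⟩
    · have y1 : VP P (-3 * ρ⁻¹) := (VP.neg h3V).mul hρi
      refine VP.mul (VP.mul hρi.neg ?_) hqi
      refine VP.add (VP.add (VP.add ?_ ((hA.1.pow 2).mul hX)) (hA.1.mul ((hX.mul y1).add VP.one))) y1
      exact (h2V.mul hX).mul ((h3V.mul hX).sub ((hX.pow 2).mul y1))
    · have g1 : (X' + X'' - 2 * X) * q ^ 2 = 3 * (-ρ⁻¹ * (2 * X * (3 * X - X ^ 2 * (-3 * ρ⁻¹)) +
          A ^ 2 * X + A * (X * (-3 * ρ⁻¹) + 1) + -3 * ρ⁻¹)) := by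
        have g2 : (X' + X'') * q ^ 2 = (2 * X * XT * (X + XT) + A ^ 2 * X * XT + A * (X + XT) + 1) *
            (-3 * ρ⁻¹) ^ 2 := by
          rw [← hy2, ← e1]
          ring
        have g3 : (2 * X * XT * (X + XT) + A ^ 2 * X * XT + A * (X + XT) + 1) * (-3 * ρ⁻¹) ^ 2 =
            2 * X * (XT * (-3 * ρ⁻¹)) * (X * (-3 * ρ⁻¹) + XT * (-3 * ρ⁻¹)) +
            A ^ 2 * X * (XT * (-3 * ρ⁻¹)) * (-3 * ρ⁻¹) +
            A * (X * (-3 * ρ⁻¹) + XT * (-3 * ρ⁻¹)) * (-3 * ρ⁻¹) + (-3 * ρ⁻¹) ^ 2 := by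
          ring
        rw [hXTy] at g3
        rw [sub_mul, g2, g3, hqd]
        ring
      rw [← mul_assoc, ← g1, mul_inv_cancel_right₀ (pow_ne_zero 2 hq0)]
  -- second congruence
  have f2 : TP P 3 (X' - X'' + s * l * V * A⁻¹) := by
    rw [hlT]
    refine ⟨s * V * (A⁻¹ * (ρ⁻¹) ^ 2) * (l * c * ((2 * (X * ρ⁻¹) + 3 * (X * ρ⁻¹) ^ 2) * ρ ^ 2 +
      2 * A ^ 2 * r + 3 * r ^ 2 - (a - 1) * ω * A) + A ^ 4) * (q ^ 2)⁻¹, ?_, ?_⟩
    · have y1 : VP P (X * ρ⁻¹) := hX.mul hρi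
      have y2 : VP P ω := by
        rw [hω]
        exact VP.one.sub hlV
      refine VP.mul (VP.mul ((hs.mul hV).mul (hAi.mul (hρi.pow 2))) ?_) hqi
      refine VP.add ((hlV.mul hc).mul ?_) (hA.1.pow 4)
      refine VP.sub (VP.add (VP.add ?_ ?_) ?_) ?_
      · exact ((h2V.mul y1).add (h3V.mul (y1.pow 2))).mul (hρ.1.pow 2)
      · exact (h2V.mul (hA.1.pow 2)).mul hr
      · exact h3V.mul (hr.pow 2)
      · exact ((ha.sub VP.one).mul y2).mul hA.1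
    · have g1 : (X' - X'') * q ^ 2 = -(V * (s * (A' - 3) * (l * ω) * (ρ⁻¹) ^ 2)) := by
        rw [← hy2, ← mul_assoc, e2, ← e3]
        have g2 : (-3 * ρ⁻¹) ^ 2 = l ^ 4 * ω * (ρ⁻¹) ^ 2 := by
          rw [h9]
          ring
        rw [g2]
        ring
      have g3 : s * l * V * A⁻¹ * q ^ 2 = s * l * V * (A⁻¹ * (ρ⁻¹) ^ 2) * (q ^ 2 * ρ ^ 2) := by
        field_simp
      have g4 : s * (A' - 3) * (l * ω) * (ρ⁻¹) ^ 2 =
          s * l * (A⁻¹ * (ρ⁻¹) ^ 2) * ((A' - 3) * ω * A) := by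
        field_simp
      have g5 : q ^ 2 * ρ ^ 2 - (A' - 3) * ω * A =
          l * (l * c * ((2 * (X * ρ⁻¹) + 3 * (X * ρ⁻¹) ^ 2) * ρ ^ 2 +
            2 * A ^ 2 * r + 3 * r ^ 2 - (a - 1) * ω * A) + A ^ 4) := by
        have g6 : q ^ 2 * ρ ^ 2 - (A' - 3) * ω * A =
            3 * ((2 * (X * ρ⁻¹) + 3 * (X * ρ⁻¹) ^ 2) * ρ ^ 2 +
            2 * A ^ 2 * r + 3 * r ^ 2 - (a - 1) * ω * A) + l * A ^ 4 := by
          have g7 : q ^ 2 * ρ ^ 2 = ρ ^ 2 + 3 * ((2 * (X * ρ⁻¹) + 3 * (X * ρ⁻¹) ^ 2) * ρ ^ 2) := by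
            rw [hqd]
            ring
          have g8 : ρ ^ 2 = A ^ 4 + 3 * (2 * A ^ 2 * r + 3 * r ^ 2) := by
            rw [eρ]
            ring
          rw [g7, eA]
          generalize (2 * (X * ρ⁻¹) + 3 * (X * ρ⁻¹) ^ 2) * ρ ^ 2 = w
          rw [g8, hω]
          ring
        rw [g6]
        generalize ((2 * (X * ρ⁻¹) + 3 * (X * ρ⁻¹) ^ 2) * ρ ^ 2 +
            2 * A ^ 2 * r + 3 * r ^ 2 - (a - 1) * ω * A) = w
        linear_combination w * hc'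
      have g9 : (X' - X'' + s * l * V * A⁻¹) * q ^ 2 = l ^ 2 * (s * V * (A⁻¹ * (ρ⁻¹) ^ 2) *
          (l * c * ((2 * (X * ρ⁻¹) + 3 * (X * ρ⁻¹) ^ 2) * ρ ^ 2 +
            2 * A ^ 2 * r + 3 * r ^ 2 - (a - 1) * ω * A) + A ^ 4)) := by
        rw [add_mul, g1, g3, g4]
        linear_combination (s * l * V * (A⁻¹ * (ρ⁻¹) ^ 2)) * g5
      rw [← mul_assoc, ← g9, mul_inv_cancel_right₀ (pow_ne_zero 2 hq0)]
  -- conclusion
  have h2 : UP P 2 := by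
    refine UP.congr UP.one.neg ?_
    have e : (2 : Om) - -1 = 3 := by norm_num
    rw [e]
    exact h3
  have h4 : TP P 3 (3 * (s * l * V * A⁻¹)) := ⟨_, ((hs.mul hlV).mul hV).mul hAi, rfl⟩
  have h5 := tp_mul h2.inv.1 (tp_sub (tp_add f1 f2) h4)
  have e : (2 : Om)⁻¹ * (X' + X'' - 2 * X + (X' - X'' + s * l * V * A⁻¹) - 3 * (s * l * V * A⁻¹)) =
      X' - X - s * l * V * A⁻¹ := by
    have h20 : (2 : Om) ≠ 0 := by norm_num
    field_simp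
    ring
  rw [e] at h5
  exact h5

/-- **ThA.** -/
theorem tThA : S_ThA := by
  intro hL6a hB1 hB3 hB6 hB12 hR1 hR2 hR4 hR5 hZt hT0 hAbP hRdz k t _ f N b hf hN hb hbP P hP h hh z
    hz σ hσ hV
  have hPr : Npr P := hP.1
  haveI := hPr.1
  have h3 : MP P 3 := hP.2.1
  have htop : (⊤ : Ideal (OO k t)) ≠ ⊥ := fun e => hb (le_bot_iff.1 (e ▸ le_top))
  have hbPb : PrI b (ppb k t) := by
    unfold PrI at hbP ⊢
    rw [eq_top_iff, ← hbP]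
    refine sup_le_sup_left ?_ b
    rw [Ideal.span_singleton_le_iff_mem, Nat.cast_ofNat]
    exact Ideal.subset_span (Or.inl rfl)
  have hppb : pp k t * b ≠ ⊥ := by
    intro e
    rcases Ideal.mul_eq_bot.1 e with e1 | e1
    · have h1 : (3 : OO k t) ∈ pp k t := Ideal.subset_span (Or.inl rfl)
      rw [e1, Ideal.mem_bot] at h1
      have h2 := congrArg toC h1
      rw [toC_three, toC_zero] at h2
      norm_num at h2
    · exact hb e1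
  obtain ⟨hz1, -, hz3, hz4, hz5, -, hz7, -⟩ :=
    hRdz k t f N ⊤ b hf hN htop hb (top_sup_eq _) hbP P hP h hh z hz
  obtain ⟨t1, t2, t3, t4, -⟩ := hT0 k t f b hf hb hbP
  obtain ⟨⟨-, l2, -⟩, -⟩ := hL6a k t b hb
  obtain ⟨b1, b2, b3, b4, -, b6, -, b8, -⟩ := hB1 k t b hb
  obtain ⟨-, -, -, c4, -⟩ := hB6 k t b hb
  obtain ⟨d1, d2, -⟩ := hB12 k t b hb hbPb
  obtain ⟨r1, -⟩ := hR1 k t b hb
  obtain ⟨-, r2', -⟩ := hR1 k t (pp k t * b) hppb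
  obtain ⟨-, -, -, -, s1⟩ := hR2 k t b hb P hPr
  obtain ⟨s2, s3, s4⟩ := s1 hP
  obtain ⟨-, -, -, s5, -⟩ := hR2 k t (pp k t * b) hppb P hPr
  have s6 := (s5 fun hn => (hAbP k t P).2.2.1 ⟨hP, hn⟩).1
  have hxo := (hR4.1 k t b hb).2
  obtain ⟨-, -, -, hvo⟩ := hR5 k t ⊤ b b htop hb hb (top_sup_eq _) hbPb hbPb
  obtain ⟨-, -, z3, -, -, z6⟩ := hZt
  obtain ⟨z7, z8, z9, -⟩ := z6 P hPr h3
  have hT : T0 k t f ∈ Lam (pp k t * b) := t2 (pp k t) le_rfl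
  have hm1 : z + T0 k t f ∉ Lam b := hz7 _ hT
  have hm2 : z - T0 k t f ∉ Lam b := by
    rw [sub_eq_add_neg]
    exact hz7 _ (lam_neg hT)
  obtain ⟨p1, -, p3⟩ := (hB3 k t b hb).1 z (T0 k t f) hz3 t3 hm1 hm2
  have hS0 : wdC b (S0 k t) ^ 2 = r2 b ^ 3 := by
    rw [b6]
    rcases d1 with h1 | h1
    · have h2 := (b1 (ptS b) _ h1).2.1
      rw [add_sub_cancel] at h2
      rw [h2]
    · have h2 := (b1 (-ptS b) _ h1).2.1
      have h3' : -ptS b + (S0 k t + ptS b) = S0 k t := by ring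
      rw [h3', (b2 _).2.1] at h2
      rw [h2]
      ring
  have hXT : xO b (T0 k t f) = -rhO (pp k t * b) / 3 := by
    apply io_inj
    rw [hxo _ t1, (b8 _ _ t3 l2).2 t4, c4, map_div₀, map_neg, r2', map_ofNat]
  have e1 : (xO b (z + T0 k t f) + xO b (z - T0 k t f)) * (xO b z - xO b (T0 k t f)) ^ 2 =
      2 * xO b z * xO b (T0 k t f) * (xO b z + xO b (T0 k t f)) +
      aO b ^ 2 * xO b z * xO b (T0 k t f) + aO b * (xO b z + xO b (T0 k t f)) + 1 := by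
    apply io_inj
    simp only [map_mul, map_add, map_sub, map_pow, map_one, map_ofNat]
    rw [hxo _ (tor_add hz1 t1), hxo _ (tor_sub hz1 t1), hxo _ hz1, hxo _ t1, r1]
    exact p1
  have e2 : (xO b (z + T0 k t f) - xO b (z - T0 k t f)) * (xO b z - xO b (T0 k t f)) ^ 2 =
      -(vO b z * vO b (T0 k t f)) := by
    apply io_inj
    simp only [map_mul, map_sub, map_pow, map_neg]
    rw [hxo _ (tor_add hz1 t1), hxo _ (tor_sub hz1 t1), hxo _ hz1, hxo _ t1, (hvo z hz1).1,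
      (hvo _ t1).1]
    have h1 : wdC b z / wdC b (S0 k t) * (wdC b (T0 k t f) / wdC b (S0 k t)) =
        wdC b z * wdC b (T0 k t f) / r2 b ^ 3 := by
      rw [← hS0]
      field_simp
    rw [h1]
    have h2 : r2 b ^ 3 ≠ 0 := pow_ne_zero 3 b3
    rw [← neg_div, eq_div_iff h2, ← p3]
    ring
  have hs : VP P (σ : Om) := VP.int σ
  exact ThA_core h3 hz4 hz5 s2 s6 hs s3 s4 (by ring) z7.vp z3 z9 hXT e1 e2 hV

end Pool.Agent.DT.G
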