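import Pool.Agent.Lib.DT.G.Spec

/-!
# Theorem DT, part G: translation of `Θ` by `T₀`, modulo `3` (helper80)
-/

set_option autoImplicit false

open scoped Pointwise

noncomputable section

namespace Pool.Agent.DT.G

open Pool.Agent.MuZ Pool.Agent.FW Pool.Agent.DT
open Pool.Agent.DI (io ofC io_inj exists_io io_ofC ofC_io VP MP UP TP ex)

private theorem ThT_prod {P : Ideal ZZ} [hP : P.IsPrime] (l : Om) (hl : VP P l) (S : Finset ℂ)
    (q g r : ℂ → Om) (hq : ∀ u ∈ S, q u = 1 + l * g u + l ^ 2 * r u)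
    (hg : ∀ u ∈ S, VP P (g u)) (hr : ∀ u ∈ S, VP P (r u)) :
    ∃ R : Om, VP P R ∧ ∏ u ∈ S, q u = 1 + l * (∑ u ∈ S, g u) + l ^ 2 * R := by
  classical
  induction S using Finset.induction_on with
  | empty => exact ⟨0, DI.VP.zero, by simp⟩
  | insert a s ha ih =>
    obtain ⟨R, hR, h1⟩ := ih (fun u hu => hq u (Finset.mem_insert_of_mem hu))
      (fun u hu => hg u (Finset.mem_insert_of_mem hu))
      (fun u hu => hr u (Finset.mem_insert_of_mem hu))
    have hga := hg a (Finset.mem_insert_self a s)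
    have hra := hr a (Finset.mem_insert_self a s)
    have hqa := hq a (Finset.mem_insert_self a s)
    have hA : VP P (∑ u ∈ s, g u) := DI.VP.sum s g fun u hu => hg u (Finset.mem_insert_of_mem hu)
    refine ⟨R + r a + g a * (∑ u ∈ s, g u) + l * (r a * (∑ u ∈ s, g u) + g a * R) +
      l ^ 2 * (r a * R), ?_, ?_⟩
    · exact (((hR.add hra).add (hga.mul hA)).add (hl.mul ((hra.mul hA).add (hga.mul hR)))).add
        ((hl.pow 2).mul (hra.mul hR))
    · rw [Finset.prod_insert ha, Finset.sum_insert ha, h1, hqa]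
      ring

private theorem ThT_ppb {k t : ℕ} {b : Ideal (OO k t)} (h : PrI b (sN k t 3)) :
    PrI b (ppb k t) := by
  unfold PrI at *
  refine top_unique (h.symm.le.trans (sup_le_sup_left ?_ b))
  unfold sN ppb
  rw [Ideal.span_le]
  rintro _ rfl
  exact Ideal.subset_span (by simp)

theorem tThT : S_ThT := by
  intro _ hR2 hR5 hD8 hZt hT0 _ hRdz hThA k t _ f N m b hf hN hm hb hm6 hb3 P hP h hh z hz σ hσ hV0
  have hPp : P.IsPrime := hP.1.1
  obtain ⟨hTor, hnl, hz0, hVX, hVV, _, hn1, hn2, hu⟩ :=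
    hRdz k t f N m b hf hN hm hb hm6 hb3 P hP h hh z hz
  obtain ⟨hTT, hTn, hTb, _, _, _⟩ := hT0 k t f b hf hb hb3
  obtain ⟨_, _, _, _, hl0, hlP⟩ := hZt
  obtain ⟨hlM, _, hT3, _⟩ := hlP P hP.1 hP.2.1
  set l : Om := 1 - zet 3 with hl
  have hlV : VP P l := hlM.vp
  have hTp : T0 k t f ∈ Lam (pp k t * b) := hTn (pp k t) le_rfl
  have hTor' : Tor k t (z + T0 k t f) := tor_add hTor hTT
  have hA : UP P (aO b) := ((hR2 k t b hb P hP.1).2.2.2.2 hP).1
  have hbp : PrI b (ppb k t) := ThT_ppb hb3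
  have hg := ((hR5 k t m b b hm hb hb hm6 hbp hbp).2.2.2 z hTor).2.2 hnl
  -- the coordinate
  have h3 : TP P (l ^ 2) (3 : Om) := (hT3 3).1 ⟨1, DI.VP.one, (mul_one 3).symm⟩
  obtain ⟨t3, ht3, h3e⟩ := h3
  obtain ⟨r', hr', hre⟩ := (hT3 _).1 (hThA k t f N b hf hN hb hb3 P hP h hh z hz σ hσ hV0)
  set X := xO b z with hX
  set X' := xO b (z + T0 k t f) with hX'
  set V := vO b z with hV
  have hσV : VP P (σ : Om) := DI.VP.int σ
  set e : Om := (σ : Om) * V * (aO b)⁻¹ + l * r' with he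
  have heV : VP P e := ((hσV.mul hVV).mul hA.inv.1).add (hlV.mul hr')
  have hX'e : X' = X + l * e := by
    rw [he]
    linear_combination hre
  have hdu : ∀ u ∈ hs m b, UP P (X - xO b u) := fun u hu' => (hu u hu').2.2
  have hdu' : ∀ u ∈ hs m b, UP P (X' - xO b u) := by
    intro u hu'
    refine DI.UP.congr (hdu u hu') ?_
    have e1 : X' - xO b u - (X - xO b u) = l * e := by rw [hX'e]; ring
    rw [e1]
    exact DI.MP.mul_right hlM heV
  have hTh0 : Theta m b z ≠ 0 := (hD8 k t m b hm hb hm6).2.2.2 z hTor hnl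
  have hW : ∀ u ∈ hs m b, dlO b * xO b u ^ 2 ≠ 0 := by
    intro u hu' h0
    apply hTh0
    unfold Theta
    refine Finset.prod_eq_zero hu' ?_
    rw [h0, zero_mul]
  have hratio : Theta m b (z + T0 k t f) / Theta m b z =
      ∏ u ∈ hs m b, ((X - xO b u) * (X' - xO b u)⁻¹) ^ 2 := by
    unfold Theta
    rw [← Finset.prod_div_distrib]
    refine Finset.prod_congr rfl fun u hu' => ?_
    have h1 := (hdu u hu').ne_zero
    have h3 := (hdu' u hu').ne_zero
    have h4 := hW u hu'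
    change (dlO b * xO b u ^ 2 * ((X' - xO b u) ^ 2)⁻¹) / (dlO b * xO b u ^ 2 * ((X - xO b u) ^ 2)⁻¹) =
      _
    generalize X - xO b u = c at *
    generalize X' - xO b u = c' at *
    generalize dlO b * xO b u ^ 2 = w at *
    field_simp
  refine ⟨hTh0, (hT3 _).2 ?_⟩
  obtain ⟨R, hR, hRp⟩ := ThT_prod (P := P) l hlV (hs m b)
    (fun u => ((X - xO b u) * (X' - xO b u)⁻¹) ^ 2)
    (fun u => (σ : Om) * (V * (aO b * (X - xO b u))⁻¹))
    (fun u => r' * (X - xO b u)⁻¹ - (t3 * (l * (e * (X - xO b u)⁻¹)) +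
      t3 * (l * (e * (X - xO b u)⁻¹)) ^ 2 + l * (e * (X - xO b u)⁻¹) ^ 3) *
        ((X - xO b u) * (X' - xO b u)⁻¹) ^ 2) (by
      intro u hu'
      have h1 := (hdu u hu').ne_zero
      have h3' := (hdu' u hu').ne_zero
      have h4 : X' - xO b u = (X - xO b u) + l * e := by rw [hX'e]; ring
      change ((X - xO b u) * (X' - xO b u)⁻¹) ^ 2 = _
      have hA0 := hA.ne_zero
      set d := X - xO b u with hd
      set d' := X' - xO b u with hd'
      set y : Om := e * d⁻¹ with hy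
      have h5 : d' = d * (1 + l * y) := by
        rw [h4, hy]
        field_simp
      have h6 : (1 + l * y) ≠ 0 := by
        intro h0
        rw [h0, mul_zero] at h5
        exact h3' h5
      have h7 : d * d'⁻¹ = (1 + l * y)⁻¹ := by
        rw [h5]
        field_simp
      have h8 : (σ : Om) * (V * (aO b * d)⁻¹) = y - l * (r' * d⁻¹) := by
        rw [hy, he]
        field_simp
        ring
      rw [h7, h8]
      have h9 : (1 + l * y)⁻¹ ^ 2 * (1 + l * y) ^ 2 = 1 := by
        rw [← mul_pow, inv_mul_cancel₀ h6, one_pow]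
      have h10 : (1 + l * y) ^ 3 = 1 + l ^ 2 * (t3 * (l * y) + t3 * (l * y) ^ 2 + l * y ^ 3) := by
        linear_combination ((l * y) + (l * y) ^ 2) * h3e
      have h11 : l ^ 2 * (t3 * (l * y) + t3 * (l * y) ^ 2 + l * y ^ 3) * (1 + l * y)⁻¹ ^ 2 =
          (1 + l * y) - (1 + l * y)⁻¹ ^ 2 := by
        have h12 : l ^ 2 * (t3 * (l * y) + t3 * (l * y) ^ 2 + l * y ^ 3) = (1 + l * y) ^ 3 - 1 := by
          rw [h10]
          ring
        rw [h12]
        linear_combination (1 + l * y) * h9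
      linear_combination h11) (by
      intro u hu'
      exact hσV.mul (hVV.mul (hA.mul (hdu u hu')).inv.1)) (by
      intro u hu'
      have hdi := (hdu u hu').inv.1
      have hy : VP P (e * (X - xO b u)⁻¹) := heV.mul hdi
      have hly : VP P (l * (e * (X - xO b u)⁻¹)) := hlV.mul hy
      exact (hr'.mul hdi).sub ((((ht3.mul hly).add (ht3.mul (hly.pow 2))).add
        (hlV.mul (hy.pow 3))).mul (((hdu u hu').1.mul (hdu' u hu').inv.1).pow 2)))
  refine ⟨R, hR, ?_⟩
  rw [hratio, hRp, hg.2, ← Finset.mul_sum]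
  ring

end Pool.Agent.DT.G
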