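import Pool.Agent.Lib.DT.G.Spec

/-!
# Theorem DT, part G, module Uni: tamely ramified coefficients and a root of unity of order `3 ^ N`

Author helper69, after `DK/G/Uni.lean`.
-/

set_option autoImplicit false

open scoped Pointwise

noncomputable section

namespace Pool.Agent.DT.G

open Pool.Agent.MuZ Pool.Agent.FW Pool.Agent.DT
open Pool.Agent.DI (io ofC io_inj exists_io io_ofC ofC_io VP MP UP TP ex)

private theorem Uni_add {P : Ideal ZZ} [P.IsPrime] {t x y : Om} (hx : TP P t x) (hy : TP P t y) :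
    TP P t (x + y) := by
  obtain ⟨a, ha, rfl⟩ := hx
  obtain ⟨b, hb, rfl⟩ := hy
  exact ⟨a + b, ha.add hb, by ring⟩

private theorem Uni_sub {P : Ideal ZZ} [P.IsPrime] {t x y : Om} (hx : TP P t x) (hy : TP P t y) :
    TP P t (x - y) := by
  obtain ⟨a, ha, rfl⟩ := hx
  obtain ⟨b, hb, rfl⟩ := hy
  exact ⟨a - b, ha.sub hb, by ring⟩

private theorem Uni_mul {P : Ideal ZZ} [P.IsPrime] {t x y : Om} (hx : VP P x) (hy : TP P t y) :
    TP P t (x * y) := by
  obtain ⟨b, hb, rfl⟩ := hy
  exact ⟨x * b, hx.mul hb, by ring⟩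

private theorem Uni_zero {P : Ideal ZZ} [P.IsPrime] {t : Om} : TP P t 0 :=
  ⟨0, DI.VP.zero, by rw [mul_zero]⟩

private theorem Uni_sum {P : Ideal ZZ} [P.IsPrime] {t : Om} (s : Finset ℕ) (F : ℕ → Om)
    (h : ∀ i ∈ s, TP P t (F i)) : TP P t (∑ i ∈ s, F i) := by
  classical
  induction s using Finset.induction_on with
  | empty => rw [Finset.sum_empty]; exact Uni_zero
  | insert a s ha ih =>
    rw [Finset.sum_insert ha]
    exact Uni_add (h a (Finset.mem_insert_self a s))
      (ih fun i hi => h i (Finset.mem_insert_of_mem hi))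

/-- Binomial theorem: `(l + 1) ^ (3 ^ m) = l ^ (3 ^ m) + 1 + 3 l r`. -/
private theorem Uni_binom {P : Ideal ZZ} [P.IsPrime] (m : ℕ) (l : Om) (hl : VP P l) :
    ∃ r : Om, VP P r ∧ (l + 1) ^ (3 ^ m) = l ^ (3 ^ m) + 1 + 3 * l * r := by
  obtain ⟨q, hq⟩ : ∃ q, 3 ^ m = q + 1 :=
    ⟨3 ^ m - 1, by have := Nat.pos_of_ne_zero (pow_ne_zero m (three_ne_zero : (3 : ℕ) ≠ 0)); omega⟩
  have hd : ∀ i : ℕ, i < q → ∃ d : ℕ, (3 ^ m).choose (i + 1) = 3 * d := by
    intro i hi
    have h1 := Nat.Prime.dvd_choose_pow (p := 3) (n := m) (k := i + 1) Nat.prime_three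
      (Nat.succ_ne_zero i) (by omega)
    obtain ⟨d, hd⟩ := h1
    exact ⟨d, hd⟩
  choose! d hd using hd
  refine ⟨∑ i ∈ Finset.range q, l ^ i * (d i : Om), ?_, ?_⟩
  · exact DI.VP.sum _ _ fun i _ => (hl.pow i).mul (DI.VP.nat _)
  · rw [add_pow, Finset.sum_range_succ, Nat.choose_self, Nat.sub_self]
    have h2 : Finset.range (3 ^ m) = Finset.range (q + 1) := by rw [hq]
    rw [h2, Finset.sum_range_succ']
    have h3 : ∑ i ∈ Finset.range q, l ^ (i + 1) * 1 ^ (3 ^ m - (i + 1)) * ((3 ^ m).choose (i + 1) : Om)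
        = 3 * l * ∑ i ∈ Finset.range q, l ^ i * (d i : Om) := by
      rw [Finset.mul_sum]
      refine Finset.sum_congr rfl fun i hi => ?_
      rw [hd i (Finset.mem_range.1 hi), one_pow]
      push_cast
      ring
    rw [h3, Nat.choose_zero_right]
    push_cast
    ring

theorem tUni : S_Uni := by
  intro hZt P hN h2 M N ζ hN1 hz hM A hAM hAV hT
  have hPp : P.IsPrime := hN.1
  obtain ⟨-, hz2, -, -, hz0, hZP⟩ := hZt
  obtain ⟨hzM, hzU, -, -⟩ := hZP P hN h2
  obtain ⟨m, rfl⟩ : ∃ m, N = m + 1 := ⟨N - 1, by omega⟩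
  have hm : m + 1 - 1 = m := rfl
  rw [hm] at hT ⊢
  set z : Om := zet 3 with hzdef
  have hzz : z ^ 2 + z + 1 = 0 := by linear_combination hz2
  have hz3 : z ^ 3 = 1 := by linear_combination (z - 1) * hzz
  have hζV : VP P ζ := by
    refine DI.VP.of_pow (n := 3 ^ (m + 1)) (by positivity) ?_
    rw [hz.pow_eq_one]
    exact DI.VP.one
  have hζq : ζ ^ (3 ^ m) = z ∨ ζ ^ (3 ^ m) = z ^ 2 := by
    have h3 : IsPrimitiveRoot (ζ ^ (3 ^ m)) 3 := hz.pow (by positivity) (by rw [pow_succ])
    have h4 := h3.pow_eq_one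
    have h5 : ζ ^ (3 ^ m) - 1 ≠ 0 := sub_ne_zero.2 (h3.ne_one (by norm_num))
    have h6 : (ζ ^ (3 ^ m)) ^ 2 + ζ ^ (3 ^ m) + 1 = 0 := by
      refine mul_left_cancel₀ h5 ?_
      linear_combination h4
    have h7 : (ζ ^ (3 ^ m) - z) * (ζ ^ (3 ^ m) - z ^ 2) = 0 := by
      linear_combination h6 - ζ ^ (3 ^ m) * hzz + hz3
    rcases mul_eq_zero.1 h7 with h8 | h8
    · exact Or.inl (sub_eq_zero.1 h8)
    · exact Or.inr (sub_eq_zero.1 h8)
  set l : Om := ζ - 1 with hl
  have hlV : VP P l := hζV.sub DI.VP.one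
  have hζl : ζ = l + 1 := by rw [hl]; ring
  obtain ⟨r, hr, hbin⟩ := Uni_binom (P := P) m l hlV
  set n : ℕ := 3 ^ m with hn
  have hn0 : 0 < n := by rw [hn]; positivity
  rw [← hζl] at hbin
  -- `l ^ n` is `1 - z` times a unit
  obtain ⟨ε, hε, hln⟩ : ∃ ε : Om, UP P ε ∧ l ^ n = (1 - z) * ε := by
    have hR : MP P ((1 - z) * (z ^ 2 * (l * r))) :=
      DI.MP.mul_right hzM ((hzU.pow 2).1.mul (hlV.mul hr))
    rcases hζq with h3 | h3
    · refine ⟨-1 + (1 - z) * (z ^ 2 * (l * r)), DI.UP.congr (DI.UP.neg DI.UP.one) ?_, ?_⟩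
      · rwa [add_sub_cancel_left]
      · rw [h3] at hbin
        linear_combination -hbin - z ^ 2 * l * r * hz2 + 3 * l * r * hz3
    · refine ⟨z ^ 2 + (1 - z) * (z ^ 2 * (l * r)), DI.UP.congr (hzU.pow 2) ?_, ?_⟩
      · rwa [add_sub_cancel_left]
      · rw [h3] at hbin
        linear_combination -hbin - z ^ 2 * l * r * hz2 + (3 * l * r + 1) * hz3
  have hlM : MP P l := by
    refine DI.MP.of_pow (n := n) ?_
    rw [hln]
    exact DI.MP.mul_right hzM hε.1
  have hl0 : l ≠ 0 := by
    intro h0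
    rw [h0, zero_pow hn0.ne'] at hln
    exact mul_ne_zero hz0 hε.ne_zero hln.symm
  -- elements of `(1 - z) V_P` are divisible by `l ^ n`
  have hdiv : ∀ x : Om, TP P (1 - z) x → ∃ y, VP P y ∧ x = l ^ n * y := by
    rintro x ⟨y, hy, rfl⟩
    refine ⟨ε⁻¹ * y, hε.inv.1.mul hy, ?_⟩
    rw [hln]
    have := hε.ne_zero
    rw [mul_assoc, mul_inv_cancel_left₀ this]
  -- elements of `M` which are in the maximal ideal are divisible by `1 - z`
  have htam : ∀ x ∈ M, MP P x → TP P (1 - z) x := by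
    intro x hx hxM
    refine ⟨x / (1 - z), DI.VP.of_pow (n := 2) two_pos ?_, ?_⟩
    · have h3 := hM x hx hxM
      have h4 : (x / (1 - z)) ^ 2 = x ^ 2 / 3 * -z⁻¹ := by
        rw [div_pow, hz2]
        have := hzU.ne_zero
        field_simp
      rw [h4]
      exact h3.mul hzU.inv.1.neg
    · field_simp
  -- the coefficients
  set B : ℕ → Om := fun k => ∑ c ∈ Finset.range n, (c.choose k : Om) * A c with hB
  have hBM : ∀ k, B k ∈ M := fun k =>
    sum_mem fun c _ => mul_mem (natCast_mem M _) (hAM c)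
  have hBV : ∀ k, VP P (B k) := fun k => DI.VP.sum _ _ fun c _ => (DI.VP.nat _).mul (hAV c)
  have hsum : ∑ c ∈ Finset.range n, ζ ^ c * A c = ∑ k ∈ Finset.range n, l ^ k * B k := by
    have h3 : ∀ c ∈ Finset.range n, ζ ^ c * A c =
        ∑ k ∈ Finset.range n, l ^ k * ((c.choose k : Om) * A c) := by
      intro c hc
      have hc' : c < n := Finset.mem_range.1 hc
      have h4 : ζ ^ c = ∑ k ∈ Finset.range n, l ^ k * (c.choose k : Om) := by
        rw [hζl, add_pow]
        have h5 : Finset.range (c + 1) ⊆ Finset.range n :=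
          Finset.range_subset_range.2 (by omega)
        rw [← Finset.sum_subset h5]
        · refine Finset.sum_congr rfl fun k _ => ?_
          rw [one_pow, mul_one]
        · intro k _ hk
          rw [Finset.mem_range, not_lt] at hk
          rw [Nat.choose_eq_zero_of_lt (by omega), Nat.cast_zero, mul_zero]
      rw [h4, Finset.sum_mul]
      exact Finset.sum_congr rfl fun k _ => by ring
    rw [Finset.sum_congr rfl h3, Finset.sum_comm]
    exact Finset.sum_congr rfl fun k _ => by rw [hB, Finset.mul_sum]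
  rw [hsum] at hT
  have hBT : ∀ k, k < n → MP P (B k) := by
    intro k
    induction k using Nat.strong_induction_on with
    | _ k ih =>
      intro hk
      obtain ⟨q, hq⟩ : ∃ q, n = k + (q + 1) := ⟨n - k - 1, by omega⟩
      have hsplit : ∑ j ∈ Finset.range n, l ^ j * B j = (∑ j ∈ Finset.range k, l ^ j * B j) +
          l ^ k * (B k + l * ∑ j ∈ Finset.range q, l ^ j * B (k + (j + 1))) := by
        have h4 : Finset.range n = Finset.range (k + (q + 1)) := by rw [← hq]
        rw [h4, Finset.sum_range_add, Finset.sum_range_succ']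
        have h5 : ∑ j ∈ Finset.range q, l ^ (k + (j + 1)) * B (k + (j + 1)) =
            l ^ k * (l * ∑ j ∈ Finset.range q, l ^ j * B (k + (j + 1))) := by
          rw [Finset.mul_sum, Finset.mul_sum]
          exact Finset.sum_congr rfl fun j _ => by ring
        rw [h5, add_zero]
        ring
      have h6 : TP P (1 - z) (∑ j ∈ Finset.range k, l ^ j * B j) :=
        Uni_sum _ _ fun j hj => by
          have hj' := Finset.mem_range.1 hj
          exact Uni_mul (hlV.pow j) (htam _ (hBM j) (ih j hj' (by omega)))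
      have h7 : TP P (1 - z)
          (l ^ k * (B k + l * ∑ j ∈ Finset.range q, l ^ j * B (k + (j + 1)))) := by
        have := Uni_sub hT h6
        rwa [hsplit, add_sub_cancel_left] at this
      obtain ⟨y, hy, h8⟩ := hdiv _ h7
      have h9 : B k + l * ∑ j ∈ Finset.range q, l ^ j * B (k + (j + 1)) = l * (l ^ q * y) := by
        refine mul_left_cancel₀ (pow_ne_zero k hl0) ?_
        rw [h8, hq]
        ring
      have h10 : B k = l * (l ^ q * y - ∑ j ∈ Finset.range q, l ^ j * B (k + (j + 1))) := by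
        linear_combination h9
      rw [h10]
      exact DI.MP.mul_right hlM (((hlV.pow q).mul hy).sub
        (DI.VP.sum _ _ fun j _ => (hlV.pow j).mul (hBV _)))
  -- downward induction
  have hfin : ∀ d c : ℕ, c + d + 1 = n → MP P (A c) := by
    intro d
    induction d using Nat.strong_induction_on with
    | _ d ih =>
      intro c hc
      have h3 : c ∈ Finset.range n := Finset.mem_range.2 (by omega)
      have h4 := hBT c (by omega)
      rw [hB] at h4
      have h5 := Finset.add_sum_erase (Finset.range n) (fun c' => (c'.choose c : Om) * A c') h3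
      simp only [Nat.choose_self, Nat.cast_one, one_mul] at h5
      have h6 : A c = (∑ c' ∈ Finset.range n, (c'.choose c : Om) * A c') -
          ∑ c' ∈ (Finset.range n).erase c, (c'.choose c : Om) * A c' := by
        linear_combination h5
      rw [h6]
      refine h4.sub (DI.MP.sum _ _ fun c' hc' => ?_)
      rw [Finset.mem_erase, Finset.mem_range] at hc'
      rcases Nat.lt_or_ge c' c with h7 | h7
      · rw [Nat.choose_eq_zero_of_lt h7, Nat.cast_zero, zero_mul]
        exact DI.MP.zero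
      · exact DI.MP.mul_left (DI.VP.nat _) (ih (n - 1 - c') (by omega) c' (by omega))
  intro c hc
  exact hfin (n - 1 - c) c (by omega)

end Pool.Agent.DT.G
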