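import Pool.Agent.Lib.DT.G.Spec

/-!
# Theorem DT, part G, module Zt: the root of unity `zet 3`
-/

set_option autoImplicit false

open scoped Pointwise

noncomputable section

namespace Pool.Agent.DT.G

open Pool.Agent.MuZ Pool.Agent.FW Pool.Agent.DT
open Pool.Agent.DI (io ofC io_inj exists_io io_ofC ofC_io VP MP UP TP ex)

private lemma Zt_prim (n : ℕ) (hn : 0 < n) : IsPrimitiveRoot (zet n) n :=
  (Pool.Agent.DI.tA2 n hn).2

private lemma Zt_rel : zet 3 ^ 3 = 1 ∧ zet 3 ≠ 1 ∧ 1 + zet 3 + zet 3 ^ 2 = 0 := by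
  have h := Zt_prim 3 (by norm_num)
  have h3 := h.pow_eq_one
  have h1 : zet 3 ≠ 1 := h.ne_one (by norm_num)
  refine ⟨h3, h1, ?_⟩
  have h2 : (zet 3 - 1) * (1 + zet 3 + zet 3 ^ 2) = 0 := by linear_combination h3
  rcases mul_eq_zero.1 h2 with h4 | h4
  · exact absurd (sub_eq_zero.1 h4) h1
  · exact h4

theorem tZt : S_Zt := by
  obtain ⟨h3, h1, h2⟩ := Zt_rel
  have hsq : (1 - zet 3) ^ 2 = -3 * zet 3 := by linear_combination h2
  have hne : (1 - zet 3) ≠ 0 := sub_ne_zero.2 (Ne.symm h1)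
  refine ⟨Zt_prim, hsq, ?_, ?_, hne, ?_⟩
  · have : (1 - zet 3) ^ 4 * zet 3 = ((1 - zet 3) ^ 2) ^ 2 * zet 3 := by ring
    rw [this, hsq]
    linear_combination 9 * h3
  · have : (1 - zet 3) ^ 6 = ((1 - zet 3) ^ 2) ^ 3 := by ring
    rw [this, hsq]
    linear_combination (-27) * h3
  · intro P hN hP3
    have := hN.1
    have hU : UP P (zet 3) := Pool.Agent.DI.UP.of_pow (n := 3) (by norm_num) (by
      rw [h3]
      exact Pool.Agent.DI.UP.one)
    have hV : VP P (zet 3) := hU.1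
    have hT : ∀ x : Om, TP P 3 x ↔ TP P ((1 - zet 3) ^ 2) x := by
      intro x
      constructor
      · rintro ⟨y, hy, rfl⟩
        refine ⟨-(zet 3 ^ 2) * y, Pool.Agent.DI.VP.mul (Pool.Agent.DI.VP.neg
          (Pool.Agent.DI.VP.pow hV 2)) hy, ?_⟩
        rw [hsq]
        linear_combination (-3 * y) * h3
      · rintro ⟨y, hy, rfl⟩
        refine ⟨-zet 3 * y, Pool.Agent.DI.VP.mul (Pool.Agent.DI.VP.neg hV) hy, ?_⟩
        rw [hsq]
        ring
    refine ⟨?_, hU, hT, ?_⟩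
    · apply Pool.Agent.DI.MP.of_pow (n := 2)
      rw [hsq]
      exact Pool.Agent.DI.MP.mul_right (Pool.Agent.DI.MP.neg hP3) hV
    · intro x
      rw [hT]
      constructor
      · rintro ⟨y, hy, rfl⟩
        exact ⟨y, hy, by field_simp⟩
      · rintro ⟨y, hy, h⟩
        refine ⟨y, hy, ?_⟩
        rw [div_eq_iff hne] at h
        rw [h]
        ring

end Pool.Agent.DT.G
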