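import Pool.Agent.Lib.DT.G.AllA
import Pool.Agent.Lib.DT.G.SpecL
import Pool.Agent.Lib.DT.G.ChX
import Pool.Agent.Lib.DT.G.Chi
import Pool.Agent.Lib.DT.G.ChiF
import Pool.Agent.Lib.DT.G.DU
import Pool.Agent.Lib.DT.G.Eps
import Pool.Agent.Lib.DT.G.EtG
import Pool.Agent.Lib.DT.G.Ete
import Pool.Agent.Lib.DT.G.Fou1
import Pool.Agent.Lib.DT.G.Fou2
import Pool.Agent.Lib.DT.G.G1
import Pool.Agent.Lib.DT.G.G7
import Pool.Agent.Lib.DT.G.GFin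
import Pool.Agent.Lib.DT.G.Hg
import Pool.Agent.Lib.DT.G.Inr
import Pool.Agent.Lib.DT.G.R2
import Pool.Agent.Lib.DT.G.RB
import Pool.Agent.Lib.DT.G.RD
import Pool.Agent.Lib.DT.G.RI
import Pool.Agent.Lib.DT.G.RS
import Pool.Agent.Lib.DT.G.RayF
import Pool.Agent.Lib.DT.G.Rdz
import Pool.Agent.Lib.DT.G.SN
import Pool.Agent.Lib.DT.G.SNo
import Pool.Agent.Lib.DT.G.Sit
import Pool.Agent.Lib.DT.G.T0
import Pool.Agent.Lib.DT.G.TamG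
import Pool.Agent.Lib.DT.G.ThA
import Pool.Agent.Lib.DT.G.ThT
import Pool.Agent.Lib.DT.G.Uni
import Pool.Agent.Lib.DT.G.Zt

/-!
# Theorem DT, part G, second half: `S_G`

`aGof (B : HB) (e : EIn) (c : CIn) (sg : S_Sg) (g9 : GL.C_G9) : S_G`.
-/

set_option autoImplicit false

noncomputable section

namespace Pool.Agent.DT.G

open Pool.Agent.MuZ Pool.Agent.FW Pool.Agent.DT

/-- The inputs of part G from part E. -/
structure EIn : Prop where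
  e1 : S_E1
  e4 : S_E4
  e6 : S_E6
  e7 : S_E7
  e8 : S_E8
  e9 : S_E9
  e10 : S_E10

/-- The inputs of part G from the parts C, V, F. -/
structure CIn : Prop where
  c4 : S_C4
  c6 : S_C6
  c8 : S_C8
  v : S_V
  f : S_F

theorem aZt : C_Zt := tZt
theorem aRI : C_RI := tRI aO7
theorem aR2 : C_R2 := tR2 aO6 aO7 aO8 aMod aRI
theorem aRB : C_RB := tRB aO2 aO4 aO6 aO7 aO9 aCop aMod aRUp
theorem aRD : C_RD := tRD aO2 aO4 aO6 aO7 aO9 aCop aMod aHNf aRUp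
theorem aRS : C_RS := tRS aMod aRI aRB aRD
theorem aHg (B : HB) : C_Hg := tHg B.b7 B.b10 B.b12
theorem aRayF : C_RayF := tRayF aO7 aCop
theorem aRdz (B : HB) : C_Rdz := tRdz aO4 aO6 aL6a B.b14 (aD1 B) (aD2 B) (aD9 B) aZn aAbP aNQ
theorem aT0 : C_T0 := tT0 aO4 aL6a aCop aMod aC0
theorem aThA (B : HB) : C_ThA :=
  tThA aL6a B.b1 B.b3 B.b6 B.b12 (DT.aR1 B) (DT.aR2 B) (DT.aR4 B) (DT.aR5 B) aZt aT0 aAbP (aRdz B)
theorem aThT (B : HB) : C_ThT :=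
  tThT B.b14 (DT.aR2 B) (DT.aR5 B) (aD8 B) aZt aT0 aAbP (aRdz B) (aThA B)
theorem aSN (e : EIn) : C_SN := tSN aO2 aO7 e.e1 e.e6 e.e7 (aGM e.e1 e.e6 e.e8) aCop aMod aHNf
theorem aDU (B : HB) (e : EIn) : C_DU :=
  tDU aO6 (aD8 B) e.e1 aZt aMod aHNf (aSN e) aT0 (aRdz B) (aThT B) (aUBa B) (aUBb B e.e1 e.e10)
theorem aChi : C_Chi := tChi aO6 aO7 aMod aHNf
theorem aChX : C_ChX := tChX aO2 aO4 aO6 aO7 aO8 aO9 aCop aMod aRUp aChi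
theorem aEtG (e : EIn) (c : CIn) : C_EtG := tEtG e.e1 c.c6 c.c8 (aGM e.e1 e.e6 e.e8) aMod aR2 aChi
theorem aTamG : C_TamG := tTamG aZt
theorem aInr (e : EIn) : C_Inr :=
  tInr aO2 aO4 aO6 aO7 aO9 e.e1 e.e4 e.e6 (aGM e.e1 e.e6 e.e8) aZt aCop aMod aHNf aRUp
theorem aChiF (e : EIn) : C_ChiF := tChiF e.e9 (aGM e.e1 e.e6 e.e8) aMod aChi aTamG (aInr e)
theorem aFou1 (c : CIn) : C_Fou1 := tFou1 aO6 c.c4 aZt aMod aC0 aZS
theorem aFou2 (c : CIn) : C_Fou2 := tFou2 c.c6 aZt (aFou1 c)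
theorem aEte (c : CIn) : C_Ete := tEte aO2 aO4 aO6 c.v aMod aChi
theorem aEps : C_Eps := tEps
theorem aG1 (c : CIn) : C_G1 := tG1 aO2 aO4 aO6 aO7 c.v c.f aMod aChi (aEte c) aEps
theorem aUni : C_Uni := tUni aZt
theorem aSNo (e : EIn) (c : CIn) : C_SNo :=
  tSNo aO6 aZt aMod aChi (aEtG e c) (aChiF e) (aEte c) aUni (aG1 c)
theorem aSit (e : EIn) : C_Sit :=
  tSit aO2 aO9 e.e1 e.e6 e.e9 (aGM e.e1 e.e6 e.e8) aZt aMod aHNf aTamG (aInr e)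

/-- `S_G`, from `S_Sg` and the local statement `GL.C_G9`. -/
theorem aGof (B : HB) (e : EIn) (c : CIn) (sg : C_Sg) (g9 : GL.C_G9) : S_G :=
  tGFin g9 (aG3 B e.e1 e.e10) aZt aMod (aSN e) aChi
    (tG7 aO2 aO6 aO7 aO9 aZt aCop aMod aC0 aHNf aEx aR2 aRS (aHg B) aRayF aZn sg (aDU B e) aChi aChX
      (aFou2 c) (aSNo e c)) (aSit e)

end Pool.Agent.DT.G
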