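import Pool.Agent.Lib.DT.G.Spec

/-!
# Theorem DT, part G: the sign of `W(T₀)` (helper80)
-/

set_option autoImplicit false

open scoped Pointwise

noncomputable section

namespace Pool.Agent.DT.G

open Pool.Agent.MuZ Pool.Agent.FW Pool.Agent.DT
open Pool.Agent.DI (io ofC io_inj exists_io io_ofC ofC_io VP MP UP TP ex)

private theorem Sg_ppb {k t : ℕ} {b : Ideal (OO k t)} (h : PrI b (sN k t 3)) :
    PrI b (ppb k t) := by
  unfold PrI at *
  refine top_unique (h.symm.le.trans (sup_le_sup_left ?_ b))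
  unfold sN ppb
  rw [Ideal.span_le]
  rintro _ rfl
  exact Ideal.subset_span (by simp)

/-- `(V l³)² = (A' - 3)²`. -/
private theorem Sg_sq (hB1 : S_B1) (hB6 : S_B6) (hR1 : S_R1) (hR4 : S_R4) (hR5 : S_R5)
    (hO6 : S_O6) (hZt : C_Zt) (hT0 : C_T0) {k t : ℕ} [SqT k t] {f : ℕ} (hf : Fok f)
    (hpp : pp k t ≠ ⊥) {b : Ideal (OO k t)} (hb : b ≠ ⊥) (hb3 : PrI b (sN k t 3)) :
    (vO b (T0 k t f) * (1 - zet 3) ^ 3) ^ 2 = (aO (pp k t * b) - 3) ^ 2 := by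
  obtain ⟨hTor, _, hTb, hpm, _, _⟩ := hT0 k t f b hf hb hb3
  have hpb : pp k t * b ≠ ⊥ := mul_ne_zero hpp hb
  obtain ⟨h1, h2, _⟩ := hB1 k t b hb
  obtain ⟨_, _, h3, h4, _⟩ := hB6 k t b hb
  obtain ⟨r1, r2, _, r4, _⟩ := hR1 k t (pp k t * b) hpb
  obtain ⟨r1', _⟩ := hR1 k t b hb
  have hX : XC b (T0 k t f) = XC b (ptT b) := by
    rcases hpm with h | h
    · have e : T0 k t f = ptT b + (T0 k t f - ptT b) := by ring
      rw [e, (h1 _ _ h).2.2]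
    · have e : T0 k t f = -ptT b + (T0 k t f + ptT b) := by ring
      rw [e, (h1 _ _ h).2.2, (h2 _).2.2]
  have hx : 3 * xO b (T0 k t f) = -rhO (pp k t * b) := by
    apply io_inj
    rw [map_mul, map_neg, (hR4.1 k t b hb).2 _ hTor, hX, h4, r2, map_ofNat]
    ring
  have hA : aO b * rhO (pp k t * b) = aO (pp k t * b) + 6 := by
    apply io_inj
    rw [map_mul, map_add, r1', r2, r1, map_ofNat]
    exact h3
  have htop : (⊤ : Ideal (OO k t)) ≠ ⊥ := top_ne_bot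
  obtain ⟨_, _, _, h5⟩ := hR5 k t ⊤ b b htop hb hb (by unfold PrI; exact top_sup_eq _)
    (Sg_ppb hb3) (Sg_ppb hb3)
  have h6 := (h5 _ hTor).2.1 hTb
  obtain ⟨_, _, _, hl6, _, _⟩ := hZt
  generalize vO b (T0 k t f) = V at *
  generalize xO b (T0 k t f) = X at *
  generalize rhO (pp k t * b) = ρ at *
  generalize aO (pp k t * b) = A' at *
  generalize aO b = A at *
  have hρ : ρ = -3 * X := by linear_combination hx
  subst hρ
  have e1 : (V * (1 - zet 3) ^ 3) ^ 2 = V ^ 2 * (1 - zet 3) ^ 6 := by ring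
  rw [e1, hl6, h6]
  linear_combination 4 * r4 + (-3 * (A * (-3 * X) + A' + 6) + 18) * hA

theorem tSg : S_Sg := by
  intro hO6 hB1 hB6 hR1 hR4 hR5 hE6 hE7 hE10 hZt hMod hT0 k t _ f hf
  obtain ⟨⟨hm1, _⟩, ⟨_, _, _, _, _, _, hm2, hm3, hm4, _⟩, _⟩ := hMod k t f 1 hf le_rfl
  have h3 : sN k t 3 ≠ ⊥ := fun h => hm1 (by rw [h, le_bot_iff] at hm2; exact hm2)
  have hpp : pp k t ≠ ⊥ := fun h => h3 (by rw [h, le_bot_iff] at hm3; exact hm3)
  have htop : (⊤ : Ideal (OO k t)) ≠ ⊥ := top_ne_bot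
  have hPt : ∀ n : Ideal (OO k t), PrI (⊤ : Ideal (OO k t)) n := fun n => by
    unfold PrI; exact top_sup_eq _
  have hsq := Sg_sq hB1 hB6 hR1 hR4 hR5 hO6 hZt hT0 hf hpp htop (hPt _)
  obtain ⟨σ, hσ, h0⟩ : ∃ σ : ℤ, (σ = 1 ∨ σ = -1) ∧
      vO (⊤ : Ideal (OO k t)) (T0 k t f) * (1 - zet 3) ^ 3 =
        (σ : Om) * (aO (pp k t * ⊤) - 3) := by
    rcases sq_eq_sq_iff_eq_or_eq_neg.1 hsq with h | h
    · exact ⟨1, Or.inl rfl, by rw [h]; push_cast; ring⟩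
    · exact ⟨-1, Or.inr rfl, by rw [h]; push_cast; ring⟩
  refine ⟨σ, hσ, fun a ha ha3 => ?_⟩
  obtain ⟨τ, hτ, hψ⟩ := hE7 k t (sN k t 3) a h3 ha ha3
  obtain ⟨_, hv, _⟩ := hE10 k t τ (sN k t 3) a h3 hτ hψ
  have hTm : T0 k t f ∈ Lam (sN k t 3 * ⊤) := (hT0 k t f ⊤ hf htop (hPt _)).2.1 _ hm3
  have hv' := (hv hm4).2.1 ⊤ htop (hPt _) _ hTm
  have ha' := hψ.aa (pp k t * ⊤) (mul_ne_zero hpp htop)
  have e1 : a * ⊤ = a := Ideal.mul_top a
  have e2 : a * (pp k t * ⊤) = pp k t * a := by rw [Ideal.mul_top]; exact mul_comm _ _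
  rw [e1] at hv'
  rw [e2] at ha'
  obtain ⟨hz, hz2, _⟩ := hZt
  have hz3 : zet 3 ^ 3 = 1 := (hz 3 (by norm_num)).pow_eq_one
  have hτz : τ (zet 3) = zet 3 ^ NI a := hE6 k t τ 3 a hτ (by norm_num) hψ _ hz3
  have h1 := congrArg τ h0
  rw [map_mul, map_pow, map_sub, map_one, hv', hτz, map_mul, map_intCast, map_sub, ha',
    map_ofNat] at h1
  have hc : (NI a).Coprime 3 := (hO6 k t).2.2.2.2.1 3 a |>.1 ha3
  have hq : zet 3 ^ 2 + zet 3 + 1 = 0 := by linear_combination hz2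
  have hmod : NI a % 3 = 1 ∨ NI a % 3 = 2 := by
    have h4 : ¬ 3 ∣ NI a := fun h => by
      have := Nat.dvd_gcd h (dvd_refl 3)
      rw [hc] at this
      omega
    omega
  have hpow : zet 3 ^ NI a = zet 3 ^ (NI a % 3) := by
    conv_lhs => rw [← Nat.div_add_mod (NI a) 3, pow_add, pow_mul, hz3, one_pow, one_mul]
  have hj : jacobiSym (NI a : ℤ) 3 = jacobiSym ((NI a % 3 : ℕ) : ℤ) 3 := by
    rw [jacobiSym.mod_left]
    push_cast
    rfl
  rw [hpow] at h1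
  rw [hj]
  rcases hmod with h | h
  · rw [h] at h1 ⊢
    have h5 : jacobiSym ((1 : ℕ) : ℤ) 3 = 1 := by
      rw [Nat.cast_one]
      exact jacobiSym.one_left 3
    rw [h5, Int.cast_one, mul_one, ← h1, pow_one]
  · rw [h] at h1 ⊢
    have h5 : jacobiSym ((2 : ℕ) : ℤ) 3 = -1 := by
      have h7 := jacobiSym.at_two (b := 3) (by decide)
      rw [Nat.cast_ofNat, h7]
      decide
    rw [h5]
    push_cast
    have h6 : (1 - zet 3 ^ 2) ^ 3 = -(1 - zet 3) ^ 3 := by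
      have e3 : (1 - zet 3 ^ 2 : Om) = -(1 - zet 3) * zet 3 ^ 2 := by
        linear_combination (1 - zet 3) * hq
      have e4 : (zet 3 ^ 2) ^ 3 = (1 : Om) := by
        rw [← pow_mul, show 2 * 3 = 3 * 2 from rfl, pow_mul, hz3, one_pow]
      rw [e3, mul_pow, e4]
      ring
    rw [h6] at h1
    linear_combination -h1

end Pool.Agent.DT.G
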