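import Pool.Agent.Lib.DT.E.All
import Pool.Agent.Lib.DT.G.AllB
import Pool.Agent.Lib.DT.G.Sg

/-!
# Theorem DT, part G: the inputs from part E; the sign `S_Sg`

`aGM' (B : HB) : S_GM`, `aG3' (B : HB) : S_G3`, `aGe (B : HB) (c : CIn) (g9 : GL.C_G9) : S_G`.
-/

set_option autoImplicit false

noncomputable section

namespace Pool.Agent.DT.G

open Pool.Agent.MuZ Pool.Agent.FW Pool.Agent.DT

/-- The inputs from part E. -/
theorem aEIn (B : HB) : EIn where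
  e1 := aE1 B
  e4 := aE4 B
  e6 := aE6 B
  e7 := aE7 B
  e8 := aE8 B
  e9 := aE9 B
  e10 := aE10 B

theorem aGM' (B : HB) : S_GM := aGM (aE1 B) (aE6 B) (aE8 B)

theorem aG3' (B : HB) : S_G3 := aG3 B (aE1 B) (aE10 B)

theorem aSg (B : HB) : C_Sg :=
  tSg aO6 B.b1 B.b6 (DT.aR1 B) (DT.aR4 B) (DT.aR5 B) (aE6 B) (aE7 B) (aE10 B) aZt aMod aT0

/-- `S_G`, from the parts B, C, V, F and the local statement `GL.C_G9`. -/
theorem aGe (B : HB) (c : CIn) (g9 : GL.C_G9) : S_G := aGof B (aEIn B) c (aSg B) g9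

end Pool.Agent.DT.G
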