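import Pool.Agent.Lib.DT.B.All
import Pool.Agent.Lib.DT.C.All
import Pool.Agent.Lib.DT.G.AllC

/-!
# Theorem DT, part G: the inputs from the parts B, C, E

`bGM : S_GM`, `bG3 : S_G3` (and `aGR : S_GR`) without hypotheses; `bGf (f : S_F) (g9 : GL.C_G9) : S_G`.
-/

set_option autoImplicit false

noncomputable section

namespace Pool.Agent.DT.G

open Pool.Agent.MuZ Pool.Agent.FW Pool.Agent.DT

/-- **`S_GM`**, without hypotheses. -/
theorem bGM : S_GM := aGM' hB

/-- **`S_G3`**, without hypotheses. -/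
theorem bG3 : S_G3 := aG3' hB

/-- The inputs from the parts C, V, given part F. -/
theorem aCIn (f : S_F) : CIn where
  c4 := aC4 hB.b10 (DT.aR5 hB)
  c6 := aC6 hB.b12 (DT.aR5 hB)
  c8 := aC8 hB.b10 hB.b12 (DT.aR5 hB) (aE1 hB) (aE6 hB) (aE10 hB)
  v := aV hB.b10 hB.b12 (DT.aR5 hB) (aD9 hB)
  f := f

/-- `S_G`, given part F and the local statement `GL.C_G9`. -/
theorem bGf (f : S_F) (g9 : GL.C_G9) : S_G := aGe hB (aCIn f) g9

end Pool.Agent.DT.G
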