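import Pool.Agent.Lib.DT.F.All
import Pool.Agent.Lib.DT.G.AllD
import Pool.Agent.Lib.DT.GL.App
import Pool.Agent.Lib.DT.GL.Arch
import Pool.Agent.Lib.DT.GL.Cpt
import Pool.Agent.Lib.DT.GL.D2
import Pool.Agent.Lib.DT.GL.Dad
import Pool.Agent.Lib.DT.GL.G4
import Pool.Agent.Lib.DT.GL.G8
import Pool.Agent.Lib.DT.GL.G8a
import Pool.Agent.Lib.DT.GL.G8b
import Pool.Agent.Lib.DT.GL.G9
import Pool.Agent.Lib.DT.GL.Iu
import Pool.Agent.Lib.DT.GL.Kap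
import Pool.Agent.Lib.DT.GL.Lin
import Pool.Agent.Lib.DT.GL.Pw
import Pool.Agent.Lib.DT.GL.RR
import Pool.Agent.Lib.DT.GL.Stb
import Pool.Agent.Lib.DT.GL.Uni
import Pool.Agent.Lib.DT.GL.X0

/-!
# Theorem DT, part G: the outputs `S_GR`, `S_GM`, `S_G3`, `S_G`, without hypotheses

`cGR : S_GR`, `cGM : S_GM`, `cG3 : S_G3`, `cG : S_G`. The abstract local lemma: `g4`, `g9`.
-/

set_option autoImplicit false

noncomputable section

namespace Pool.Agent.DT.G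

open Pool.Agent.MuZ Pool.Agent.FW Pool.Agent.DT

theorem g4 : GL.C_G4 := GL.asmG4 GL.tArch GL.tX0 GL.tUni GL.tD2 GL.tG4

theorem g8 : GL.C_G8 :=
  GL.asmG8 GL.tStb GL.tArch GL.tIu GL.tPw GL.tKap GL.tApp g4 GL.tCpt GL.tG8a GL.tG8b GL.tG8

theorem g9 : GL.C_G9 := GL.asmG9 GL.tArch GL.tKap GL.tRR GL.tLin GL.tDad g4 g8 GL.tG9

theorem cGR : S_GR := aGR
theorem cGM : S_GM := bGM
theorem cG3 : S_G3 := bG3

/-- **Output of part G.** -/
theorem cG : S_G := bGf aSF g9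

end Pool.Agent.DT.G
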