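import Pool.Agent.Lib.DT.G.Spec

/-!
# Theorem DT (`p = 3`), part G, module C0: the element `c₀`
-/

set_option autoImplicit false

open scoped Pointwise

noncomputable section

namespace Pool.Agent.DT.G

open Pool.Agent.MuZ Pool.Agent.FW Pool.Agent.DT
open Pool.Agent.DI (io ofC io_inj exists_io io_ofC ofC_io VP MP UP TP ex)

variable {k t : ℕ}

/-- `t = 1` modulo `3`. -/
private theorem C0_t (k t : ℕ) [h : SqT k t] : ∃ s : ℤ, (t : ℤ) = 1 + 3 * s := by
  rcases h.out with ⟨ht, -⟩ | ⟨ht, -⟩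
  · exact ⟨0, by rw [ht]; norm_num⟩
  · exact ⟨1, by rw [ht]; norm_num⟩

/-- The coordinates of `c₀`. -/
private theorem C0_re (k t f : ℕ) : (c0 k t f).im = f ∧
    ((c0 k t f).re = 3 ∧ (⟨3, f⟩ : OO k t) ∉ pp k t ^ 2 ∨
      (c0 k t f).re = 3 + 3 * f ∧ (⟨3, f⟩ : OO k t) ∈ pp k t ^ 2) := by
  classical
  unfold c0
  split_ifs with h
  · exact ⟨rfl, Or.inr ⟨rfl, h⟩⟩
  · exact ⟨rfl, Or.inl ⟨rfl, h⟩⟩

/-- `3 f` is not in `𝔭²`. -/
private theorem C0_3f [SqT k t] (hO4 : S_O4) (f : ℕ) (hf : (f : OO k t) ∉ pp k t) :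
    ((3 : OO k t) * f) ∉ pp k t ^ 2 := by
  obtain ⟨h1, -, -, hP, -, -, -, hs, hp0, -⟩ := hO4 k t
  intro h
  have e1 : Ideal.span {((3 : OO k t) * f)} = pp k t * (ppb k t * Ideal.span {(f : OO k t)}) := by
    rw [← mul_assoc, h1, sN, Ideal.span_singleton_mul_span_singleton, Nat.cast_ofNat]
  have h2 : pp k t * pp k t ∣ pp k t * (ppb k t * Ideal.span {(f : OO k t)}) := by
    rw [Ideal.dvd_iff_le, ← e1, Ideal.span_singleton_le_iff_mem, ← sq]
    exact h
  rw [mul_dvd_mul_iff_left hp0] at h2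
  have hPr : Prime (pp k t) := Ideal.prime_of_isPrime hp0 hP
  rcases hPr.dvd_or_dvd h2 with h3 | h3
  · rw [Ideal.dvd_iff_le] at h3
    rw [sup_eq_left.2 h3] at hs
    exact hP.ne_top hs
  · rw [Ideal.dvd_iff_le, Ideal.span_singleton_le_iff_mem] at h3
    exact hf h3

theorem tC0 : S_C0 := by
  intro hO4 hCop hMod k t _ f hf
  obtain ⟨-, -, -, -, -, -, hf3, hfp, -⟩ := hMod k t f 1 hf le_rfl
  obtain ⟨-, hinv, -, -, -, hcop6, -⟩ := hCop k t
  obtain ⟨h1, -, -, hP, -, -, -, hs, hp0, hpb0, hpp, hppb⟩ := hO4 k t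
  obtain ⟨him, hre⟩ := C0_re k t f
  obtain ⟨s, hs3⟩ := C0_t k t
  set c := c0 k t f with hc
  have hf0 : (f : ℤ) ≠ 0 := by exact_mod_cast hf.pos.ne'
  have hre3 : (3 : ℤ) ∣ c.re := by
    rcases hre with ⟨h, -⟩ | ⟨h, -⟩
    · rw [h]
    · rw [h]
      exact ⟨1 + f, by ring⟩
  have hcne : c ≠ 0 := by
    intro h
    apply hf0
    rw [← him, h]
    exact QuadraticAlgebra.im_zero
  have hcp : c ∈ pp k t := (hpp c).2 hre3
  have hcpb : c ∉ ppb k t := by
    intro h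
    have h2 := (hppb c).1 h
    rw [him] at h2
    exact hf3 ((Int.dvd_add_right hre3).1 h2)
  have hjpb : cjO c ∈ ppb k t := by
    refine (hppb _).2 ?_
    change (3 : ℤ) ∣ c.re + t * c.im + -c.im
    obtain ⟨r, hr⟩ := hre3
    exact ⟨r + s * c.im, by linear_combination hr + c.im * hs3⟩
  have hjp : cjO c ∉ pp k t := by
    intro h
    have h2 := (hpp _).1 h
    change (3 : ℤ) ∣ c.re + t * c.im at h2
    obtain ⟨r, hr⟩ := hre3
    obtain ⟨r', hr'⟩ := h2
    apply hf3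
    exact ⟨r' - r - s * f, by linear_combination hr' - hr - (t : ℤ) * him - (f : ℤ) * hs3⟩
  have hNm3 : (3 : ℤ) ∣ Nm c := by
    obtain ⟨r, hr⟩ := hre3
    exact ⟨3 * r ^ 2 + t * r * c.im + k * c.im ^ 2, by rw [Nm, hr]; ring⟩
  have hq : Nm c = 3 * q0 k t f := by
    rw [q0, ← hc]
    exact (Int.mul_ediv_cancel' hNm3).symm
  -- `c` is not in `𝔭²`
  have hc2 : c ∉ pp k t ^ 2 := by
    rcases hre with ⟨h, h'⟩ | ⟨h, h'⟩
    · intro h3
      apply h'
      have e : c = (⟨3, f⟩ : OO k t) := ext' h him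
      rwa [← e]
    · intro h3
      apply C0_3f hO4 f hfp
      have e : (3 : OO k t) * f = c - (⟨3, f⟩ : OO k t) := by
        have e1 : (3 : OO k t) * f = ((3 * f : ℕ) : OO k t) := by push_cast; rfl
        rw [e1]
        refine ext' ?_ ?_
        · rw [re_nat, QuadraticAlgebra.re_sub, h]
          push_cast
          ring
        · rw [im_nat, QuadraticAlgebra.im_sub, him]
          ring
      rw [e]
      exact Ideal.sub_mem _ h3 h'
  have hlast : ∀ y : OO k t, c * y ∈ pp k t ^ 2 → y ∈ pp k t := by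
    intro y hy
    by_contra hyp
    obtain ⟨x, -, -, hx⟩ := hinv y (pp k t) hp0 (((hcop6 y).2.1).2 hyp)
    apply hc2
    have h3 : (y * x - 1) * (y * x - 1) ∈ pp k t ^ 2 := by
      rw [sq]
      exact Ideal.mul_mem_mul hx hx
    have e : c = c * ((y * x - 1) * (y * x - 1)) - (c * y) * (y * x ^ 2 - 2 * x) := by ring
    rw [e]
    exact Ideal.sub_mem _ (Ideal.mul_mem_left _ _ h3) (Ideal.mul_mem_right _ _ hy)
  have hcc : c * cjO c = ((3 * q0 k t f : ℤ) : OO k t) := by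
    rw [mul_cjO, hq]
  refine ⟨hcne, hcp, hcpb, hjpb, hjp, ?_, hq, ?_, hcc, hlast⟩
  · have hfC : (f : ℂ) ≠ 0 := by exact_mod_cast hf.pos.ne'
    rcases hre with ⟨h, -⟩ | ⟨h, -⟩
    · refine ⟨0, ?_⟩
      rw [toC_apply, h, him, v0, S0, toC_zero]
      push_cast
      field_simp
      ring
    · refine ⟨1, ?_⟩
      rw [toC_apply, h, him, v0, S0, toC_one]
      push_cast
      field_simp
      ring
  · rintro ⟨r, hr⟩
    apply hjp
    apply hlast
    rw [hcc, hr]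
    have h3 : (3 : OO k t) ∈ pp k t := by
      have := (hpp ((3 : ℕ) : OO k t)).2 (by rw [re_nat]; norm_num)
      exact_mod_cast this
    have e : ((3 * (3 * r) : ℤ) : OO k t) = (3 * 3) * (r : OO k t) := by
      push_cast
      ring
    rw [e, sq]
    exact Ideal.mul_mem_right _ _ (Ideal.mul_mem_mul h3 h3)

end Pool.Agent.DT.G
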