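import Pool.Agent.Lib.DT.G.Spec

/-!
# Theorem DT, part G, module CT: the constant of the distribution relation for `3`
-/

set_option autoImplicit false

open scoped Pointwise

noncomputable section

namespace Pool.Agent.DT.G

open Pool.Agent.MuZ Pool.Agent.FW Pool.Agent.DT
open Pool.Agent.DI (io ofC io_inj exists_io io_ofC ofC_io VP MP UP TP ex)

variable {k t : ℕ}

/-- `C` is a constant of the distribution relation for `3` on the curve `ℂ / Lam c`. -/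
private def CT_P (m c : Ideal (OO k t)) (C : Om) : Prop :=
  ∀ R : Finset ℂ, IsSys (sN k t 3) c R → ∀ z : ℂ, Tor k t z → z ∉ Lam (sN k t 3 * m * c) →
    ∏ v ∈ R, Theta m c (z + v) = C * Theta m c (3 * z)

/-- `1 / L` is not in `Lam c` if `c` contains an integer which is not divisible by `L`. -/
private theorem CT_not [SqT k t] {c : Ideal (OO k t)} {x L : ℕ} (hL : 0 < L) (hx : (x : OO k t) ∈ c)
    (h : ¬ L ∣ x) : (1 / L : ℂ) ∉ Lam c := by
  intro hz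
  obtain ⟨u, hu⟩ := hz _ hx
  have hL' : (L : ℂ) ≠ 0 := by exact_mod_cast hL.ne'
  have h1 : toC (x : OO k t) = toC ((L : OO k t) * u) := by
    rw [toC_mul, ← hu, toC_nat L]
    field_simp
  have h2 := toC_inj h1
  have h3 : (x : ℤ) = L * u.re := by
    have h4 := congrArg QuadraticAlgebra.re h2
    rw [re_nat, re_mul, re_nat, im_nat] at h4
    rw [h4]
    ring
  have h5 : (L : ℤ) ∣ (x : ℤ) := ⟨u.re, h3⟩
  exact h (Int.natCast_dvd_natCast.1 h5)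

/-- `N a ∈ a`. -/
private theorem CT_mem (O3 : S_O3) [SqT k t] (a : Ideal (OO k t)) : ((NI a : ℕ) : OO k t) ∈ a := by
  obtain ⟨-, -, h, -⟩ := O3 k t
  have h1 : ((NI a : ℕ) : OO k t) ∈ sN k t (NI a) := Ideal.mem_span_singleton_self _
  rw [← (h a).2.2] at h1
  exact Ideal.mul_le_left h1

/-- `N a ≠ 0`. -/
private theorem CT_NI (O3 : S_O3) [SqT k t] {a : Ideal (OO k t)} (ha : a ≠ ⊥) : 0 < NI a := by
  obtain ⟨-, -, h, -, -, -, h7, -⟩ := O3 k t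
  rcases Nat.eq_zero_or_pos (NI a) with h0 | h0
  · exfalso
    have h1 := (h a).2.2
    rw [h0] at h1
    have h2 : sN k t 0 = ⊥ := by simp [sN]
    rw [h2] at h1
    rcases Ideal.mul_eq_bot.1 h1 with h3 | h3
    · exact ha h3
    · exact h7 a ha h3
  · exact h0

private theorem CT_L {x : ℕ} (hx : 0 < x) : ∃ L : ℕ, L.Prime ∧ ¬ L ∣ x := by
  obtain ⟨L, hL, hp⟩ := Nat.exists_infinite_primes (x + 1)
  exact ⟨L, hp, fun h => by have := Nat.le_of_dvd hx h; omega⟩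

private theorem CT_in (O3 : S_O3) [SqT k t] (m c : Ideal (OO k t)) {y : ℕ} (hy : (y : OO k t) ∈ c) :
    ((3 * NI m * y : ℕ) : OO k t) ∈ sN k t 3 * m * c := by
  rw [Nat.cast_mul, Nat.cast_mul]
  exact Ideal.mul_mem_mul (Ideal.mul_mem_mul (Ideal.mem_span_singleton_self _) (CT_mem O3 m)) hy

private theorem CT_three [SqT k t] (z : ℂ) : toC ((3 : ℕ) : OO k t) * z = 3 * z := by
  rw [toC_nat]
  norm_num

private theorem CT_tor [SqT k t] {z : ℂ} (hz : Tor k t z) : Tor k t (3 * z) := by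
  rw [← CT_three (k := k) (t := t)]
  exact tor_mul _ hz

private theorem CT_ne (D8 : S_D8) [SqT k t] {m c : Ideal (OO k t)} (hm : m ≠ ⊥) (hc : c ≠ ⊥)
    (hm6 : PrI m (sN k t 6)) {z : ℂ} (hz : Tor k t z) (hz' : z ∉ Lam (sN k t 3 * m * c)) :
    Theta m c (3 * z) ≠ 0 := by
  obtain ⟨-, -, -, h⟩ := D8 k t m c hm hc hm6
  refine h _ (CT_tor hz) fun h' => hz' ?_
  rw [mul_assoc, lam_sp, CT_three]
  exact h'

private theorem CT_ex (D7 : S_D7) (D8 : S_D8) [SqT k t] {m c : Ideal (OO k t)} (hm : m ≠ ⊥) (hc : c ≠ ⊥)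
    (hm6 : PrI m (sN k t 6)) (h30 : sN k t 3 ≠ ⊥) (hm3 : sN k t 3 ⊔ m = ⊤) :
    ∃ C : Om, C ≠ 0 ∧ CT_P m c C := by
  obtain ⟨C, hC, h, -⟩ := D7 k t (sN k t 3) m c h30 hm hc hm6 hm3
  obtain ⟨-, -, h3, -⟩ := D8 k t m c hm hc hm6
  refine ⟨C, hC, fun R hR z hz hz' => ?_⟩
  rw [h R hR z hz hz', h3 _ z (fun h0 => h30 (Ideal.span_singleton_eq_bot.2 h0)), CT_three]

private theorem CT_uni (O3 : S_O3) (L3 : S_L3) (D8 : S_D8) [SqT k t] {m c : Ideal (OO k t)} (hm : m ≠ ⊥)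
    (hc : c ≠ ⊥) (hm6 : PrI m (sN k t 6)) (h30 : sN k t 3 ≠ ⊥) {C C' : Om} (h : CT_P m c C)
    (h' : CT_P m c C') : C = C' := by
  obtain ⟨-, -, R, hR, -⟩ := L3 k t (sN k t 3) c h30 hc
  obtain ⟨L, hL, hLx⟩ := CT_L (x := 3 * NI m * NI c)
    (Nat.mul_pos (Nat.mul_pos (by norm_num) (CT_NI O3 hm)) (CT_NI O3 hc))
  have hz : Tor k t (1 / L : ℂ) := ⟨1, L, hL.pos, by rw [toC_one]⟩
  have hz' : (1 / L : ℂ) ∉ Lam (sN k t 3 * m * c) := CT_not hL.pos (CT_in O3 m c (CT_mem O3 c)) hLx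
  have e1 := h R hR _ hz hz'
  have e2 := h' R hR _ hz hz'
  rw [e1] at e2
  exact mul_right_cancel₀ (CT_ne D8 hm hc hm6 hz hz') e2

/-- The constants for `c` and `γ c` agree. -/
private theorem CT_sp (D8 : S_D8) [SqT k t] {m b : Ideal (OO k t)} (hm : m ≠ ⊥) (hb : b ≠ ⊥)
    (hm6 : PrI m (sN k t 6)) {γ : OO k t} (hγ : γ ≠ 0) {C : Om} (h : CT_P m b C) :
    CT_P m (sp γ * b) C := by
  classical
  intro R hR z hz hz'
  obtain ⟨-, -, h3, -⟩ := D8 k t m b hm hb hm6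
  have hγC := toC_ne hγ
  have hinj : Function.Injective (fun v : ℂ => toC γ * v) := fun x y hxy => mul_left_cancel₀ hγC hxy
  have comm : ∀ I : Ideal (OO k t), I * (sp γ * b) = sp γ * (I * b) := fun I => mul_left_comm _ _ _
  have hR' : IsSys (sN k t 3) b (R.image (fun v : ℂ => toC γ * v)) := by
    refine ⟨?_, ?_, ?_⟩
    · intro u hu
      obtain ⟨v, hv, rfl⟩ := Finset.mem_image.1 hu
      have h1 := hR.mem v hv
      rw [comm, lam_sp] at h1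
      exact h1
    · intro z' hz'
      have h1 : (toC γ)⁻¹ * z' ∈ Lam (sN k t 3 * (sp γ * b)) := by
        rw [comm, lam_sp, mul_inv_cancel_left₀ hγC]
        exact hz'
      obtain ⟨u, hu, hu'⟩ := hR.ex _ h1
      refine ⟨toC γ * u, Finset.mem_image_of_mem _ hu, ?_⟩
      rw [lam_sp, mul_sub, mul_inv_cancel_left₀ hγC] at hu'
      exact hu'
    · intro u hu u' hu' huu
      obtain ⟨v, hv, rfl⟩ := Finset.mem_image.1 hu
      obtain ⟨v', hv', rfl⟩ := Finset.mem_image.1 hu'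
      have h1 : v - v' ∈ Lam (sp γ * b) := by
        rw [lam_sp, mul_sub]
        exact huu
      have h2 := hR.uni v hv v' hv' h1
      rw [h2]
  have hzγ : toC γ * z ∉ Lam (sN k t 3 * m * b) := by
    rw [comm, lam_sp] at hz'
    exact hz'
  have h4 := h _ hR' (toC γ * z) (tor_mul γ hz) hzγ
  rw [Finset.prod_image (fun x _ y _ hxy => hinj hxy)] at h4
  rw [h3 γ _ hγ]
  have e1 : toC γ * (3 * z) = 3 * (toC γ * z) := by ring
  rw [e1, ← h4]
  refine Finset.prod_congr rfl fun v _ => ?_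
  rw [h3 γ _ hγ, mul_add]

/-- Galois action on the constants. -/
private theorem CT_gal (O3 : S_O3) (O6 : S_O6) (L3 : S_L3) (L5 : S_L5) (D8 : S_D8) (E10 : S_E10)
    [SqT k t] {m b : Ideal (OO k t)} (hm : m ≠ ⊥) (hb : b ≠ ⊥)
    (hm6 : PrI m (sN k t 6)) (h30 : sN k t 3 ≠ ⊥) {L : ℕ} (hL : L.Prime)
    (hLx : ¬ L ∣ 3 * NI m * NI b) {τ : Gal(Om/ℚ)} (hτ : τ ∈ GK k t) {a : Ideal (OO k t)}
    (ha : Psi τ (sN k t 3 * m * sN k t L) a) {C C' : Om} (h : CT_P m b C)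
    (h' : CT_P m (a * b) C') : τ C = C' := by
  obtain ⟨-, -, -, o4, o5, -⟩ := O6 k t
  obtain ⟨-, -, R, hR, -⟩ := L3 k t (sN k t 3) b h30 hb
  have hL0 : sN k t L ≠ ⊥ := by
    rw [Ne, Ideal.span_singleton_eq_bot]
    intro h0
    have h1 := congrArg QuadraticAlgebra.re h0
    rw [re_nat] at h1
    have h2 : (L : ℤ) = 0 := h1
    have := hL.pos
    omega
  have hn0 : sN k t 3 * m * sN k t L ≠ ⊥ := mul_ne_zero (mul_ne_zero h30 hm) hL0
  have hab : a * b ≠ ⊥ := mul_ne_zero ha.ne hb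
  have hz : Tor k t (1 / L : ℂ) := ⟨1, L, hL.pos, by rw [toC_one]⟩
  have hz1 : (1 / L : ℂ) ∉ Lam (sN k t 3 * m * b) := CT_not hL.pos (CT_in O3 m b (CT_mem O3 b)) hLx
  -- `a` is prime to `L` and to `3`
  have haL : (NI a).Coprime L := (o5 L a).1 (o4 _ _ _ Ideal.mul_le_right ha.cop)
  have ha3 : PrI a (sN k t 3) := o4 _ _ _ (le_trans Ideal.mul_le_left Ideal.mul_le_left) ha.cop
  have hLx' : ¬ L ∣ 3 * NI m * (NI a * NI b) := by
    intro hd
    have h1 : L ∣ NI a * (3 * NI m * NI b) := by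
      have e : NI a * (3 * NI m * NI b) = 3 * NI m * (NI a * NI b) := by ring
      rw [e]
      exact hd
    exact hLx (haL.symm.dvd_of_dvd_mul_left h1)
  have hz2 : (1 / L : ℂ) ∉ Lam (sN k t 3 * m * (a * b)) := by
    refine CT_not hL.pos (CT_in O3 m (a * b) ?_) hLx'
    push_cast
    exact Ideal.mul_mem_mul (CT_mem O3 a) (CT_mem O3 b)
  -- `R` is a system of representatives for `a b`
  obtain ⟨l1, l2⟩ := L5 k t a b (sN k t 3) ha.ne hb ha3
  have hR' : IsSys (sN k t 3) (a * b) R := by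
    refine ⟨?_, ?_, ?_⟩
    · intro u hu
      rw [mul_left_comm]
      exact lam_mono (hR.mem u hu)
    · intro z' hz'
      obtain ⟨z'', h1, h2⟩ := l2 z' hz'
      obtain ⟨u, hu, h3⟩ := hR.ex z'' h1
      refine ⟨u, hu, ?_⟩
      have h4 := lam_add h2 (lam_mono (a := a) h3)
      have e : z' - z'' + (z'' - u) = z' - u := by ring
      rw [e] at h4
      exact h4
    · intro u hu u' hu' huu
      exact hR.uni u hu u' hu' (l1 _ (lam_sub (hR.mem u hu) (hR.mem u' hu')) huu)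
  -- the points
  have hzn : (1 / L : ℂ) ∈ Lam (sN k t 3 * m * sN k t L * b) := by
    rw [mul_assoc (sN k t 3 * m)]
    refine lam_mono ?_
    rw [lam_sp, toC_nat]
    exact one_div_lam b hL.pos
  have hvn : ∀ v ∈ R, v ∈ Lam (sN k t 3 * m * sN k t L * b) := by
    intro v hv
    have e : sN k t 3 * m * sN k t L * b = m * sN k t L * (sN k t 3 * b) := by ring
    rw [e]
    exact lam_mono (hR.mem v hv)
  obtain ⟨-, -, e10⟩ := E10 k t τ _ a hn0 hτ ha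
  have hnm : sN k t 3 * m * sN k t L ≤ m := le_trans Ideal.mul_le_left Ideal.mul_le_right
  have e1 := congrArg τ (h R hR _ hz hz1)
  rw [map_prod, map_mul, e10 m b hm hb hm6 hnm (3 * (1 / L : ℂ)) (by
    rw [← CT_three (k := k) (t := t)]
    exact lam_mul _ hzn)] at e1
  have e2 := h' R hR' _ hz hz2
  have e3 : ∏ v ∈ R, τ (Theta m b (1 / L + v)) = ∏ v ∈ R, Theta m (a * b) (1 / L + v) :=
    Finset.prod_congr rfl fun v hv => e10 m b hm hb hm6 hnm _ (lam_add hzn (hvn v hv))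
  rw [e3, e2] at e1
  exact (mul_right_cancel₀ (CT_ne D8 hm hab hm6 hz hz2) e1).symm

theorem tCT : S_CT := by
  intro O3 O6 O7 L3 L5 D7 D8 E1 E10 cMod _ k t _ f m hm b hb
  obtain ⟨⟨hF0, -, -, -, -⟩, -, hM, -⟩ := cMod k t f 1 hm.toFok le_rfl
  obtain ⟨-, -, -, -, hm3, -, -, hm6⟩ := hM m hm.prm
  have h30 : sN k t 3 ≠ ⊥ := by
    intro h0
    apply hF0
    rw [Ideal.span_singleton_eq_bot] at h0 ⊢
    push_cast at h0 ⊢
    rw [h0, zero_mul]
  have hm3' : sN k t 3 ⊔ m = ⊤ := by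
    rw [sup_comm]
    exact hm3
  obtain ⟨C, hC, hCP⟩ := CT_ex D7 D8 hm.ne hb hm6 h30 hm3'
  refine ⟨C, ?_, hC, hCP⟩
  intro τ hτ a₀ ha₀ hH
  obtain ⟨v, hv0, -, hv⟩ := hH
  obtain ⟨L, hL, hLx⟩ := CT_L (x := 3 * NI m * NI b)
    (Nat.mul_pos (Nat.mul_pos (by norm_num) (CT_NI O3 hm.ne)) (CT_NI O3 hb))
  have hL0 : sN k t L ≠ ⊥ := by
    rw [Ne, Ideal.span_singleton_eq_bot]
    intro h0
    have h1 := congrArg QuadraticAlgebra.re h0
    rw [re_nat] at h1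
    have h2 : (L : ℤ) = 0 := h1
    have := hL.pos
    omega
  have hn0 : sN k t 3 * m * sN k t L ≠ ⊥ := mul_ne_zero (mul_ne_zero h30 hm.ne) hL0
  have hFn0 : sN k t (3 * f) * (sN k t 3 * m * sN k t L) ≠ ⊥ := mul_ne_zero hF0 hn0
  obtain ⟨e1, -, -, -, e5⟩ := E1 k t _ hFn0
  obtain ⟨a, ha, -⟩ := e1 τ hτ 1 one_pos
  have haF : Psi τ (sN k t (3 * f)) a := e5 τ _ a ha Ideal.mul_le_left
  have han : Psi τ (sN k t 3 * m * sN k t L) a := e5 τ _ a ha Ideal.mul_le_right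
  have hR1 : Ray (sN k t (3 * f)) a₀ a := (E1 k t _ hF0).2.1 τ a₀ a ha₀ haF
  obtain ⟨-, r2, r3, -⟩ := O7 k t _ hF0
  obtain ⟨α, α', hα, hα', -, -, -, hαα⟩ := r3 _ _ _ (r2 _ _ hR1) hv
  obtain ⟨C', -, hCP'⟩ := CT_ex D7 D8 hm.ne (mul_ne_zero ha.ne hb : a * b ≠ ⊥) hm6 h30 hm3'
  have h1 := CT_gal O3 O6 L3 L5 D8 E10 hm.ne hb hm6 h30 hL hLx hτ han hCP hCP'
  have h2 := CT_sp D8 hm.ne (mul_ne_zero ha.ne hb : a * b ≠ ⊥) hm6 hα hCP'
  have hα'v : α' * v ≠ 0 := mul_ne_zero hα' hv0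
  have h3 := CT_sp D8 hm.ne hb hm6 hα'v hCP
  have e : sp α * (a * b) = sp (α' * v) * b := by
    rw [← mul_assoc, hαα, Ideal.span_singleton_mul_span_singleton]
  rw [e] at h2
  have hne : sp (α' * v) * b ≠ ⊥ := by
    refine mul_ne_zero ?_ hb
    rw [Ne, Ideal.zero_eq_bot, Ideal.span_singleton_eq_bot]
    exact hα'v
  rw [h1]
  exact CT_uni O3 L3 D8 hm.ne hne hm6 h30 h2 h3

end Pool.Agent.DT.G
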