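import Pool.Agent.Lib.DT.G.Spec

/-!
# Theorem DT, part G: representatives modulo an ideal exist
-/

set_option autoImplicit false

open scoped Pointwise

noncomputable section

namespace Pool.Agent.DT.G

open Pool.Agent.MuZ Pool.Agent.FW Pool.Agent.DT
open Pool.Agent.DI (io ofC io_inj exists_io io_ofC ofC_io VP MP UP TP ex)

theorem tEx : S_Ex := by
  classical
  intro hO k t _ n H hn hH
  obtain ⟨-, -, -, -, -, h0, -, -⟩ := hO k t
  have hNI : Nat.card (OO k t ⧸ n) ≠ 0 := fun h => hn ((h0 n).1 h)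
  have hfin : Finite (OO k t ⧸ n) := Nat.finite_of_card_ne_zero hNI
  have hft := Fintype.ofFinite (OO k t ⧸ n)
  have hout : ∀ v : OO k t, v - (Quotient.out (Ideal.Quotient.mk n v : OO k t ⧸ n) : OO k t) ∈ n := by
    intro v
    rw [← Ideal.Quotient.eq]
    exact (Quotient.out_eq (Ideal.Quotient.mk n v)).symm
  refine ⟨(Finset.univ.filter fun c : OO k t ⧸ n => H (Quotient.out c)).image Quotient.out,
    ?_, ?_, ?_⟩
  · intro h hh
    obtain ⟨c, hc, rfl⟩ := Finset.mem_image.1 hh
    exact (Finset.mem_filter.1 hc).2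
  · intro v hv
    refine ⟨Quotient.out (Ideal.Quotient.mk n v), Finset.mem_image.2 ⟨Ideal.Quotient.mk n v,
      Finset.mem_filter.2 ⟨Finset.mem_univ _, hH _ _ (hout v) hv⟩, rfl⟩, hout v⟩
  · intro h hh h' hh' he
    obtain ⟨c, hc, rfl⟩ := Finset.mem_image.1 hh
    obtain ⟨c', hc', rfl⟩ := Finset.mem_image.1 hh'
    have e : c = c' := by
      rw [← Quotient.out_eq c, ← Quotient.out_eq c']
      exact Ideal.Quotient.eq.2 he
    rw [e]

end Pool.Agent.DT.G
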