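import Pool.Agent.Lib.DT.G.Spec

/-!
# Theorem DT (`p = 3`), part G, module G3m: the elliptic units (`S_G3`)
-/

set_option autoImplicit false

open scoped Pointwise

noncomputable section

namespace Pool.Agent.DT.G

open Pool.Agent.MuZ Pool.Agent.FW Pool.Agent.DT
open Pool.Agent.DI (io ofC io_inj exists_io io_ofC ofC_io VP MP UP TP ex)

theorem tG3m : S_G3m := by
  intro hA hB hT k t _ f m N T hf hN hTT b hb hb2
  obtain ⟨a1, a2, a3, _, a5, a6⟩ := hA k t f m N T hf hN hTT b hb hb2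
  obtain ⟨b1, b2⟩ := hB k t f m N T hf hN hTT b hb hb2
  exact ⟨b1, a1, a2, a3, a5, b2, a6, fun T' hT' s hs a hPs h4 h5 =>
    hT k t f m N T hf hN hTT b hb hb2 T' hT' s hs a hPs h4 h5⟩

end Pool.Agent.DT.G
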