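import Pool.Agent.Lib.DT.G.Spec

/-!
# Theorem DT, part G, module GMm: the groups `HP`, `HPN` and the fields `Mf`, `Mn` (`S_GM`)
-/

set_option autoImplicit false

open scoped Pointwise

noncomputable section

namespace Pool.Agent.DT.G

open Pool.Agent.MuZ Pool.Agent.FW Pool.Agent.DT
open Pool.Agent.DI (io ofC io_inj exists_io io_ofC ofC_io VP MP UP TP ex)

/-- `ζ ^ n = ζ` for a primitive root of unity `ζ` of order `3 ^ N`. -/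
private theorem GMm_pow {N n : ℕ} {ζ : Om} (hζ : IsPrimitiveRoot ζ (3 ^ N)) :
    ζ ^ n = ζ ↔ (3 : ℤ) ^ N ∣ (n : ℤ) - 1 := by
  have h0 : ζ ≠ 0 := hζ.ne_zero (by positivity)
  have hc : (((3 ^ N : ℕ)) : ℤ) = (3 : ℤ) ^ N := by push_cast; rfl
  rw [← hc, ← hζ.zpow_eq_one_iff_dvd, zpow_sub₀ h0, zpow_natCast, zpow_one, div_eq_one_iff_eq h0]

theorem tGMm : S_GMm := by
  intro hE1 hE6 hE8 hM hG k t _ f hf
  obtain ⟨⟨g1, g2, g3, g4⟩, hG2⟩ := hG k t f hf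
  have hF : sN k t (3 * f) ≠ ⊥ := (hM k t f 1 hf le_rfl).1.1
  have hFN : ∀ N : ℕ, 1 ≤ N → sN k t (f * 3 ^ N) ≠ ⊥ := fun N hN => (hM k t f N hf hN).1.2.1
  have hNF : ∀ N : ℕ, 1 ≤ N → sN k t (f * 3 ^ N) ≤ sN k t (3 * f) :=
    fun N hN => (hM k t f N hf hN).2.1.2.1
  have hNN : ∀ N : ℕ, 1 ≤ N → sN k t (f * 3 ^ (N + 1)) ≤ sN k t (f * 3 ^ N) :=
    fun N hN => (hM k t f N hf hN).2.1.2.2.2.2.2.2.2.2.2.2
  have hPN : ∀ N : ℕ, 1 ≤ N → 0 < f * 3 ^ N := fun N _ => by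
    have := hf.pos
    positivity
  obtain ⟨m1, m2, m3⟩ := hE8 k t (sN k t (3 * f)) (HP f) hF g1 g2 g3 g4
  have nn : ∀ N : ℕ, 1 ≤ N → FiniteDimensional ℚ (FixI (sN k t (f * 3 ^ N)) (HPN f N)) ∧
      KQ k t ≤ FixI (sN k t (f * 3 ^ N)) (HPN f N) ∧
      ∀ τ ∈ GK k t, ∀ a : Ideal (OO k t), Psi τ (sN k t (f * 3 ^ N)) a →
        ((∀ x ∈ FixI (sN k t (f * 3 ^ N)) (HPN f N), τ x = x) ↔ HPN f N a) := fun N hN =>
    hE8 k t (sN k t (f * 3 ^ N)) (HPN f N) (hFN N hN) (hG2 N hN).1 (hG2 N hN).2.1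
      (hG2 N hN).2.2.1 (hG2 N hN).2.2.2.1
  have hPsi : ∀ (τ : Gal(Om/ℚ)) (n n' a : Ideal (OO k t)), n ≠ ⊥ → Psi τ n a → n ≤ n' →
      Psi τ n' a := fun τ n n' a hn h1 h2 => (hE1 k t n hn).2.2.2.2 τ n' a h1 h2
  have hGK : ∀ (τ : Gal(Om/ℚ)) (F : IntermediateField ℚ Om), KQ k t ≤ F → (∀ x ∈ F, τ x = x) →
      τ ∈ GK k t := by
    intro τ F hF h
    exact (IntermediateField.mem_fixingSubgroup_iff (KQ k t) τ).mpr fun x hx => h x (hF hx)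
  have hle : ∀ N : ℕ, 1 ≤ N → Mf k t f ≤ Mn k t f N := by
    intro N hN x hx τ hτ a h1 h2
    have h3 := (hG2 N hN).2.1 a h2
    exact hx τ hτ a (hPsi τ _ _ a (hFN N hN) h1 (hNF N hN))
      (((hG2 N hN).2.2.2.2 a h3.1 h3.2).mp h2).1
  have hle' : ∀ N : ℕ, 1 ≤ N → Mn k t f N ≤ Mn k t f (N + 1) := by
    intro N hN x hx τ hτ a h1 h2
    have hN' : 1 ≤ N + 1 := Nat.le_add_left 1 N
    have h3 := (hG2 (N + 1) hN').2.1 a h2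
    have h4 := hPsi τ _ _ a (hFN (N + 1) hN') h1 (hNN N hN)
    have h5 := ((hG2 (N + 1) hN').2.2.2.2 a h3.1 h3.2).mp h2
    have h6 : (3 : ℤ) ^ N ∣ (3 : ℤ) ^ (N + 1) := pow_dvd_pow 3 (Nat.le_succ N)
    exact hx τ hτ a h4 (((hG2 N hN).2.2.2.2 a h4.ne h4.cop).mpr ⟨h5.1, h6.trans h5.2⟩)
  refine ⟨⟨g1, g2, g3, g4⟩, hG2, m1, m2, fun N hN => ⟨(nn N hN).1, hle N hN, hle' N hN⟩, m3,
    fun N hN => (nn N hN).2.2, ?_⟩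
  intro N hN ζ hζ τ
  have hζN : ζ ^ (f * 3 ^ N) = 1 := by
    rw [mul_comm, pow_mul, hζ.pow_eq_one, one_pow]
  constructor
  · intro h
    have hτ : τ ∈ GK k t := hGK τ _ (nn N hN).2.1 h
    obtain ⟨a, ha, -⟩ := (hE1 k t (sN k t (f * 3 ^ N)) (hFN N hN)).1 τ hτ 1 one_pos
    have h1 : HPN f N a := ((nn N hN).2.2 τ hτ a ha).mp h
    have h2 := (((hG2 N hN).2.2.2.2 a ha.ne ha.cop).mp h1).2
    have h4 : τ ζ = ζ ^ NI a := hE6 k t τ (f * 3 ^ N) a hτ (hPN N hN) ha ζ hζN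
    refine ⟨fun x hx => h x (hle N hN hx), ?_⟩
    rw [h4]
    exact (GMm_pow hζ).mpr h2
  · rintro ⟨h, h'⟩ x hx
    have hτ : τ ∈ GK k t := hGK τ _ m2 h
    obtain ⟨a, ha, -⟩ := (hE1 k t (sN k t (f * 3 ^ N)) (hFN N hN)).1 τ hτ 1 one_pos
    have h1 : HP f a := (m3 τ hτ a (hPsi τ _ _ a (hFN N hN) ha (hNF N hN))).mp h
    have h4 : τ ζ = ζ ^ NI a := hE6 k t τ (f * 3 ^ N) a hτ (hPN N hN) ha ζ hζN
    rw [h4] at h'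
    have h2 := (GMm_pow hζ).mp h'
    have h5 : HPN f N a := ((hG2 N hN).2.2.2.2 a ha.ne ha.cop).mpr ⟨h1, h2⟩
    exact ((nn N hN).2.2 τ hτ a ha).mpr h5 x hx

end Pool.Agent.DT.G
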