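import Pool.Agent.Lib.DT.G.Spec

/-!
# Theorem DT, part G, module GRm: systems of representatives
-/

set_option autoImplicit false

open scoped Pointwise

noncomputable section

namespace Pool.Agent.DT.G

open Pool.Agent.MuZ Pool.Agent.FW Pool.Agent.DT
open Pool.Agent.DI (io ofC io_inj exists_io io_ofC ofC_io VP MP UP TP ex)

/-- Choice of representatives in a finite set. -/
private theorem GRm_rep {α : Type} (Q : α → Prop) (r : α → α → Prop)
    (hr : ∀ x, Q x → r x x) (hs : ∀ x y, Q x → Q y → r x y → r y x) (Y : Finset α)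
    (hY : ∀ y ∈ Y, Q y) :
    ∃ T : Finset α, T ⊆ Y ∧ (∀ y ∈ Y, ∃ t ∈ T, r t y ∨ ∃ y' ∈ Y, r t y' ∧ r y' y) ∧
      ∀ t ∈ T, ∀ t' ∈ T, r t t' → t = t' := by
  classical
  induction Y using Finset.induction_on with
  | empty => exact ⟨∅, Finset.Subset.refl _, by simp, by simp⟩
  | insert y Y hy ih =>
    obtain ⟨T, h1, h2, h3⟩ := ih fun z hz => hY z (Finset.mem_insert_of_mem hz)
    have hQy : Q y := hY y (Finset.mem_insert_self _ _)
    by_cases h : ∃ t ∈ T, r t y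
    · refine ⟨T, h1.trans (Finset.subset_insert _ _), ?_, h3⟩
      intro z hz
      rcases Finset.mem_insert.1 hz with rfl | hz
      · obtain ⟨t, ht, htz⟩ := h
        exact ⟨t, ht, Or.inl htz⟩
      · obtain ⟨t, ht, h4⟩ := h2 z hz
        refine ⟨t, ht, ?_⟩
        rcases h4 with h4 | ⟨y', hy', h5⟩
        · exact Or.inl h4
        · exact Or.inr ⟨y', Finset.mem_insert_of_mem hy', h5⟩
    · refine ⟨insert y T, Finset.insert_subset_insert _ h1, ?_, ?_⟩
      · intro z hz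
        rcases Finset.mem_insert.1 hz with rfl | hz
        · exact ⟨z, Finset.mem_insert_self _ _, Or.inl (hr z hQy)⟩
        · obtain ⟨t, ht, h4⟩ := h2 z hz
          refine ⟨t, Finset.mem_insert_of_mem ht, ?_⟩
          rcases h4 with h4 | ⟨y', hy', h5⟩
          · exact Or.inl h4
          · exact Or.inr ⟨y', Finset.mem_insert_of_mem hy', h5⟩
      · intro t ht t' ht' hrr
        rcases Finset.mem_insert.1 ht with e | ht
        · rcases Finset.mem_insert.1 ht' with e' | ht'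
          · rw [e, e']
          · exfalso
            rw [e] at hrr
            exact h ⟨t', ht', hs _ _ hQy (hY _ (Finset.mem_insert_of_mem (h1 ht'))) hrr⟩
        · rcases Finset.mem_insert.1 ht' with e' | ht'
          · exfalso
            rw [e'] at hrr
            exact h ⟨t, ht, hrr⟩
          · exact h3 t ht t' ht' hrr

/-- Representatives for an equivalence relation. -/
private theorem GRm_rep' {α : Type} (Q : α → Prop) (r : α → α → Prop)
    (hr : ∀ x, Q x → r x x) (hs : ∀ x y, Q x → Q y → r x y → r y x)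
    (ht : ∀ x y z, Q x → Q y → Q z → r x y → r y z → r x z) (Y : Finset α)
    (hY : ∀ y ∈ Y, Q y) :
    ∃ T : Finset α, T ⊆ Y ∧ (∀ y ∈ Y, ∃ t ∈ T, r t y) ∧ ∀ t ∈ T, ∀ t' ∈ T, r t t' → t = t' := by
  obtain ⟨T, h1, h2, h3⟩ := GRm_rep Q r hr hs Y hY
  refine ⟨T, h1, ?_, h3⟩
  intro y hy
  obtain ⟨t, htT, h4⟩ := h2 y hy
  refine ⟨t, htT, ?_⟩
  rcases h4 with h4 | ⟨y', hy', h5, h6⟩
  · exact h4
  · exact ht _ _ _ (hY _ (h1 htT)) (hY _ hy') (hY _ hy) h5 h6

theorem tGRm : S_GRm := by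
  classical
  intro hO2 hO6 hO7 hCop hMod hHNf hV0 hEx k t _ f N hf hN
  obtain ⟨-, -, -, o2nm, o2mul, -, -⟩ := hO2 k t
  obtain ⟨o6mul, -, -, -, o6co, -⟩ := hO6 k t
  obtain ⟨⟨hF0, -, -, hcn0, -⟩, ⟨hcn, -⟩, hMp, -⟩ := hMod k t f N hf hN
  obtain ⟨rfl7, sym7, tra7, mul7, -, -, -, sp7, -, ⟨R, hR⟩⟩ := hO7 k t (sN k t (3 * f)) hF0
  obtain ⟨-, cinv, -, ccg, cone, -⟩ := hCop k t
  obtain ⟨⟨hf1, -⟩, hfmul, -, -, hNc, hfinv, -, hfc, -⟩ := hHNf k t f N hf hN
  have e1 : sp (1 : OO k t) = ⊤ := Ideal.span_singleton_one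
  have spm : ∀ v u : OO k t, sp v * sp u = sp (v * u) := fun v u =>
    Ideal.span_singleton_mul_span_singleton v u
  have tm : ∀ a : Ideal (OO k t), ⊤ * a = a := fun a => Ideal.top_mul a
  have hfp : ∀ v : OO k t, Hf f v → PrI (sp v) (sN k t (3 * f)) := fun v hv =>
    (hfc v hv).2.2.2.2.1
  refine ⟨?_, ?_⟩
  · -- the representatives `T`
    obtain ⟨T, hT⟩ := hEx k t (cnN k t f N) (fun v => HN f N v) hcn0 (fun v u h hv => by
      refine hNc v u (hcn ?_) hv
      rw [← neg_sub]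
      exact (cnN k t f N).neg_mem h)
    exact ⟨T, isRep_iff.2 hT⟩
  · -- the representatives `D`
    have hHPsp : ∀ v : OO k t, v ≠ 0 → Hf f v → HP f (sp v) := fun v hv hh => ⟨v, hv, hh, rfl7 _⟩
    have hc : ∀ b ∈ R, ∃ c : Ideal (OO k t), c ≠ ⊥ ∧ PrI c (sN k t (3 * f)) ∧
        ((3 : ℤ) ^ N ∣ (NI c : ℤ) - 1 ∨ (3 : ℤ) ^ N ∣ (NI c : ℤ) + 1) ∧
        Ray (sN k t (3 * f)) b c := by
      intro b hb
      obtain ⟨hb0, hbF⟩ := hR.mem b hb
      have hb3 : (NI b).Coprime 3 := (o6co 3 b).1 (hMp b hbF).2.2.2.2.1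
      have hco : IsCoprime (NI b : ℤ) ((3 : ℤ) ^ N) := by
        have : IsCoprime (NI b : ℤ) (3 : ℤ) := by exact_mod_cast Nat.isCoprime_iff_coprime.2 hb3
        exact this.pow_right
      obtain ⟨a, y, hay⟩ := hco
      have h3N : (3 : ℤ) ∣ 3 ^ N := dvd_pow_self 3 (by omega)
      have ha3 : ¬ (3 : ℤ) ∣ a := by
        intro h
        have h1 : (3 : ℤ) ∣ 1 := by
          rw [← hay]
          exact dvd_add (h.mul_right _) (h3N.mul_left _)
        exact absurd h1 (by norm_num)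
      obtain ⟨s, hs, hs3⟩ : ∃ s : ℤ, (s = 1 ∨ s = -1) ∧ (3 : ℤ) ∣ s * a - 1 := by
        have : (3 : ℤ) ∣ a - 1 ∨ (3 : ℤ) ∣ a + 1 := by omega
        rcases this with h | h
        · exact ⟨1, Or.inl rfl, by rwa [one_mul]⟩
        · refine ⟨-1, Or.inr rfl, ?_⟩
          have e : -1 * a - 1 = -(a + 1) := by ring
          rw [e]
          exact (dvd_neg).2 h
      obtain ⟨v, hv0, hvF, hvN⟩ := hV0 k t f N (s * a) hf.cop hs3
      have hvF' : (1 : OO k t) - v ∈ sN k t (3 * f) := by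
        rw [← neg_sub]
        exact (sN k t (3 * f)).neg_mem hvF
      have hvp : PrI (sp v) (sN k t (3 * f)) := ccg 1 v _ hvF' (cone _).1
      have hspv : sp v ≠ ⊥ := fun h => hv0 (Ideal.span_singleton_eq_bot.1 h)
      refine ⟨sp v * b, mul_ne_zero hspv hb0, (o6mul _ _ _).2 ⟨hvp, hbF⟩, ?_, ?_⟩
      · rw [o2mul, Nat.cast_mul, o2nm]
        have key : (3 : ℤ) ^ N ∣ Nm v * (NI b : ℤ) - s := by
          have e : Nm v * (NI b : ℤ) - s = (Nm v - s * a) * NI b - 3 ^ N * (s * y) := by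
            linear_combination s * hay
          rw [e]
          exact dvd_sub (hvN.mul_right _) (dvd_mul_right _ _)
        rcases hs with rfl | rfl
        · exact Or.inl key
        · right
          rwa [sub_neg_eq_add] at key
      · have h1 : Ray (sN k t (3 * f)) (sp (1 : OO k t)) (sp v) :=
          (sp7 1 v one_ne_zero hv0 (cone _).1 hvp).2 (Or.inl hvF')
        have h2 := mul7 _ _ _ _ h1 (rfl7 b)
        rwa [e1, tm] at h2
    choose! c hc0 hcF hcN hcR using hc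
    obtain ⟨D, h1, h2, h3⟩ := GRm_rep' (fun _ : Ideal (OO k t) => True)
      (fun b b' : Ideal (OO k t) => ∃ a : Ideal (OO k t), HP f a ∧ Ray (sN k t (3 * f)) b' (a * b))
      (fun x _ => ⟨sp 1, hHPsp 1 one_ne_zero hf1, by rw [e1, tm]; exact rfl7 _⟩)
      (fun x y _ _ h => by
        obtain ⟨a, ⟨v, hv0, hv, hav⟩, hr⟩ := h
        obtain ⟨u, hu0, huc, huv⟩ := cinv v _ hF0 (hfp v hv)
        have hu : Hf f u := hfinv v u hv huv
        refine ⟨sp u, hHPsp u hu0 hu, ?_⟩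
        -- `sp u * y ~ sp u * (a * x) ~ sp u * (sp v * x) = sp (u v) * x ~ x`
        have s1 : Ray (sN k t (3 * f)) (sp u * y) (sp u * (a * x)) := mul7 _ _ _ _ (rfl7 _) hr
        have s2 : Ray (sN k t (3 * f)) (sp u * (a * x)) (sp u * (sp v * x)) :=
          mul7 _ _ _ _ (rfl7 _) (mul7 _ _ _ _ hav (rfl7 _))
        have s3 : Ray (sN k t (3 * f)) (sp u * (sp v * x)) x := by
          rw [← mul_assoc, spm]
          have h0 : u * v ≠ 0 := mul_ne_zero hu0 hv0
          have huv' : u * v - 1 ∈ sN k t (3 * f) := by rw [mul_comm u v]; exact huv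
          have huvp : PrI (sp (u * v)) (sN k t (3 * f)) := by
            rw [← spm]
            exact (o6mul _ _ _).2 ⟨huc, hfp v hv⟩
          have s4 : Ray (sN k t (3 * f)) (sp (u * v)) (sp 1) :=
            (sp7 _ _ h0 one_ne_zero huvp (cone _).1).2 (Or.inl huv')
          have s5 := mul7 _ _ _ _ s4 (rfl7 x)
          rwa [e1, tm] at s5
        exact sym7 _ _ (tra7 _ _ _ s1 (tra7 _ _ _ s2 s3)))
      (fun x y z _ _ _ h h' => by
        obtain ⟨a, ⟨v, hv0, hv, hav⟩, hr⟩ := h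
        obtain ⟨a', ⟨v', hv0', hv', hav'⟩, hr'⟩ := h'
        refine ⟨a' * a, ⟨v' * v, mul_ne_zero hv0' hv0, hfmul _ _ hv' hv, ?_⟩, ?_⟩
        · have s1 := mul7 _ _ _ _ hav' hav
          rw [spm] at s1
          exact s1
        · have s1 : Ray (sN k t (3 * f)) (a' * y) (a' * (a * x)) := mul7 _ _ _ _ (rfl7 _) hr
          have s2 := tra7 _ _ _ hr' s1
          rwa [← mul_assoc] at s2)
      (R.image c) (fun _ _ => trivial)
    refine ⟨D, ⟨?_, ?_, h3⟩⟩
    · intro x hx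
      obtain ⟨b, hb, rfl⟩ := Finset.mem_image.1 (h1 hx)
      exact ⟨hc0 b hb, hcF b hb, hcN b hb⟩
    · intro b hb0 hbf
      obtain ⟨b', hb', hbb'⟩ := hR.ex b hb0 hbf
      obtain ⟨d, hd, a, ha, hr⟩ := h2 (c b') (Finset.mem_image_of_mem c hb')
      exact ⟨d, hd, a, ha, tra7 _ _ _ (tra7 _ _ _ hbb' (hcR b' hb')) hr⟩

end Pool.Agent.DT.G
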