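import Pool.Agent.Lib.DT.G.Spec

/-!
# Theorem DT, part G, module HNf: the groups `H_f`, `H_N`
-/

set_option autoImplicit false

open scoped Pointwise

noncomputable section

namespace Pool.Agent.DT.G

open Pool.Agent.MuZ Pool.Agent.FW Pool.Agent.DT
open Pool.Agent.DI (io ofC io_inj exists_io io_ofC ofC_io VP MP UP TP ex)

variable {k t : ℕ}

private theorem HNf_dvd {n : ℕ} {v : OO k t} (h : v ∈ sN k t n) : (n : OO k t) ∣ v :=
  Ideal.mem_span_singleton.1 h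

private theorem HNf_mem {n : ℕ} {v : OO k t} (h : (n : OO k t) ∣ v) : v ∈ sN k t n :=
  Ideal.mem_span_singleton.2 h

private theorem HNf_nm (v u : OO k t) (N : ℕ) (h : ((3 ^ N : ℕ) : OO k t) ∣ v - u) :
    (3 : ℤ) ^ N ∣ Nm v - Nm u := by
  have := Nm_congr h
  exact_mod_cast this

private theorem HNf_pw {a v : OO k t} (j : ℕ) (h : a ∣ v - 1) : a ∣ v ^ j - 1 := by
  have := sub_dvd_pow_sub_pow v 1 j
  rw [one_pow] at this
  exact h.trans this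

private theorem HNf_neg {a v u : OO k t} (h : a ∣ v - u) : a ∣ u - v := by
  rw [← neg_sub]
  exact (dvd_neg).2 h

private theorem HNf_r (f N : ℕ) : ((3 ^ N : ℕ) : OO k t) ∣ ((f * 3 ^ N : ℕ) : OO k t) := by
  refine ⟨(f : OO k t), ?_⟩
  push_cast
  ring

private theorem HNf_nsub (I : Ideal (OO k t)) {v u : OO k t} (h : v - u ∈ I) : u - v ∈ I := by
  rw [← neg_sub]
  exact I.neg_mem h

/-- if `v + 1` is in a prime `P` above `3`, no power `v ^ (3 ^ j)` is `1` modulo `P` -/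
private theorem HNf_P (P : Ideal (OO k t)) (hP : P.IsPrime) (h3 : (3 : OO k t) ∈ P) {v : OO k t} {j : ℕ}
    (h : v ^ 3 ^ j - 1 ∈ P) (h1 : v + 1 ∈ P) : False := by
  have ho : Odd (3 ^ j : ℕ) := Odd.pow (by decide)
  have h2 : v + 1 ∣ v ^ 3 ^ j + 1 := by
    have := Odd.add_dvd_pow_add_pow v 1 ho
    rwa [one_pow] at this
  have h4 : v ^ 3 ^ j + 1 ∈ P := P.mem_of_dvd h2 h1
  have h5 : (1 : OO k t) ∈ P := by
    have h6 := P.sub_mem h3 (P.sub_mem h4 h)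
    have h7 : (3 : OO k t) - (v ^ 3 ^ j + 1 - (v ^ 3 ^ j - 1)) = 1 := by ring
    rwa [h7] at h6
  exact hP.ne_top ((Ideal.eq_top_iff_one P).2 h5)

theorem tHNf : S_HNf := by
  intro hO4 hCop hMod k t _ f N hf hN
  obtain ⟨-, -, -, hpp, hppb, -⟩ := hO4 k t
  obtain ⟨c1, -, -, c4, c5, c6, c7, c8, c9, c10⟩ := hCop k t
  obtain ⟨-, ⟨-, m2, -, -, -, -, m7, m8, m9, -⟩, mP, -⟩ := hMod k t f N hf hN
  have hone : Hf f (1 : OO k t) := by
    refine ⟨(c5 _).1, 0, ?_⟩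
    rw [one_pow, sub_self]
    exact dvd_zero _
  have hmul : ∀ v u : OO k t, Hf f v → Hf f u → Hf f (v * u) := by
    rintro v u ⟨hv1, j, hj⟩ ⟨hu1, l, hl⟩
    refine ⟨(c1 v u _).2 ⟨hv1, hu1⟩, j + l, ?_⟩
    have h1 : (v * u) ^ 3 ^ (j + l) - 1 =
        ((v ^ 3 ^ j) ^ 3 ^ l - 1) * (u ^ 3 ^ l) ^ 3 ^ j + ((u ^ 3 ^ l) ^ 3 ^ j - 1) := by
      rw [mul_pow, pow_add, pow_mul, mul_comm (3 ^ j) (3 ^ l), pow_mul u]
      ring
    rw [h1]
    exact dvd_add (Dvd.dvd.mul_right (HNf_pw _ hj) _) (HNf_pw _ hl)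
  have hcongr : ∀ v u : OO k t, u - v ∈ sN k t (3 * f) → Hf f v → Hf f u := by
    rintro v u h ⟨hv1, j, hj⟩
    refine ⟨c4 v u _ (HNf_nsub _ h) hv1, j, ?_⟩
    have h1 : u ^ 3 ^ j - 1 = (u ^ 3 ^ j - v ^ 3 ^ j) + (v ^ 3 ^ j - 1) := by ring
    rw [h1]
    exact dvd_add (Dvd.dvd.trans (HNf_dvd h) (sub_dvd_pow_sub_pow u v _)) hj
  have hinv : ∀ v u : OO k t, Hf f v → v * u - 1 ∈ sN k t (3 * f) → Hf f u := by
    rintro v u ⟨hv1, j, hj⟩ h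
    refine ⟨((c1 v u _).1 (c4 1 (v * u) _ (HNf_nsub _ h) (c5 _).1)).2, j, ?_⟩
    have h1 : u ^ 3 ^ j - 1 = ((v * u) ^ 3 ^ j - 1) - (v ^ 3 ^ j - 1) * u ^ 3 ^ j := by
      rw [mul_pow]
      ring
    rw [h1]
    exact dvd_sub (HNf_pw _ (HNf_dvd h)) (Dvd.dvd.mul_right hj _)
  refine ⟨⟨hone, hone, ?_⟩, hmul, ?_, hcongr, ?_, hinv, ?_, ?_, ?_⟩
  · rw [Nm_one, sub_self]
    exact dvd_zero _
  · intro v u hv hu
    refine ⟨hmul v u hv.1 hu.1, ?_⟩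
    rw [Nm_mul]
    have h1 : Nm v * Nm u - 1 = (Nm v - 1) * Nm u + (Nm u - 1) := by ring
    rw [h1]
    exact dvd_add (Dvd.dvd.mul_right hv.2 _) hu.2
  · intro v u h hv
    refine ⟨hcongr v u (m2 h) hv.1, ?_⟩
    have h3 := HNf_nm u v N ((HNf_r f N).trans (HNf_dvd h))
    have h1 : Nm u - 1 = (Nm u - Nm v) + (Nm v - 1) := by ring
    rw [h1]
    exact dvd_add h3 hv.2
  · intro v u hv h
    refine ⟨hinv v u hv.1 (m2 h), ?_⟩
    have h1 := HNf_nm (v * u) 1 N ((HNf_r f N).trans (HNf_dvd h))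
    rw [Nm_mul, Nm_one] at h1
    have h2 : Nm u - 1 = (Nm v * Nm u - 1) - (Nm v - 1) * Nm u := by ring
    rw [h2]
    exact dvd_sub h1 (Dvd.dvd.mul_right hv.2 _)
  · rintro v ⟨hv1, j, hj⟩
    obtain ⟨-, -, -, -, -, p6, p7, -⟩ := mP (sp v) hv1
    have hv2 : v ∉ pp k t := (c6 v).2.1.1 p6
    have hv3 : v ∉ ppb k t := (c6 v).2.2.1 p7
    have h33 : (3 : OO k t) ∈ sN k t 3 := HNf_mem (by push_cast; exact dvd_rfl)
    have hj' : v ^ 3 ^ j - 1 ∈ sN k t 3 := m7 (HNf_mem hj)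
    have k1 : v - 1 ∈ pp k t := by
      rcases c8 v hv2 with h | h
      · exact h
      · exact (HNf_P _ hpp (m8 h33) (m8 hj') h).elim
    have k2 : v - 1 ∈ ppb k t := by
      rcases c7 v hv3 with h | h
      · exact h
      · exact (HNf_P _ hppb (m9 h33) (m9 hj') h).elim
    refine ⟨?_, c10 _ k1 k2, k1, k2, hv1, ((c9 v k2).1).2 k1⟩
    rintro rfl
    exact hv2 (Ideal.zero_mem _)
  · intro v hv
    exact ⟨hv.1, (pow_dvd_pow _ (Nat.le_succ N)).trans hv.2⟩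

end Pool.Agent.DT.G
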