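import Pool.Agent.Lib.DT.G.Spec

/-!
# Theorem DT, part G, module HPg: the groups `HP`, `HPN`
-/

set_option autoImplicit false

open scoped Pointwise

noncomputable section

namespace Pool.Agent.DT.G

open Pool.Agent.MuZ Pool.Agent.FW Pool.Agent.DT
open Pool.Agent.DI (io ofC io_inj exists_io io_ofC ofC_io VP MP UP TP ex)

theorem tHPg : S_HPg := by
  intro hO2 hO6 hO7 hO9 hCop hMod hHNf hRUp k t _ f hf
  obtain ⟨-, -, -, o2nm, -, -, -, -⟩ := hO2 k t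
  obtain ⟨⟨F0, -, -, -, -⟩, -, -, -, -, -, -, -, -⟩ := hMod k t f 1 hf le_rfl
  obtain ⟨rfl7, sym7, tra7, mul7, -, inv7, -, -, -, -⟩ := hO7 k t _ F0
  have e1 : sp (1 : OO k t) = ⊤ := Ideal.span_singleton_one
  have spm : ∀ v u : OO k t, sp v * sp u = sp (v * u) := fun v u =>
    Ideal.span_singleton_mul_span_singleton v u
  have sp0 : ∀ v : OO k t, v ≠ 0 → sp v ≠ ⊥ := fun v hv h => hv (Ideal.span_singleton_eq_bot.1 h)
  obtain ⟨⟨hf1, -⟩, hfmul, -, hfcon, -, -, -, hfc, -⟩ := hHNf k t f 1 hf le_rfl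
  refine ⟨⟨⟨1, one_ne_zero, hf1, ?_⟩, ?_, ?_, ?_⟩, ?_⟩
  · rw [e1]
    exact rfl7 _
  · rintro a ⟨v, hv0, hv, hr⟩
    obtain ⟨i1, i2⟩ := inv7 _ _ hr
    exact ⟨i1.2 (sp0 v hv0), i2.2 hv.1⟩
  · rintro a a' ⟨v, hv0, hv, hr⟩ haa
    exact ⟨v, hv0, hv, tra7 _ _ _ (sym7 _ _ haa) hr⟩
  · rintro a a' ⟨v, hv0, hv, hr⟩ ⟨v', hv0', hv', hr'⟩
    refine ⟨v * v', mul_ne_zero hv0 hv0', hfmul _ _ hv hv', ?_⟩
    have h := mul7 _ _ _ _ hr hr'
    change Ray (sN k t (3 * f)) (a * a') (sp v * sp v') at h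
    rw [spm] at h
    exact h
  · intro N hN
    obtain ⟨⟨-, M0, -, -, -⟩, ⟨-, hMF, -⟩, hPr, hPr', -, -, -, -, -⟩ := hMod k t f N hf hN
    obtain ⟨⟨-, hN1⟩, -, hNmul, -, -, -, -, -, -⟩ := hHNf k t f N hf hN
    obtain ⟨rflM, symM, traM, mulM, -, invM, lowM, -, -, -⟩ := hO7 k t _ M0
    refine ⟨⟨1, one_ne_zero, hN1, ?_⟩, ?_, ?_, ?_, ?_⟩
    · rw [e1]
      exact rflM _
    · rintro a ⟨v, hv0, hv, hr⟩
      obtain ⟨i1, i2⟩ := invM _ _ hr
      exact ⟨i1.2 (sp0 v hv0), i2.2 (hPr _ hv.1.1).2.2.1⟩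
    · rintro a a' ⟨v, hv0, hv, hr⟩ haa
      exact ⟨v, hv0, hv, traM _ _ _ (symM _ _ haa) hr⟩
    · rintro a a' ⟨v, hv0, hv, hr⟩ ⟨v', hv0', hv', hr'⟩
      refine ⟨v * v', mul_ne_zero hv0 hv0', hNmul _ _ hv hv', ?_⟩
      have h := mulM _ _ _ _ hr hr'
      change Ray (sN k t (f * 3 ^ N)) (a * a') (sp v * sp v') at h
      rw [spm] at h
      exact h
    · intro a ha0 haM
      -- norms
      have hf0 : 0 < f * 3 ^ N := by
        refine Nat.pos_of_ne_zero fun h => M0 ?_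
        change Ideal.span {((f * 3 ^ N : ℕ) : OO k t)} = ⊥
        rw [h, Nat.cast_zero]
        exact Ideal.span_singleton_eq_bot.2 rfl
      have hnm : ∀ v : OO k t, Ray (sN k t (f * 3 ^ N)) a (sp v) →
          (3 : ℤ) ^ N ∣ (NI a : ℤ) - Nm v := by
        intro v hr
        have h := hO9 k t (f * 3 ^ N) hf0 a (sp v) hr
        rw [o2nm] at h
        refine dvd_trans ⟨(f : ℤ), ?_⟩ h
        push_cast
        ring
      constructor
      · rintro ⟨v, hv0, hv, hr⟩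
        refine ⟨⟨v, hv0, hv.1, lowM _ _ _ hMF hr⟩, ?_⟩
        have h := dvd_add (hnm v hr) hv.2
        rwa [sub_add_sub_cancel] at h
      · rintro ⟨⟨v, hv0, hv, hr⟩, hn⟩
        obtain ⟨β, hβ0, hβ1, -, hβr⟩ := hRUp k t _ _ (sp v) a M0 hMF (sp0 v hv0) ha0
          (hPr _ hv.1).2.2.1 haM hr
        rw [spm] at hβr
        have hHf : Hf f (β * v) := by
          refine hfcon v _ ?_ hv
          have e : β * v - v = (β - 1) * v := by ring
          rw [e]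
          exact Ideal.mul_mem_right _ _ hβ1
        refine ⟨β * v, mul_ne_zero hβ0 hv0, ⟨hHf, ?_⟩, hβr⟩
        have h := dvd_sub hn (hnm _ hβr)
        rwa [show (NI a : ℤ) - 1 - (NI a - Nm (β * v)) = Nm (β * v) - 1 by ring] at h

end Pool.Agent.DT.G
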