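import Pool.Agent.Lib.DT.G.Spec

/-!
# Theorem DT, part G, module NQ: the points `h z_N + u` are not primary
-/

set_option autoImplicit false

open scoped Pointwise

noncomputable section

namespace Pool.Agent.DT.G

open Pool.Agent.MuZ Pool.Agent.FW Pool.Agent.DT
open Pool.Agent.DI (io ofC io_inj exists_io io_ofC ofC_io VP MP UP TP ex)

variable {k t : ℕ}

private theorem NQ_not_le {p b : Ideal (OO k t)} (hp : p.IsPrime) (h3p : ((3 : ℕ) : OO k t) ∈ p)
    (hb : PrI b (sN k t 3)) : ¬ b ≤ p := by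
  intro h
  apply hp.ne_top
  rw [eq_top_iff]
  have h1 : b ⊔ sN k t 3 ≤ p := sup_le h ((Ideal.span_singleton_le_iff_mem p).2 h3p)
  rwa [show b ⊔ sN k t 3 = ⊤ from hb] at h1

/-- The case of a prime `p` above `3` which is not in `Q`; `p'` is the other prime above `3`. -/
private theorem NQ_main [SqT k t] {p p' : Ideal (OO k t)} (hp : p.IsPrime)
    (h3p : ((3 : ℕ) : OO k t) ∈ p) (hsup : p ⊔ p' = ⊤) {f N e e' : ℕ} {m b : Ideal (OO k t)}
    (c : OO k t) (hf : 0 < f) (hfp : (f : OO k t) ∉ p) (hm : PrI m (sN k t 3))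
    (hb : PrI b (sN k t 3))
    (hle : ∀ α ∈ p ^ e, ∀ β ∈ p' ^ e' * m * sN k t f, α * β * c ∈ sN k t (3 ^ (N + 1) * f) * m)
    (hend : ∀ y o : OO k t, y * c = ((3 ^ (N + 1) * f : ℕ) : OO k t) * o → y ∈ p)
    {Q : Ideal ZZ} (hQ : Npr Q) {α₀ : OO k t} (hα₀ : α₀ ∈ p)
    (hαQ : ¬ MP Q (toO α₀)) {h : OO k t} (hh : h ∉ p) {u : ℂ} (hu : u ∈ Lam (m * b)) :
    ¬ Qp Q b (toC h * (toC c / (3 ^ (N + 1) * f)) + u) := by
  intro hq
  have := hQ.1
  have hJ : ¬ p' ^ e' * m * sN k t f ≤ p := by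
    rw [hp.mul_le, hp.mul_le]
    rintro ((h1 | h1) | h1)
    · have h3 : p' ≤ p := Ideal.IsPrime.le_of_pow_le h1
      apply hp.ne_top
      rw [← hsup]
      exact (sup_eq_left.2 h3).symm
    · exact NQ_not_le hp h3p hm h1
    · exact hfp (h1 (Ideal.mem_span_singleton_self _))
  obtain ⟨β, hβJ, hβp⟩ := SetLike.not_le_iff_exists.1 hJ
  have hβm : β ∈ m := by
    have h1 : p' ^ e' * m * sN k t f ≤ m := Ideal.mul_le_left.trans Ideal.mul_le_right
    exact h1 hβJ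
  have hαβ : α₀ ^ e * β * c ∈ sN k t (3 ^ (N + 1) * f) * m :=
    hle _ (Ideal.pow_mem_pow hα₀ e) β hβJ
  obtain ⟨γ, hγ, hγe⟩ := Ideal.mem_span_singleton_mul.1 hαβ
  have hαN : ¬ MP Q (toO (α₀ ^ e)) := by
    rw [toO_pow]
    exact fun h1 => hαQ (DI.MP.of_pow h1)
  have hM0 : ((3 : ℂ) ^ (N + 1) * f) ≠ 0 := by
    have h1 : ((3 ^ (N + 1) * f : ℕ) : ℂ) ≠ 0 := by
      have h2 : 3 ^ (N + 1) * f ≠ 0 := by positivity
      exact_mod_cast h2
    push_cast at h1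
    exact h1
  have hMc : toC (((3 ^ (N + 1) * f : ℕ) : OO k t)) = (3 : ℂ) ^ (N + 1) * f := by
    rw [toC_nat]
    push_cast
    ring
  have h1 : toC (α₀ ^ e * β) * (toC h * (toC c / (3 ^ (N + 1) * f)) + u) ∈ Lam b := by
    have h3 : toC (α₀ ^ e * β) * (toC h * (toC c / (3 ^ (N + 1) * f)) + u) =
        toC (γ * h) + toC (α₀ ^ e * β) * u := by
      rw [mul_add]
      congr 1
      have h4 : toC (α₀ ^ e * β) * toC c = ((3 : ℂ) ^ (N + 1) * f) * toC γ := by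
        rw [← toC_mul, ← hγe, toC_mul, hMc]
      calc toC (α₀ ^ e * β) * (toC h * (toC c / (3 ^ (N + 1) * f)))
          = toC (α₀ ^ e * β) * toC c * toC h / (3 ^ (N + 1) * f) := by ring
        _ = ((3 : ℂ) ^ (N + 1) * f) * (toC γ * toC h) / (3 ^ (N + 1) * f) := by
          rw [h4, mul_assoc]
        _ = toC (γ * h) := by rw [mul_div_cancel_left₀ _ hM0, toC_mul]
    rw [h3]
    refine lam_add (lam_anti le_top (lam_top.2 ⟨_, rfl⟩)) (lam_prod.1 hu _ ?_)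
    exact m.mul_mem_left _ hβm
  have h4 : toC β * (toC h * (toC c / (3 ^ (N + 1) * f)) + u) ∈ Lam b := hq (α₀ ^ e) β hαN h1
  have h5 : toC β * (toC h * (toC c / (3 ^ (N + 1) * f))) ∈ Lam b := by
    rw [mul_add] at h4
    have h6 := lam_sub h4 (lam_prod.1 hu β hβm)
    rwa [add_sub_cancel_right] at h6
  obtain ⟨x, hxb, hxp⟩ := SetLike.not_le_iff_exists.1 (NQ_not_le hp h3p hb)
  obtain ⟨o, ho⟩ := h5 x hxb
  have h6 : x * (β * h) * c = ((3 ^ (N + 1) * f : ℕ) : OO k t) * o := by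
    apply toC_inj
    rw [toC_mul, toC_mul, toC_mul, toC_mul, hMc, ← ho]
    calc toC x * (toC β * toC h) * toC c
        = ((3 : ℂ) ^ (N + 1) * f) * (toC x * (toC β * toC h) * toC c) / (3 ^ (N + 1) * f) := by
          rw [mul_div_cancel_left₀ _ hM0]
      _ = _ := by ring
  have h7 : x * (β * h) ∈ p := hend _ _ h6
  rcases hp.mem_or_mem h7 with h8 | h8
  · exact hxp h8
  · rcases hp.mem_or_mem h8 with h9 | h9
    · exact hβp h9
    · exact hh h9

private theorem NQ_sN (p q m : Ideal (OO k t)) (hpq : p * q = sN k t 3) (n f : ℕ) :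
    (p * q) ^ n * m * sN k t f = sN k t (3 ^ n * f) * m := by
  rw [hpq]
  have h1 : sN k t (3 ^ n * f) = sN k t 3 ^ n * sN k t f := by
    unfold sN
    rw [Ideal.span_singleton_pow, Ideal.span_singleton_mul_span_singleton]
    congr 2
    push_cast
    ring
  rw [h1]
  ring

theorem tNQ : S_NQ := by
  intro hO4 hCop hMod hC0 hAbP k t _ f N m b hf hN hm0 hb0 hm hb Q hQ h hh u hu
  obtain ⟨hmul, -, -, hP, hPb, -, -, hsup, -, -, hpp, hppb⟩ := hO4 k t
  obtain ⟨-, -, hnot, h1, h2⟩ := hAbP k t Q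
  obtain ⟨hhp, hhb⟩ := ((hCop k t).2.2.2.2.2.1 h).1.1 hh
  obtain ⟨-, -, -, -, -, -, -, hfp, hfb⟩ := hMod k t f N hf hN
  obtain ⟨hc0, hcp, hcb, -, -, -, -, -, -, hlast⟩ := hC0 k t f hf
  have hf0 : 0 < f := by
    rcases Nat.eq_zero_or_pos f with h3 | h3
    · exfalso
      apply hfp
      rw [h3]
      simp
    · exact h3
  have h3p : ((3 : ℕ) : OO k t) ∈ pp k t := by
    rw [hpp, re_nat]
    norm_num
  have h3b : ((3 : ℕ) : OO k t) ∈ ppb k t := by
    rw [hppb, re_nat, im_nat]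
    norm_num
  have hM : ((3 ^ (N + 1) * f : ℕ) : OO k t) = ((3 : ℕ) : OO k t) ^ (N + 1) * (f : OO k t) := by
    push_cast
    ring
  by_cases hA : AbP k t Q
  · obtain ⟨α, hα, hαQ⟩ := h2 hQ fun h3 => hnot ⟨hA, h3⟩
    refine NQ_main (p' := pp k t) (e := N + 1) (e' := N) hPb h3b ((sup_comm _ _).trans hsup)
      (c0 k t f) hf0 hfb hm hb ?_ ?_ hQ hα hαQ hhb hu
    · intro α hα β hβ
      rw [← NQ_sN (pp k t) (ppb k t) m hmul (N + 1) f]
      have h3 : (pp k t * ppb k t) ^ (N + 1) * m * sN k t f =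
          ppb k t ^ (N + 1) * (pp k t ^ N * m * sN k t f) * pp k t := by ring
      rw [h3]
      exact Ideal.mul_mem_mul (Ideal.mul_mem_mul hα hβ) hcp
    · intro y o hy
      have h3 : y * c0 k t f ∈ ppb k t := by
        rw [hy, hM, pow_succ, mul_assoc, mul_assoc]
        exact (ppb k t).mul_mem_left _ ((ppb k t).mul_mem_right _ h3b)
      exact (hPb.mem_or_mem h3).resolve_right hcb
  · obtain ⟨α, hα, hαQ⟩ := h1 hQ hA
    refine NQ_main (p' := ppb k t) (e := N) (e' := N + 1) hP h3p hsup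
      (c0 k t f) hf0 hfp hm hb ?_ ?_ hQ hα hαQ hhp hu
    · intro α hα β hβ
      rw [← NQ_sN (pp k t) (ppb k t) m hmul (N + 1) f]
      have h3 : (pp k t * ppb k t) ^ (N + 1) * m * sN k t f =
          pp k t ^ N * (ppb k t ^ (N + 1) * m * sN k t f) * pp k t := by ring
      rw [h3]
      exact Ideal.mul_mem_mul (Ideal.mul_mem_mul hα hβ) hcp
    · intro y o hy
      apply hlast
      obtain ⟨n, rfl⟩ : ∃ n, N = n + 1 := ⟨N - 1, by omega⟩
      have h4 : ((3 : ℕ) : OO k t) ^ 2 ∈ pp k t ^ 2 := Ideal.pow_mem_pow h3p 2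
      have h5 : c0 k t f * y = ((3 : ℕ) : OO k t) ^ 2 * (((3 : ℕ) : OO k t) ^ n * f * o) := by
        rw [mul_comm, hy, hM]
        ring
      rw [h5]
      exact (pp k t ^ 2).mul_mem_right _ h4

end Pool.Agent.DT.G
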