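import Pool.Agent.Lib.DT.G.Spec

/-!
# Theorem DT, part G, module Rp: systems of representatives
-/

set_option autoImplicit false

open scoped Pointwise

noncomputable section

namespace Pool.Agent.DT.G

open Pool.Agent.MuZ Pool.Agent.FW Pool.Agent.DT
open Pool.Agent.DI (io ofC io_inj exists_io io_ofC ofC_io VP MP UP TP ex)

variable {k t : ℕ}

private theorem Rp_symm {n : Ideal (OO k t)} {x y : OO k t} (h : x - y ∈ n) : y - x ∈ n := by
  have h1 := n.neg_mem h
  rwa [neg_sub] at h1

private theorem Rp_trans {n : Ideal (OO k t)} {x y z : OO k t} (h : x - y ∈ n) (h' : y - z ∈ n) :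
    x - z ∈ n := by
  have h1 := n.add_mem h h'
  rwa [sub_add_sub_cancel] at h1

private theorem Rp_one (n : Ideal (OO k t)) (H : OO k t → Prop) (T T' : Finset (OO k t)) (A : Type)
    [CommMonoid A] (F : OO k t → A) (hT : IsRp n H T) (hT' : IsRp n H T')
    (h1 : ∀ v u : OO k t, H v → H u → v - u ∈ n → F v = F u) :
    ∏ h ∈ T, F h = ∏ h ∈ T', F h := by
  have hex : ∀ h ∈ T, ∃ h' ∈ T', h - h' ∈ n := fun h hh => hT'.ex h (hT.mem h hh)
  choose e he hr using hex
  refine Finset.prod_bij e he ?_ ?_ ?_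
  · intro x hx y hy hxy
    have r1 := hr x hx
    rw [hxy] at r1
    exact hT.uni x hx y hy (Rp_trans r1 (Rp_symm (hr y hy)))
  · intro b hb
    obtain ⟨x, hx, hbx⟩ := hT.ex b (hT'.mem b hb)
    refine ⟨x, hx, ?_⟩
    exact (hT'.uni b hb (e x hx) (he x hx) (Rp_trans hbx (hr x hx))).symm
  · intro x hx
    exact h1 x (e x hx) (hT.mem x hx) (hT'.mem _ (he x hx)) (hr x hx)

/-- **Rp.** Products over two systems of representatives; multiplication by an invertible
element. -/
theorem tRp : S_Rp := by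
  classical
  intro k t _
  refine ⟨Rp_one, ?_⟩
  intro n H T A _ G a b hT hab hHa hHb h1
  have key : ∀ x y : OO k t, a * x - a * y ∈ n → x - y ∈ n := by
    intro x y h
    have h3 : x - y = b * (a * x - a * y) - (x - y) * (a * b - 1) := by ring
    rw [h3]
    exact n.sub_mem (n.mul_mem_left _ h) (n.mul_mem_left _ hab)
  have hinj : Set.InjOn (fun x : OO k t => a * x) (T : Set (OO k t)) := by
    intro x hx y hy hxy
    have hxy' : a * x = a * y := hxy
    refine hT.uni x hx y hy (key x y ?_)
    rw [hxy', sub_self]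
    exact n.zero_mem
  have hT2 : IsRp n H (T.image fun x => a * x) := by
    refine ⟨?_, ?_, ?_⟩
    · intro h hh
      obtain ⟨x, hx, rfl⟩ := Finset.mem_image.mp hh
      exact hHa x (hT.mem x hx)
    · intro v hv
      obtain ⟨x, hx, hr⟩ := hT.ex (b * v) (hHb v hv)
      refine ⟨a * x, Finset.mem_image_of_mem _ hx, ?_⟩
      have h3 : v - a * x = a * (b * v - x) - v * (a * b - 1) := by ring
      rw [h3]
      exact n.sub_mem (n.mul_mem_left _ hr) (n.mul_mem_left _ hab)
    · intro h hh h' hh' hr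
      obtain ⟨x, hx, rfl⟩ := Finset.mem_image.mp hh
      obtain ⟨y, hy, rfl⟩ := Finset.mem_image.mp hh'
      have h3 := hT.uni x hx y hy (key x y hr)
      rw [h3]
  rw [← Rp_one n H _ T A G hT2 hT h1, Finset.prod_image hinj]

end Pool.Agent.DT.G
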