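import Pool.Agent.Lib.DT.G.Spec

/-!
# Theorem DT, part G, module TwR: two systems of representatives of `H_N` modulo `cnN (N + 1)`

Author helper69, after the docstring of `S_TwR` (helper21).
-/

set_option autoImplicit false

open scoped Pointwise

noncomputable section

namespace Pool.Agent.DT.G

open Pool.Agent.MuZ Pool.Agent.FW Pool.Agent.DT
open Pool.Agent.DI (io ofC io_inj exists_io io_ofC ofC_io VP MP UP TP ex)

private lemma TwR_sel {N : ℕ} {ν δ : ℤ} (h1 : (3 : ℤ) ^ N ∣ ν) (h2 : (3 : ℤ) ^ N ∣ δ)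
    (h3 : ¬ (3 : ℤ) ^ (N + 1) ∣ δ) : ∃ i : ℕ, i < 3 ∧ (3 : ℤ) ^ (N + 1) ∣ ν - i * δ := by
  obtain ⟨x, rfl⟩ := h1
  obtain ⟨y, rfl⟩ := h2
  have h4 : ¬ (3 : ℤ) ∣ y := fun h => h3 (by
    rw [pow_succ]
    exact mul_dvd_mul_left _ h)
  have key : ∀ i : ℕ, (3 : ℤ) ∣ x - i * y → (3 : ℤ) ^ (N + 1) ∣ 3 ^ N * x - i * (3 ^ N * y) := by
    intro i h
    have e : (3 : ℤ) ^ N * x - i * (3 ^ N * y) = 3 ^ N * (x - i * y) := by ring
    rw [e, pow_succ]
    exact mul_dvd_mul_left _ h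
  have h5 : (3 : ℤ) ∣ x - (0 : ℕ) * y ∨ (3 : ℤ) ∣ x - (1 : ℕ) * y ∨ (3 : ℤ) ∣ x - (2 : ℕ) * y := by
    push_cast
    have h6 : y % 3 = 1 ∨ y % 3 = 2 := by omega
    have h7 : x % 3 = 0 ∨ x % 3 = 1 ∨ x % 3 = 2 := by omega
    rcases h6 with h6 | h6 <;> rcases h7 with h7 | h7 | h7 <;> omega
  rcases h5 with h | h | h
  · exact ⟨0, by norm_num, key 0 h⟩
  · exact ⟨1, by norm_num, key 1 h⟩
  · exact ⟨2, by norm_num, key 2 h⟩

/-- The norm of `v ^ i * u` modulo `3 ^ (N + 1)`. -/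
private lemma TwR_nm {k t N : ℕ} (hN : 1 ≤ N) {v u : OO k t} (hv : (3 : ℤ) ^ N ∣ Nm v - 1)
    (hu : (3 : ℤ) ^ N ∣ Nm u - 1) (i : ℕ) :
    (3 : ℤ) ^ (N + 1) ∣ Nm (v ^ i * u) - (1 + i * (Nm v - 1) + (Nm u - 1)) := by
  have h0 : (3 : ℤ) ^ (N + 1) ∣ 3 ^ N * 3 ^ N := by
    rw [← pow_add]
    exact pow_dvd_pow _ (by omega)
  obtain ⟨c, hc⟩ := h0
  obtain ⟨x, hx⟩ := hv
  obtain ⟨y, hy⟩ := hu
  induction i with
  | zero => simp
  | succ i ih =>
    obtain ⟨z, hz⟩ := ih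
    refine ⟨z + c * (i * x ^ 2 + x * y) + z * 3 ^ N * x, ?_⟩
    rw [pow_succ', mul_assoc, Nm_mul]
    push_cast
    linear_combination Nm v * hz +
      ((3 : ℤ) ^ (N + 1) * z + i * (Nm v - 1) + (Nm u - 1)) * hx + 3 ^ N * x * i * hx +
      3 ^ N * x * hy + (i * x ^ 2 + x * y) * hc

theorem tTwR : S_TwR := by
  classical
  intro hCop hMod hHN hRp k t _ f N T T' E a hf hN hT hT' hE ha ha' A _ F hF
  obtain ⟨-, cop2, cop3, -⟩ := hCop k t
  obtain ⟨-, ⟨m1, -, -, m4, -⟩, m5, -⟩ := hMod k t f N hf hN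
  obtain ⟨⟨-, -, -, hcn', -⟩, ⟨m1', -⟩, -⟩ := hMod k t f (N + 1) hf (by omega)
  obtain ⟨⟨-, h1N⟩, -, hmul, -, hcg, -, hinv, -, hlow⟩ := hHN k t f N hf hN
  set M := cnN k t f (N + 1) with hM
  have hP : ∀ v : OO k t, HN f N v → PrI (sp v) M := fun v hv => (m5 _ hv.1.1).2.1
  have hpow : ∀ v : OO k t, HN f N v → ∀ i : ℕ, HN f N (v ^ i) := by
    intro v hv i
    induction i with
    | zero => rwa [pow_zero]
    | succ i ih =>
      rw [pow_succ]
      exact hmul _ _ ih hv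
  have hNc : ∀ v u : OO k t, v - u ∈ M → (3 : ℤ) ^ (N + 1) ∣ Nm v - Nm u := by
    intro v u h
    have h1 := Nm_congr (Ideal.mem_span_singleton.1 (m1' h))
    refine Dvd.dvd.trans ?_ h1
    push_cast
    exact dvd_mul_left _ _
  obtain ⟨b, -, -, hb⟩ := cop2 a M hcn' (hP a ha)
  have hbN : HN f N b := hinv a b ha (m1 (m4 hb))
  -- norms of the elements of the first system
  have hnm : ∀ h ∈ T', ∀ i : ℕ, (3 : ℤ) ^ (N + 1) ∣ Nm (a ^ i * h) - (1 + i * (Nm a - 1)) := by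
    intro h hh i
    have h1 := TwR_nm hN ha.2 (hlow h (hT'.mem h hh)).2 i
    have h2 := (hT'.mem h hh).2
    have e : Nm (a ^ i * h) - (1 + i * (Nm a - 1)) =
        Nm (a ^ i * h) - (1 + i * (Nm a - 1) + (Nm h - 1)) + (Nm h - 1) := by ring
    rw [e]
    exact dvd_add h1 h2
  have hij : ∀ i j : ℕ, i < 3 → j < 3 → (3 : ℤ) ^ (N + 1) ∣ ((i : ℤ) - j) * (Nm a - 1) → i = j := by
    intro i j hi hj h
    obtain ⟨x, hx⟩ := ha.2
    have hx3 : ¬ (3 : ℤ) ∣ x := fun h3 => ha' ⟨ha.1, by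
      rw [hx, pow_succ]
      exact mul_dvd_mul_left _ h3⟩
    rw [hx, mul_left_comm, pow_succ] at h
    have h4 : (3 : ℤ) ∣ ((i : ℤ) - j) * x :=
      (mul_dvd_mul_iff_left (pow_ne_zero N (by norm_num : (3 : ℤ) ≠ 0))).1 h
    rcases (Int.prime_three).dvd_or_dvd h4 with h5 | h5
    · omega
    · exact absurd h5 hx3
  have huni : ∀ h ∈ T', ∀ h' ∈ T', ∀ i j : ℕ, i < 3 → j < 3 → a ^ i * h - a ^ j * h' ∈ M →
      h = h' ∧ i = j := by
    intro h hh h' hh' i j hi hj hd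
    have e1 : i = j := by
      refine hij i j hi hj ?_
      have h1 := hNc _ _ hd
      have h2 := hnm h hh i
      have h3 := hnm h' hh' j
      have e : ((i : ℤ) - j) * (Nm a - 1) = (Nm (a ^ i * h) - Nm (a ^ j * h')) -
          (Nm (a ^ i * h) - (1 + i * (Nm a - 1))) + (Nm (a ^ j * h') - (1 + j * (Nm a - 1))) := by
        ring
      rw [e]
      exact dvd_add (dvd_sub h1 h2) h3
    subst e1
    rw [← mul_sub] at hd
    exact ⟨hT'.uni h hh h' hh' (cop3 _ _ _ (hP _ (hpow a ha i)) hd), rfl⟩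
  -- the first system
  have hS1 : IsRp M (fun v => HN f N v)
      ((T' ×ˢ Finset.range 3).image (fun p : OO k t × ℕ => a ^ p.2 * p.1)) := by
    refine ⟨?_, ?_, ?_⟩
    · intro v hv
      obtain ⟨p, hp, rfl⟩ := Finset.mem_image.1 hv
      exact hmul _ _ (hpow a ha _) (hlow _ (hT'.mem _ (Finset.mem_product.1 hp).1))
    · intro v hv
      obtain ⟨i, hi, h1⟩ := TwR_sel hv.2 ha.2 (fun h => ha' ⟨ha.1, h⟩)
      have h2 := TwR_nm hN hbN.2 hv.2 i
      have h3 : (3 : ℤ) ^ (N + 1) ∣ (Nm a - 1) + (Nm b - 1) := by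
        have h4 := TwR_nm hN ha.2 hbN.2 1
        have h5 := hNc (a * b) 1 hb
        rw [pow_one, Nat.cast_one, one_mul] at h4
        rw [Nm_one] at h5
        have e : (Nm a - 1) + (Nm b - 1) = (Nm (a * b) - 1) -
            (Nm (a * b) - (1 + (Nm a - 1) + (Nm b - 1))) := by ring
        rw [e]
        exact dvd_sub h5 h4
      have h4 : HN f (N + 1) (b ^ i * v) := by
        refine ⟨(hmul _ _ (hpow b hbN i) hv).1, ?_⟩
        have e : Nm (b ^ i * v) - 1 = (Nm (b ^ i * v) - (1 + i * (Nm b - 1) + (Nm v - 1))) +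
            (Nm v - 1 - i * (Nm a - 1)) + i * ((Nm a - 1) + (Nm b - 1)) := by ring
        rw [e]
        exact dvd_add (dvd_add h2 h1) (Dvd.dvd.mul_left h3 _)
      obtain ⟨h, hh, h5⟩ := hT'.ex _ h4
      refine ⟨a ^ i * h, Finset.mem_image.2 ⟨(h, i),
        Finset.mem_product.2 ⟨hh, Finset.mem_range.2 hi⟩, rfl⟩, ?_⟩
      have h6 : (a * b) ^ i - 1 ∈ M := by
        have h7 : a * b - 1 ∣ (a * b) ^ i - 1 ^ i := sub_dvd_pow_sub_pow _ _ _
        rw [one_pow] at h7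
        exact M.mem_of_dvd h7 hb
      have e : v - a ^ i * h = a ^ i * (b ^ i * v - h) - v * ((a * b) ^ i - 1) := by
        rw [mul_pow]
        ring
      rw [e]
      exact M.sub_mem (M.mul_mem_left _ h5) (M.mul_mem_left _ h6)
    · intro v hv u hu hd
      obtain ⟨p, hp, rfl⟩ := Finset.mem_image.1 hv
      obtain ⟨q, hq, rfl⟩ := Finset.mem_image.1 hu
      obtain ⟨hp1, hp2⟩ := Finset.mem_product.1 hp
      obtain ⟨hq1, hq2⟩ := Finset.mem_product.1 hq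
      obtain ⟨e1, e2⟩ := huni _ hp1 _ hq1 _ _ (Finset.mem_range.1 hp2) (Finset.mem_range.1 hq2) hd
      rw [e1, e2]
  -- the second system
  have huni2 : ∀ h ∈ T, ∀ e ∈ E, ∀ h' ∈ T, ∀ e' ∈ E, (h + e) - (h' + e') ∈ M →
      h = h' ∧ e = e' := by
    intro h hh e he h' hh' e' he' hd
    have e1 : h = h' := by
      refine hT.uni h hh h' hh' ?_
      have e2 : h - h' = (h + e - (h' + e')) - e + e' := by ring
      rw [e2]
      exact (cnN k t f N).add_mem ((cnN k t f N).sub_mem (m4 hd) (hE.mem e he)) (hE.mem e' he')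
    subst e1
    rw [add_sub_add_left_eq_sub] at hd
    exact ⟨rfl, hE.uni e he e' he' hd⟩
  have hS2 : IsRp M (fun v => HN f N v)
      ((T ×ˢ E).image (fun p : OO k t × OO k t => p.1 + p.2)) := by
    refine ⟨?_, ?_, ?_⟩
    · intro v hv
      obtain ⟨p, hp, rfl⟩ := Finset.mem_image.1 hv
      obtain ⟨hp1, hp2⟩ := Finset.mem_product.1 hp
      refine hcg p.1 _ ?_ (hT.mem _ hp1)
      rw [add_sub_cancel_left]
      exact m1 (hE.mem _ hp2)
    · intro v hv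
      obtain ⟨h, hh, h1⟩ := hT.ex v hv
      obtain ⟨e, he, h2⟩ := hE.ex (v - h) h1
      refine ⟨h + e, Finset.mem_image.2 ⟨(h, e), Finset.mem_product.2 ⟨hh, he⟩, rfl⟩, ?_⟩
      rw [← sub_sub]
      exact h2
    · intro v hv u hu hd
      obtain ⟨p, hp, rfl⟩ := Finset.mem_image.1 hv
      obtain ⟨q, hq, rfl⟩ := Finset.mem_image.1 hu
      obtain ⟨hp1, hp2⟩ := Finset.mem_product.1 hp
      obtain ⟨hq1, hq2⟩ := Finset.mem_product.1 hq
      obtain ⟨e1, e2⟩ := huni2 _ hp1 _ hp2 _ hq1 _ hq2 hd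
      rw [e1, e2]
  have key := (hRp k t).1 M (fun v => HN f N v) _ _ A F hS1 hS2 (fun v u _ _ h => hF v u h)
  rw [Finset.prod_image, Finset.prod_image, Finset.prod_product, Finset.prod_product] at key
  · rw [← key, ← Finset.prod_mul_distrib, ← Finset.prod_mul_distrib]
    refine Finset.prod_congr rfl fun h _ => ?_
    rw [Finset.prod_range_succ, Finset.prod_range_succ, Finset.prod_range_one]
    simp only [pow_zero, pow_one, one_mul, pow_two, mul_assoc]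
  · intro p hp q hq h
    rw [Finset.mem_coe] at hp hq
    obtain ⟨hp1, hp2⟩ := Finset.mem_product.1 hp
    obtain ⟨hq1, hq2⟩ := Finset.mem_product.1 hq
    have h1 : p.1 + p.2 = q.1 + q.2 := h
    obtain ⟨e1, e2⟩ := huni2 _ hp1 _ hp2 _ hq1 _ hq2 (by
      rw [h1, sub_self]
      exact M.zero_mem)
    exact Prod.ext e1 e2
  · intro p hp q hq h
    rw [Finset.mem_coe] at hp hq
    obtain ⟨hp1, hp2⟩ := Finset.mem_product.1 hp
    obtain ⟨hq1, hq2⟩ := Finset.mem_product.1 hq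
    have h1 : a ^ p.2 * p.1 = a ^ q.2 * q.1 := h
    obtain ⟨e1, e2⟩ := huni _ hp1 _ hq1 _ _ (Finset.mem_range.1 hp2) (Finset.mem_range.1 hq2) (by
      rw [h1, sub_self]
      exact M.zero_mem)
    exact Prod.ext e1 e2

end Pool.Agent.DT.G
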