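import Pool.Agent.Lib.DT.G.Spec

/-!
# Theorem DT, part G, module Two: the norm relation of the elliptic units
-/

set_option autoImplicit false

open scoped Pointwise

noncomputable section

namespace Pool.Agent.DT.G

open Pool.Agent.MuZ Pool.Agent.FW Pool.Agent.DT
open Pool.Agent.DI (io ofC io_inj exists_io io_ofC ofC_io VP MP UP TP ex)

/-- There is a nonzero prime of `ZZ`. -/
private theorem Two_above : ∃ Q : Ideal ZZ, Npr Q := by
  have hmax : (Ideal.span {((3 : ℕ) : ℤ)}).IsMaximal :=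
    PrincipalIdealRing.isMaximal_of_irreducible
      (Nat.prime_iff_prime_int.1 Nat.prime_three).irreducible
  obtain ⟨Q, hQ, hQl⟩ := Ideal.exists_ideal_over_maximal_of_isIntegral (S := ZZ)
    (Ideal.span {((3 : ℕ) : ℤ)}) (by
      intro x hx
      rw [RingHom.mem_ker] at hx
      have h1 : ((x : ℤ) : ZZ) = 0 := hx
      have h2 : x = 0 := Int.cast_eq_zero.1 h1
      rw [h2]
      exact Ideal.zero_mem _)
  have hlQ : ((3 : ℕ) : ZZ) ∈ Q := by
    have h1 : ((3 : ℕ) : ℤ) ∈ Q.comap (algebraMap ℤ ZZ) := by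
      rw [hQl]
      exact Ideal.mem_span_singleton_self _
    rw [Ideal.mem_comap] at h1
    simpa using h1
  refine ⟨Q, ⟨hQ.isPrime, ?_⟩⟩
  rintro rfl
  have h1 : ((3 : ℕ) : ZZ) = 0 := hlQ
  exact (three_ne_zero : (3 : ℕ) ≠ 0) (Nat.cast_injective (R := ZZ) (by rw [h1, Nat.cast_zero]))

theorem tTwo : S_Two := by
  intro O6 O7 D8 cCop cMod cHNf cEx cT3 cTwR cZS cRUp cZn cNQ cUBa cUBb cCT k t _ f m N T hF hN hT
    b hb hPb T' hT' s hs a ha hHN hnHN
  obtain ⟨⟨-, M0, -, C0, -⟩, ⟨-, -, -, hC1, -, -, -, -, -, -, hM1⟩, hPr, hPr', -⟩ :=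
    cMod k t f N hF.toFok hN
  obtain ⟨⟨-, M0', -, C0', -⟩, -, hPr1, hPr1', -⟩ := cMod k t f (N + 1) hF.toFok (by omega)
  obtain ⟨-, -, -, -, q5, -, -, q8, -⟩ := cHNf k t f N hF.toFok hN
  -- the element v'
  obtain ⟨v, hv0, hvH, hvR⟩ := hHN
  have hPa : PrI a (sN k t (3 * f)) := hPr1' _ ha.cop
  have hPv : PrI (sp v) (sN k t (3 * f)) := (q8 v hvH.1).2.2.2.2.1
  obtain ⟨β, hβ0, hβ1, -, hβR⟩ := cRUp k t (sN k t (f * 3 ^ N)) (sN k t (f * 3 ^ (N + 1))) (sp v) a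
    M0' hM1 (by rwa [Ne, Ideal.span_singleton_eq_bot]) ha.ne (hPr1 _ hPv).2.2.1 (hPr1 _ hPa).2.2.1 hvR
  rw [Ideal.span_singleton_mul_span_singleton] at hβR
  set v' : OO k t := β * v with hv'
  have hv'0 : v' ≠ 0 := mul_ne_zero hβ0 hv0
  have hv'H : HN f N v' := by
    refine q5 v v' ?_ hvH
    have e : v' - v = (β - 1) * v := by
      rw [hv']
      ring
    rw [e]
    exact Ideal.mul_mem_right _ _ hβ1
  have hv'n : ¬ HN f (N + 1) v' := fun h => hnHN ⟨v', hv'0, h, hβR⟩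
  -- the function G
  have hm6 : PrI m (sN k t 6) := (hPr _ hF.prm).2.2.2.2.2.2.2
  obtain ⟨-, d2, -, -⟩ := D8 k t m b hF.ne hb hm6
  obtain ⟨-, -, z3, -, z5, -⟩ := cZn k t f (N + 1) hF.toFok
  have z4 := (cZn k t f N hF.toFok).2.2.2.1
  let G : OO k t → Om := fun x => Theta m b (toC x * zN k t f (N + 1))
  have hGper : ∀ x y : OO k t, x - y ∈ cnN k t f (N + 1) → G x = G y := by
    intro x y hxy
    obtain ⟨l, hl, h1⟩ := z5 b x y hxy
    change Theta m b _ = Theta m b _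
    rw [h1]
    exact (d2 _).2 l hl
  -- the left side
  have hab : a * b ≠ ⊥ := mul_ne_zero ha.ne hb
  have hPab : PrI (a * b) (sN k t (3 * f)) := ((O6 k t).1 a b _).2 ⟨hPa, hPb⟩
  have haab : a * (a * b) ≠ ⊥ := mul_ne_zero ha.ne hab
  have hPaab : PrI (a * (a * b)) (sN k t (3 * f)) := ((O6 k t).1 a (a * b) _).2 ⟨hPa, hPab⟩
  obtain ⟨r1, -, -, r4, -⟩ := O7 k t (sN k t (f * 3 ^ (N + 1))) M0'
  have hR1 : Ray (sN k t (f * 3 ^ (N + 1))) (a * b) (sp v' * b) := r4 _ _ _ _ hβR (r1 b)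
  have hR2 : Ray (sN k t (f * 3 ^ (N + 1))) (a * (a * b)) (sp (v' * v') * b) := by
    have h1 := r4 _ _ _ _ hβR hR1
    rwa [← mul_assoc (sp v'), Ideal.span_singleton_mul_span_singleton] at h1
  have hN1 : 1 ≤ N + 1 := by omega
  have hu0 : uN f (N + 1) m T' b = ∏ h ∈ T', G h := rfl
  have hu1 : s (uN f (N + 1) m T' b) = ∏ h ∈ T', G (v' * h) := by
    rw [(cUBb k t f m (N + 1) T' hF hN1 hT' b hb hPb).2 s hs a ha,
      ← (cUBa k t f m (N + 1) T' hF hN1 hT' (a * b) hab hPab).2.2.1 (sp v' * b) hR1,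
      (cUBa k t f m (N + 1) T' hF hN1 hT' b hb hPb).2.2.2.1 v' hv'0]
  have hu2 : s (s (uN f (N + 1) m T' b)) = ∏ h ∈ T', G (v' * (v' * h)) := by
    rw [(cUBb k t f m (N + 1) T' hF hN1 hT' b hb hPb).2 s hs a ha,
      (cUBb k t f m (N + 1) T' hF hN1 hT' (a * b) hab hPab).2 s hs a ha,
      ← (cUBa k t f m (N + 1) T' hF hN1 hT' (a * (a * b)) haab hPaab).2.2.1 (sp (v' * v') * b) hR2,
      (cUBa k t f m (N + 1) T' hF hN1 hT' b hb hPb).2.2.2.1 (v' * v') (mul_ne_zero hv'0 hv'0)]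
    refine Finset.prod_congr rfl fun h _ => ?_
    change Theta m b _ = Theta m b _
    rw [mul_assoc]
  obtain ⟨E, hE⟩ := cEx k t (cnN k t f (N + 1)) (fun x => x ∈ cnN k t f N) C0' (by
    intro x y hxy hx
    have h1 : y = x - (x - y) := by ring
    rw [h1]
    exact Ideal.sub_mem _ hx (hC1 hxy))
  have hleft := cTwR k t f N T T' E v' hF.toFok hN hT hT' hE hv'H hv'n Om G hGper
  -- the inner products
  have hPb3 : PrI b (sN k t 3) := (hPr _ hPb).2.2.2.2.1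
  have hPm3 : PrI m (sN k t 3) := (hPr _ hF.prm).2.2.2.2.1
  obtain ⟨C, hCM, hC0, hC⟩ := cCT k t f m hF b hb
  obtain ⟨hinj, hsys⟩ := cZS k t f N 1 E b hF.toFok hb hPb3 hE 0 (lam_zero _)
  classical
  have hsys1 := hsys (E.image fun e => 0 + toC e * zN k t f (N + 1)) (by rw [Finset.coe_image])
  rw [pow_one] at hsys1
  obtain ⟨Q, hQ⟩ := Two_above
  have hin : ∀ h ∈ T, ∏ e ∈ E, G (h + e) = C * Theta m b (toC h * zN k t f N) := by
    intro h hh
    have hPh : PrI (sp h) (sN k t 3) := (hPr _ (q8 h (hT.mem h hh).1).2.2.2.2.1).2.2.2.2.1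
    have e3 : 3 * (toC h * zN k t f (N + 1)) = toC h * zN k t f N := by
      rw [← z4]
      ring
    have hnl : toC h * zN k t f (N + 1) ∉ Lam (sN k t 3 * m * b) := by
      intro hL
      rw [mul_assoc, lam_sp, toC_nat] at hL
      have h1 : toC h * zN k t f N ∈ Lam (m * b) := by
        rw [← e3]
        exact_mod_cast hL
      refine cNQ k t f N m b hF.toFok hN hF.ne hb hPm3 hPb3 Q hQ h hPh _ (lam_neg h1) ?_
      intro α β' _ _
      rw [add_neg_cancel, mul_zero]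
      exact lam_zero b
    have h1 := hC _ hsys1 (toC h * zN k t f (N + 1)) (z3 h) hnl
    rw [Finset.prod_image hinj, e3] at h1
    rw [← h1]
    refine Finset.prod_congr rfl fun e _ => ?_
    change Theta m b _ = Theta m b _
    apply congrArg
    rw [toC_add]
    ring
  obtain ⟨j, hj⟩ := cT3 k t f N T hF.toFok hN hT
  refine ⟨C ^ j, pow_mem hCM j, pow_ne_zero j hC0, ?_⟩
  rw [hu2, hu1, hu0, hleft, Finset.prod_congr rfl hin, Finset.prod_mul_distrib, Finset.prod_const,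
    hj, ← pow_mul, mul_comm j 3]
  rfl

end Pool.Agent.DT.G
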