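import Pool.Agent.Lib.DT.G.Spec

/-!
# Theorem DT, part G, module UBa: elliptic units: units, class function
-/

set_option autoImplicit false

open scoped Pointwise

noncomputable section

namespace Pool.Agent.DT.G

open Pool.Agent.MuZ Pool.Agent.FW Pool.Agent.DT
open Pool.Agent.DI (io ofC io_inj exists_io io_ofC ofC_io VP MP UP TP ex)

variable {k t : ℕ}

/-- There is a nonzero prime ideal of `ZZ`. -/
private theorem UBa_Q : ∃ Q : Ideal ZZ, Npr Q := by
  have hmax : (Ideal.span {(2 : ℤ)}).IsMaximal :=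
    PrincipalIdealRing.isMaximal_of_irreducible Int.prime_two.irreducible
  obtain ⟨Q, hQ, hQl⟩ := Ideal.exists_ideal_over_maximal_of_isIntegral (S := ZZ)
    (Ideal.span {(2 : ℤ)}) (by
      intro x hx
      rw [RingHom.mem_ker] at hx
      have h1 : ((x : ℤ) : ZZ) = 0 := hx
      have h2 : x = 0 := Int.cast_eq_zero.1 h1
      rw [h2]
      exact Ideal.zero_mem _)
  have hlQ : (2 : ZZ) ∈ Q := by
    have h1 : (2 : ℤ) ∈ Q.comap (algebraMap ℤ ZZ) := by
      rw [hQl]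
      exact Ideal.mem_span_singleton_self _
    rw [Ideal.mem_comap] at h1
    simpa using h1
  refine ⟨Q, ⟨hQ.isPrime, ?_⟩⟩
  rintro rfl
  have h1 : (2 : ZZ) = 0 := hlQ
  exact two_ne_zero h1

/-- Elliptic units: units, class function. -/
theorem tUBa : S_UBa := by
  intro h6 h7 hD5 hD8 hC hMod hH hRp hZn hNQ k t _ f m N T hy hN hT b hb hbF
  have hf : Fok f := hy.toFok
  obtain ⟨⟨_, mB, _, mC, _⟩, ⟨i1, i2, _, _, _, _, i7, _⟩, mP, _⟩ := hMod k t f N hf hN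
  obtain ⟨c1, c2, c3, c4, c5, _⟩ := hC k t
  obtain ⟨⟨_, n1⟩, _, n3, _, n5, _, n7, n8, _⟩ := hH k t f N hf hN
  obtain ⟨z1, _, z3, _, z5, _⟩ := hZn k t f N hf
  obtain ⟨o1, o2, _⟩ := h6 k t
  obtain ⟨r1, r2, _, r4, _, r6, _⟩ := h7 k t (sN k t (f * 3 ^ N)) mB
  obtain ⟨rp1, rp2⟩ := hRp k t
  have hm6 : PrI m (sN k t 6) := (mP m hy.prm).2.2.2.2.2.2.2
  have hm3 : PrI m (sN k t 3) := (mP m hy.prm).2.2.2.2.1
  have hD := fun (b : Ideal (OO k t)) (hb : b ≠ ⊥) => hD8 k t m b hy.ne hb hm6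
  have hh3 : ∀ v : OO k t, HN f N v → PrI (sp v) (sN k t 3) := fun v hv =>
    (mP _ (n8 v hv.1).2.2.2.2.1).2.2.2.2.1
  -- a real inverse modulo `cnN`
  have hinv : ∀ v : OO k t, HN f N v →
      ∃ u : OO k t, u ≠ 0 ∧ HN f N u ∧ v * u - 1 ∈ cnN k t f N := by
    intro v hv
    obtain ⟨u, hu0, _, huv⟩ := c2 v (cnN k t f N) mC (mP _ (n8 v hv.1).2.2.2.2.1).1
    exact ⟨u, hu0, n7 v u hv (i1 huv), huv⟩
  -- periodicity
  have hper : ∀ (b : Ideal (OO k t)), b ≠ ⊥ → ∀ x y : OO k t, x - y ∈ cnN k t f N →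
      Theta m b (toC x * zN k t f N) = Theta m b (toC y * zN k t f N) := by
    intro b hb x y hxy
    obtain ⟨l, hl, e⟩ := z5 b x y hxy
    rw [e]
    exact ((hD b hb).2.1 _).2 l hl
  -- multiplication by `v`
  have hmul : ∀ (b : Ideal (OO k t)), b ≠ ⊥ → ∀ v : OO k t, v ≠ 0 →
      uN f N m T (sp v * b) = ∏ h ∈ T, Theta m b (toC (v * h) * zN k t f N) := by
    intro b hb v hv
    unfold uN
    refine Finset.prod_congr rfl fun h _ => ?_
    rw [(hD b hb).2.2.1 v _ hv, toC_mul, mul_assoc]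
  -- invariance under multiplication by an element of `HN`
  have hrp : ∀ (b : Ideal (OO k t)), b ≠ ⊥ → ∀ v : OO k t, HN f N v →
      ∏ h ∈ T, Theta m b (toC (v * h) * zN k t f N) = uN f N m T b := by
    intro b hb v hv
    obtain ⟨u, _, hu, huv⟩ := hinv v hv
    exact rp2 (cnN k t f N) (HN f N) T Om (fun x => Theta m b (toC x * zN k t f N)) v u
      (isRep_iff.1 hT) huv (fun w hw => n3 _ _ hv hw) (fun w hw => n3 _ _ hu hw)
      (fun x y _ _ h => hper b hb x y h)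
  -- class function
  have hclass : ∀ b b' : Ideal (OO k t), b ≠ ⊥ → PrI b (sN k t (3 * f)) →
      Ray (sN k t (f * 3 ^ N)) b b' → uN f N m T b' = uN f N m T b := by
    intro b b' hb hbF hR
    have hb' : b' ≠ ⊥ := (r6 b b' hR).1.1 hb
    obtain ⟨α, α', hα0, hα'0, hαn, hα'n, hαα, e⟩ := hR
    have hαc : PrI (sp α) (cnN k t f N) := by
      have := (hMod k t f N hf hN).2.2.2.1 (sp α) hαn
      exact (mP _ this).1
    obtain ⟨γ, hγ0, _, hγ⟩ := c2 α (cnN k t f N) mC hαc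
    have hα'γ : α' * γ - 1 ∈ sN k t (f * 3 ^ N) := by
      have e1 : α' * γ - 1 = (α * γ - 1) - γ * (α - α') := by ring
      rw [e1]
      exact Submodule.sub_mem _ (i1 hγ) (Ideal.mul_mem_left _ _ hαα)
    have hHN : HN f N (α' * γ) := n5 1 _ hα'γ n1
    have hsp : ∀ x : OO k t, sp (x * γ) = sp γ * sp x := fun x => by
      rw [mul_comm (sp γ)]
      exact (Ideal.span_singleton_mul_span_singleton x γ).symm
    have h1 : sp (α * γ) * b = sp (α' * γ) * b' := by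
      rw [hsp, hsp, mul_assoc, mul_assoc, e]
    have h2 := hmul b hb (α * γ) (mul_ne_zero hα0 hγ0)
    have h3 := hmul b' hb' (α' * γ) (mul_ne_zero hα'0 hγ0)
    rw [← hrp b' hb' _ hHN, ← h3, ← h1, h2]
    unfold uN
    refine Finset.prod_congr rfl fun h _ => hper b hb _ _ ?_
    have e2 : α * γ * h - h = h * (α * γ - 1) := by ring
    rw [e2]
    exact Ideal.mul_mem_left _ _ hγ
  have hb3 : PrI b (sN k t 3) := (mP b hbF).2.2.2.2.1
  refine ⟨?_, ?_, fun b' hR => hclass b b' hb hbF hR, hmul b hb, ?_, ?_⟩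
  · obtain ⟨Q, hQ⟩ := UBa_Q
    unfold uN
    apply Finset.prod_ne_zero_iff.2
    intro h hh
    refine (hD b hb).2.2.2 _ (z3 h) fun hmem => ?_
    refine hNQ k t f N m b hf hN hy.ne hb hm3 hb3 Q hQ h (hh3 h (hT.mem h hh))
      (-(toC h * zN k t f N)) (lam_neg hmem) ?_
    rw [add_neg_cancel]
    intro α β _ _
    rw [mul_zero]
    intro v _
    exact ⟨0, by rw [mul_zero, toC_zero]⟩
  · intro Q hQ
    have := hQ.1
    unfold uN
    refine DI.UP.prod _ _ fun h hh => ?_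
    exact hD5 k t m b hy.ne hb hm6 Q hQ _ (z3 h)
      (fun u hu => hNQ k t f N m b hf hN hy.ne hb hm3 hb3 Q hQ h (hh3 h (hT.mem h hh)) u hu)
  · rintro a ⟨v, hv0, hv, hR⟩
    have hvb : sp v * b ≠ ⊥ := mul_ne_zero (fun h => hv0 (Ideal.span_singleton_eq_bot.1 h)) hb
    have hvF : PrI (sp v * b) (sN k t (3 * f)) := (o1 _ _ _).2 ⟨(n8 v hv.1).2.2.2.2.1, hbF⟩
    rw [hclass (sp v * b) (a * b) hvb hvF (r4 _ _ _ _ (r2 _ _ hR) (r1 b)), hmul b hb v hv0]
    exact hrp b hb v hv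
  · intro T' hT'
    exact rp1 (cnN k t f N) (HN f N) T' T Om (fun x => Theta m b (toC x * zN k t f N))
      (isRep_iff.1 hT') (isRep_iff.1 hT) (fun x y _ _ h => hper b hb x y h)

end Pool.Agent.DT.G
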