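import Pool.Agent.Lib.DT.G.Spec

/-!
# Theorem DT, part G, module UBb: elliptic units, Galois action
-/

set_option autoImplicit false

open scoped Pointwise

noncomputable section

namespace Pool.Agent.DT.G

open Pool.Agent.MuZ Pool.Agent.FW Pool.Agent.DT
open Pool.Agent.DI (io ofC io_inj exists_io io_ofC ofC_io VP MP UP TP ex)

theorem tUBb : S_UBb := by
  intro hO6 hO7 hE1 hE10 hMod hZn hA k t _ f m N T hH hN hT b hb hPb
  obtain ⟨⟨-, M0, -, C0, -⟩, ⟨hCM, -⟩, hPr, hPr', -⟩ := hMod k t f N hH.toFok hN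
  have key : ∀ τ ∈ GK k t, ∀ a : Ideal (OO k t), Psi τ (sN k t (f * 3 ^ N)) a →
      τ (uN f N m T b) = uN f N m T (a * b) := by
    intro τ hτ a ha
    have hn0 : cnN k t f N * m ≠ ⊥ := mul_ne_zero C0 hH.ne
    have hn1 : cnN k t f N * m ≤ cnN k t f N := Ideal.mul_le_left
    have hn2 : cnN k t f N * m ≤ m := Ideal.mul_le_right
    obtain ⟨a', ha', -⟩ := (hE1 k t _ hn0).1 τ hτ 1 one_pos
    have ha2 : Psi τ (sN k t (f * 3 ^ N)) a' :=
      (hE1 k t _ hn0).2.2.2.2 τ _ a' ha' (hn1.trans hCM)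
    have hray : Ray (sN k t (f * 3 ^ N)) a a' := (hE1 k t _ M0).2.1 τ a a' ha ha2
    have h1 : τ (uN f N m T b) = uN f N m T (a' * b) := by
      unfold uN
      rw [map_prod]
      refine Finset.prod_congr rfl fun h _ => ?_
      exact (hE10 k t τ _ a' hn0 hτ ha').2.2 m b hH.ne hb (hPr _ hH.prm).2.2.2.2.2.2.2 hn2 _
        ((hZn k t f N hH.toFok).2.2.2.2.2.1 b _ h hn1)
    have h2 : uN f N m T (a' * b) = uN f N m T (a * b) := by
      have hab : a * b ≠ ⊥ := mul_ne_zero ha.ne hb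
      have hPab : PrI (a * b) (sN k t (3 * f)) := ((hO6 k t).1 a b _).2 ⟨hPr' _ ha.cop, hPb⟩
      refine (hA k t f m N T hH hN hT (a * b) hab hPab).2.2.1 (a' * b) ?_
      exact (hO7 k t _ M0).2.2.2.1 a a' b b hray ((hO7 k t _ M0).1 b)
    rw [h1, h2]
  refine ⟨?_, key⟩
  intro τ hτ a ha hHa
  rw [key τ hτ a ha]
  exact (hA k t f m N T hH hN hT b hb hPb).2.2.2.2.1 a hHa

end Pool.Agent.DT.G
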