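import Pool.Agent.Lib.DT.G.Spec

/-!
# Theorem DT, module V0: an element `= 1` modulo `3 f` with given norm modulo `3 ^ N`
-/

set_option autoImplicit false

open scoped Pointwise

noncomputable section

namespace Pool.Agent.DT.G

open Pool.Agent.MuZ Pool.Agent.FW Pool.Agent.DT

private lemma V0_surj (k t f N : ℕ) (a : ℤ) (hf : IsCoprime (3 : ℤ) (t * f)) :
    ∃ y : ℤ, (3 : ℤ) ^ N ∣ (t * f * y + 9 * k * f ^ 2 * y ^ 2) - a := by
  let F : ZMod (3 ^ N) → ZMod (3 ^ N) := fun y =>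
    (t : ZMod (3 ^ N)) * f * y + 9 * k * f ^ 2 * y ^ 2
  have hF : ∀ y : ℤ, F (y : ZMod (3 ^ N)) =
      ((t * f * y + 9 * k * f ^ 2 * y ^ 2 : ℤ) : ZMod (3 ^ N)) := by
    intro y
    push_cast
    rfl
  have hne : NeZero (3 ^ N) := ⟨by positivity⟩
  have hinj : Function.Injective F := by
    intro y y' h
    obtain ⟨y, rfl⟩ := ZMod.intCast_surjective y
    obtain ⟨y', rfl⟩ := ZMod.intCast_surjective y'
    rw [hF, hF, ZMod.intCast_eq_intCast_iff_dvd_sub] at h
    rw [ZMod.intCast_eq_intCast_iff_dvd_sub]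
    push_cast at h ⊢
    have e : (t * f * y' + 9 * k * f ^ 2 * y' ^ 2 - (t * f * y + 9 * k * f ^ 2 * y ^ 2) : ℤ) =
        (y' - y) * (t * f + 3 * (3 * k * f ^ 2 * (y + y'))) := by
      ring
    rw [e] at h
    have hc : IsCoprime ((3 : ℤ) ^ N) (t * f + 3 * (3 * k * f ^ 2 * (y + y'))) := by
      apply IsCoprime.pow_left
      obtain ⟨c, d, hcd⟩ := hf
      exact ⟨c - d * (3 * k * f ^ 2 * (y + y')), d, by linear_combination hcd⟩
    exact hc.dvd_of_dvd_mul_right h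
  obtain ⟨y, hy⟩ := (Finite.injective_iff_surjective.1 hinj) (a : ZMod (3 ^ N))
  obtain ⟨y, rfl⟩ := ZMod.intCast_surjective y
  rw [hF, eq_comm, ZMod.intCast_eq_intCast_iff_dvd_sub] at hy
  exact ⟨y, by exact_mod_cast hy⟩

theorem tV0 : S_V0 := by
  intro k t hT f N a hf ha
  have hcop : IsCoprime (3 : ℤ) (t * f) := by
    have h1 : (t * f).Coprime 3 := by
      refine Nat.Coprime.mul_left ?_ hf
      rcases hT.out with ⟨h, -⟩ | ⟨h, -⟩ <;> rw [h] <;> decide
    have h2 := (Nat.isCoprime_iff_coprime.2 h1).symm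
    exact_mod_cast h2
  obtain ⟨b, hb⟩ := ha
  obtain ⟨y, hy⟩ := V0_surj k t f N b hcop
  have hN : Nm (⟨1, 3 * f * y⟩ : OO k t) = 1 + 3 * (t * f * y + 9 * k * f ^ 2 * y ^ 2) := by
    unfold Nm
    ring
  refine ⟨⟨1, 3 * f * y⟩, ?_, ?_, ?_⟩
  · intro h
    have := congrArg QuadraticAlgebra.re h
    simp at this
  · rw [Ideal.mem_span_singleton, nat_dvd_iff]
    constructor
    · rw [QuadraticAlgebra.re_sub, re_one]
      exact ⟨0, by ring⟩
    · rw [QuadraticAlgebra.im_sub, im_one]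
      exact ⟨y, by push_cast; ring⟩
  · rw [hN]
    have e : 1 + 3 * (t * f * y + 9 * k * f ^ 2 * y ^ 2) - a =
        3 * ((t * f * y + 9 * k * f ^ 2 * y ^ 2) - b) := by
      linear_combination -hb
    rw [e]
    exact hy.mul_left 3

end Pool.Agent.DT.G
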