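import Pool.Agent.Lib.DT.G.Spec

/-!
# Theorem DT, part G, module ZS: systems of torsion points from representatives
-/

set_option autoImplicit false

open scoped Pointwise

noncomputable section

namespace Pool.Agent.DT.G

open Pool.Agent.MuZ Pool.Agent.FW Pool.Agent.DT
open Pool.Agent.DI (io ofC io_inj exists_io io_ofC ofC_io VP MP UP TP ex)

variable {k t : ℕ}

private theorem ZS_lamO [SqT k t] (b : Ideal (OO k t)) (x : OO k t) : toC x ∈ Lam b :=
  lam_anti le_top (lam_top.2 ⟨x, rfl⟩)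

private theorem ZS_three : (3 : ℂ) ≠ 0 := three_ne_zero

private theorem ZS_mem_cnN {f N : ℕ} {e : OO k t} :
    e ∈ cnN k t f N ↔ ∃ y ∈ ppb k t, ((f * 3 ^ N : ℕ) : OO k t) * y = e :=
  Ideal.mem_span_singleton_mul

/-- The points `toC e * z`, `e ∈ cnN N`. -/
private theorem ZS_pt [SqT k t] (h4 : S_O4) {f : ℕ} (hf : 0 < f) (hc : c0 k t f ∈ pp k t)
    (N n : ℕ) {y : OO k t} (hy : y ∈ ppb k t) :
    ∃ x : OO k t, y * c0 k t f = 3 * x ∧
      toC (((f * 3 ^ N : ℕ) : OO k t) * y) * zN k t f (N + n) = toC x / 3 ^ n := by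
  have h1 : c0 k t f * y ∈ pp k t * ppb k t := Ideal.mul_mem_mul hc hy
  rw [(h4 k t).1] at h1
  obtain ⟨x, hx⟩ := Ideal.mem_span_singleton'.1 h1
  have hx' : y * c0 k t f = 3 * x := by
    have e : ((3 : ℕ) : OO k t) = 3 := Nat.cast_ofNat
    rw [e] at hx
    rw [mul_comm y, ← hx, mul_comm]
  refine ⟨x, hx', ?_⟩
  have e1 : toC y * toC (c0 k t f) = 3 * toC x := by
    rw [← toC_mul, hx', toC_mul, toC_three]
  have hf' : (f : ℂ) ≠ 0 := by exact_mod_cast hf.ne'
  have h3 : (3 : ℂ) ≠ 0 := ZS_three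
  rw [zN, toC_mul, toC_nat]
  push_cast
  rw [pow_add, pow_add, pow_one]
  field_simp
  linear_combination e1

/-- Elements congruent to `1` in `b`. -/
private theorem ZS_one [SqT k t] (h6 : S_O6) {b : Ideal (OO k t)} (hb : b ≠ ⊥)
    (hb3 : PrI b (sN k t 3)) (n : ℕ) :
    ∃ x0 ∈ b, ∃ u : OO k t, x0 = 1 + 3 ^ (n + 1) * u := by
  obtain ⟨-, -, -, -, h5, -, -, h8⟩ := h6 k t
  have h1 : PrI b (sN k t (3 ^ (n + 1))) := (h5 _ b).2 (((h5 3 b).1 hb3).pow_right _)
  obtain ⟨v, hv, -, hv1⟩ := h8 b _ hb h1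
  obtain ⟨u, hu⟩ := Ideal.mem_span_singleton'.1 hv1
  refine ⟨v, hv, u, ?_⟩
  push_cast at hu
  linear_combination -hu

private theorem ZS_bez {q : ℤ} (hq : ¬ (3 : ℤ) ∣ q) (n : ℕ) :
    ∃ a a' : ℤ, a * q + a' * 3 ^ n = 1 := by
  have h1 : IsCoprime q 3 := ((Int.prime_three.coprime_iff_not_dvd).2 hq).symm
  exact h1.pow_right

theorem tZS : S_ZS := by
  intro h4 h6 _ _ hC0 k t _ f N n E b hF hb hb3 hE z0 hz0
  have hf : 0 < f := hF.pos
  obtain ⟨-, hcpp, -, hc', -, -, -, hq3, hcc, -⟩ := hC0 k t f hF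
  obtain ⟨x0, hx0, u0, hu0⟩ := ZS_one h6 hb hb3 n
  have h3 : (3 : ℂ) ≠ 0 := ZS_three
  have h3n : (3 : ℂ) ^ n ≠ 0 := pow_ne_zero _ h3
  have hu0C : toC x0 = 1 + 3 ^ (n + 1) * toC u0 := by
    rw [hu0, toC_add, toC_one, toC_mul, toC_pow, toC_three]
  -- uniqueness
  have huni : ∀ e ∈ E, ∀ e' ∈ E, toC e * zN k t f (N + n) - toC e' * zN k t f (N + n) ∈ Lam b →
      e = e' := by
    intro e he e' he' h
    refine hE.uni e he e' he' ?_
    have hd : e - e' ∈ cnN k t f N := sub_mem (hE.mem e he) (hE.mem e' he')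
    obtain ⟨y, hy, hye⟩ := ZS_mem_cnN.1 hd
    obtain ⟨x, hx, hxz⟩ := ZS_pt h4 hf hcpp N n hy
    have h1 : toC x / 3 ^ n ∈ Lam b := by
      rw [← hxz, hye, toC_sub, sub_mul]
      exact h
    obtain ⟨o1, ho1⟩ := h1 x0 hx0
    have h2 : toC x = toC (3 ^ n * (o1 - 3 * u0 * x)) := by
      rw [toC_mul, toC_sub, toC_mul, toC_mul, toC_pow, toC_three, ← ho1, hu0C]
      rw [pow_succ]
      field_simp
      ring
    have h2' := toC_inj h2
    obtain ⟨o, ho⟩ : ∃ o, o = o1 - 3 * u0 * x := ⟨_, rfl⟩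
    rw [← ho] at h2'
    have h30 : (3 : OO k t) ≠ 0 := by
      intro h30
      have := congrArg toC h30
      rw [toC_three, toC_zero] at this
      exact h3 this
    have h5 : ((q0 k t f : ℤ) : OO k t) * y = 3 ^ n * (o * cjO (c0 k t f)) := by
      apply mul_left_cancel₀ h30
      have e1 : 3 * (((q0 k t f : ℤ) : OO k t) * y) = y * (c0 k t f * cjO (c0 k t f)) := by
        rw [hcc]
        push_cast
        ring
      rw [e1, ← mul_assoc, hx, h2']
      ring
    obtain ⟨a, a', haa⟩ := ZS_bez hq3 n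
    have haO : (a : OO k t) * ((q0 k t f : ℤ) : OO k t) + (a' : OO k t) * 3 ^ n = 1 := by
      have := congrArg (fun z : ℤ => (z : OO k t)) haa
      push_cast at this
      exact this
    refine ZS_mem_cnN.2 ⟨(a : OO k t) * (o * cjO (c0 k t f)) + (a' : OO k t) * y, ?_, ?_⟩
    · exact add_mem (Ideal.mul_mem_left _ _ (Ideal.mul_mem_left _ _ hc')) (Ideal.mul_mem_left _ _ hy)
    · rw [← hye]
      push_cast
      rw [pow_add]
      linear_combination (-(f : OO k t) * 3 ^ N * (a : OO k t)) * h5 +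
        ((f : OO k t) * 3 ^ N * y) * haO
  refine ⟨?_, ?_⟩
  · intro e he e' he' h
    refine huni e he e' he' ?_
    have h1 : z0 + toC e * zN k t f (N + n) = z0 + toC e' * zN k t f (N + n) := h
    have h2 : toC e * zN k t f (N + n) = toC e' * zN k t f (N + n) := add_left_cancel h1
    rw [h2, sub_self]
    exact lam_zero b
  · intro U hU
    have hU' : ∀ u : ℂ, u ∈ U ↔ ∃ e ∈ E, z0 + toC e * zN k t f (N + n) = u := by
      intro u
      rw [← Finset.mem_coe, hU]
      exact Iff.rfl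
    refine ⟨?_, ?_, ?_⟩
    · intro u hu
      obtain ⟨e, he, rfl⟩ := (hU' u).1 hu
      refine lam_add hz0 ?_
      obtain ⟨y, hy, hye⟩ := ZS_mem_cnN.1 (hE.mem e he)
      obtain ⟨x, hx, hxz⟩ := ZS_pt h4 hf hcpp N n hy
      rw [← hye, hxz]
      refine lam_sp.2 ?_
      have e1 : toC (((3 ^ n : ℕ) : OO k t)) * (toC x / 3 ^ n) = toC x := by
        rw [toC_nat]
        push_cast
        field_simp
      rw [e1]
      exact ZS_lamO b x
    · intro z' hz'
      have hl := lam_sp.1 (lam_sub hz' hz0)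
      obtain ⟨o, ho⟩ := hl x0 hx0
      rw [toC_nat] at hl ho
      push_cast at hl ho
      obtain ⟨q', r', hqr⟩ := ZS_bez hq3 n
      have hy : cjO (c0 k t f) * ((q' : OO k t) * o) ∈ ppb k t := Ideal.mul_mem_right _ _ hc'
      obtain ⟨x, hx, hxz⟩ := ZS_pt h4 hf hcpp N n hy
      have he' : ((f * 3 ^ N : ℕ) : OO k t) * (cjO (c0 k t f) * ((q' : OO k t) * o)) ∈
          cnN k t f N := ZS_mem_cnN.2 ⟨_, hy, rfl⟩
      obtain ⟨e, he, hee⟩ := hE.ex _ he'
      obtain ⟨y2, hy2, hye2⟩ := ZS_mem_cnN.1 hee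
      obtain ⟨x2, -, hxz2⟩ := ZS_pt h4 hf hcpp (N + n) 0 hy2
      rw [hye2, pow_zero, div_one, add_zero] at hxz2
      refine ⟨z0 + toC e * zN k t f (N + n), (hU' _).2 ⟨e, he, rfl⟩, ?_⟩
      -- the element x
      have h30 : (3 : OO k t) ≠ 0 := by
        intro h30
        have := congrArg toC h30
        rw [toC_three, toC_zero] at this
        exact h3 this
      have hqO : (q' : OO k t) * ((q0 k t f : ℤ) : OO k t) + (r' : OO k t) * 3 ^ n = 1 := by
        have := congrArg (fun z : ℤ => (z : OO k t)) hqr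
        push_cast at this
        exact this
      have hx' : x = o - 3 ^ n * ((r' : OO k t) * o) := by
        apply mul_left_cancel₀ h30
        have hcc' := hcc
        push_cast at hcc'
        linear_combination -hx + ((q' : OO k t) * o) * hcc' + 3 * o * hqO
      have hxC : toC x = toC o - 3 ^ n * toC ((r' : OO k t) * o) := by
        rw [hx', toC_sub, toC_mul (3 ^ n), toC_pow, toC_three]
      rw [toC_sub, sub_mul, hxz] at hxz2
      have e1 : z' - (z0 + toC e * zN k t f (N + n)) =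
          -(3 * (toC u0 * (3 ^ n * (z' - z0)))) + (toC ((r' : OO k t) * o) + toC x2) := by
        rw [hu0C] at ho
        rw [hxC] at hxz2
        have e2 : toC o / 3 ^ n = (1 + 3 ^ (n + 1) * toC u0) * (z' - z0) := by
          rw [← ho]
          field_simp
        have e3 : (toC o - 3 ^ n * toC ((r' : OO k t) * o)) / 3 ^ n =
            toC o / 3 ^ n - toC ((r' : OO k t) * o) := by
          field_simp
        rw [e3, e2] at hxz2
        rw [pow_succ] at hxz2
        linear_combination hxz2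
      rw [e1]
      refine lam_add (lam_neg ?_) (lam_add (ZS_lamO b _) (ZS_lamO b _))
      have h5 := lam_nat 3 (lam_mul u0 hl)
      exact_mod_cast h5
    · intro u hu u' hu' h
      obtain ⟨e, he, rfl⟩ := (hU' u).1 hu
      obtain ⟨e', he', rfl⟩ := (hU' u').1 hu'
      rw [huni e he e' he' ?_]
      have e1 : z0 + toC e * zN k t f (N + n) - (z0 + toC e' * zN k t f (N + n)) =
          toC e * zN k t f (N + n) - toC e' * zN k t f (N + n) := by ring
      rw [← e1]
      exact h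

end Pool.Agent.DT.G
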