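import Pool.Agent.Lib.DT.G.Spec

/-!
# Theorem DT (`p = 3`), part G, module `Zn`: the points `z_N`
-/

set_option autoImplicit false

open scoped Pointwise

noncomputable section

namespace Pool.Agent.DT.G

open Pool.Agent.MuZ Pool.Agent.FW Pool.Agent.DT
open Pool.Agent.DI (io ofC io_inj exists_io io_ofC ofC_io VP MP UP TP ex)

theorem tZn : S_Zn := by
  intro h1 hC k t _ f N hf
  obtain ⟨e3, -⟩ := h1 k t
  obtain ⟨-, hc, -⟩ := hC k t f hf
  have hf0 : (f : ℂ) ≠ 0 := by exact_mod_cast hf.pos.ne'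
  have h3 : ((3 : ℂ) ^ (N + 1) * f) ≠ 0 := mul_ne_zero (pow_ne_zero _ (by norm_num)) hf0
  have hz : ((3 : ℂ) ^ (N + 1) * f) * zN k t f N = toC (c0 k t f) := by
    unfold zN
    rw [mul_div_cancel₀ _ h3]
  have h7 : ∀ v : OO k t, v ∈ pp k t → ∀ u ∈ ppb k t, ∃ o : OO k t, v * u = 3 * o := by
    intro v hv u hu
    have h4 : v * u ∈ sN k t 3 := by
      rw [← e3]
      exact Ideal.mul_mem_mul hv hu
    obtain ⟨o, ho⟩ := Ideal.mem_span_singleton'.1 h4
    exact ⟨o, by rw [← ho]; push_cast; ring⟩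
  have hx : ∀ x ∈ cnN k t f N, ∃ u : OO k t, toC x * zN k t f N = toC u := by
    intro x hx
    obtain ⟨y, hy, rfl⟩ := Ideal.mem_span_singleton_mul.1 hx
    obtain ⟨u, hu⟩ := h7 _ hc y hy
    refine ⟨u, ?_⟩
    have h5 : toC (c0 k t f) * toC y = 3 * toC u := by
      rw [← toC_mul, hu, toC_mul, toC_three]
    have h6 : (3 : ℂ) * (toC (((f * 3 ^ N : ℕ) : OO k t) * y) * zN k t f N) = 3 * toC u := by
      rw [← h5, ← hz, toC_mul, toC_nat]
      push_cast
      ring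
    exact mul_left_cancel₀ (by norm_num) h6
  have hT : Tor k t (zN k t f N) := by
    refine ⟨c0 k t f, 3 ^ (N + 1) * f, Nat.mul_pos (by positivity) hf.pos, ?_⟩
    unfold zN
    push_cast
    rfl
  refine ⟨hx, hx, fun v => tor_mul v hT, ?_, ?_, ?_, h7⟩
  · unfold zN
    field_simp
    ring
  · intro b x y hxy
    obtain ⟨u, hu⟩ := hx _ hxy
    refine ⟨toC u, fun v _ => ⟨v * u, (toC_mul v u).symm⟩, ?_⟩
    rw [← hu, toC_sub]
    ring
  · intro b n x hn v hv
    have h5 : n * b ≤ n := Ideal.mul_le_left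
    have h4 : v ∈ cnN k t f N := hn (h5 hv)
    have h6 : x * v ∈ cnN k t f N := Ideal.mul_mem_left (cnN k t f N) x h4
    obtain ⟨u, hu⟩ := hx _ h6
    refine ⟨u, ?_⟩
    rw [← hu, toC_mul]
    ring

end Pool.Agent.DT.G
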