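import Pool.Agent.Lib.DT.D.All
import Pool.Agent.Lib.DT.H3.HN
import Pool.Agent.Lib.DT.H3.T3
import Pool.Agent.Lib.DT.G.AbP
import Pool.Agent.Lib.DT.G.C0
import Pool.Agent.Lib.DT.G.CT
import Pool.Agent.Lib.DT.G.Cop
import Pool.Agent.Lib.DT.G.Ex
import Pool.Agent.Lib.DT.G.G3m
import Pool.Agent.Lib.DT.G.GMm
import Pool.Agent.Lib.DT.G.GRm
import Pool.Agent.Lib.DT.G.HNf
import Pool.Agent.Lib.DT.G.HPg
import Pool.Agent.Lib.DT.G.Mod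
import Pool.Agent.Lib.DT.G.NQ
import Pool.Agent.Lib.DT.G.RUp
import Pool.Agent.Lib.DT.G.Rp
import Pool.Agent.Lib.DT.G.TwR
import Pool.Agent.Lib.DT.G.Two
import Pool.Agent.Lib.DT.G.UBa
import Pool.Agent.Lib.DT.G.UBb
import Pool.Agent.Lib.DT.G.V0
import Pool.Agent.Lib.DT.G.ZS
import Pool.Agent.Lib.DT.G.Zn

/-!
# Theorem DT, part G, first half: `S_GR`, `S_GM`, `S_G3`

`aGR : S_GR`, `aGM (E1) (E6) (E8) : S_GM`, `aG3 (B : HB) (E1) (E10) : S_G3`.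
-/

set_option autoImplicit false

noncomputable section

namespace Pool.Agent.DT.G

open Pool.Agent.MuZ Pool.Agent.FW Pool.Agent.DT

theorem aCop : C_Cop := tCop aO4 aO6
theorem aMod : C_Mod := tMod aO4 aO6
theorem aC0 : C_C0 := tC0 aO4 aCop aMod
theorem aHNf : C_HNf := tHNf aO4 aCop aMod
theorem aV0 : C_V0 := tV0
theorem aEx : C_Ex := tEx aO2
theorem aRp : C_Rp := tRp
theorem aT3 : C_T3 := H3.tT3 aO4 (H3.tHN aO4 aO6)
theorem aTwR : C_TwR := tTwR aCop aMod aHNf aRp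
theorem aZS : C_ZS := tZS aO4 aO6 aCop aMod aC0
theorem aRUp : C_RUp := tRUp aO6 aCop
theorem aHPg : C_HPg := tHPg aO2 aO6 aO7 aO9 aCop aMod aHNf aRUp
theorem aZn : C_Zn := tZn aO4 aC0
theorem aAbP : C_AbP := tAbP aO4 aCop
theorem aNQ : C_NQ := tNQ aO4 aCop aMod aC0 aAbP

/-- **The rank statement.** -/
theorem aGR : S_GR := tGRm aO2 aO6 aO7 aCop aMod aHNf aV0 aEx

/-- **The model of the Galois action.** -/
theorem aGM (e1 : S_E1) (e6 : S_E6) (e8 : S_E8) : S_GM := tGMm e1 e6 e8 aMod aHPg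

theorem aUBa (B : HB) : C_UBa := tUBa aO6 aO7 (aD5 B) (aD8 B) aCop aMod aHNf aRp aZn aNQ
theorem aUBb (B : HB) (e1 : S_E1) (e10 : S_E10) : C_UBb := tUBb aO6 aO7 e1 e10 aMod aZn (aUBa B)
theorem aCT (B : HB) (e1 : S_E1) (e10 : S_E10) : C_CT :=
  tCT aO3 aO6 aO7 aL3 aL5 (aD7 B) (aD8 B) e1 e10 aMod aHNf
theorem aTwo (B : HB) (e1 : S_E1) (e10 : S_E10) : C_Two :=
  tTwo aO6 aO7 (aD8 B) aCop aMod aHNf aEx aT3 aTwR aZS aRUp aZn aNQ (aUBa B) (aUBb B e1 e10)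
    (aCT B e1 e10)

/-- **The trace relations.** -/
theorem aG3 (B : HB) (e1 : S_E1) (e10 : S_E10) : S_G3 :=
  tG3m (aUBa B) (aUBb B e1 e10) (aTwo B e1 e10)

end Pool.Agent.DT.G
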