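import Pool.Agent.Lib.DT.G.Spec

/-! # Theorem DT, part G: the composition of the modules (all modules are hypotheses) -/

set_option autoImplicit false

namespace Pool.Agent.DT.G

open Pool.Agent.MuZ Pool.Agent.FW Pool.Agent.DT

/-- The inputs of part G from the parts O, L, B, R, D, E. -/
structure GIn : Prop where
  O2 : S_O2
  O3 : S_O3
  O4 : S_O4
  O6 : S_O6
  O7 : S_O7
  O8 : S_O8
  O9 : S_O9
  L3 : S_L3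
  L5 : S_L5
  L6a : S_L6a
  B1 : S_B1
  B3 : S_B3
  B6 : S_B6
  B7 : S_B7
  B10 : S_B10
  B12 : S_B12
  B14 : S_B14
  R1 : S_R1
  R2 : DT.S_R2
  R4 : S_R4
  R5 : S_R5
  D1 : S_D1
  D2 : S_D2
  D5 : S_D5
  D7 : S_D7
  D8 : S_D8
  D9 : S_D9
  E1 : S_E1
  E4 : S_E4
  E6 : S_E6
  E7 : S_E7
  E8 : S_E8
  E9 : S_E9
  E10 : S_E10

theorem asmT (i : GIn) (c4 : S_C4) (c6 : S_C6) (c8 : S_C8) (v : S_V) (sf : S_F) (t3 : C_T3)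
    (zt : S_Zt) (cop : S_Cop) (md : S_Mod) (c0 : S_C0) (hnf : S_HNf) (v0 : S_V0) (ex : S_Ex) (rp : S_Rp)
    (twr : S_TwR) (zs : S_ZS) (rup : S_RUp) (ri : S_RI) (r2 : S_R2) (rb : S_RB) (rd : S_RD) (rs : S_RS)
    (grm : S_GRm) (hpg : S_HPg) (gmm : S_GMm) (hg : S_Hg) (rayf : S_RayF) (zn : S_Zn) (abp : S_AbP)
    (nq : S_NQ) (rdz : S_Rdz) (tt0 : S_T0) (sg : S_Sg) (tha : S_ThA) (tht : S_ThT) (uba : S_UBa)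
    (ubb : S_UBb) (ct : S_CT) (two : S_Two) (g3m : S_G3m) (sn : S_SN) (du : S_DU) (chi : S_Chi)
    (chx : S_ChX) (etg : S_EtG) (tamg : S_TamG) (inr : S_Inr) (chif : S_ChiF) (fou1 : S_Fou1)
    (fou2 : S_Fou2) (ete : S_Ete) (eps : S_Eps) (g1 : S_G1) (uni : S_Uni) (sno : S_SNo) (g7 : S_G7) :
    S_GR ∧ S_GM ∧ S_G3 ∧ C_G7 ∧ C_SN ∧ C_Chi ∧ C_TamG ∧ C_Inr :=
  have Cop := cop i.O4 i.O6
  have Md := md i.O4 i.O6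
  have Zt := zt
  have C0 := c0 i.O4 Cop Md
  have HNf := hnf i.O4 Cop Md
  have Ex := ex i.O2
  have RUp := rup i.O6 Cop
  have RI := ri i.O7
  have R2 := r2 i.O6 i.O7 i.O8 Md RI
  have RB := rb i.O2 i.O4 i.O6 i.O7 i.O9 Cop Md RUp
  have RD := rd i.O2 i.O4 i.O6 i.O7 i.O9 Cop Md HNf RUp
  have RS := rs Md RI RB RD
  have GR := grm i.O2 i.O6 i.O7 Cop Md HNf v0 Ex
  have GM := gmm i.E1 i.E6 i.E8 Md (hpg i.O2 i.O6 i.O7 i.O9 Cop Md HNf RUp)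
  have Hg := hg i.B7 i.B10 i.B12
  have RayF := rayf i.O7 Cop
  have Zn := zn i.O4 C0
  have AbP := abp i.O4 Cop
  have NQ := nq i.O4 Cop Md C0 AbP
  have Rdz := rdz i.O4 i.O6 i.L6a i.B14 i.D1 i.D2 i.D9 Zn AbP NQ
  have T0 := tt0 i.O4 i.L6a Cop Md C0
  have Sg := sg i.O6 i.B1 i.B6 i.R1 i.R4 i.R5 i.E6 i.E7 i.E10 Zt Md T0
  have ThA := tha i.L6a i.B1 i.B3 i.B6 i.B12 i.R1 i.R2 i.R4 i.R5 Zt T0 AbP Rdz
  have ThT := tht i.B14 i.R2 i.R5 i.D8 Zt T0 AbP Rdz ThA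
  have UBa := uba i.O6 i.O7 i.D5 i.D8 Cop Md HNf rp Zn NQ
  have UBb := ubb i.O6 i.O7 i.E1 i.E10 Md Zn UBa
  have CT := ct i.O3 i.O6 i.O7 i.L3 i.L5 i.D7 i.D8 i.E1 i.E10 Md HNf
  have Two := two i.O6 i.O7 i.D8 Cop Md HNf Ex t3 (twr Cop Md HNf rp) (zs i.O4 i.O6 Cop Md C0) RUp Zn NQ
    UBa UBb CT
  have SN := sn i.O2 i.O7 i.E1 i.E6 i.E7 GM Cop Md HNf
  have DU := du i.O6 i.D8 i.E1 Zt Md HNf SN T0 Rdz ThT UBa UBb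
  have Chi := chi i.O6 i.O7 Md HNf
  have ChX := chx i.O2 i.O4 i.O6 i.O7 i.O8 i.O9 Cop Md RUp Chi
  have EtG := etg i.E1 c6 c8 GM Md R2 Chi
  have TamG := tamg Zt
  have Inr := inr i.O2 i.O4 i.O6 i.O7 i.O9 i.E1 i.E4 i.E6 GM Zt Cop Md HNf RUp
  have ChiF := chif i.E9 GM Md Chi TamG Inr
  have Fou1 := fou1 i.O6 c4 Zt Md C0 (zs i.O4 i.O6 Cop Md C0)
  have Fou2 := fou2 c6 Zt Fou1
  have Ete := ete i.O2 i.O4 i.O6 v Md Chi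
  have G1 := g1 i.O2 i.O4 i.O6 i.O7 v sf Md Chi Ete eps
  have SNo := sno i.O6 Zt Md Chi EtG ChiF Ete (uni Zt) G1
  ⟨GR, GM, g3m UBa UBb Two, g7 i.O2 i.O6 i.O7 i.O9 Zt Cop Md C0 HNf Ex R2 RS Hg RayF Zn Sg DU Chi ChX Fou2
    SNo, SN, Chi, TamG, Inr⟩

end Pool.Agent.DT.G
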