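import Pool.Agent.Lib.DT.G.SpecL

/-!
# Theorem DT, part G, module GFin: the output of part G from the local lemma
-/

set_option autoImplicit false

open scoped Pointwise

noncomputable section

namespace Pool.Agent.DT.G

open Pool.Agent.MuZ Pool.Agent.FW Pool.Agent.DT
open Pool.Agent.DI (io ofC io_inj exists_io io_ofC ofC_io VP MP UP TP ex)

/-- The output of part G. -/
theorem tGFin : S_GFin := by
  intro hG9 hG3 hZt hMod hSN hChi hG7 hSit k t _ f m χ P hFM hmt hχ hP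
  obtain ⟨N0, hN0, hG⟩ := hG7 k t f m χ P hFM hmt hχ hP
  refine ⟨N0, by omega, ?_⟩
  intro N hN T hT D hD
  have hN2 : 2 ≤ N := le_trans hN0 hN
  have hF : Fok f := hFM.toFok
  obtain ⟨_, _, _, s, hsG, hPsi, hsM, hsz⟩ := hSN k t f N hF hN2
  by_contra hcon
  push Not at hcon
  obtain ⟨⟨hn0, _⟩, _, _⟩ := hMod k t f N hF (by omega)
  obtain ⟨_, _, _, _, _, _, n, hn, hχn⟩ := hChi k t f _ χ hF hn0 le_rfl hχ
  have hu : ∀ v ∈ D, uN f N m T v ∈ Mn k t f N ∧ UP P (uN f N m T v) := by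
    intro v hv
    obtain ⟨h1, _, h3, _⟩ := hG3 k t f m N T hFM (by omega) hT v (hD.mem v hv).1 (hD.mem v hv).2.1
    exact ⟨h1, h3 P hP.1⟩
  have hk : ∀ d : Gal(Om/ℚ), GL.DD (fun N => Mn k t f N) P d →
      MP P (∑ v ∈ D, χ v * ((kap (uN f N m T v) d).val : Om)) := by
    rintro d ⟨h1, h2⟩
    exact hcon d h1 h2
  obtain ⟨ka, hka, hT3⟩ := hG9 (Mf k t f) (fun N => Mn k t f N) P (hSit k t f P hF hP) N hN2 s
    ⟨hsM, hsz⟩ (Ideal (OO k t)) D (uN f N m T) hu χ n hn hχn hk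
  apply hG N hN T hT D hD s hsG hPsi ka hka
  obtain ⟨_, _, _, _, hl0, hzP⟩ := hZt
  have h1 := ((hzP P hP.1 hP.2.1).2.2.2 _).1 hT3
  have e : (∑ v ∈ D, χ v * (s (uN f N m T v) / uN f N m T v - 1) - ka * (1 - zet 3)) / (1 - zet 3) =
      ∑ c ∈ D, χ c * Dw s (uN f N m T c) - ka := by
    rw [sub_div, mul_div_cancel_right₀ _ hl0, Finset.sum_div]
    congr 1
    refine Finset.sum_congr rfl fun c _ => ?_
    unfold Dw
    ring
  rw [e] at h1
  exact h1

end Pool.Agent.DT.G
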