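import Pool.Agent.Lib.DT.G.Spec

/-!
# Theorem DT, part G, module Mod: the moduli `cnd`, `cnN`, `sN`
-/

set_option autoImplicit false

open scoped Pointwise

noncomputable section

namespace Pool.Agent.DT.G

open Pool.Agent.MuZ Pool.Agent.FW Pool.Agent.DT
open Pool.Agent.DI (io ofC io_inj exists_io io_ofC ofC_io VP MP UP TP ex)

variable {k t : ℕ}

private theorem Mod_le {a b : ℕ} (h : b ∣ a) : sN k t a ≤ sN k t b := by
  obtain ⟨c, rfl⟩ := h
  refine Ideal.span_singleton_le_span_singleton.2 ⟨(c : OO k t), ?_⟩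
  push_cast
  ring

private theorem Mod_mul (a b : ℕ) : sN k t (a * b) = sN k t a * sN k t b := by
  have e : ((a * b : ℕ) : OO k t) = (a : OO k t) * (b : OO k t) := Nat.cast_mul a b
  rw [Ideal.span_singleton_mul_span_singleton, ← e]

private theorem Mod_ne [SqT k t] {a : ℕ} (h : a ≠ 0) : sN k t a ≠ ⊥ := by
  intro h0
  have h1 : (a : OO k t) = 0 := by
    have := Ideal.span_singleton_eq_bot.1 h0
    exact this
  have h2 := congrArg QuadraticAlgebra.re h1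
  rw [re_nat, QuadraticAlgebra.re_zero] at h2
  exact h (by exact_mod_cast h2)

theorem tMod : S_Mod := by
  intro h4 h6 k t _ f N hf hN
  obtain ⟨o1, o2, o3, o4, o5, o6, o7, o8, o9, o10, o11, o12⟩ := h4 k t
  obtain ⟨p1, p2, p3, p4, p5, p6, p7, p8⟩ := h6 k t
  have hf0 : f ≠ 0 := by
    have := hf.pos
    omega
  have hf3 : ¬ 3 ∣ f := by
    intro h
    have h1 := hf.cop
    have h2 : 3 ∣ Nat.gcd f 3 := Nat.dvd_gcd h dvd_rfl
    rw [h1] at h2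
    omega
  have e3 : sN k t 3 = pp k t * ppb k t := o1.symm
  have l1 : sN k t 3 ≤ pp k t := e3 ▸ Ideal.mul_le_left
  have l2 : sN k t 3 ≤ ppb k t := e3 ▸ Ideal.mul_le_right
  have e0 : cnN k t f 0 = cnd k t f := by
    unfold cnN cnd
    rw [pow_zero, mul_one]
  have l3 : cnd k t f ≤ ppb k t := Ideal.mul_le_right
  have l4 : ∀ M, cnN k t f M ≤ ppb k t := fun M => Ideal.mul_le_right
  have l5 : ∀ M, cnN k t f M ≤ sN k t (f * 3 ^ M) := fun M => Ideal.mul_le_left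
  have l6 : sN k t (f * 3 ^ N) ≤ sN k t (3 * f) := by
    apply Mod_le
    obtain ⟨n, rfl⟩ := Nat.exists_eq_add_of_le hN
    exact ⟨3 ^ n, by ring⟩
  have l7 : sN k t (3 * f) ≤ cnd k t f := by
    rw [Nat.mul_comm 3 f, Mod_mul]
    exact Ideal.mul_mono_right l2
  have l8 : ∀ M, cnN k t f (M + 1) ≤ cnN k t f M := by
    intro M
    exact Ideal.mul_mono_left (Mod_le ⟨3, by ring⟩)
  have l9 : sN k t (3 * f) ≤ sN k t 3 := Mod_le ⟨f, rfl⟩
  have l10 : cnN k t f N ≤ cnd k t f := Ideal.mul_mono_left (Mod_le ⟨3 ^ N, rfl⟩)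
  have l11 : sN k t (f * 3 ^ (N + 1)) ≤ sN k t (f * 3 ^ N) := Mod_le ⟨3, by ring⟩
  have q1 : ∀ (a : Ideal (OO k t)) (x y : ℕ), PrI a (sN k t (x * y)) ↔
      PrI a (sN k t x) ∧ PrI a (sN k t y) := by
    intro a x y
    rw [Mod_mul]
    exact p2 _ _ _
  have q2 : ∀ (a : Ideal (OO k t)) (M : ℕ), PrI a (sN k t 3) → PrI a (sN k t (3 ^ M)) := by
    intro a M h
    rw [p5] at h ⊢
    exact Nat.Coprime.pow_right M h
  have q3 : ∀ (a : Ideal (OO k t)) (M : ℕ), PrI a (sN k t 3) → PrI a (sN k t f) →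
      PrI a (cnN k t f M) := by
    intro a M h h'
    exact (p2 _ _ _).2 ⟨(q1 a _ _).2 ⟨h', q2 a M h⟩, p4 _ _ _ l2 h⟩
  have q5 : ∀ a : Ideal (OO k t), PrI a (sN k t (f * 3 ^ N)) → PrI a (sN k t (3 * f)) :=
    fun a h => p4 _ _ _ l6 h
  refine ⟨⟨Mod_ne (by omega), Mod_ne (Nat.mul_ne_zero hf0 (by positivity)), ?_, ?_, e0⟩,
    ⟨l5 N, l6, l7, l8 N, l3, l4 N, l9, l1, l2, l10, l11⟩, ?_, q5, ?_, ?_, ?_, ?_, ?_⟩
  · exact mul_ne_zero (Mod_ne hf0) o10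
  · exact mul_ne_zero (Mod_ne (Nat.mul_ne_zero hf0 (by positivity))) o10
  · intro a ha
    obtain ⟨h3, hf'⟩ := (q1 a 3 f).1 ha
    refine ⟨q3 a N h3 hf', q3 a (N + 1) h3 hf', (q1 a _ _).2 ⟨hf', q2 a N h3⟩, p4 _ _ _ l7 ha, h3,
      p4 _ _ _ l1 h3, p4 _ _ _ l2 h3, ?_⟩
    refine p4 _ _ _ (Mod_le ?_) ha
    obtain ⟨c, hc⟩ := hf.four
    exact ⟨2 * c, by rw [hc]; ring⟩
  · intro a ha
    exact q5 a (p4 _ _ _ (l5 N) ha)
  · intro a ha h3
    exact (q1 a 3 f).2 ⟨h3, ((p2 _ _ _).1 ha).1⟩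
  · intro h
    exact hf3 (by exact_mod_cast h)
  · rw [o11, re_nat]
    intro h
    exact hf3 (by exact_mod_cast h)
  · rw [o12, re_nat, im_nat, add_zero]
    intro h
    exact hf3 (by exact_mod_cast h)

end Pool.Agent.DT.G
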