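import Pool.Agent.Lib.DT.Ded
import Pool.Agent.Lib.DT.IfaceC
import Pool.Agent.Lib.DI.B.A12

/-!
# Theorem DT, part G (elliptic units and the measure): statements of the modules with proofs

Author helper21 (after `DK/G/Spec.lean`). Every `C_X` is a statement; `S_X` is the implication from the
statements used to `C_X` (or to an interface statement). To be proved, in the module `DT/G/X.lean`:
`theorem tX : S_X`. The docstring of `S_X` contains a complete proof.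

Tools: `DT/Base.lean` (`Nm_mul`, `Nm_congr`, `nat_dvd_iff`, `toC_..`, `toO_..`, `lam_..`, `tor_..`, `GK_toO`),
`DT/Ded.lean` (instances: `OO k t` is a domain, a Dedekind domain), `DI/Val.lean` (`VP.add`, `MP.mul_cases`, `UP.prod`, ...;
`have := hP.1` for the instance `P.IsPrime`). `TP P t x`: `x ∈ t V_P`. Many modules are adaptations of the module with the
same name in `DK/G/` (copy and change). `sN k t N` = `(N)`, `sp v` = `(v)`: `v ∈ sN k t N ↔ (N : OO k t) ∣ v` (`Ideal.mem_span_singleton`).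

Notation: `O = OO k t`, `F = sN k t (3 * f)`, `cnd = sN f * ppb`, `cnN N = sN (f * 3 ^ N) * ppb`, `z_N = zN k t f N`, `J n = jacobiSym n 3`.
-/

set_option autoImplicit false

open scoped Pointwise

noncomputable section

namespace Pool.Agent.DT.G

open Pool.Agent.MuZ Pool.Agent.FW Pool.Agent.DT
open Pool.Agent.DI (io ofC io_inj exists_io io_ofC ofC_io VP MP UP TP ex)

variable {k t : ℕ}

/-! ## Definitions -/

/-- `D(u) = (s(u)/u - 1)/(1 - zet 3)`. -/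
def Dw (s : Gal(Om/ℚ)) (u : Om) : Om := (s u / u - 1) / (1 - zet 3)

/-- `a_N = 1 + f² 3^(N-1) (1 - w)²`. -/
def aN (k t f N : ℕ) : OO k t := 1 + ((f ^ 2 * 3 ^ (N - 1) : ℕ) : OO k t) * (1 - wI k t) ^ 2

/-- The norm of `c₀`, divided by `3`. -/
def q0 (k t f : ℕ) : ℤ := Nm (c0 k t f) / 3

/-- The point `T₀ = f (1 - w)² c₀ / 9` of order `𝔭`. -/
def T0 (k t f : ℕ) : ℂ := toC ((f : OO k t) * (1 - wI k t) ^ 2 * c0 k t f) / 9

/-- A set of representatives modulo `n` for the elements with `H`. -/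
structure IsRp (n : Ideal (OO k t)) (H : OO k t → Prop) (T : Finset (OO k t)) : Prop where
  mem : ∀ h ∈ T, H h
  ex : ∀ v : OO k t, H v → ∃ h ∈ T, v - h ∈ n
  uni : ∀ h ∈ T, ∀ h' ∈ T, h - h' ∈ n → h = h'

theorem isRep_iff {f N : ℕ} {T : Finset (OO k t)} :
    IsRep f N T ↔ IsRp (cnN k t f N) (fun v => HN f N v) T :=
  ⟨fun h => ⟨h.mem, h.ex, h.uni⟩, fun h => ⟨h.mem, h.ex, h.uni⟩⟩

/-- A set of representatives modulo `n` of the ray classes with `C`. -/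
structure IsRI (n : Ideal (OO k t)) (C : Ideal (OO k t) → Prop) (B : Finset (Ideal (OO k t))) : Prop where
  mem : ∀ b ∈ B, C b
  ex : ∀ b : Ideal (OO k t), C b → ∃ b' ∈ B, Ray n b b'
  uni : ∀ b ∈ B, ∀ b' ∈ B, Ray n b b' → b = b'

/-- The ideals prime to `3 f` with norm `± 1` modulo `3 ^ N`. -/
def CN (f N : ℕ) (b : Ideal (OO k t)) : Prop :=
  b ≠ ⊥ ∧ PrI b (sN k t (3 * f)) ∧ ((3 : ℤ) ^ N ∣ (NI b : ℤ) - 1 ∨ (3 : ℤ) ^ N ∣ (NI b : ℤ) + 1)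

/-- `a` and `b` are `±` each other modulo `3 ^ N`. -/
def Pm (N : ℕ) (a b : ℤ) : Prop := (3 : ℤ) ^ N ∣ a - b ∨ (3 : ℤ) ^ N ∣ a + b

open Classical in
/-- `S_N(a)`: the sum of `χ(b) g(b, (1 + e) z_N)`, `b ∈ R`, `e ∈ E` (representatives of `cnd` modulo `cnN N`),
`q₀ N m N b N (1 + e) = a` modulo `3 ^ N`. -/
def SSN (f : ℕ) (m : Ideal (OO k t)) (N : ℕ) (R : Finset (Ideal (OO k t))) (E : Finset (OO k t))
    (χ : Ideal (OO k t) → Om) (a : ℤ) : Om :=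
  ∑ b ∈ R, χ b * ∑ e ∈ E,
    if (3 : ℤ) ^ N ∣ q0 k t f * NI m * NI b * Nm (1 + e) - a then gO m b (toC (1 + e) * zN k t f N) else 0

/-- `η_χ(r) + e η_χ(-r)`. -/
def etE (f : ℕ) (m : Ideal (OO k t)) (R : Finset (Ideal (OO k t))) (χ : Ideal (OO k t) → Om) (e : ℤ)
    (r : ℚ) : Om := etaX f m R χ r + e * etaX f m R χ (-r)

/-- `M` is tamely ramified at `P`, above `3`, with index `1` or `2`. -/
def Tam (P : Ideal ZZ) (M : IntermediateField ℚ Om) : Prop := ∀ x ∈ M, MP P x → VP P (x ^ 2 / 3)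

/-- The sign of `W(T₀)`. -/
def Sgn (k t f : ℕ) (σ : ℤ) : Prop :=
  (σ = 1 ∨ σ = -1) ∧ ∀ b : Ideal (OO k t), b ≠ ⊥ → PrI b (sN k t 3) →
    vO b (T0 k t f) * (1 - zet 3) ^ 3 =
      (σ : Om) * ((jacobiSym (NI b : ℤ) 3 : ℤ) : Om) * (aO (pp k t * b) - 3)

/-! ## 0. The root of unity `zet 3` -/

/-- Roots of unity. -/
def C_Zt : Prop :=
  (∀ n : ℕ, 0 < n → IsPrimitiveRoot (zet n) n) ∧ (1 - zet 3) ^ 2 = -3 * zet 3 ∧
    (1 - zet 3) ^ 4 * zet 3 = 9 ∧ (1 - zet 3) ^ 6 = -27 ∧ (1 - zet 3) ≠ 0 ∧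
    ∀ P : Ideal ZZ, Npr P → MP P 3 → MP P (1 - zet 3) ∧ UP P (zet 3) ∧
      (∀ x : Om, TP P 3 x ↔ TP P ((1 - zet 3) ^ 2) x) ∧
      ∀ x : Om, TP P 3 x ↔ TP P (1 - zet 3) (x / (1 - zet 3))

/-- (60 lines) **Zt**. PROOF. `zet n = DI.zet n` by `rfl`; `DI.tA2 : DI.S_A2` (module `DI/B/A12.lean`) says that it is a primitive `n`-th root of unity. `z = zet 3`: `z ^ 3 = 1`, `z ≠ 1`,
so `1 + z + z ^ 2 = 0`, `(1 - z)^2 = 1 - 2 z + z^2 = -3 z`; `(1 - z)^4 = 9 z^2`, `(1 - z)^6 = -27 z^3`. `MP P ((1 - z)^2)`, `MP.of_pow`. `z` is a root of unity: `UP.of_pow`. `3 = (1 - z)^2 * (-z^2)` and `-z^2` is a unit. -/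
def S_Zt : Prop := C_Zt

/-! ## 1. Elements of `O` -/

/-- Coprimality, inverses. -/
def C_Cop : Prop :=
  ∀ (k t : ℕ) [SqT k t],
    (∀ (v u : OO k t) (n : Ideal (OO k t)), PrI (sp (v * u)) n ↔ PrI (sp v) n ∧ PrI (sp u) n) ∧
    (∀ (v : OO k t) (n : Ideal (OO k t)), n ≠ ⊥ → PrI (sp v) n →
      ∃ u : OO k t, u ≠ 0 ∧ PrI (sp u) n ∧ v * u - 1 ∈ n) ∧
    (∀ (v u : OO k t) (n : Ideal (OO k t)), PrI (sp v) n → v * u ∈ n → u ∈ n) ∧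
    (∀ (v u : OO k t) (n : Ideal (OO k t)), v - u ∈ n → PrI (sp v) n → PrI (sp u) n) ∧
    (∀ n : Ideal (OO k t), PrI (sp (1 : OO k t)) n ∧ PrI (⊤ : Ideal (OO k t)) n) ∧
    (∀ v : OO k t, (PrI (sp v) (sN k t 3) ↔ v ∉ pp k t ∧ v ∉ ppb k t) ∧
      (PrI (sp v) (pp k t) ↔ v ∉ pp k t) ∧ (PrI (sp v) (ppb k t) ↔ v ∉ ppb k t)) ∧
    (∀ v : OO k t, v ∉ ppb k t → v - 1 ∈ ppb k t ∨ v + 1 ∈ ppb k t) ∧
    (∀ v : OO k t, v ∉ pp k t → v - 1 ∈ pp k t ∨ v + 1 ∈ pp k t) ∧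
    (∀ v : OO k t, v - 1 ∈ ppb k t → ((3 : ℤ) ∣ Nm v - 1 ↔ v - 1 ∈ pp k t) ∧
      ((3 : ℤ) ∣ Nm v + 1 ↔ v + 1 ∈ pp k t)) ∧
    ∀ v : OO k t, v ∈ pp k t → v ∈ ppb k t → v ∈ sN k t 3

/-- (120 lines) **Cop**. PROOF. (1) `S_O6` (1), `Ideal.span_singleton_mul_span_singleton`. (2) `v x + y = 1` with `y ∈ n` (`Ideal.mem_sup`, `Ideal.mem_span_singleton'`): `v x - 1 ∈ n`, `PrI (sp x) n`; if `x = 0` then `1 ∈ n` and `u = 1` will do.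
(3) `u = (v u) x + u y`. (4) `S_O6` (7). (5) clear. (6) `pp`, `ppb` are maximal (nonzero primes, `S_O4`); `sN 3 = pp * ppb` (`S_O4`), `S_O6` (2). (7), (8): `S_O4` (last claims): `v ∈ pp ↔ 3 ∣ v.re`, `v ∈ ppb ↔ 3 ∣ v.re + v.im`; an integer is
`0`, `1` or `-1` modulo `3`. (9) `v = x + y w`, `x + y = 1` modulo `3`, `Nm v = x^2 + t x y` modulo `3`, `t = 1` modulo `3` (`SqT`): `Nm v = x (x + y) = x` modulo `3`. (10) `3 ∣ re`, `3 ∣ re + im` (`nat_dvd_iff`). -/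
def S_Cop : Prop := S_O4 → S_O6 → C_Cop

/-- The moduli. -/
def C_Mod : Prop :=
  ∀ (k t : ℕ) [SqT k t] (f N : ℕ), Fok f → 1 ≤ N →
    (sN k t (3 * f) ≠ ⊥ ∧ sN k t (f * 3 ^ N) ≠ ⊥ ∧ cnd k t f ≠ ⊥ ∧ cnN k t f N ≠ ⊥ ∧
      cnN k t f 0 = cnd k t f) ∧
    (cnN k t f N ≤ sN k t (f * 3 ^ N) ∧ sN k t (f * 3 ^ N) ≤ sN k t (3 * f) ∧
      sN k t (3 * f) ≤ cnd k t f ∧ cnN k t f (N + 1) ≤ cnN k t f N ∧ cnd k t f ≤ ppb k t ∧
      cnN k t f N ≤ ppb k t ∧ sN k t (3 * f) ≤ sN k t 3 ∧ sN k t 3 ≤ pp k t ∧ sN k t 3 ≤ ppb k t ∧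
      cnN k t f N ≤ cnd k t f ∧ sN k t (f * 3 ^ (N + 1)) ≤ sN k t (f * 3 ^ N)) ∧
    (∀ a : Ideal (OO k t), PrI a (sN k t (3 * f)) → PrI a (cnN k t f N) ∧ PrI a (cnN k t f (N + 1)) ∧
      PrI a (sN k t (f * 3 ^ N)) ∧ PrI a (cnd k t f) ∧ PrI a (sN k t 3) ∧ PrI a (pp k t) ∧
      PrI a (ppb k t) ∧ PrI a (sN k t 6)) ∧
    (∀ a : Ideal (OO k t), PrI a (sN k t (f * 3 ^ N)) → PrI a (sN k t (3 * f))) ∧
    (∀ a : Ideal (OO k t), PrI a (cnN k t f N) → PrI a (sN k t (3 * f))) ∧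
    (∀ a : Ideal (OO k t), PrI a (cnd k t f) → PrI a (sN k t 3) → PrI a (sN k t (3 * f))) ∧
    ¬ (3 : ℤ) ∣ f ∧ (f : OO k t) ∉ pp k t ∧ (f : OO k t) ∉ ppb k t

/-- (100 lines) **Mod**. PROOF. `sN (a b) = sN a * sN b`; `sN a ≤ sN b` iff `b ∣ a` (`←` is enough: `Ideal.span_singleton_le_span_singleton`). `ppb ∋ 3`. `S_O6` (1), (2), (4): `PrI` for products and for larger ideals; for `3 ^ N` use `S_O6` (2) with induction, or
`S_O6` (5): `PrI a (sN M) ↔ (NI a).Coprime M`. `sN 6`: `6 ∣ 3 f` as `4 ∣ f`. `(f : O) ∈ pp ↔ 3 ∣ f` (`S_O4`). -/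
def S_Mod : Prop := S_O4 → S_O6 → C_Mod

/-- The element `c₀`. -/
def C_C0 : Prop :=
  ∀ (k t : ℕ) [SqT k t] (f : ℕ), Fok f →
    c0 k t f ≠ 0 ∧ c0 k t f ∈ pp k t ∧ c0 k t f ∉ ppb k t ∧ cjO (c0 k t f) ∈ ppb k t ∧
    cjO (c0 k t f) ∉ pp k t ∧ (∃ o : OO k t, toC (c0 k t f) / (3 * f) - v0 k t f = toC o) ∧
    Nm (c0 k t f) = 3 * q0 k t f ∧ ¬ (3 : ℤ) ∣ q0 k t f ∧
    c0 k t f * cjO (c0 k t f) = ((3 * q0 k t f : ℤ) : OO k t) ∧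
    ∀ y : OO k t, c0 k t f * y ∈ pp k t ^ 2 → y ∈ pp k t

/-- (150 lines) **C0**. PROOF. `c = c₀` is `⟨3, f⟩` or `⟨3 + 3 f, f⟩`. `S_O4`: `v ∈ pp ↔ 3 ∣ v.re`, `v ∈ ppb ↔ 3 ∣ v.re + v.im`; `3 ∤ f`. `cjO c = ⟨re + t f, -f⟩`, `t = 1` modulo `3`. `toC c / (3 f) = 1/f + wC/3` or this `+ 1`; `v0 = S0 + 1/f`, `S0 = wC/3`.
`Nm c = re^2 + t re f + 3 k f^2` is divisible by `3`. `c ∉ pp^2`: if `⟨3, f⟩ ∈ pp^2` then `c = ⟨3, f⟩ + 3 f` and `3 f ∉ pp^2`: `sN (3 f) = pp * ppb * sN f ≤ pp^2 = pp * pp` gives `ppb * sN f ≤ pp` (cancel `pp`, Dedekind domain), so `ppb ≤ pp` or `f ∈ pp` (prime): impossible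
(`pp ⊔ ppb = ⊤`). LAST CLAIM: if `y ∉ pp` then `y x - 1 ∈ pp` for some `x` (C_Cop), `(y x - 1)^2 = 1 + y z ∈ pp^2`, `c = c (1 + y z) - (c y) z ∈ pp^2`, contradiction. `3 ∤ q0`: otherwise `c cjO c = Nm c ∈ sN 9 = pp^2 ppb^2 ≤ pp^2` (`mul_cjO`) and by the last claim `cjO c ∈ pp`. -/
def S_C0 : Prop := S_O4 → C_Cop → C_Mod → C_C0

/-- The groups `H_f`, `H_N`. -/
def C_HNf : Prop :=
  ∀ (k t : ℕ) [SqT k t] (f N : ℕ), Fok f → 1 ≤ N →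
    (Hf f (1 : OO k t) ∧ HN f N (1 : OO k t)) ∧
    (∀ v u : OO k t, Hf f v → Hf f u → Hf f (v * u)) ∧
    (∀ v u : OO k t, HN f N v → HN f N u → HN f N (v * u)) ∧
    (∀ v u : OO k t, u - v ∈ sN k t (3 * f) → Hf f v → Hf f u) ∧
    (∀ v u : OO k t, u - v ∈ sN k t (f * 3 ^ N) → HN f N v → HN f N u) ∧
    (∀ v u : OO k t, Hf f v → v * u - 1 ∈ sN k t (3 * f) → Hf f u) ∧
    (∀ v u : OO k t, HN f N v → v * u - 1 ∈ sN k t (f * 3 ^ N) → HN f N u) ∧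
    (∀ v : OO k t, Hf f v → v ≠ 0 ∧ v - 1 ∈ sN k t 3 ∧ v - 1 ∈ pp k t ∧ v - 1 ∈ ppb k t ∧
      PrI (sp v) (sN k t (3 * f)) ∧ (3 : ℤ) ∣ Nm v - 1) ∧
    ∀ v : OO k t, HN f (N + 1) v → HN f N v

/-- (150 lines) **HNf**. (`DK/G/HNf.lean`.) PROOF. `(v u)^(3^j) = 1` modulo `3 f` with `j` the sum of the exponents (`v^(3^j) = 1` implies `v^(3^(j+i)) = 1`). If `3 f ∣ u - v` then `3 f ∣ u^n - v^n`, and `PrI` by C_Cop (4). If `v u = 1` modulo `3 f` then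
`u^(3^j) = v^(3^j) u^(3^j) = 1`; `PrI (sp u)`: C_Cop. `v - 1 ∈ pp`: otherwise `v + 1 ∈ pp` (C_Cop (8)), and `v^(3^j) + 1 ∈ pp` (odd power), `v^(3^j) - 1 ∈ pp` (as `3 f ∈ pp`), so `2 ∈ pp`, impossible. The same for `ppb`; C_Cop (10) for `sN 3`; `v ≠ 0` as `-1 ∉ pp`.
Norms: `Nm` is multiplicative; `Nm u = Nm v` modulo `M` if `M ∣ u - v` (`Nm_congr`), `3^N ∣ f 3^N`, `3 f ∣ f 3^N`. -/
def S_HNf : Prop := S_O4 → C_Cop → C_Mod → C_HNf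

/-- An element `= 1` modulo `3 f` with given norm modulo `3 ^ N`. -/
def C_V0 : Prop :=
  ∀ (k t : ℕ) [SqT k t] (f N : ℕ) (a : ℤ), f.Coprime 3 → (3 : ℤ) ∣ a - 1 →
    ∃ v : OO k t, v ≠ 0 ∧ v - 1 ∈ sN k t (3 * f) ∧ (3 : ℤ) ^ N ∣ Nm v - a

/-- (80 lines) **V0**. (`DK/G/V0.lean`.) PROOF. `v = ⟨1, 3 f y⟩`: `Nm v = 1 + 3 g(y)`, `g(y) = t f y + 9 k f^2 y^2`. `g(y) - g(y') = (y - y')(t f + 9 k f^2 (y + y'))` and the second factor is prime to `3` (`t = 1` or `4`, `f` prime to `3`), so `g` is injective on `ZMod (3^N)`,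
hence surjective: `y` with `3^N ∣ g(y) - (a - 1)/3`. `v ≠ 0`: the real part is `1`. -/
def S_V0 : Prop := C_V0

/-- Representatives exist. -/
def C_Ex : Prop :=
  ∀ (k t : ℕ) [SqT k t] (n : Ideal (OO k t)) (H : OO k t → Prop), n ≠ ⊥ →
    (∀ v u : OO k t, v - u ∈ n → H v → H u) → ∃ T : Finset (OO k t), IsRp n H T

/-- (60 lines) **Ex**. PROOF. `O / n` is finite (`S_O2`: `NI n ≠ 0`, `NI n = Nat.card (O / n)`; `Nat.finite_of_card_ne_zero`). `T` = the image under `Quotient.out` of the finite set of the `c : O / n` with `H c.out`; `v - (mk v).out ∈ n` (`Ideal.Quotient.eq`, `Quotient.out_eq`). -/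
def S_Ex : Prop := S_O2 → C_Ex

/-- Products over two systems of representatives; multiplication by an invertible element. -/
def C_Rp : Prop :=
  ∀ (k t : ℕ) [SqT k t], (∀ (n : Ideal (OO k t)) (H : OO k t → Prop) (T T' : Finset (OO k t)) (A : Type)
    [CommMonoid A] (F : OO k t → A), IsRp n H T → IsRp n H T' →
    (∀ v u : OO k t, H v → H u → v - u ∈ n → F v = F u) → ∏ h ∈ T, F h = ∏ h ∈ T', F h) ∧
  (∀ (n : Ideal (OO k t)) (H : OO k t → Prop) (T : Finset (OO k t)) (A : Type) [CommMonoid A]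
    (F : OO k t → A) (a b : OO k t), IsRp n H T → a * b - 1 ∈ n → (∀ v, H v → H (a * v)) →
    (∀ v, H v → H (b * v)) → (∀ v u : OO k t, H v → H u → v - u ∈ n → F v = F u) →
    ∏ h ∈ T, F (a * h) = ∏ h ∈ T, F h)

/-- (100 lines) **Rp**. (`DK/G/Rp.lean`.) PROOF. (1) For `h ∈ T` let `e h ∈ T'` with `h - e h ∈ n` (`ex` for `T'`); `e` is injective on `T` (`uni`) and onto `T'`, and `F (e h) = F h`. (2) `T.image (a * ·)` is again `IsRp n H`: `mem`; `ex`: for `H v` take `h ∈ T` with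
`b v - h ∈ n`, then `v - a h ∈ n` as `a b = 1` modulo `n`; `uni`: `a h - a h' ∈ n` gives `h - h' ∈ n` (multiply by `b`). `h ↦ a h` is injective on `T`. Apply (1). -/
def S_Rp : Prop := C_Rp

/-- The number of representatives is divisible by `3` (module `DT/H3/T3.lean` of part H3). -/
def C_T3 : Prop := ∀ (k t : ℕ) [SqT k t] (f N : ℕ) (T : Finset (OO k t)), Fok f → 1 ≤ N →
  IsRep f N T → 3 ∣ T.card

/-- Two systems modulo `cnN (N + 1)` of the elements of `H_N`. -/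
def C_TwR : Prop :=
  ∀ (k t : ℕ) [SqT k t] (f N : ℕ) (T T' E : Finset (OO k t)) (a : OO k t), Fok f → 1 ≤ N →
    IsRep f N T → IsRep f (N + 1) T' → IsRp (cnN k t f (N + 1)) (fun v => v ∈ cnN k t f N) E →
    HN f N a → ¬ HN f (N + 1) a → ∀ (A : Type) [CommMonoid A] (F : OO k t → A),
    (∀ v u : OO k t, v - u ∈ cnN k t f (N + 1) → F v = F u) →
    (∏ h ∈ T', F h) * (∏ h ∈ T', F (a * h)) * (∏ h ∈ T', F (a * (a * h))) =
      ∏ h ∈ T, ∏ e ∈ E, F (h + e)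

/-- (200 lines) **TwR**. (Compare `DK/G/TwR.lean`.) PROOF. `M' = cnN (N+1)`. For `v ∈ H_N`: `Nm v = 1 + 3^N j_v` with `j_v` modulo `3`; `j_(vu) = j_v + j_u` (`N ≥ 1`), `j_v = 0` iff `v ∈ H_(N+1)`; `j_a ≠ 0`; `j_v` depends only on `v` modulo `sN (f 3^(N+1))`, in particular modulo `M'`.
Let `b` be an inverse of `a` modulo `sN (f 3^(N+2)) ≤ M'` (C_Cop (2); `HN f N b` by C_HNf). FIRST SYSTEM: `T' ∪ a T' ∪ a a T'` is `IsRp M' (HN f N)`: `mem`; `ex`: let `i ∈ {0, 1, 2}` with `j_v = i j_a`; `j_(b^i v) = 0`, so `b^i v - h ∈ M'` with `h ∈ T'`, `v - a^i h ∈ M'`.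
`uni`: `a^i h - a^j h' ∈ M'` gives `i = j` (norms), `h - h' ∈ M'`, `h = h'`; this also gives the disjointness and the injectivity. SECOND SYSTEM: the image of `T × E` under `h + e`: `mem`: C_HNf (`e ∈ cnN N ≤ sN (f 3^N)`); `ex`: `v - h ∈ cnN N`, then `e ∈ E` with
`(v - h) - e ∈ M'`; `uni`: `(h + e) - (h' + e') ∈ M' ≤ cnN N` gives `h - h' ∈ cnN N`, `h = h'`, `e = e'`. C_Rp (1) (`Finset.prod_union`, `Finset.prod_image`, `Finset.prod_product`). -/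
def S_TwR : Prop := C_Cop → C_Mod → C_HNf → C_Rp → C_TwR

/-- Systems of torsion points. -/
def C_ZS : Prop :=
  ∀ (k t : ℕ) [SqT k t] (f N n : ℕ) (E : Finset (OO k t)) (b : Ideal (OO k t)), Fok f → b ≠ ⊥ →
    PrI b (sN k t 3) → IsRp (cnN k t f (N + n)) (fun v => v ∈ cnN k t f N) E →
    ∀ z0 ∈ Lam (sN k t (3 ^ n) * b),
    Set.InjOn (fun e : OO k t => z0 + toC e * zN k t f (N + n)) (E : Set (OO k t)) ∧
    ∀ U : Finset ℂ, (U : Set ℂ) = (fun e : OO k t => z0 + toC e * zN k t f (N + n)) '' (E : Set (OO k t)) →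
      IsSys (sN k t (3 ^ n)) b U

/-- (180 lines) **ZS**. PROOF. `c = c₀`, `c' = cjO c ∈ ppb`, `c c' = 3 q`, `q = q0`, `3 ∤ q` (C_C0). `z = z_(N+n) = toC c / (3^(N+n+1) f)`. For `e ∈ cnN N`, `e = f 3^N y`, `y ∈ ppb` (`Ideal.mem_span_singleton_mul`): `toC e * z = toC (y c) / 3^(n+1)`, and `y c ∈ ppb pp = sN 3` (`S_O4`), `y c = 3 x`: `toC e * z = toC x / 3^n`.
MEM: `3^n` times it is in `O ⊆ Lam b` (`lam_..` of `DT/Base.lean`), and `Lam (sN (3^n) * b)` is closed under addition. UNI: let `toC (e - e') * z ∈ Lam b`, `e - e' = f 3^N y`. There is `x ∈ b` with `x - 1 ∈ sN (3^(n+1))` (`S_O6`, last claim; `PrI b (sN (3^(n+1)))` by `S_O6` (5)). `toC x * toC (y c)/3^(n+1)` is in `toC O`, and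
`toC (1 - x) * toC (y c)/3^(n+1)` too, so `y c = 3^(n+1) o`, `y c c' = 3^(n+1) o c'`, `q y = 3^n (o c')`; with integers `a q + a' 3^(n+1) = 1`: `y = a q y + a' 3^(n+1) y ∈ sN (3^n) * ppb` (`c' ∈ ppb`, `3 ∈ ppb`), so `e - e' ∈ sN (f 3^(N+n)) * ppb = cnN (N+n)` and `e = e'`. This also gives the injectivity.
EX: let `z' ∈ Lam (sN (3^n) * b)`; `z' - z0` too, so `l = 3^n (z' - z0) ∈ Lam b`. `x` as above: `toC x * l = toC o`, `z' - z0 - toC o / 3^n = toC ((1 - x)/3^n) * l ∈ Lam b`. Let `q q' - 1` be divisible by `3^n` (`q' : ℤ`), `y = c' q' o ∈ ppb`, `e' = f 3^N y ∈ cnN N`: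
`toC e' * z = toC (c' c q' o)/3^(n+1) = toC (q q' o)/3^n`, which is `toC o / 3^n` modulo `O ⊆ Lam b`. Let `e ∈ E` with `e' - e ∈ cnN (N+n)`; `toC (e' - e) * z ∈ O` (as in MEM with `N + n`, `0` instead of `N`, `n`). So `z' - (z0 + toC e * z) ∈ Lam b`. -/
def S_ZS : Prop := S_O4 → S_O6 → C_Cop → C_Mod → C_C0 → C_ZS

/-! ## 2. Ray classes -/

/-- Lifting a ray equivalence to a smaller modulus ideal. -/
def C_RUp : Prop :=
  ∀ (k t : ℕ) [SqT k t] (n n' b b' : Ideal (OO k t)), n' ≠ ⊥ → n' ≤ n → b ≠ ⊥ → b' ≠ ⊥ →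
    PrI b n' → PrI b' n' → Ray n b' b →
    ∃ β : OO k t, β ≠ 0 ∧ β - 1 ∈ n ∧ PrI (sp β) n' ∧ Ray n' b' (sp β * b)

/-- (120 lines) **RUp**. (`DK/G/RUp.lean`.) PROOF. `S_O6` (last claim): `v ∈ b'`, `v ≠ 0`, `v - 1 ∈ n'`. `sp v ≤ b'`, so `sp v = b' * c` (`Ideal.dvd_iff_le`). Let `sp α * b' = sp α' * b` with `α, α' ≠ 0` prime to `n`, `α - α' ∈ n`. `sp (α v) = sp α * b' * c = sp α' * (b * c) ≤ sp α'`, so
`α v = α' x`, and cancelling `sp α'`: `b * c = sp x` (`x ≠ 0`). `PrI (sp v) n'` (C_Cop (4), (5)), so `PrI c n'`, `PrI (b * c) n'`, `PrI (sp x) n'` (`S_O6` (1)). Modulo `n`: `α' x = α v = α = α'`, so `x - 1 ∈ n` (C_Cop (3)). `sp x * b' = b * c * b' = sp v * b`.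
Let `β ≠ 0` with `x β - 1 ∈ n'`, `PrI (sp β) n'` (C_Cop (2)); `β - 1 ∈ n` since `x - 1 ∈ n`. `Ray n' b' (sp β * b)` by `x β` and `v`: `sp (x β) * b' = sp β * (sp v * b) = sp v * (sp β * b)`, `x β - v ∈ n'` (both are `1`). -/
def S_RUp : Prop := S_O6 → C_Cop → C_RUp

/-- Sums over two systems of representatives of classes. -/
def C_RI : Prop :=
  ∀ (k t : ℕ) [SqT k t] (n : Ideal (OO k t)) (C : Ideal (OO k t) → Prop) (B B' : Finset (Ideal (OO k t)))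
    (A : Type) [AddCommMonoid A] (F : Ideal (OO k t) → A), n ≠ ⊥ → IsRI n C B → IsRI n C B' →
    (∀ b b' : Ideal (OO k t), C b → C b' → Ray n b b' → F b = F b') → ∑ b ∈ B, F b = ∑ b ∈ B', F b

/-- (60 lines) **RI**. (`DK/G/RI.lean`.) PROOF. `e : B → B'` with `Ray n b (e b)`, a bijection by `uni` and `S_O7` (symmetric, transitive); `F (e b) = F b`. `Finset.sum_bij`, `Finset.sum_nbij`. -/
def S_RI : Prop := S_O7 → C_RI

/-- Every class modulo `cnd` contains ideals prime to `3 f`; the sums `etaX` do not depend on `R`; multiplication by `a`. -/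
def C_R2 : Prop :=
  ∀ (k t : ℕ) [SqT k t] (f : ℕ), Fok f →
    (∃ R : Finset (Ideal (OO k t)), IsRC (cnd k t f) R ∧ FR f R) ∧
    (∀ R R' : Finset (Ideal (OO k t)), IsRC (cnd k t f) R → IsRC (cnd k t f) R' → ∀ F : Ideal (OO k t) → Om,
      (∀ b b' : Ideal (OO k t), FB f b → FB f b' → Ray (cnd k t f) b b' → F b = F b') →
      ∑ b ∈ R, F b = ∑ b ∈ R', F b) ∧
    ∀ R : Finset (Ideal (OO k t)), IsRC (cnd k t f) R → ∀ a : Ideal (OO k t), FB f a →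
      ∀ F : Ideal (OO k t) → Om,
      (∀ b b' : Ideal (OO k t), FB f b → FB f b' → Ray (cnd k t f) b b' → F b = F b') →
      ∑ b ∈ R, F (a * b) = ∑ b ∈ R, F b

/-- (100 lines) **R2**. (`DK/G/R2.lean`.) PROOF. `IsRC n R` is `IsRI n (fun b => b ≠ ⊥ ∧ PrI b n) R`; `FB f b` is `b ≠ ⊥ ∧ PrI b cnd`. FIRST: `S_O7` gives `R0` with `IsRC cnd R0`; for `b ∈ R0` `S_O8` (`n = cnd`, `M = 3 f`, `C = fun _ => True`) gives `b' ≠ ⊥`, `PrI b' (sN (NI cnd * (3 f)))`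
(so `PrI b' (sN (3 f))`: `S_O6` (4)), `Ray cnd b b'`; `R` = the image of `R0` under a choice `b ↦ b'`. SECOND: C_RI. THIRD: the image of `R` under `b ↦ a * b` is a system of representatives: `ex`: given `b`, `S_O7` gives `a'` with `Ray cnd (a * a') ⊤`; `b₁ ∈ R` with `Ray cnd (a' * b) b₁`;
then `Ray cnd (a * b₁) b`; `uni` and injectivity: cancel `a` (`S_O7`). C_RI. -/
def S_R2 : Prop := S_O6 → S_O7 → S_O8 → C_Mod → C_RI → C_R2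

/-- The classes modulo `cnN N`: first system. -/
def C_RB : Prop :=
  ∀ (k t : ℕ) [SqT k t] (f N : ℕ) (R : Finset (Ideal (OO k t))) (E : Finset (OO k t)), Fok f → 1 ≤ N →
    IsRC (cnd k t f) R → FR f R → IsRp (cnN k t f N) (fun v => v ∈ cnd k t f) E →
    ∀ I : Finset (Ideal (OO k t) × OO k t),
    (∀ p, p ∈ I ↔ p.1 ∈ R ∧ p.2 ∈ E ∧ Pm N (NI p.1 * Nm (1 + p.2)) 1) →
    Set.InjOn (fun p : Ideal (OO k t) × OO k t => sp (1 + p.2) * p.1) (I : Set _) ∧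
    ∀ B : Finset (Ideal (OO k t)), (B : Set (Ideal (OO k t))) =
      (fun p : Ideal (OO k t) × OO k t => sp (1 + p.2) * p.1) '' (I : Set _) →
      IsRI (cnN k t f N) (CN f N) B

/-- (150 lines) **RB**. (`DK/G/RB.lean`.) PROOF. Let `β = 1 + e`, `e ∈ E ⊆ cnd`. The condition `Pm` (`N ≥ 1`) implies that `3 ∤ Nm β`, so `β` is prime to `3` (`S_O6` (6), `Cop`: the norm is prime to `3`), and to `cnd` (C_Cop (4), (5)), so to `3 f` (C_Mod); `β ≠ 0`. `mem`: `NI (sp β * b) = Nm β NI b` (`S_O2`), `PrI` by `S_O6`.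
`ex`: let `CN f N b'`. `IsRC.ex`: `b ∈ R`, `Ray cnd b' b`. C_RUp (`n = cnd`, `n' = cnN N`): `β'` with `β' - 1 ∈ cnd`, `PrI (sp β') cnN`, `Ray cnN b' (sp β' * b)`. Let `e ∈ E` with `(β' - 1) - e ∈ cnN`, `β = 1 + e`: `β' - β ∈ cnN`, so (`S_O7`) `Ray cnN b' (sp β * b)`. The norm condition: `S_O9` for `f 3^N`
(`cnN ≤ sN (f 3^N)`, `S_O7`) and `S_O2` (`NI b' = Nm β NI b` modulo `3^N`). INJECTIVITY, `uni`: let `Ray cnN (sp β * b) (sp β' * b')`. `Ray cnd (sp β) ⊤` (`⊤ = sp 1`, `S_O7`), so `Ray cnd b b'`, `b = b'`; cancel `b`: `Ray cnN (sp β) (sp β')`, so `β - β' ∈ cnN` or `β + β' ∈ cnN` (`S_O7`);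
the latter is impossible (`β + β' - 2 ∈ ppb`, `cnN ≤ ppb`, `2 ∉ ppb`). So `e - e' ∈ cnN`, `e = e'`. -/
def S_RB : Prop := S_O2 → S_O4 → S_O6 → S_O7 → S_O9 → C_Cop → C_Mod → C_RUp → C_RB

/-- The classes modulo `cnN N`: second system. -/
def C_RD : Prop :=
  ∀ (k t : ℕ) [SqT k t] (f N : ℕ) (T : Finset (OO k t)) (D : Finset (Ideal (OO k t))), Fok f → 1 ≤ N →
    IsRep f N T → IsDS f N D →
    Set.InjOn (fun p : Ideal (OO k t) × OO k t => sp p.2 * p.1)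
      ((D ×ˢ T : Finset (Ideal (OO k t) × OO k t)) : Set _) ∧
    ∀ B : Finset (Ideal (OO k t)), (B : Set (Ideal (OO k t))) =
      (fun p : Ideal (OO k t) × OO k t => sp p.2 * p.1) '' ((D ×ˢ T : Finset (Ideal (OO k t) × OO k t)) : Set _) →
      IsRI (cnN k t f N) (CN f N) B

/-- (150 lines) **RD**. (`DK/G/RD.lean`.) PROOF. `mem`: `NI (sp h * c) = Nm h NI c = ± 1` modulo `3^N` (`S_O2`), `PrI` by `S_O6`, C_HNf. `ex`: let `CN f N b'`. `IsDS.ex`: `c ∈ D`, `HP f a`, `Ray F b' (a * c)`; `Ray F a (sp v)`, `Hf f v`; so `Ray F b' (sp v * c)` (`S_O7`). C_RUp (`n = F`, `n' = cnN`):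
`β` with `β - 1 ∈ F`, `Ray cnN b' (sp β * (sp v * c))`; `h' = β v`: `Hf f h'` (`h' - v ∈ F`), and `NI b' = Nm h' NI c` modulo `3^N` (`S_O9` for `f 3^N`, `S_O2`), so `Nm h' = ± 1` modulo `3^N`; as `Nm h' = 1` modulo `3` (C_HNf) and `N ≥ 1`: `3^N ∣ Nm h' - 1`: `HN f N h'`. `IsRep.ex`: `h ∈ T` with
`h' - h ∈ cnN`, so `Ray cnN b' (sp h * c)` (`S_O7`). `uni`, INJECTIVITY: let `Ray cnN (sp h * c) (sp h' * c')`. Let `h'' ≠ 0` be an inverse of `h'` modulo `F` (C_Cop): `Hf f h''`, `Ray F (sp (h'' h) * c) (sp (h'' h') * c')`, `Ray F (sp (h'' h')) ⊤`, so `Ray F c' (sp (h'' h) * c)` and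
`HP f (sp (h'' h))`: `c = c'` by `IsDS.uni`. Cancel `c`: `Ray cnN (sp h) (sp h')`, `h - h' ∈ cnN` or `h + h' ∈ cnN` (`S_O7`); the latter is impossible (`h, h' = 1` modulo `ppb`, C_HNf); `h = h'` (`IsRep.uni`). -/
def S_RD : Prop := S_O2 → S_O4 → S_O6 → S_O7 → S_O9 → C_Cop → C_Mod → C_HNf → C_RUp → C_RD

open Classical in
/-- Comparison of the two systems. -/
def C_RS : Prop :=
  ∀ (k t : ℕ) [SqT k t] (f N : ℕ) (R : Finset (Ideal (OO k t))) (E T : Finset (OO k t))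
    (D : Finset (Ideal (OO k t))), Fok f → 1 ≤ N → IsRC (cnd k t f) R → FR f R →
    IsRp (cnN k t f N) (fun v => v ∈ cnd k t f) E → IsRep f N T → IsDS f N D →
    ∀ F : Ideal (OO k t) → Om,
    (∀ b b' : Ideal (OO k t), CN f N b → CN f N b' → Ray (cnN k t f N) b b' → F b = F b') →
    (∑ b ∈ R, ∑ e ∈ E, if Pm N (NI b * Nm (1 + e)) 1 then F (sp (1 + e) * b) else 0) =
    ∑ c ∈ D, ∑ h ∈ T, F (sp h * c)

/-- (80 lines) **RS**. (`DK/G/RS.lean`.) PROOF. `I` = the filter of `R ×ˢ E`; the left side is `∑ p ∈ I, F (sp (1 + p.2) * p.1)` (`Finset.sum_product`, `Finset.sum_filter`) `= ∑ b ∈ I.image .., F b` (`Finset.sum_image`, C_RB), the right side is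
`∑ b ∈ (D ×ˢ T).image .., F b` (C_RD). Both images are `IsRI cnN (CN f N)`: C_RI. -/
def S_RS : Prop := C_Mod → C_RI → C_RB → C_RD → C_RS

/-- (150 lines) **GR**: `S_GR`. (`DK/G/GRm.lean`.) PROOF. `T`: C_Ex for `cnN N` and `HN f N` (C_HNf, C_Mod). `D`: `R` from `S_O7` (last claim) for the modulus `F = sN (3 f)`. For `b ∈ R`: `NI b` is prime to `3` (`S_O6`), so there is an integer `x` with `3^N ∣ x NI b - 1`, `x = ± 1` modulo `3` (if `N ≥ 1`); `a = ± x = 1`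
modulo `3`; `v_b` from C_V0 for `a`; `c_b = sp v_b * b`: `Ray F b c_b` (`v_b - 1 ∈ F`), `PrI c_b F`, `NI c_b = ± 1` modulo `3^N` (`S_O2`). Let `Y` be the set of the `c_b`. The relation `c ~ c'` iff there is `a` with `HP f a` and `Ray F c' (a * c)` is an equivalence relation on ideals `≠ ⊥` prime to `F`
(C_HNf and `S_O7`: reflexive: `a = ⊤ = sp 1`; symmetric: `Ray F a (sp v)`, `u ≠ 0` an inverse of `v` modulo `F` (C_Cop), `Hf f u`, `Ray F (sp (u v)) ⊤`; transitive: products). Choose representatives: `Y.image r`, `r c` a chosen element of the nonempty finite set `{c' ∈ Y | c ~ c'}`, which depends only on the class of `c`. -/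
def S_GRm : Prop := S_O2 → S_O6 → S_O7 → C_Cop → C_Mod → C_HNf → C_V0 → C_Ex → S_GR

/-- The groups `HP`, `HPN`. -/
def C_HPg : Prop :=
  ∀ (k t : ℕ) [SqT k t] (f : ℕ), Fok f →
    (HP f (⊤ : Ideal (OO k t)) ∧ (∀ a : Ideal (OO k t), HP f a → a ≠ ⊥ ∧ PrI a (sN k t (3 * f))) ∧
      (∀ a a' : Ideal (OO k t), HP f a → Ray (sN k t (3 * f)) a a' → HP f a') ∧
      ∀ a a' : Ideal (OO k t), HP f a → HP f a' → HP f (a * a')) ∧
    ∀ N : ℕ, 1 ≤ N → HPN f N (⊤ : Ideal (OO k t)) ∧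
      (∀ a : Ideal (OO k t), HPN f N a → a ≠ ⊥ ∧ PrI a (sN k t (f * 3 ^ N))) ∧
      (∀ a a' : Ideal (OO k t), HPN f N a → Ray (sN k t (f * 3 ^ N)) a a' → HPN f N a') ∧
      (∀ a a' : Ideal (OO k t), HPN f N a → HPN f N a' → HPN f N (a * a')) ∧
      ∀ a : Ideal (OO k t), a ≠ ⊥ → PrI a (sN k t (f * 3 ^ N)) → (HPN f N a ↔ HP f a ∧
        (3 : ℤ) ^ N ∣ (NI a : ℤ) - 1)

/-- (120 lines) **HPg**. (`DK/G/HPg.lean`.) PROOF. `⊤ = sp 1`. All the closure properties: C_HNf and `S_O7` (`Ray` is an equivalence relation compatible with products; `PrI` and `≠ ⊥` are invariant). LAST CLAIM. `→`: `Ray (sN (f 3^N)) a (sp v)` gives `Ray F a (sp v)` (`S_O7`, C_Mod), and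
`NI a = Nm v` modulo `f 3^N` (`S_O9`, `S_O2`). `←`: `Ray F a (sp v)`, `Hf f v`, `v ≠ 0`. C_RUp (`n = F`, `n' = sN (f 3^N)`, `b' = a`, `b = sp v`): `β` with `β - 1 ∈ F`, `Ray (sN (f 3^N)) a (sp β * sp v) = sp (β v)`; `Hf f (β v)` (C_HNf), `Nm (β v) = NI a = 1` modulo `3^N` (`S_O9`, `S_O2`): `HN f N (β v)`. -/
def S_HPg : Prop := S_O2 → S_O6 → S_O7 → S_O9 → C_Cop → C_Mod → C_HNf → C_RUp → C_HPg

/-- (150 lines) **GM**: `S_GM`. (`DK/G/GMm.lean`.) PROOF. Groups: C_HPg. Fields: `Mf = FixI F (HP f)`, `Mn N = FixI (sN (f * 3^N)) (HPN f N)`: `S_E8` gives finiteness, `KQ ≤ ·` and the Galois groups. `Mf ≤ Mn N`: let `x ∈ Mf`, `τ ∈ GK`, `Psi τ (sN (f 3^N)) a`, `HPN f N a`: `Psi τ F a` (`S_E1`, last claim, C_Mod),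
`HP f a`, so `τ x = x`. `Mn N ≤ Mn (N+1)`: the same (`HPN f (N+1) a → HPN f N a`: last claim of C_HPg). LAST CLAIM. `→`: `τ` fixes `KQ ≤ Mf ≤ Mn`, so `τ ∈ GK`; `Psi τ (sN (f 3^N)) a` (`S_E1`), `HPN f N a`, `NI a = 1` modulo `3^N`, and `τ ζ = ζ^(NI a)` (`S_E6` for `N := f 3^N`: `ζ^(f 3^N) = 1`), `= ζ`.
`←`: `τ ∈ GK`, `Psi τ (sN (f 3^N)) a`, `Psi τ F a`, so `HP f a`; `ζ^(NI a) = τ ζ = ζ` and `ζ` is primitive: `3^N ∣ NI a - 1` (`IsPrimitiveRoot.zpow_eq_one_iff_dvd`); C_HPg: `HPN f N a`. -/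
def S_GMm : Prop := S_E1 → S_E6 → S_E8 → C_Mod → C_HPg → S_GM

/-! ## 3. Class functions -/

/-- Homogeneity of `g`. -/
def C_Hg : Prop :=
  ∀ (k t : ℕ) [SqT k t] (m b : Ideal (OO k t)), m ≠ ⊥ → b ≠ ⊥ → PrI b (ppb k t) →
    (∀ (α : OO k t) (z : ℂ), α ≠ 0 → α - 1 ∈ ppb k t → gO m (sp α * b) z = gO m b (toC α * z)) ∧
    ∀ z l : ℂ, l ∈ Lam b → gO m b (z + l) = gO m b z

/-- (60 lines) **Hg**. PROOF. The complex numbers `gC` are equal, then apply `ofC`. `KC (sp α * b) z = toC α * KC b (toC α * z)` (`S_B7`), also for `m * b` (`m * (sp α * b) = sp α * (m * b)`); `fr (sp α * b) = toC α * fr b` (`S_B12`); `toC α ≠ 0`. Periodicity: `S_B10` (2) for `b` and for `m * b` (`l ∈ Lam b ⊆ Lam (m * b)`). -/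
def S_Hg : Prop := S_B7 → S_B10 → S_B12 → C_Hg

/-- Homogeneous functions at points of order `n` depend only on the ray class modulo `n`. -/
def C_RayF : Prop :=
  ∀ (k t : ℕ) [SqT k t] (n : Ideal (OO k t)) (A : Type) (F : Ideal (OO k t) → ℂ → A), n ≠ ⊥ → n ≤ ppb k t →
    (∀ (b : Ideal (OO k t)) (α : OO k t) (z : ℂ), b ≠ ⊥ → PrI b (ppb k t) → α ≠ 0 → α - 1 ∈ ppb k t →
      F (sp α * b) z = F b (toC α * z)) →
    (∀ (b : Ideal (OO k t)) (z l : ℂ), b ≠ ⊥ → PrI b (ppb k t) → l ∈ Lam b → F b (z + l) = F b z) →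
    ∀ b b' : Ideal (OO k t), b ≠ ⊥ → PrI b (ppb k t) → Ray n b b' → ∀ z ∈ Lam n, F b z = F b' z

/-- (80 lines) **RayF**. PROOF. `sp α * b = sp α' * b'`, `α - α' ∈ n`, `α` prime to `n`. Let `β ≠ 0` with `α β - 1 ∈ n` (C_Cop); then `α' β - 1 ∈ n`; both are in `ppb`. `b' ≠ ⊥` and `PrI b' ppb` (`S_O7`: `Ray ppb b b'`). `sp (α β) * b = sp (α' β) * b'`, so `F b (toC (α β) * z) = F b' (toC (α' β) * z)`.
`toC (α β) * z = z + toC (α β - 1) * z` and the second term is in `toC O` (`z ∈ Lam n`), which is contained in `Lam b` (`lam_..`). So the left side is `F b z`, and the same for the right side. -/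
def S_RayF : Prop := S_O7 → C_Cop → C_RayF

/-- The points `z_N`. -/
def C_Zn : Prop :=
  ∀ (k t : ℕ) [SqT k t] (f N : ℕ), Fok f →
    (∀ x ∈ cnN k t f N, ∃ u : OO k t, toC x * zN k t f N = toC u) ∧
    zN k t f N ∈ Lam (cnN k t f N) ∧ (∀ v : OO k t, Tor k t (toC v * zN k t f N)) ∧
    3 * zN k t f (N + 1) = zN k t f N ∧
    (∀ (b : Ideal (OO k t)) (x y : OO k t), x - y ∈ cnN k t f N →
      ∃ l ∈ Lam b, toC x * zN k t f N = toC y * zN k t f N + l) ∧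
    (∀ (b n : Ideal (OO k t)) (x : OO k t), n ≤ cnN k t f N → toC x * zN k t f N ∈ Lam (n * b)) ∧
    ∀ v : OO k t, v ∈ pp k t → ∀ u ∈ ppb k t, ∃ o : OO k t, v * u = 3 * o

/-- (80 lines) **Zn**. (Compare `S_hZp` of `DT/H3/Spec.lean`.) PROOF. `z_N = toC c₀/(3^(N+1) f)` by definition. `x ∈ cnN = sN (f 3^N) * ppb`: `x = f 3^N y` with `y ∈ ppb` (`Ideal.mem_span_singleton_mul`), `x z_N = y c₀ / 3` and `y c₀ ∈ ppb pp = sN 3` (`S_O4`, C_C0). `Lam n`: definition. `tor_div` of `DT/Base.lean`.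
(5) `toC (x - y) * z_N ∈ toC O ⊆ Lam b`. (6) for `v ∈ n * b ≤ cnN`: `v x ∈ cnN`, (1). -/
def S_Zn : Prop := S_O4 → C_C0 → C_Zn

/-! ## 4. Reduction at the primes above `3` -/

/-- `P` above `pp`: the elements of `O` in `M_P`. -/
def C_AbP : Prop :=
  ∀ (k t : ℕ) [SqT k t] (P : Ideal ZZ), (AbP k t P → ∀ v : OO k t, MP P (toO v) ↔ v ∈ pp k t) ∧
    (AbPb k t P → ∀ v : OO k t, MP P (toO v) ↔ v ∈ ppb k t) ∧ ¬ (AbP k t P ∧ AbPb k t P) ∧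
    (Npr P → ¬ AbP k t P → ∃ α ∈ pp k t, ¬ MP P (toO α)) ∧
    (Npr P → ¬ AbPb k t P → ∃ α ∈ ppb k t, ¬ MP P (toO α))

/-- (80 lines) **AbP**. (`DK/G/AbP.lean`.) PROOF. `v ∈ pp`: `v = 3 x + w y` with `x, y` in `O`, `toO` is a ring homomorphism with values in `V_P`. `v ∉ pp`: `v - 1 ∈ pp` or `v + 1 ∈ pp` (C_Cop) and `toO v = ± 1 + (..)` is not in `M_P` (`MP.one_not`). The same for `ppb`. `w + (1 - w) = 1` is not in `M_P`.
If `¬ AbP k t P` then `¬ MP P 3` (take `α = 3`) or `¬ MP P (wO k t)` (`α = wI k t`, `toO_wI`). The same for `ppb` (`1 - w`). -/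
def S_AbP : Prop := S_O4 → C_Cop → C_AbP

/-- The points `h z_N + u`, `u ∈ E[m]`, are not primary. -/
def C_NQ : Prop :=
  ∀ (k t : ℕ) [SqT k t] (f N : ℕ) (m b : Ideal (OO k t)), Fok f → 1 ≤ N → m ≠ ⊥ → b ≠ ⊥ →
    PrI m (sN k t 3) → PrI b (sN k t 3) → ∀ Q : Ideal ZZ, Npr Q → ∀ h : OO k t, PrI (sp h) (sN k t 3) →
    ∀ u ∈ Lam (m * b), ¬ Qp Q b (toC h * zN k t f N + u)

/-- (150 lines) **NQ**. (`DK/G/NQ.lean`.) PROOF. `c = c₀`. Not both `AbP k t Q` and `AbPb k t Q` (C_AbP). CASE `¬ AbP k t Q`: `α₀ ∈ pp`, `¬ MP Q (toO α₀)` (C_AbP), `α = α₀^N ∈ pp^N`, `¬ MP Q (toO α)` (`MP.of_pow`). The ideal `I = ppb^(N+1) * m * sN f` is not contained in the prime ideal `pp`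
(`pp ⊔ ppb = ⊤`, `m ⊔ sN 3 = ⊤` with `3 ∈ pp`, `f ∉ pp`): let `β ∈ I`, `β ∉ pp`. `α β c ∈ pp^(N+1) * ppb^(N+1) * m * sN f = sN (3^(N+1) f) * m` (`pp * ppb = sN 3`), so `α β c = f 3^(N+1) γ` with `γ ∈ m`. Put `z = h z_N + u`, `z_N = toC c/(3^(N+1) f)`: `toC (α β) z = toC (γ h) + toC (α β) u ∈ Lam b`
(`β ∈ m` and `u ∈ Lam (m * b)`: `lam_prod`). If `Qp Q b z` then `toC β z ∈ Lam b`, and `toC β u ∈ Lam b`, so `toC (β h c)/(3^(N+1) f) ∈ Lam b`. Let `x ∈ b`, `x ∉ pp` (`b ⊔ sN 3 = ⊤`, `3 ∈ pp`): `x β h c = 3^(N+1) f o` with `o ∈ O` is in `pp^2` (`N ≥ 1`), so `x β h ∈ pp` (C_C0, last claim), and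
`x`, `β` or `h` is in `pp`: contradiction. CASE `¬ AbPb k t Q`: `α = α₀^(N+1) ∈ ppb^(N+1)`, `I = pp^N * m * sN f`, `β ∈ I`, `β ∉ ppb`; again `α β c ∈ sN (3^(N+1) f) * m`; at the end `x β h c ∈ ppb`, and `c ∉ ppb` (C_C0). -/
def S_NQ : Prop := S_O4 → C_Cop → C_Mod → C_C0 → C_AbP → C_NQ

/-- Values at `h z_N` and on `E[m]`, `P` above `pp`. -/
def C_Rdz : Prop :=
  ∀ (k t : ℕ) [SqT k t] (f N : ℕ) (m b : Ideal (OO k t)), Fok f → 1 ≤ N → m ≠ ⊥ → b ≠ ⊥ →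
    PrI m (sN k t 6) → PrI b (sN k t 3) → ∀ P : Ideal ZZ, AbP k t P → ∀ h : OO k t,
    PrI (sp h) (sN k t 3) → ∀ z : ℂ, z = toC h * zN k t f N →
    Tor k t z ∧ z ∉ Lam (m * b) ∧ z ∉ Lam b ∧ VP P (xO b z) ∧ VP P (vO b z) ∧ VP P (gO m b z) ∧
    (∀ l ∈ Lam (pp k t * b), z + l ∉ Lam b) ∧ (∀ l ∈ Lam (pp k t * b), z + l ∉ Lam (m * b)) ∧
    ∀ u ∈ hs m b, Tor k t u ∧ VP P (xO b u) ∧ UP P (xO b z - xO b u)

/-- (130 lines) **Rdz**. (`DK/G/Rdz.lean`.) PROOF. `PrI m (sN 3)` (`S_O6`). `z ∉ Lam (m * b)`: otherwise `u = -z ∈ Lam (m * b)` and `z + u = 0` is `Qp` (`0 ∈ Lam b`), against C_NQ; so `z ∉ Lam b` (`lam_mono`). `Tor`: C_Zn. `VP P (xO b z)`, `¬ IK P b z`: `S_D2`, the claim `¬ Qp → ¬ IK ∧ VP` (`¬ Qp P b z`: C_NQ with `u = 0`);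
`VP P (vO b z)`: `S_D2` (`PrI b ppb`: C_Mod-like, `S_O6`). `VP P (gO m b z)`: `S_D9`, last claim, with C_NQ. `l ∈ Lam (pp * b)`: `l` is `0`, `T` or `- T` modulo `Lam b` (`S_L6a` (1), `T = ptT b`), so `IK P b l` (`S_D2` (1), `S_D1`; `AbP k t P` excludes `AbPb k t P` by C_AbP); if `z + l ∈ Lam b` then
`z = (z + l) + (-1) l` is in `IK P b` (`S_D1`), hence `Qp P b z`, contradiction. If `z + l ∈ Lam (m * b)` then with `u = -(z + l)`: `z + u = - l` is `IK P b`, so `Qp P b`, against C_NQ. `u ∈ hs m b`: `u ∈ Lam (m * b)`, `u ∉ Lam b` (`S_B14`); `Tor k t u`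
(`tor_lam`). `¬ Qp P b u`: there is `α ∈ m`, `α ∉ pp` (`m ⊔ sN 3 = ⊤`), `¬ MP P (toO α)` (C_AbP), `toC α u ∈ Lam b` and `u ∉ Lam b` (`β = 1`). So `VP P (xO b u)`, `¬ IK P b u`. If `MP P (xO b z - xO b u)` then by `S_D1` (7) `z + u` or `z - u` is in `IK P b`, so it is
`Qp`, against C_NQ (`± u ∈ Lam (m * b)`). `VP P (xO b z - xO b u)`. -/
def S_Rdz : Prop := S_O4 → S_O6 → S_L6a → S_B14 → S_D1 → S_D2 → S_D9 → C_Zn → C_AbP → C_NQ → C_Rdz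

/-- The point `T₀`. -/
def C_T0 : Prop :=
  ∀ (k t : ℕ) [SqT k t] (f : ℕ) (b : Ideal (OO k t)), Fok f → b ≠ ⊥ → PrI b (sN k t 3) →
    Tor k t (T0 k t f) ∧ (∀ n : Ideal (OO k t), n ≤ pp k t → T0 k t f ∈ Lam (n * b)) ∧
    T0 k t f ∉ Lam b ∧ (T0 k t f - ptT b ∈ Lam b ∨ T0 k t f + ptT b ∈ Lam b) ∧
    (∀ h : OO k t, h - 1 ∈ pp k t → toC h * T0 k t f - T0 k t f ∈ Lam b) ∧
    ∀ (N : ℕ) (h : OO k t), 1 ≤ N →
      toC (aN k t f N * h) * zN k t f N = toC h * zN k t f N + toC h * T0 k t f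

/-- (100 lines) **T0**. PROOF. For `v ∈ pp`: `v f (1 - w)^2 c₀ ∈ pp ppb^2 pp = sN 9` (`1 - w ∈ ppb`, `c₀ ∈ pp`: C_C0; `pp * ppb = sN 3`: `S_O4`), so `toC v * T0 ∈ toC O ⊆ Lam b`; this gives (2) (for `v ∈ n * b ≤ pp`) and (5). `T0 ∉ Lam b`: let `x ∈ b`, `x ∉ pp` (`b ⊔ sN 3 = ⊤`); if `toC x * T0 ∈ toC O`
then `x f (1 - w)^2 c₀ ∈ sN 9 ≤ pp^2`, so `x f (1 - w)^2 ∈ pp` (C_C0, last claim), but `x`, `f`, `1 - w` are not in the prime ideal `pp` (`S_O4`). (4): `S_L6a` (1): the points of `Lam (pp * b)`. (6): `(a_N - 1) z_N = f^2 3^(N-1) (1 - w)^2 c₀/(3^(N+1) f) = T0`. -/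
def S_T0 : Prop := S_O4 → S_L6a → C_Cop → C_Mod → C_C0 → C_T0

/-- The sign of `W(T₀)`. -/
def C_Sg : Prop := ∀ (k t : ℕ) [SqT k t] (f : ℕ), Fok f → ∃ σ : ℤ, Sgn k t f σ

/-- (150 lines) **Sg**. PROOF. `z = zet 3`, `l = 1 - z`. FIRST for `b` (`≠ ⊥`, prime to `3`), `A' = aO (pp * b)`, `ρ = rhO (pp * b)`, `V = vO b T0`. `xO b T0 = xO b (ptT b)` (C_T0 (4), `S_B1`), `= -ρ/3` (`S_B6`, `S_R1`, `S_R4` with `io`), `V^2 = 4 xO^3 + (aO b xO + 1)^2` (`S_R5`, `T0 ∉ Lam b`; `m := ⊤`, `PrI b ppb`). With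
`ρ^3 = A'^2 + 3 A' + 9`, `aO b * ρ = A' + 6` (`S_B6`, `io`) one finds `27 V^2 = -4 ρ^3 + 3 (aO b ρ)^2 - 18 (aO b ρ) + 27 = -(A' - 3)^2`. As `l^6 = -27` (C_Zt): `(V l^3)^2 = (A' - 3)^2`, `V l^3 = ± (A' - 3)`. For `b = ⊤` let `σ` be the sign. Let `a ≠ ⊥` be prime to `3`. `S_E7`: `τ ∈ GK` with `Psi τ (sN 3) a`. `S_E10` (2)
(`sN 3 ≤ ppb`; `T0 ∈ Lam (sN 3 * ⊤)`: C_T0 (2)): `τ (vO ⊤ T0) = vO (a * ⊤) T0`; `τ (aO (pp * ⊤)) = aO (a * (pp * ⊤))` (`Psi.aa`); `τ z = z^(NI a)` (`S_E6`, `N = 3`). `NI a` is prime to `3` (`S_O6` (5)). If `NI a = 1` modulo `3`: `τ z = z`, `jacobiSym = 1`: clear. If `NI a = 2` modulo `3`: `τ z = z^2`, `jacobiSym = -1`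
(`jacobiSym.mod_left`, `decide`), `(1 - z^2)^3 = (1 + z)^3 l^3 = (-z^2)^3 l^3 = -l^3`: so `- vO a T0 l^3 = σ (aO (pp * a) - 3)`. -/
def S_Sg : Prop := S_O6 → S_B1 → S_B6 → S_R1 → S_R4 → S_R5 → S_E6 → S_E7 → S_E10 → C_Zt → C_Mod → C_T0 → C_Sg

/-- Translation by `T₀`: the coordinate `X`. -/
def C_ThA : Prop :=
  ∀ (k t : ℕ) [SqT k t] (f N : ℕ) (b : Ideal (OO k t)), Fok f → 1 ≤ N → b ≠ ⊥ → PrI b (sN k t 3) →
    ∀ P : Ideal ZZ, AbP k t P → ∀ h : OO k t, PrI (sp h) (sN k t 3) → ∀ z : ℂ, z = toC h * zN k t f N →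
    ∀ σ : ℤ, (σ = 1 ∨ σ = -1) →
    vO b (T0 k t f) * (1 - zet 3) ^ 3 = (σ : Om) * (aO (pp k t * b) - 3) →
    TP P 3 (xO b (z + T0 k t f) - xO b z - (σ : Om) * (1 - zet 3) * vO b z * (aO b)⁻¹)

/-- (200 lines) **ThA**. PROOF. `l = 1 - zet 3`, `ω = zet 3`; `X = xO b z`, `X' = xO b (z + T0)`, `X'' = xO b (z - T0)`, `A = aO b`, `A' = aO (pp * b)`, `ρ = rhO (pp * b)`, `V = vO b z`, `V_T = vO b T0`. C_Rdz (with `m = ⊤`): `VP P X`, `VP P V`, `z`, `z ± T0 ∉ Lam b`. `xO b T0 = -ρ/3` (as in Sg: C_T0 (4), `S_B1`, `S_B6`, `S_R1`, `S_R4`).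
`S_R2`: `ρ`, `A` are units, `TP P 3 (A' - A^3)`, `TP P 3 (ρ - A^2)` (`¬ AbPb k t P`: C_AbP). Let `y = 1 / xO b T0 = -3/ρ`, `q = 1 - X y` (`= 1` modulo `3`, a unit). `S_B3` (1) at `z`, `T0` in `Om` (`io`, `S_R4`, `S_R1`), divided by `(xO b T0)^2`: `(X' + X'') q^2 = 2 X (1 + X y) + A^2 X y + A (X y^2 + y) + y^2`, so
`TP P 3 (X' + X'' - 2 X)`. `S_B3` (1) (third formula), with `wdC b = vO * wdC b S0` (`S_R5`), `wdC b S0 ^ 2 = wdC b (ptS b)^2 = r2^3` (`S_B12` (1), `S_B1`): `(X' - X'') (X - xO b T0)^2 = - V V_T`, so `(X' - X'') q^2 = - V V_T y^2`. `y^2 = 9/ρ^2 = l^4 ω/ρ^2` (C_Zt), `V_T l^3 = σ (A' - 3)`: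
`(X' - X'') q^2 = - σ V (A' - 3) l ω/ρ^2`. Modulo `3 V_P`: `q^2 = 1`, `(A' - 3)/ρ^2 = A^3/A^4 = 1/A`, `l ω = l` (`l - l ω = l^2`, C_Zt). So `TP P 3 (X' - X'' + σ l V/A)`, and adding: `TP P 3 (2 X' - 2 X + σ l V/A)`. Multiply by `2`: `4 = 1`, `2 = -1` modulo `3`: `TP P 3 (X' - X - σ l V/A)`. -/
def S_ThA : Prop :=
  S_L6a → S_B1 → S_B3 → S_B6 → S_B12 → S_R1 → DT.S_R2 → S_R4 → S_R5 → C_Zt → C_T0 → C_AbP → C_Rdz → C_ThA

/-- Translation by `T₀`: the function `Theta`. -/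
def C_ThT : Prop :=
  ∀ (k t : ℕ) [SqT k t] (f N : ℕ) (m b : Ideal (OO k t)), Fok f → 1 ≤ N → m ≠ ⊥ → b ≠ ⊥ →
    PrI m (sN k t 6) → PrI b (sN k t 3) →
    ∀ P : Ideal ZZ, AbP k t P → ∀ h : OO k t, PrI (sp h) (sN k t 3) → ∀ z : ℂ, z = toC h * zN k t f N →
    ∀ σ : ℤ, (σ = 1 ∨ σ = -1) →
    vO b (T0 k t f) * (1 - zet 3) ^ 3 = (σ : Om) * (aO (pp k t * b) - 3) →
    Theta m b z ≠ 0 ∧
      TP P 3 (Theta m b (z + T0 k t f) / Theta m b z - 1 - (σ : Om) * (1 - zet 3) * gO m b z)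

/-- (150 lines) **ThT**. (Compare `DK/G/ThT.lean`.) PROOF. `l = 1 - zet 3`; `TP P 3` is `TP P (l^2)` (C_Zt). `X`, `X'`, `V`, `A` as in ThA, `X_u = xO b u`, `u ∈ hs m b`. C_Rdz: `X - X_u` is a unit, `VP P V`, `A` is a unit (`S_R2`). C_ThA: `ε = X' - X = σ l V/A + 3 (..)`, in `l V_P`. `Theta m b z ≠ 0`, `Theta m b (z + T0) ≠ 0`: `S_D8` (last;
`z`, `z + T0 ∉ Lam (m * b)`: C_Rdz, C_T0), so all factors `dlO b * X_u^2` are `≠ 0` and `Theta (z + T0)/Theta z = ∏_u ((X - X_u)/(X' - X_u))^2`. `X' - X_u = (X - X_u)(1 + δ_u)`, `δ_u = ε/(X - X_u) ∈ l V_P`, `(1 + δ)^(-2) = 1 - 2 δ + (..) δ^2 = 1 + δ` modulo `3` (`(1 + δ)^(-2) - 1 - δ = (1 - (1 + δ)^3)/(1 + δ)^2`, and `(1 + δ)^3 - 1 = 3 δ + 3 δ^2 + δ^3`).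
The product over `u` of `1 + δ_u + 3 r_u` is `1 + ∑ δ_u` modulo `3` (induction; `δ_u δ_u' ∈ l^2 V_P`), and `∑ δ_u = ε ∑ 1/(X - X_u) = σ l ∑ V/(A (X - X_u)) = σ l gO m b z` modulo `3` (`S_R5`, `z ∉ Lam (m * b)`). -/
def S_ThT : Prop := S_B14 → DT.S_R2 → S_R5 → S_D8 → C_Zt → C_T0 → C_AbP → C_Rdz → C_ThA → C_ThT

/-! ## 5. The units -/

/-- The units: first properties. -/
def C_UBa : Prop :=
  ∀ (k t : ℕ) [SqT k t] (f : ℕ) (m : Ideal (OO k t)) (N : ℕ) (T : Finset (OO k t)), FM f m → 1 ≤ N →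
    IsRep f N T → ∀ b : Ideal (OO k t), b ≠ ⊥ → PrI b (sN k t (3 * f)) →
      uN f N m T b ≠ 0 ∧ (∀ Q : Ideal ZZ, Npr Q → UP Q (uN f N m T b)) ∧
      (∀ b' : Ideal (OO k t), Ray (sN k t (f * 3 ^ N)) b b' → uN f N m T b' = uN f N m T b) ∧
      (∀ v : OO k t, v ≠ 0 → uN f N m T (sp v * b) = ∏ h ∈ T, Theta m b (toC (v * h) * zN k t f N)) ∧
      (∀ a : Ideal (OO k t), HPN f N a → uN f N m T (a * b) = uN f N m T b) ∧
      ∀ T' : Finset (OO k t), IsRep f N T' → uN f N m T' b = uN f N m T b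

/-- (180 lines) **UBa**. (Compare `DK/G/UBa.lean`.) PROOF. `z_N = zN k t f N`. `G t = Theta m b (toC t * z_N)` is periodic modulo `cnN` (`S_D8` (2), C_Zn (5)). UNITS: `S_D5` at `h z_N`, with C_NQ (`PrI (sp h) (sN 3)`: C_HNf, C_Mod; `PrI m (sN 6)`, C_Mod); `UP.prod`; nonzero: `S_D8` (last) with `h z_N ∉ Lam (m * b)` (C_NQ: `0` is `Qp`), or `UP.ne_zero` for any `Q`.
`sp v * b`: `S_D8` (3), `toC v * (toC h * z_N) = toC (v h) * z_N`. CLASS FUNCTION: `sp α * b = sp α' * b'`, `α - α' ∈ sN (f 3^N)`, both prime to it. Let `γ ≠ 0` with `α γ - 1 ∈ cnN` (C_Cop, C_Mod). Then `α' γ - 1 ∈ sN (f 3^N)`, so `HN f N (α' γ)` (C_HNf (5) with `v = 1`). `sp (α γ) * b = sp (α' γ) * b'`. The product over `h` of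
`Theta m (sp (α γ) * b) (h z_N) = Theta m b (toC (α γ h) z_N)` is `uN b` (`α γ h - h ∈ cnN`), and the product of `Theta m (sp (α' γ) * b') (h z_N) = Theta m b' (toC (α' γ h) z_N)` is `uN b'` by C_Rp (2) (inverse of `α' γ` modulo `cnN`: C_Cop; it is in `HN f N` by C_HNf; `b' ≠ ⊥` and prime to `3 f` by `S_O7`).
`HPN f N a`: `Ray (sN (f 3^N)) a (sp v)`, `HN f N v`, `v ≠ 0`; `Ray (sN (f 3^N)) (a * b) (sp v * b)` (`S_O7`), so `uN (a * b) = uN (sp v * b) = ∏ G (v h) = ∏ G h` by the class function property and C_Rp (2). `T'`: C_Rp (1), `isRep_iff`. -/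
def S_UBa : Prop := S_O6 → S_O7 → S_D5 → S_D8 → C_Cop → C_Mod → C_HNf → C_Rp → C_Zn → C_NQ → C_UBa

/-- The units: Galois action. -/
def C_UBb : Prop :=
  ∀ (k t : ℕ) [SqT k t] (f : ℕ) (m : Ideal (OO k t)) (N : ℕ) (T : Finset (OO k t)), FM f m → 1 ≤ N →
    IsRep f N T → ∀ b : Ideal (OO k t), b ≠ ⊥ → PrI b (sN k t (3 * f)) → uN f N m T b ∈ Mn k t f N ∧
      ∀ τ ∈ GK k t, ∀ a : Ideal (OO k t), Psi τ (sN k t (f * 3 ^ N)) a →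
        τ (uN f N m T b) = uN f N m T (a * b)

/-- (80 lines) **UBb**. (`DK/G/UBb.lean`.) PROOF. `n' = cnN N * m ≠ ⊥`. Let `Psi τ (sN (f 3^N)) a`. `S_E1`: `Psi τ n' a'`, so `Psi τ (sN (f 3^N)) a'` (`n' ≤ cnN ≤ sN (f 3^N)`) and `Ray (sN (f 3^N)) a a'`. `S_E10` (last claim) for `n' ≤ m`, `z = toC h * z_N ∈ Lam (n' * b)` (C_Zn (6)): `τ (Theta m b z) = Theta m (a' * b) z`. Product over `h`:
`τ (uN b) = uN (a' * b)`, and this is `uN (a * b)` by C_UBa (class function; `Ray (sN (f 3^N)) (a * b) (a' * b)`; `a * b ≠ ⊥`, `PrI (a * b) (sN (3 f))`: `Psi.ne`, `Psi.cop`, C_Mod, `S_O6`). `uN b ∈ Mn`: `τ ∈ GK`, `Psi τ (sN (f 3^N)) a`, `HPN f N a`: `τ (uN b) = uN (a * b) = uN b`. -/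
def S_UBb : Prop := S_O6 → S_O7 → S_E1 → S_E10 → C_Mod → C_Zn → C_UBa → C_UBb

/-- The constant of the distribution relation for `3`. -/
def C_CT : Prop :=
  ∀ (k t : ℕ) [SqT k t] (f : ℕ) (m : Ideal (OO k t)), FM f m → ∀ b : Ideal (OO k t), b ≠ ⊥ →
    ∃ C ∈ Mf k t f, C ≠ 0 ∧ ∀ R : Finset ℂ, IsSys (sN k t 3) b R → ∀ z : ℂ, Tor k t z →
      z ∉ Lam (sN k t 3 * m * b) → ∏ v ∈ R, Theta m b (z + v) = C * Theta m b (3 * z)

/-- (180 lines) **CT**. PROOF. `S_D7` for `l = sN 3` (`sN 3 ⊔ m = ⊤`): `C_b`, with `Theta m (sN 3 * b) z = Theta m b (3 z)` (`S_D8` (3), `toC 3 = 3`). For every `c ≠ ⊥` let `C_c` be a constant from `S_D7`; it is determined by the relation: (*) if `z` is torsion, `z ∉ Lam (sN 3 * m * c)` then `Theta m c (3 z) ≠ 0` (`S_D8` (last): `3 z ∉ Lam (m * c)`);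
such `z` exist: `z = 1/L`, `L` a prime number which does not divide `3 NI m NI c` (if `z ∈ Lam (sN 3 * m * c)` then `toC x / L ∈ toC O` for `x = 3 NI m NI c ∈ sN 3 * m * c` (`NI a ∈ a`: `S_O3`), so `L ∣ x`). (1) `C_(sp γ * b) = C_b` for `γ ≠ 0`: if `R` is `IsSys (sN 3) (sp γ * b)` then the image of `R` under `toC γ * ·` is `IsSys (sN 3) b`, and
`Theta m (sp γ * b) (z + v) = Theta m b (γ z + γ v)`; the right sides are `C Theta m b (3 γ z)`, `Theta m (sp γ * b) (3 z) = Theta m b (3 γ z)`. (2) `τ C_b = C_(a * b)` if `τ ∈ GK`, `Psi τ n a`, where `L` is a prime number not dividing `3 NI m NI b`, `n = sN 3 * m * sN L`; for `R` `IsSys (sN 3) b` (`S_L3`) and `z = 1/L`: `z + v`, `3 z ∈ Lam (n * b)`,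
so by `S_E10` (last; `n ≤ m`) `∏_v Theta m (a * b) (z + v) = τ C_b Theta m (a * b) (3 z)`; `R` is `IsSys (sN 3) (a * b)` (`S_L5` with `n := sN 3`, `PrI a (sN 3)`; `S_O6`), `z ∉ Lam (sN 3 * m * (a * b))` (`L ∤ NI a` as `PrI a n`). So `τ C_b = C_(a * b)` by (*). (3) `C_b ∈ Mf`: let `τ ∈ GK`, `Psi τ F a₀`, `HP f a₀` (`F = sN (3 f)`). `S_E1`: `Psi τ (F * n) a`, so
`Psi τ n a`, `Psi τ F a`, `Ray F a₀ a`, `HP f a` (`S_O7`): `Ray F a (sp v)`, `v ≠ 0`: `sp α * a = sp (α' v)`. By (1) and (2) `τ C_b = C_(a * b) = C_(sp α * (a * b)) = C_(sp (α' v) * b) = C_b`. -/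
def S_CT : Prop :=
  S_O3 → S_O6 → S_O7 → S_L3 → S_L5 → S_D7 → S_D8 → S_E1 → S_E10 → C_Mod → C_HNf → C_CT

/-- The norm relation. -/
def C_Two : Prop :=
  ∀ (k t : ℕ) [SqT k t] (f : ℕ) (m : Ideal (OO k t)) (N : ℕ) (T : Finset (OO k t)), FM f m → 1 ≤ N →
    IsRep f N T → ∀ b : Ideal (OO k t), b ≠ ⊥ → PrI b (sN k t (3 * f)) → ∀ T' : Finset (OO k t),
    IsRep f (N + 1) T' → ∀ s ∈ GK k t, ∀ a : Ideal (OO k t), Psi s (sN k t (f * 3 ^ (N + 1))) a →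
      HPN f N a → ¬ HPN f (N + 1) a →
        ∃ c ∈ Mf k t f, c ≠ 0 ∧ uN f (N + 1) m T' b * s (uN f (N + 1) m T' b) *
          s (s (uN f (N + 1) m T' b)) = c ^ 3 * uN f N m T b

/-- (200 lines) **Two**. (Compare `DK/G/Two.lean`.) PROOF. `M' = sN (f 3^(N+1))`. `Ray (sN (f 3^N)) a (sp v)`, `HN f N v`. C_RUp with `n := sN (f 3^N)`, `n' := M'` (`Psi.cop`): `β`, `β - 1 ∈ sN (f 3^N)`, `Ray M' a (sp β * sp v)`. `v' = β v`: `HN f N v'` (C_HNf), `v' ≠ 0`, and not `HN f (N+1) v'` (otherwise `HPN f (N+1) a`).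
`z' = z_(N+1)`, `G t = Theta m b (toC t * z')`, periodic modulo `cnN (N+1)` (`S_D8`, C_Zn (5)). `s (u(b)) = u(a * b) = u(sp v' * b) = ∏_(h ∈ T') G (v' h)` (C_UBb, C_UBa; `u = uN f (N+1) m T'`), `s (s (u(b))) = u(a * (a * b)) = u(sp (v' v') * b) = ∏ G (v' (v' h))`. C_Ex: `E` with `IsRp (cnN (N+1)) (· ∈ cnN N) E`. C_TwR: the left side is
`∏_(h ∈ T) ∏_(e ∈ E) G (h + e)`. C_ZS (`n = 1`, `z0 = 0`): `R = E.image (e ↦ toC e * z')` is `IsSys (sN 3) b` (`Finset.prod_image`). C_CT at `z = toC h * z'`: the inner product is `C Theta m b (3 z) = C Theta m b (toC h * z_N)` (C_Zn (4)); `z ∉ Lam (sN 3 * m * b)`: otherwise `3 z = toC h * z_N ∈ Lam (m * b)`, against C_NQ (`u = -3 z`, `0` is `Qp`).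
So the left side is `C^(card T) u_N(b)`, `card T = 3 j` (C_T3), `c = C^j`. -/
def S_Two : Prop :=
  S_O6 → S_O7 → S_D8 → C_Cop → C_Mod → C_HNf → C_Ex → C_T3 → C_TwR → C_ZS → C_RUp → C_Zn → C_NQ →
    C_UBa → C_UBb → C_CT → C_Two

/-- (30 lines) **G3**: `S_G3`, assembly. -/
def S_G3m : Prop := C_UBa → C_UBb → C_Two → S_G3

/-! ## 6. The element `s` -/

/-- The element `s = s_n`, `n = N - 1`. -/
def C_SN : Prop :=
  ∀ (k t : ℕ) [SqT k t] (f N : ℕ), Fok f → 2 ≤ N →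
    aN k t f N ≠ 0 ∧ PrI (sp (aN k t f N)) (sN k t (3 * f)) ∧ aN k t f N - 1 ∈ sN k t (3 * f) ∧
    ∃ s ∈ GK k t, Psi s (cnN k t f N) (sp (aN k t f N)) ∧ (∀ x ∈ Mf k t f, s x = x) ∧
      ∀ ζ : Om, IsPrimitiveRoot ζ (3 ^ N) → s ζ = ζ * ζ ^ 3 ^ (N - 1)

/-- (100 lines) **SN**. (`DK/G/SN.lean`.) PROOF. `a = 1 + x`, `x = f^2 3^(N-1) (1 - w)^2`, `3 f ∣ x` (`N ≥ 2`). `(1 - w)^2 = ⟨1 - 3 k, t - 2⟩`. `Nm (1 + x) = 1 + (2 x.re + t x.im) + Nm x`; `2 (1 - 3 k) + t (t - 2) = 1` modulo `3` (`t = 1` or `4`), `f^2 = 1` modulo `3`, `Nm x` is divisible by `9^(N-1) * 9` (`Nm (1 - w) = 1 + ...`: `Nm (1 - w) = 1 - t + 3 k`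
is divisible by `3`), `2 (N - 1) + 2 ≥ N`: `3^N ∣ Nm a - (1 + 3^(N-1))`. `S_E7` for `cnN`, `sp a` (`PrI` by C_Cop (4), C_Mod). `s` fixes `Mf`: `Psi s F (sp a)` (`S_E1`, `cnN ≤ F`), `HP f (sp a)` (`a - 1 ∈ F`: `Hf f a` by C_HNf; `S_O7` reflexive), `S_GM`. `Psi s (sN (f 3^N)) (sp a)` (`S_E1`), `s ζ = ζ^(NI (sp a))` (`S_E6`, `ζ^(f 3^N) = 1`),
`NI (sp a) = Nm a` (`S_O2`). -/
def S_SN : Prop := S_O2 → S_O7 → S_E1 → S_E6 → S_E7 → S_GM → C_Cop → C_Mod → C_HNf → C_SN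

/-- The homomorphism `D` on the units. -/
def C_DU : Prop :=
  ∀ (k t : ℕ) [SqT k t] (f : ℕ) (m : Ideal (OO k t)) (N : ℕ) (T : Finset (OO k t)) (P : Ideal ZZ) (σ : ℤ),
    FM f m → 2 ≤ N → IsRep f N T → AbP k t P → Sgn k t f σ →
    ∀ s ∈ GK k t, Psi s (cnN k t f N) (sp (aN k t f N)) →
    ∀ b : Ideal (OO k t), b ≠ ⊥ → PrI b (sN k t (3 * f)) → VP P (Dw s (uN f N m T b)) ∧
      (∀ h ∈ T, VP P (gO m b (toC h * zN k t f N))) ∧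
      TP P (1 - zet 3) (Dw s (uN f N m T b) - (σ : Om) * ((jacobiSym (NI b : ℤ) 3 : ℤ) : Om) *
        ∑ h ∈ T, gO m b (toC h * zN k t f N))

/-- (120 lines) **DU**. (`DK/G/DU.lean`.) PROOF. `l = 1 - zet 3`, `σ' = σ * jacobiSym (NI b) 3` is `± 1` (`NI b` is prime to `3`: `S_O6` (5); `jacobiSym.eq_one_or_neg_one`). `Psi s (sN (f 3^N)) (sp a_N)` (`S_E1`). `s (uN b) = uN (sp a_N * b) = ∏_(h ∈ T) Theta m b (toC (a_N h) * z_N)` (C_UBb, C_UBa (4); C_SN: `a_N ≠ 0`), and by C_T0 (6), (5) (`h - 1 ∈ pp`: C_HNf) and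
`S_D8` (periodicity) the factors are `Theta m b (h z_N + T0)`. C_ThT (for `σ'`; `PrI b (sN 3)`, `PrI (sp h) (sN 3)`, `PrI m (sN 6)`: C_HNf, C_Mod): `Theta m b (h z_N + T0)/Theta m b (h z_N) = 1 + σ' l g_h + 3 r_h`, `g_h = gO m b (h z_N)`, `VP P g_h` (C_Rdz). The product over `T` is `1 + σ' l ∑ g_h + l^2 r`, `VP P r` (induction; C_Zt). `Dw s u = (s u/u - 1)/l`. -/
def S_DU : Prop := S_O6 → S_D8 → S_E1 → C_Zt → C_Mod → C_HNf → C_SN → C_T0 → C_Rdz → C_ThT → C_UBa → C_UBb → C_DU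

/-! ## 7. The character; Fourier transform -/

/-- Characters of order prime to `3`. -/
def C_Chi : Prop :=
  ∀ (k t : ℕ) [SqT k t] (f : ℕ) (n : Ideal (OO k t)) (χ : Ideal (OO k t) → Om), Fok f → n ≠ ⊥ →
    sN k t (3 * f) ≤ n → IsChi n χ →
    χ ⊤ = 1 ∧ (∀ a : Ideal (OO k t), HP f a → χ a = 1) ∧ (∀ v : OO k t, Hf f v → χ (sp v) = 1) ∧
    (∀ v : OO k t, v ≠ 0 → v - 1 ∈ n → χ (sp v) = 1) ∧ (∀ b : Ideal (OO k t), IsIntegral ℤ (χ b)) ∧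
    (∀ (P : Ideal ZZ) (b : Ideal (OO k t)), Npr P → b ≠ ⊥ → PrI b n → UP P (χ b)) ∧
    ∃ j : ℕ, j.Coprime 3 ∧ ∀ b : Ideal (OO k t), χ b = 0 ∨ χ b ^ j = 1

/-- (100 lines) **Chi**. (`DK/G/Chi.lean`.) PROOF. `χ b ^ j = 1` for `b ≠ ⊥` prime to `n`, `j` prime to `3`; `0` otherwise. `χ ⊤ χ ⊤ = χ ⊤ ≠ 0`. `v - 1 ∈ n`: `Ray n (sp v) ⊤` (by `1` and `v`). `Hf f v`: `3 f ∣ v^(3^i) - 1`, so `χ (sp v)^(3^i) = χ (sp (v^(3^i))) = 1`, and `χ (sp v)^j = 1` (`PrI (sp v) n` by `S_O6` (4)) with `j` prime to `3`: `χ (sp v) = 1`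
(`orderOf` divides both). `HP f a`: `Ray F a (sp v)`, so `Ray n a (sp v)` (`S_O7`), `χ a = χ (sp v)` (`IsChi.ray`). Roots of unity and `0` are integral; roots of unity are units (`UP.of_pow`; `j ≠ 0`). -/
def S_Chi : Prop := S_O6 → S_O7 → C_Mod → C_HNf → C_Chi

/-- From characters modulo `3 f` to characters modulo `cnd`. -/
def C_ChX : Prop :=
  ∀ (k t : ℕ) [SqT k t] (f : ℕ) (χ : Ideal (OO k t) → Om), Fok f → IsChi (sN k t (3 * f)) χ →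
    ∃ (χ' : Ideal (OO k t) → Om) (e : ℤ), (e = 1 ∨ e = -1) ∧ IsChi (cnd k t f) χ' ∧
      ∀ b : Ideal (OO k t), b ≠ ⊥ → PrI b (sN k t (3 * f)) →
        ((3 : ℤ) ∣ (NI b : ℤ) - 1 → χ b = χ' b) ∧ ((3 : ℤ) ∣ (NI b : ℤ) + 1 → χ b = -(e : Om) * χ' b)

/-- (180 lines) **ChX**. PROOF. `F = sN (3 f)`. Let `V` be the set of the `v` with `v - 1 ∈ cnd`, `v ∉ pp`; they are `≠ 0` and prime to `F` (C_Mod, C_Cop). For `v ∈ V`: `v - 1 ∈ pp` or `v + 1 ∈ pp` (C_Cop). If `v - 1 ∈ pp` then `v - 1 ∈ cnd ⊓ pp = F` (`cnd = sN f * ppb` and `pp` are coprime: `Ideal.mul_eq_inf_of_coprime`; `cnd * pp = F`), `χ (sp v) = 1` (C_Chi (4)). If `v, v'` are in `V` and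
`v + 1, v' + 1 ∈ pp` then `v v' - 1 ∈ pp ⊓ cnd`, `χ (sp v) χ (sp v') = 1`; with `v = v'`: `χ (sp v) = ± 1`, and it is the same sign `κ` for all these `v` (take `κ = 1` if there are none). Put `e = -κ` and `J' n = 1` if `3 ∣ n - 1`, `= κ` otherwise; `χ₁ b = χ b * J' (NI b)`. It is multiplicative on ideals prime to `3 f` (`S_O2`; `NI b` is prime to `3`: `S_O6` (5)).
For `v ∈ V`: `χ₁ (sp v) = 1`: `NI (sp v) = Nm v` is `1` modulo `3` iff `v - 1 ∈ pp` (C_Cop (9)), and `κ^2 = 1`. So if `b, b'` are prime to `3 f` and `Ray cnd b' b` then by C_RUp (`n = cnd`, `n' = F`) `Ray F b' (sp β * b)`, `β ∈ V`, and `χ₁ b' = χ₁ (sp β) χ₁ b = χ₁ b` (`NI b' = NI (sp β * b)` modulo `3`: `S_O9`). Define `χ' b = χ₁ b''` for a chosen `b''` prime to `3 f` with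
`Ray cnd b b''` (`S_O8` with `n = cnd`, `M = 3 f`, `C = True`) if `b ≠ ⊥` and `PrI b cnd`, `= 0` otherwise. `zero`, `ray`, `mul` (`a * b` is prime to `cnd` iff both are: `S_O6` (1); `⊥`), `cop`: exponent `2 j`. For `b` prime to `3 f`: `χ' b = χ₁ b = χ b * J' (NI b)`, `κ = -e`. -/
def S_ChX : Prop :=
  S_O2 → S_O4 → S_O6 → S_O7 → S_O8 → S_O9 → C_Cop → C_Mod → C_RUp → C_Chi → C_ChX

/-- Galois action on `etaX`. -/
def C_EtG : Prop :=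
  ∀ (k t : ℕ) [SqT k t] (f : ℕ) (m : Ideal (OO k t)) (R : Finset (Ideal (OO k t)))
    (χ : Ideal (OO k t) → Om), FM f m → IsRC (cnd k t f) R → IsChi (cnd k t f) χ →
    ∀ r : ℚ, r.den.Coprime (NI m) → ∀ τ ∈ GK k t, (∀ x ∈ Mf k t f, τ x = x) →
      (∀ b : Ideal (OO k t), τ (χ b) = χ b) → τ (etaX f m R χ r) = etaX f m R χ r

/-- (80 lines) **EtG**. PROOF. `S_E1`: `Psi τ F a`, `F = sN (3 f)`, so `Psi τ cnd a` (`F ≤ cnd`: C_Mod), `HP f a` (`S_GM`), `χ a = 1` (C_Chi for `n = cnd`), `FB f a`. `S_C8`: `τ (etaM f m b r) = etaM f m (a * b) r`. So `τ (etaX r) = ∑ χ b etaM f m (a * b) r = ∑ G (a * b)`, `G b = χ b * etaM f m b r` (`χ (a * b) = χ b`), `= ∑ G b` by C_R2 (3)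
(`G` is a class function: `S_C6` (1), `IsChi.ray`). `b ∈ R` is `FB f b` by `IsRC.mem`. -/
def S_EtG : Prop := S_E1 → S_C6 → S_C8 → S_GM → C_Mod → C_R2 → C_Chi → C_EtG

/-- Tamely ramified fields. -/
def C_TamG : Prop :=
  ∀ M : IntermediateField ℚ Om, FiniteDimensional ℚ M → (∀ τ : Gal(Om/ℚ), ∀ x ∈ M, τ x ∈ M) →
    ∀ P : Ideal ZZ, Npr P → MP P 3 →
    (∀ τ ∈ P.inertia Gal(Om/ℚ), τ (zet 3) = zet 3 → ∀ x ∈ M, τ x = x) → Tam P M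

/-- (150 lines) **TamG**. PROOF. Copy `DI/FH/Unr.lean` (theorem `unrG` and its private lemmas) and change it: `w` is the prime `P ∩ 𝓞 M`, `I` its inertia group in `Gal(M/ℚ)`. CLAIM: `Nat.card I ≤ 2` (and `≥ 1`). For `σ ∈ I` there is `τ ∈ P.inertia` which agrees with `σ` on `M` (`tEIne`, as in that file). If `σ₁, σ₂, σ₃` are three different elements with
lifts `τ_i`: `τ_i (zet 3)` is `zet 3` or `(zet 3)^2`, so two of them agree, say `τ₁`, `τ₂`; then `τ₁⁻¹ τ₂ ∈ P.inertia` fixes `zet 3`, so it fixes `M` and `σ₁ = σ₂`. As in `Unr_two` (with `3` for `2`): `w.valuation 3 = exp(-1)^(card I) ≥ exp(-2)`. For `x ∈ M`, `x ≠ 0`, `MP P x`: `w.valuation x < 1`, so `≤ exp(-1)`, `w.valuation (x^2/3) ≤ 1`, `VP P (x^2/3)` (`hVP`). -/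
def S_TamG : Prop := C_Zt → C_TamG

/-- Inertia. -/
def C_Inr : Prop :=
  ∀ (k t : ℕ) [SqT k t] (f : ℕ) (P : Ideal ZZ), Fok f → AbP k t P → ∀ τ ∈ P.inertia Gal(Om/ℚ),
    τ (zet 3) = zet 3 → τ ∈ GK k t ∧ ∀ x ∈ Mf k t f, τ x = x

/-- (120 lines) **Inr**. PROOF. `τ ∈ GK`: `τ (wO)` is a root of `x^2 = t x - 3 k`, so `τ wO = wO` or `t - wO`; `τ wO - wO ∈ M_P` (`VP.inertia`, `wO` is integral); in the second case `t - 2 wO ∈ M_P`, `wO ∈ M_P`, so `t ∈ M_P`; but `t = 1` or `4` is prime to `3`. (`KQ = ℚ(wO)`.) `F = sN (3 f)`. `S_E1`: `Psi τ F a`; `Psi τ cnd a` (C_Mod). `S_E4` (1): `Psi τ cnd ⊤`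
(`PrI cnd pp`: `cnd = sN f * ppb`, `S_O6`, `S_O4`). So `Ray cnd a ⊤` (`S_E1` (2)). C_RUp (`n = cnd`, `n' = F`, `b' = a`, `b = ⊤`): `β - 1 ∈ cnd`, `Ray F a (sp β)`. `Psi τ (sN 3) a` (`S_E1`), so `zet 3 = τ (zet 3) = (zet 3)^(NI a)` (`S_E6`), `3 ∣ NI a - 1` (C_Zt), `NI a = Nm β` modulo `3` (`S_O9`, `S_O2`), so `β - 1 ∈ pp` (C_Cop (9); `cnd ≤ ppb`) and
`β - 1 ∈ pp ⊓ cnd = F` (`pp * cnd = F`, coprime). `Hf f β` (C_HNf (4)), `HP f a`, `S_GM`. -/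
def S_Inr : Prop :=
  S_O2 → S_O4 → S_O6 → S_O7 → S_O9 → S_E1 → S_E4 → S_E6 → S_GM → C_Zt → C_Cop → C_Mod → C_HNf → C_RUp → C_Inr

/-- A field of definition for `η_χ`. -/
def C_ChiF : Prop :=
  ∀ (k t : ℕ) [SqT k t] (f : ℕ) (χ : Ideal (OO k t) → Om) (P : Ideal ZZ), Fok f → IsChi (cnd k t f) χ →
    AbP k t P → ∃ M : IntermediateField ℚ Om, Tam P M ∧ FiniteDimensional ℚ M ∧ Mf k t f ≤ M ∧
      (∀ b : Ideal (OO k t), χ b ∈ M) ∧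
      ∀ x : Om, (∀ τ ∈ GK k t, (∀ y ∈ Mf k t f, τ y = y) → (∀ b : Ideal (OO k t), τ (χ b) = χ b) →
        τ x = x) → x ∈ M

/-- (120 lines) **ChiF**. (`DK/G/ChiF.lean`.) PROOF. `j` prime to `3` with `χ b = 0` or `χ b ^ j = 1` (C_Chi for `n = cnd`); `ξ` a primitive `j`-th root of unity in `Om`; `M = Mf k t f ⊔ ℚ(ξ)`. `χ b ∈ ℚ(ξ)` (a power of `ξ` or `0`). Finite: `S_GM` and `ξ` algebraic. Normal: `S_E9` (3) (`Mf`) and `τ ξ` is a power of `ξ`. Inertia at `P`, `τ (zet 3) = zet 3`: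
C_Inr on `Mf`; `τ ξ = ξ^i` and `ξ^i - ξ ∈ P`; if `ξ^i ≠ ξ` then `1 - ξ^(i-1)` is in `M_P` and `ω = ξ^(i-1) ≠ 1`, `0 = 1 + ω + .. + ω^(j-1) = j` modulo `M_P`, impossible (`j` prime to `3`). So `Tam P M` by C_TamG. Last part: every `τ ∈ M.fixingSubgroup` is in `GK` (`KQ ≤ Mf`: `S_GM`), fixes `Mf` and the `χ b`, so `τ x = x`; by infinite Galois theory
(`InfiniteGalois.fixedField_fixingSubgroup`) `x ∈ M`. -/
def S_ChiF : Prop := S_E9 → S_GM → C_Mod → C_Chi → C_TamG → C_Inr → C_ChiF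

/-- The Fourier transform, first form. -/
def C_Fou1 : Prop :=
  ∀ (k t : ℕ) [SqT k t] (f : ℕ) (m : Ideal (OO k t)) (R : Finset (Ideal (OO k t))) (E : Finset (OO k t))
    (χ : Ideal (OO k t) → Om), FM f m → IsRC (cnd k t f) R → FR f R → ∀ (N : ℕ) (a : ℤ), 1 ≤ N →
    IsRp (cnN k t f N) (fun v => v ∈ cnd k t f) E →
    ∑ c ∈ Finset.range (3 ^ N), zet (3 ^ N) ^ (-((c : ℤ) * a)) * etaX f m R χ ((c : ℚ) / 3 ^ N) =
      SSN f m N R E χ a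

/-- (180 lines) **Fou1**. (Compare `DK/G/Fou1.lean`.) PROOF. `ζ = zet (3^N)`, a primitive `3^N`-th root of unity (C_Zt). `o` with `toC c₀/(3 f) = v0 + toC o` (C_C0), so `z_N = v0/3^N + toC o/3^N`. For `b ∈ R` (`FB f b`, `PrI b (sN 3)`: C_Mod): C_ZS with `N := 0`, `n := N`, `z0 = toC o/3^N` (`3^N z0 ∈ O ⊆ Lam b`; `cnN 0 = cnd`): the image `U` of `E` under
`e ↦ toC o/3^N + toC e * z_N` is `IsSys (sN (3^N)) b`, and the map is injective on `E`. `S_C4` for `n = 3^N` (prime to `NI m`: `FM.prm`, `S_O6` (5)) and `U`: `etaM f m b (c/3^N) = 3^(-N) ∑_(e ∈ E) ζ^(c q_e) gO m b (v0/3^N + u_e)`, where `v0/3^N + u_e = toC (1 + e) * z_N` and `q_e = qN f m b (v0 + 3^N u_e)`,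
`v0 + 3^N u_e = 3^N toC (1 + e) z_N = toC ((1 + e) c₀)/(3 f)`, so `3 f^2 NI m NI b ‖..‖^2 = NI m NI b Nm (1 + e) q0` (`Nm_norm`, `Nm c₀ = 3 q0`), an integer, equal to `q_e`. Multiply by `ζ^(-c a)` and sum over `c < 3^N`: `∑_c ζ^(c (q_e - a)) = 3^N` if `3^N ∣ q_e - a` and `0` otherwise (geometric sum). -/
def S_Fou1 : Prop := S_O6 → S_C4 → C_Zt → C_Mod → C_C0 → C_ZS → C_Fou1

/-- The Fourier transform, second form. -/
def C_Fou2 : Prop :=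
  ∀ (k t : ℕ) [SqT k t] (f : ℕ) (m : Ideal (OO k t)) (R : Finset (Ideal (OO k t))) (E : Finset (OO k t))
    (χ : Ideal (OO k t) → Om), FM f m → IsRC (cnd k t f) R → FR f R → ∀ (N : ℕ) (a e : ℤ), 1 ≤ N →
    IsRp (cnN k t f N) (fun v => v ∈ cnd k t f) E →
    ∑ c ∈ Finset.range (3 ^ N), zet (3 ^ N) ^ (-((c : ℤ) * a)) * etE f m R χ e ((c : ℚ) / 3 ^ N) =
      SSN f m N R E χ a + e * SSN f m N R E χ (-a)

/-- (80 lines) **Fou2**. PROOF. The sum of `ζ^(-c a) etaX (c/3^N)` is `SSN a` (C_Fou1). In the sum of `ζ^(-c a) etaX (-(c/3^N))` replace `c` by `3^N - c` for `1 ≤ c < 3^N` (`c = 0` stays; `Finset.sum_bij`, or sums over `ZMod (3^N)`): `etaX (r + 1) = etaX r` (`S_C6` (2), `b ∈ R` is `FB f b`), `ζ^(3^N) = 1` (C_Zt): it is the sum of `ζ^(c a) etaX (c/3^N)`, `= SSN (-a)`. -/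
def S_Fou2 : Prop := S_C6 → C_Zt → C_Fou1 → C_Fou2

/-- The values of `etE` at `c/3^j`. -/
def C_Ete : Prop :=
  ∀ (k t : ℕ) [SqT k t] (f : ℕ) (m : Ideal (OO k t)) (R : Finset (Ideal (OO k t)))
    (χ : Ideal (OO k t) → Om) (P : Ideal ZZ), FM f m → IsRC (cnd k t f) R → FR f R →
    IsChi (cnd k t f) χ → AbP k t P → UP P (χ (pp k t)) ∧
    ∀ e : ℤ, (∀ (r : ℚ) (n : ℤ), etE f m R χ e (r + n) = etE f m R χ e r) ∧
      ∀ (c : ℤ) (j : ℕ), VP P (etE f m R χ e (c / 3 ^ j)) ∧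
        MP P (∑ i ∈ Finset.range 3, etE f m R χ e (((c / 3 ^ j : ℚ) + i) / 3) -
          χ (pp k t) * etE f m R χ e (c / 3 ^ j))

/-- (120 lines) **Ete**. PROOF. `M = lev f m R = Dk f^2 (NI m ∏ NI b)^3 > 0` is prime to `3` (`Dk = 12 k - t^2`, `t = 1` or `4`; `S_O6` (5); `FM`, `FR`), so `IsLv f m R M`; the denominator of `c/3^j` is a power of `3`, so it is prime to `M`. `S_V` (1), (2), (4) for `r = c/3^j` and for `-r`: the period by induction on `n : ℤ`. For `-r`: `-((r + i)/3) = (-r + (3 - i))/3 - 1`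
for `i = 1, 2` (and `i = 0`: `(-r + 0)/3`), so `∑_i etaX (-((r + i)/3)) = ∑_i etaX ((-r + i)/3)` (write out the three terms). `χ (pp)`: `PrI (pp) cnd` (`S_O4`, `S_O6`, C_Mod), C_Chi. -/
def S_Ete : Prop := S_O2 → S_O4 → S_O6 → S_V → C_Mod → C_Chi → C_Ete

/-- The quadratic character of `K`. -/
def C_Eps : Prop :=
  ∀ (k t : ℕ) [SqT k t] (M : ℕ), 0 < M → 4 ∣ M → 4 * Dk k t ∣ M →
    (∀ d : ℤ, IsCoprime d M → eps k t d = 1 ∨ eps k t d = -1) ∧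
    (∀ d d' : ℤ, IsCoprime d M → IsCoprime d' M → eps k t (d * d') = eps k t d * eps k t d') ∧
    (∀ d d' : ℤ, IsCoprime d M → (M : ℤ) ∣ d - d' → eps k t d = eps k t d') ∧ eps k t (-1) = -1

/-- (150 lines) **Eps**. PROOF. `eps d = sign d * jacobiSym (-D) |d|`, `D = Dk k t > 0`; `d` is odd and prime to `D`. MULTIPLICATIVE: `Int.sign_mul`, `Int.natAbs_mul`, `jacobiSym.mul_right` (the moduli are nonzero). `± 1`: `jacobiSym.eq_one_or_neg_one`. `eps (-1) = -1`: `jacobiSym _ 1 = 1`. PERIODIC, `d, d' > 0`: `jacobiSym.mod_right'` (`jacobiSym a b = jacobiSym a (b % (4 |a|))` for `b` odd), `4 D ∣ M`.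
`d, d' < 0`: by `eps (-1) = -1` and multiplicativity. `d > 0 > d'`: by the previous cases and multiplicativity it is enough that `eps n = -1` for `n = M - 1` (`n = -1` modulo `M`): `d' = -|d'|`, `d = n |d'|` modulo `M`. `n ≡ 3` modulo `4`. Let `D = 2^i D'`, `D'` odd; `jacobiSym (-1) n = -1` (`jacobiSym.at_neg_one`, `ZMod.χ₄`). If `i ≥ 1` then `8 ∣ 4 D ∣ M`, `n ≡ 7` modulo `8` and
`jacobiSym 2 n = 1` (`jacobiSym.at_two`, `ZMod.χ₈`). `jacobiSym D' n = (-1)^((D'-1)/2 (n-1)/2) jacobiSym n D'` (`jacobiSym.quadratic_reciprocity`), `jacobiSym n D' = jacobiSym (-1) D'` (`jacobiSym.mod_left`, `D' ∣ M`) `= (-1)^((D'-1)/2)`, and `(n-1)/2` is odd: `jacobiSym D' n = 1`. So `eps n = -1`. -/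
def S_Eps : Prop := C_Eps

/-- **Output of G1.** -/
def C_G1 : Prop :=
  ∀ (k t : ℕ) [SqT k t] (f : ℕ) (m : Ideal (OO k t)) (R : Finset (Ideal (OO k t)))
    (χ : Ideal (OO k t) → Om) (P : Ideal ZZ), FM f m → m ≠ ⊤ → IsRC (cnd k t f) R → FR f R →
    IsChi (cnd k t f) χ → AbP k t P → ∀ e : ℤ, (e = 1 ∨ e = -1) →
    ∃ (c : ℤ) (j : ℕ), (∀ n : ℤ, (c / 3 ^ j : ℚ) ≠ n) ∧ ¬ MP P (etE f m R χ e (c / 3 ^ j))

/-- (250 lines) **G1**. (Compare `DK/G/G1b.lean`.) Import `Pool.Agent.Lib.DI.F.VPB` and the final theorem of `DT/V` (helper67: `DT/V/..`, data `DT.V.Sy l M F`, `l = 3`). PROOF. Suppose `MP P (etE (c/3^j))` for all `c/3^j ∉ ℤ`. `M = lev f m R` (`IsLv` as in Ete; `4 Dk ∣ M` as `4 ∣ f`; `M ≥ 2`). `F = V_P/M_P` is the field `F.RF` of `VPB.lean` with the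
reduction `F.red`. `X : DT.V.Sy 3 M F` with `h r = red (etE r)` for `QM M r` (`VP` by `S_V` (1) for `r` and `-r`), `0` otherwise; `α = red (χ pp) ≠ 0` (C_Ete); `ψ` the character of `ZMod (3 M)`: `x ↦ red (eps x.val * jacobiSym x.val 3 * χ (sp (x.val : O)))` for units `x`, `0` for non-units (C_Eps for `3 M`; `jacobiSym` modulo `3`; `χ (sp a) = χ (sp b)` if `3 M ∣ a - b`, as
`sN (3 M) ≤ cnd`: `S_O7`, `IsChi.ray`; multiplicative). `ψ (-1) = 1`: `eps (-1) = -1`, `jacobiSym (-1) 3 = -1`, `χ (sp (-1)) = χ ⊤ = 1`, periodicity. `v1`: `S_V` (3) for `(a, b, c, d)` at `r` and `(a, -b, -c, d)` at `-r`; `v2`: C_Ete or `S_V` (4) for `r` and `-r`; `v3`: `S_V` (2); `van`: the assumption. The main theorem of `DT/V` gives `h (b/d) = h 0` for the matrix of `S_F`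
(for the sign `e`): contradiction (`etE (b/d) - etE 0 = etaX (b/d) + e etaX (-(b/d)) - (1 + e) etaX 0`). -/
def S_G1 : Prop := S_O2 → S_O4 → S_O6 → S_O7 → S_V → S_F → C_Mod → C_Chi → C_Ete → C_Eps → C_G1

/-- Independence of the powers of `ζ` over a tamely ramified field. -/
def C_Uni : Prop :=
  ∀ P : Ideal ZZ, Npr P → MP P 3 → ∀ (M : IntermediateField ℚ Om) (N : ℕ) (ζ : Om), 1 ≤ N →
    IsPrimitiveRoot ζ (3 ^ N) → Tam P M → ∀ A : ℕ → Om, (∀ c, A c ∈ M) → (∀ c, VP P (A c)) →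
    TP P (1 - zet 3) (∑ c ∈ Finset.range (3 ^ (N - 1)), ζ ^ c * A c) →
    ∀ c < 3 ^ (N - 1), MP P (A c)

/-- (150 lines) **Uni**. (Compare `DK/G/Uni.lean`, `DI/G/Uni.lean`.) PROOF. `n = 3^(N-1)`, `l = ζ - 1`, integral. (a) For a primitive `3^(i+1)`-th root of unity `x`, `i ≥ 1`: `UP P ((x - 1)^3/(x^3 - 1))`: `x^3 - 1 = (x - 1)^3 + 3 x (x - 1)`; `MP P (x - 1)` (`(x - 1)^(3^(i+1))` is `x^(3^(i+1)) - 1 = 0` modulo `3`), `(x - 1)^2/3 ∈ M_P`?: instead: `x^3 - 1 = (x - 1)(x ω - 1)(x ω^2 - 1)`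
with `ω` a primitive cube root of unity, `x ω = x^(1 + 3^i j)` a primitive `3^(i+1)`-th root of unity, and for primitive `3^(i+1)`-th roots `x, x'` (each a power of the other) `(x' - 1)/(x - 1)` and its inverse are integral, so units. (b) By induction `UP P (l^n/(ζ^n - 1))`, `ζ^n` is a primitive cube root of unity, and `UP P ((ζ^n - 1)/(1 - zet 3))` (`ζ^n = zet 3` or `(zet 3)^2`). So `l^n = (1 - zet 3) ε`, `ε` a unit; `MP P l`.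
`∑_(c<n) ζ^c A_c = ∑_(j<n) l^j B_j`, `B_j = ∑_(j ≤ c < n) binom(c,j) A_c ∈ M`, `VP P B_j`. CLAIM: `MP P (B_j)` for all `j < n`. Otherwise let `j` be the least index with `¬ MP P (B_j)`. For `i < j`: `VP P (B_i^2/3)` (`Tam`), so `VP P ((B_i/(1 - zet 3))^2)` (C_Zt), `VP P (B_i/(1 - zet 3))` (`VP.of_pow`), `B_i ∈ l^n V_P`. So `∑_(i ≥ j) l^i B_i = l^j (B_j + l (..))` is
`l^j` times a unit and is in `l^n V_P`; as `j < n` this gives `VP P l⁻¹`, contradiction to `MP P l`. Finally `A_c = B_c - ∑_(c < c' < n) binom(c',c) A_(c')`: downward induction on `c`. -/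
def S_Uni : Prop := C_Zt → C_Uni

/-- Nonvanishing of the Fourier transform. -/
def C_SNo : Prop :=
  ∀ (k t : ℕ) [SqT k t] (f : ℕ) (m : Ideal (OO k t)) (R : Finset (Ideal (OO k t)))
    (χ : Ideal (OO k t) → Om) (P : Ideal ZZ), FM f m → m ≠ ⊤ → IsRC (cnd k t f) R → FR f R →
    IsChi (cnd k t f) χ → AbP k t P → ∀ e : ℤ, (e = 1 ∨ e = -1) →
    ∃ N1 : ℕ, 2 ≤ N1 ∧ ∀ N : ℕ, N1 ≤ N → ∀ a : ℤ, ¬ (3 : ℤ) ∣ a →
      ∀ κ ∈ Algebra.adjoin ℤ (Set.range χ),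
      ¬ TP P (1 - zet 3) (∑ c ∈ Finset.range (3 ^ N),
        zet (3 ^ N) ^ (-((c : ℤ) * a)) * etE f m R χ e ((c : ℚ) / 3 ^ N) - κ)

/-- (180 lines) **SNo**. (Compare `DK/G/SNo.lean`.) PROOF. C_G1: `c₁`, `j₁` with `c₁/3^j₁ ∉ ℤ`, `¬ MP P (etE (c₁/3^j₁))`. `N1 = j₁ + 2`. Let `N ≥ N1`, `q = 3^(N-1)`, `l = 1 - zet 3`, `ζ = zet (3^N)^(-a)`, a primitive `3^N`-th root of unity (C_Zt, `3 ∤ a`). `c' = (c₁ 3^(N-1-j₁)) mod q`, `0 < c' < q`, `etE (c'/q) = etE (c₁/3^j₁)` (C_Ete, integer shifts). Let `M` be from C_ChiF and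
`A c = ∑_(i<3) etE ((c/q + i)/3)`, minus `κ` if `c = 0`: `VP P` by C_Ete (`(c/q + i)/3 = (c + q i)/3^N`); `∈ M`: C_EtG for `(c + q i)/3^N` and its negative (the denominators are powers of `3`, prime to `NI m`), `κ ∈ M` (`χ b ∈ M`), `VP P κ` (integral, C_Chi; `Algebra.adjoin` of integral elements). `c < 3^N` is `c = c₂ + q i`, `c₂ < q`, `i < 3` (`Finset.sum_range` by blocks), `ζ^c = ζ^c₂ (ζ^q)^i` and
`ζ^q` is a primitive cube root of unity, so `ζ^c - ζ^c₂ ∈ l V_P`. So the sum in the statement is `∑_(c₂ < q) ζ^c₂ A c₂` modulo `l V_P`. If it were in `l V_P` then C_Uni gives `MP P (A c')`; by C_Ete `MP P (χ(pp) etE (c'/q))`, `χ(pp)` is a unit, so `MP P (etE (c'/q))`, contradiction. -/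
def S_SNo : Prop :=
  S_O6 → C_Zt → C_Mod → C_Chi → C_EtG → C_ChiF → C_Ete → C_Uni → C_G1 → C_SNo

/-! ## 8. Conclusion -/

/-- **Output of G7.** -/
def C_G7 : Prop :=
  ∀ (k t : ℕ) [SqT k t] (f : ℕ) (m : Ideal (OO k t)) (χ : Ideal (OO k t) → Om) (P : Ideal ZZ), FM f m →
    m ≠ ⊤ → IsChi (sN k t (3 * f)) χ → AbP k t P → ∃ N0 : ℕ, 2 ≤ N0 ∧ ∀ N : ℕ, N0 ≤ N →
      ∀ T : Finset (OO k t), IsRep f N T → ∀ D : Finset (Ideal (OO k t)), IsDS f N D → ∀ s ∈ GK k t,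
        Psi s (cnN k t f N) (sp (aN k t f N)) → ∀ κ ∈ Algebra.adjoin ℤ (Set.range χ),
          ¬ TP P (1 - zet 3) (∑ c ∈ D, χ c * Dw s (uN f N m T c) - κ)

/-- (200 lines) **G7**. (Compare `DK/G/G7.lean`.) PROOF. `R` from C_R2 (1); `χ'`, `e` from C_ChX; `σ` from C_Sg; `N0 = N1` from C_SNo (for `χ'`, `e`); `a = q0 * NI m` (prime to `3`: C_C0, `FM`). `E` from C_Ex (`cnN N`, `· ∈ cnd`). All congruences modulo `l V_P`, `l = 1 - zet 3`. `J b = jacobiSym (NI b) 3`, which is `1` (`-1`) if `3 ∣ NI b - 1` (`3 ∣ NI b + 1`). Let `G b = χ b * J b * gO m b z_N`.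
By C_DU `∑_c χ c Dw s (uN c) = σ ∑_c χ c J c ∑_h gO m c (toC h * z_N)`, and `gO m c (toC h * z_N) = gO m (sp h * c) z_N` (C_Hg, `h - 1 ∈ ppb`, `h ≠ 0`: C_HNf), `χ (sp h * c) = χ c` (C_Chi), `J (sp h * c) = J c` (`S_O2`, `3 ∣ Nm h - 1`): it is `σ ∑_c ∑_h G (sp h * c)`. `G` is a class function modulo `cnN`: C_RayF for `gO m` and `z_N ∈ Lam cnN` (C_Hg, C_Zn), `IsChi.ray` with
`cnN ≤ sN (3 f)`, `S_O9` for `J`. C_RS: `= σ ∑_b ∑_e' [Pm N (NI b Nm (1+e')) 1] G (sp (1+e') * b)`. For such a term: `gO m (sp (1+e') * b) z_N = gO m b (toC (1+e') z_N)` (`e' ∈ cnd ≤ ppb`, C_Hg), `χ' (sp (1+e') * b) = χ' b` (C_Chi (4) for `cnd`), `x = sp (1+e') * b` has `NI x = NI b Nm (1+e') = ± 1` modulo `3^N`, so (`N ≥ 1`) `χ x J x = χ' x` in the case `+`, `= -e χ' x * (-1) = e χ' x` in the case `-`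
(C_ChX). The condition `NI b Nm (1+e') = 1` modulo `3^N` is equivalent to `3^N ∣ q0 NI m NI b Nm (1+e') - a`, and `= -1` to `3^N ∣ q0 NI m NI b Nm (1+e') + a` (`a` prime to `3`); they exclude each other. So the sum is `σ (SSN a + e SSN (-a))` (for `χ'`), by C_Fou2 `σ` times the sum of C_SNo. As `χ b = 0` or `± χ' b` (`χ b = 0` if `b` is not prime to `3 f`), `κ ∈ adjoin ℤ (range χ')`
(`Algebra.adjoin_le`), `σ κ` too (`σ = ± 1`): if `∑ χ c Dw - κ ∈ l V_P` then (multiply by `σ`) C_SNo gives a contradiction. -/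
def S_G7 : Prop :=
  S_O2 → S_O6 → S_O7 → S_O9 → C_Zt → C_Cop → C_Mod → C_C0 → C_HNf → C_Ex → C_R2 → C_RS → C_Hg → C_RayF →
    C_Zn → C_Sg → C_DU → C_Chi → C_ChX → C_Fou2 → C_SNo → C_G7

end Pool.Agent.DT.G
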