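import Pool.Agent.Lib.DT.G.Spec
import Pool.Agent.Lib.FW.E.Ine

/-!
# Theorem DT, part G, module TamG (helper41; edit of DI/FH/Unr by helper67)

Tamely ramified fields at `3`.
-/

set_option autoImplicit false

open scoped Pointwise NumberField WithZero

open IsDedekindDomain

noncomputable section

namespace Pool.Agent.DT.G

open Pool.Agent.MuZ Pool.Agent.FW Pool.Agent.DT
open Pool.Agent.DI (io ofC io_inj exists_io io_ofC ofC_io VP MP UP TP ex)

/-- The valuation of `3`. -/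
private theorem TamG_three (L : Type) [Field L] [NumberField L] [IsGalois ℚ L]
    (w : HeightOneSpectrum (𝓞 L)) (h3' : (3 : 𝓞 L) ∈ w.asIdeal) :
    w.valuation L (3 : L) = WithZero.exp (-1 : ℤ) ^ Nat.card (w.asIdeal.inertia Gal(L/ℚ)) := by
  have hp3 : Prime (3 : ℤ) := Int.prime_three
  have h30 : (3 : ℤ) ≠ 0 := three_ne_zero
  have hv : Ideal.span {(3 : ℤ)} ≠ ⊥ := by
    rw [Ne, Ideal.span_singleton_eq_bot]
    exact h30
  let v : HeightOneSpectrum ℤ :=
    ⟨Ideal.span {3}, (Ideal.span_singleton_prime h30).2 hp3, hv⟩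
  have hwP : w.asIdeal.IsPrime := w.isPrime
  have hvP : v.asIdeal.IsPrime := v.isPrime
  have hlies : w.asIdeal.LiesOver v.asIdeal := by
    refine (Ideal.liesOver_span_iff hwP.ne_top hp3).2 ?_
    rw [map_ofNat]
    exact h3'
  have hgg : IsGaloisGroup Gal(L/ℚ) ℤ (𝓞 L) := IsGaloisGroup.of_isFractionRing Gal(L/ℚ) ℤ (𝓞 L) ℚ L
  have h3 : Nat.card (w.asIdeal.inertia Gal(L/ℚ)) = Ideal.ramificationIdxIn v.asIdeal (𝓞 L) :=
    Ideal.card_inertia_eq_ramificationIdxIn v.asIdeal w.asIdeal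
  have h4 := Ideal.ramificationIdxIn_eq_ramificationIdx v.asIdeal w.asIdeal Gal(L/ℚ)
  have h5 : v.asIdeal.ramificationIdx' w.asIdeal = w.asIdeal.ramificationIdx ℤ :=
    Ideal.ramificationIdx'_eq_ramificationIdx v.asIdeal w.asIdeal v.ne_bot
  have h6 := HeightOneSpectrum.intValuation_liesOver v w (3 : ℤ)
  have h9 : algebraMap ℤ (𝓞 L) 3 = 3 := map_ofNat _ 3
  rw [h5, ← h4, ← h3, HeightOneSpectrum.intValuation_singleton v h30 rfl, h9] at h6
  have h7 := HeightOneSpectrum.valuation_of_algebraMap (K := L) w (3 : 𝓞 L)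
  have h8 : (3 : L) = algebraMap (𝓞 L) L (3 : 𝓞 L) := (map_ofNat _ 3).symm
  rw [h8, h7, h6]

private theorem TamG_exp {a : ℤᵐ⁰} (h0 : a ≠ 0) (h : a < 1) : a ≤ WithZero.exp (-1 : ℤ) := by
  rw [← WithZero.exp_log h0] at h ⊢
  rw [← WithZero.exp_zero, WithZero.exp_lt_exp] at h
  rw [WithZero.exp_le_exp]
  omega

private theorem TamG_zet (hZ : IsPrimitiveRoot (zet 3) 3) (τ : Gal(Om/ℚ)) :
    τ (zet 3) = zet 3 ∨ τ (zet 3) = zet 3 ^ 2 := by
  have h1 : τ (zet 3) ^ 3 = 1 := by rw [← map_pow, hZ.pow_eq_one, map_one]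
  obtain ⟨i, hi, h2⟩ := hZ.eq_pow_of_pow_eq_one h1
  have h3 : i ≠ 0 := by
    rintro rfl
    rw [pow_zero] at h2
    have h4 : zet 3 = 1 := by
      apply τ.injective
      rw [← h2, map_one]
    exact hZ.ne_one (by norm_num) h4
  have h5 : i = 1 ∨ i = 2 := by omega
  rcases h5 with rfl | rfl
  · left
    rw [← h2, pow_one]
  · right
    exact h2.symm

theorem tTamG : S_TamG := by
  intro hZt M hfd hM P hNP h3P hI x hxL hxM
  have hζ : IsPrimitiveRoot (zet 3) 3 := hZt.1 3 (by norm_num)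
  have hP : P.IsPrime := hNP.1
  by_cases hx0 : x = 0
  · rw [hx0, zero_pow two_ne_zero, zero_div]
    exact DI.VP.zero
  have hNF : NumberField M := NumberField.mk
  have hN0 : @Normal ℚ M _ _ (IntermediateField.algebra' M) := by
    rw [IntermediateField.normal_iff_forall_map_le']
    rintro σ _ ⟨y, hy, rfl⟩
    exact hM σ y hy
  have hN : Normal ℚ M := by
    convert hN0
    exact Subsingleton.elim _ _
  have hG : IsGalois ℚ M := ⟨⟩
  -- the prime `w`
  have h3Z : (3 : ZZ) ∈ P := by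
    have h1 := (DI.MP.nat_iff (P := P) 3).1 (by exact_mod_cast h3P)
    exact_mod_cast h1
  have hwp : (P.comap (iO M)).IsPrime := Ideal.comap_isPrime _ _
  have h3w : (3 : 𝓞 M) ∈ P.comap (iO M) := by
    rw [Ideal.mem_comap, map_ofNat]
    exact h3Z
  have hwb : P.comap (iO M) ≠ ⊥ := by
    intro h
    rw [h, Ideal.mem_bot] at h3w
    have h30 : (3 : M) = 0 := by
      have h1 := congrArg (algebraMap (𝓞 M) M) h3w
      rwa [map_ofNat, map_zero] at h1
    exact three_ne_zero h30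
  let w : HeightOneSpectrum (𝓞 M) := ⟨P.comap (iO M), hwp, hwb⟩
  -- lifting of inertia elements
  have hlift : ∀ σ : Gal(M/ℚ), (∀ y : 𝓞 M, σ • y - y ∈ w.asIdeal) →
      ∃ τ ∈ P.inertia Gal(Om/ℚ), ∀ z : M, τ (z : Om) = ((σ z : M) : Om) := by
    intro σ hσ
    let σ' : Gal(Om/ℚ) := σ.liftNormal Om
    have hσ' : ∀ z : M, σ' (z : Om) = ((σ z : M) : Om) := fun z =>
      σ.liftNormal_commutes Om z
    obtain ⟨τ, hτ, hτL⟩ := tEIne M P hP σ' (by
      intro y hy
      have hyi : IsIntegral ℤ (⟨(y : Om), hy⟩ : M) := by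
        have h1 : IsIntegral ℤ (y : Om) := y.2
        exact (isIntegral_algHom_iff ((algebraMap M Om).toIntAlgHom)
          (algebraMap M Om).injective).1 h1
      let z : 𝓞 M := ⟨⟨(y : Om), hy⟩, hyi⟩
      have h3 : iO M (σ • z - z) = σ' • y - y := by
        apply Subtype.ext
        rw [map_sub]
        change ((iO M (σ • z) : ZZ) : Om) - ((iO M z : ZZ) : Om) = σ' (y : Om) - (y : Om)
        rw [show (y : Om) = (((⟨(y : Om), hy⟩ : M)) : Om) from rfl, hσ']
        rfl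
      rw [← h3]
      exact hσ z)
    refine ⟨τ, hτ, fun z => ?_⟩
    rw [hτL z z.2, hσ' z]
  -- the inertia group has at most two elements
  have hcard : Nat.card (w.asIdeal.inertia Gal(M/ℚ)) ≤ 2 := by
    classical
    choose τ hτ hτM using fun σ : w.asIdeal.inertia Gal(M/ℚ) => hlift σ.1 σ.2
    have hinj : Function.Injective (fun σ : w.asIdeal.inertia Gal(M/ℚ) =>
        decide (τ σ (zet 3) = zet 3)) := by
      intro σ₁ σ₂ h
      have h1 : τ σ₁ (zet 3) = τ σ₂ (zet 3) := by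
        have h2 : (τ σ₁ (zet 3) = zet 3) ↔ (τ σ₂ (zet 3) = zet 3) := decide_eq_decide.1 h
        rcases TamG_zet hζ (τ σ₁) with h3 | h3
        · rw [h3, h2.1 h3]
        · rcases TamG_zet hζ (τ σ₂) with h4 | h4
          · rw [h4, h2.2 h4]
          · rw [h3, h4]
      have h5 : (τ σ₁)⁻¹ * τ σ₂ ∈ P.inertia Gal(Om/ℚ) :=
        mul_mem (inv_mem (hτ σ₁)) (hτ σ₂)
      have h6 : ((τ σ₁)⁻¹ * τ σ₂) (zet 3) = zet 3 := by
        change (τ σ₁)⁻¹ (τ σ₂ (zet 3)) = zet 3
        rw [← h1]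
        exact (τ σ₁).symm_apply_apply _
      apply Subtype.ext
      apply AlgEquiv.ext
      intro z
      apply Subtype.ext
      have h7 := hI _ h5 h6 (z : Om) z.2
      rw [← hτM σ₁ z, ← hτM σ₂ z]
      have h8 : (τ σ₁)⁻¹ (τ σ₂ (z : Om)) = (z : Om) := h7
      have h9 := congrArg (τ σ₁) h8
      rw [← h9]
      exact (τ σ₁).apply_symm_apply _
    have h := Nat.card_le_card_of_injective _ hinj
    rwa [Nat.card_eq_fintype_card (α := Bool), Fintype.card_bool] at h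
  have hw3 : w.valuation M (3 : M) = WithZero.exp (-1 : ℤ) ^ Nat.card (w.asIdeal.inertia Gal(M/ℚ)) :=
    TamG_three M w h3w
  have hfrac : ∀ (z : M) (a d : 𝓞 M),
      z * algebraMap (𝓞 M) M d = algebraMap (𝓞 M) M a →
      ((z : M) : Om) * ((iO M d : ZZ) : Om) = ((iO M a : ZZ) : Om) := by
    intro z a d h
    exact congrArg (fun t : M => (t : Om)) h
  have hVP : ∀ z : M, w.valuation M z ≤ 1 → VP P (z : Om) := by
    intro z hz
    obtain ⟨a, d, hd⟩ := w.exists_primeCompl_mul_eq_of_integer z hz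
    exact ⟨iO M a, iO M d, fun h => d.2 h, hfrac z a d hd⟩
  set y : M := ⟨x, hxL⟩ with hy
  have hy0 : y ≠ 0 := fun h => hx0 (congrArg Subtype.val h)
  have hv0 : w.valuation M y ≠ 0 := (Valuation.ne_zero_iff _).2 hy0
  have h1 : w.valuation M y < 1 := by
    by_contra hcon
    rw [not_lt] at hcon
    have h3 : w.valuation M y⁻¹ ≤ 1 := by
      rw [map_inv₀]
      exact inv_le_one_of_one_le₀ hcon
    have h4 : VP P x⁻¹ := hVP y⁻¹ h3
    have h5 := DI.MP.mul_left h4 hxM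
    rw [inv_mul_cancel₀ hx0] at h5
    exact DI.MP.one_not h5
  have h3 := TamG_exp hv0 h1
  have h4 : w.valuation M (y ^ 2 / 3) ≤ 1 := by
    rw [map_div₀, map_pow, hw3]
    refine div_le_one_of_le₀ ?_ bot_le
    calc w.valuation M y ^ 2 ≤ WithZero.exp (-1 : ℤ) ^ 2 := pow_le_pow_left₀ bot_le h3 2
      _ ≤ WithZero.exp (-1 : ℤ) ^ Nat.card (w.asIdeal.inertia Gal(M/ℚ)) := by
        refine pow_le_pow_of_le_one bot_le ?_ hcard
        rw [← WithZero.exp_zero, WithZero.exp_le_exp]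
        norm_num
  have h5 := hVP (y ^ 2 / 3) h4
  exact h5

end Pool.Agent.DT.G
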